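import Pool.Agent.Helper669.Forcing

/-!
# The combinatorial statement and its forcing version

`SmallCDH I` says, about the universe, that there is a family `x` of subsets of `ℕ` (elements of
the Cantor set), indexed by `I`, such that `I` cannot be mapped onto the power set of `ℕ` and the
set of all `x i` is, as a subspace of the Cantor set, dense, Baire and countable dense homogeneous
(with isometries). `SmallCDHN P I` is its literal translation into the forcing language of `P`.
-/

set_option autoImplicit false

namespace Pool.Agent.W915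

open Pool.Agent.Helper669.Forcing

section Ambient

variable {I : Type}

/-- functional relations -/
def IsFunA {X Y : Type} (R : X → Y → Prop) : Prop :=
  (∀ x, ∃ y, R x y) ∧ ∀ x y y', R x y ∧ R x y' → y = y'

/-- injective relations -/
def IsInjA {X Y : Type} (R : X → Y → Prop) : Prop := ∀ x x' y, R x y ∧ R x' y → x = x'

/-- surjective relations -/
def IsOntoA {X Y : Type} (R : X → Y → Prop) : Prop := ∀ y, ∃ x, R x y

/-- `φ` if `b` is true, and `not φ` if `b` is false -/
def Lit (b : Bool) (φ : Prop) : Prop := bif b then φ else ¬ φ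

/-- the point `x i` of the Cantor set extends the finite sequence `s` -/
def ExtA (x : I → ℕ → Prop) (i : I) (s : List Bool) : Prop :=
  ∀ k, k < s.length → Lit (s.getD k false) (x i k)

/-- equivalence -/
def IffA (φ ψ : Prop) : Prop := (φ → ψ) ∧ (ψ → φ)

/-- `x i` and `x j` agree below `n` -/
def AgrA (x : I → ℕ → Prop) (i j : I) (n : ℕ) : Prop := ∀ k, k < n → IffA (x i k) (x j k)

/-- the set of the `x i` with `D i` is dense in the Cantor set -/
def DenseA (x : I → ℕ → Prop) (D : I → Prop) : Prop := ∀ s, ∃ i, D i ∧ ExtA x i s

/-- `D` is contained in the range of a function on the natural numbers -/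
def CtbA (D : I → Prop) : Prop := ∃ e : ℕ → I → Prop, IsFunA e ∧ ∀ i, D i → ∃ n, e n i

/-- no family of subsets of `ℕ` indexed by `I` contains all subsets of `ℕ` -/
def FewA (I : Type) : Prop :=
  ∀ g : I → ℕ → Prop, ∃ y : ℕ → Prop, ∀ i, ∃ n, ¬ IffA (y n) (g i n)

/-- the `x i` are pairwise different -/
def InjA (x : I → ℕ → Prop) : Prop := ∀ i j, i ≠ j → ∃ n, ¬ IffA (x i n) (x j n)

/-- every sequence of dense open subsets of the Cantor set (given by sets `U n` of finite
sequences which contain extensions of all finite sequences) and every basic open set have a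
common point `x i` -/
def BaireA (x : I → ℕ → Prop) : Prop :=
  ∀ U : ℕ → List Bool → Prop, (∀ n s, ∃ t, s <+: t ∧ U n t) →
    ∀ s, ∃ i, ExtA x i s ∧ ∀ n, ∃ t, U n t ∧ ExtA x i t

/-- for two countable dense sets `D`, `E` there is an isometry of the set of the `x i` which maps
`D` onto `E` -/
def CDHA (x : I → ℕ → Prop) : Prop :=
  ∀ D E : I → Prop, CtbA D ∧ CtbA E ∧ DenseA x D ∧ DenseA x E →
    ∃ h : I → I → Prop, IsFunA h ∧ IsInjA h ∧ IsOntoA h ∧
      (∀ i j, h i j → IffA (D i) (E j)) ∧
      ∀ i j i' j' n, h i j ∧ h i' j' → IffA (AgrA x i i' n) (AgrA x j j' n)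

/-- the combinatorial statement -/
def SmallCDH (I : Type) : Prop :=
  FewA I ∧ ∃ x : I → ℕ → Prop,
    InjA x ∧ (∀ s, ∃ i, ExtA x i s) ∧ BaireA x ∧ CDHA x

end Ambient

section Names

variable {P : Type} [Preorder P] {I : Type}

/-- forcing version of `Lit` -/
def LitN (b : Bool) (φ : Set P) : Set P := bif b then φ else fnot φ

/-- forcing version of `ExtA` -/
def ExtN (x : I → ℕ → Set P) (i : I) (s : List Bool) : Set P :=
  fall fun k => fall fun _ : k < s.length => LitN (s.getD k false) (meets (x i k))

/-- forcing version of `IffA` -/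
def IffN (φ ψ : Set P) : Set P := fand (fimp φ ψ) (fimp ψ φ)

/-- forcing version of `AgrA` -/
def AgrN (x : I → ℕ → Set P) (i j : I) (n : ℕ) : Set P :=
  fall fun k => fall fun _ : k < n => IffN (meets (x i k)) (meets (x j k))

/-- forcing version of `DenseA` -/
def DenseN (x : I → ℕ → Set P) (D : I → Set P) : Set P :=
  fall fun s => fex fun i => fand (meets (D i)) (ExtN x i s)

/-- forcing version of `CtbA` -/
def CtbN (D : I → Set P) : Set P :=
  fex fun e : ℕ → I → Set P => fand (IsFun e)
    (fall fun i => fimp (meets (D i)) (fex fun n => meets (e n i)))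

/-- forcing version of `FewA` -/
def FewN (P : Type) [Preorder P] (I : Type) : Set P :=
  fall fun g : I → ℕ → Set P => fex fun y : ℕ → Set P =>
    fall fun i => fex fun n => fnot (IffN (meets (y n)) (meets (g i n)))

/-- forcing version of `InjA` -/
def InjN (x : I → ℕ → Set P) : Set P :=
  fall fun i => fall fun j => fall fun _ : i ≠ j =>
    fex fun n => fnot (IffN (meets (x i n)) (meets (x j n)))

/-- forcing version of `BaireA` -/
def BaireN (x : I → ℕ → Set P) : Set P :=
  fall fun U : ℕ → List Bool → Set P =>
    fimp (fall fun n => fall fun s => fex fun t => fand (fground (s <+: t)) (meets (U n t)))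
      (fall fun s => fex fun i => fand (ExtN x i s)
        (fall fun n => fex fun t => fand (meets (U n t)) (ExtN x i t)))

/-- forcing version of `CDHA` -/
def CDHN (x : I → ℕ → Set P) : Set P :=
  fall fun D : I → Set P => fall fun E : I → Set P =>
    fimp (fand (CtbN D) (fand (CtbN E) (fand (DenseN x D) (DenseN x E))))
      (fex fun h : I → I → Set P => fand (IsFun h) (fand (IsInj h) (fand (IsOnto h)
        (fand (fall fun i => fall fun j => fimp (meets (h i j)) (IffN (meets (D i)) (meets (E j))))
          (fall fun i => fall fun j => fall fun i' => fall fun j' => fall fun n =>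
            fimp (fand (meets (h i j)) (meets (h i' j')))
              (IffN (AgrN x i i' n) (AgrN x j j' n)))))))

/-- forcing version of `SmallCDH` -/
def SmallCDHN (P : Type) [Preorder P] (I : Type) : Set P :=
  fand (FewN P I) (fex fun x : I → ℕ → Set P =>
    fand (InjN x) (fand (fall fun s => fex fun i => ExtN x i s) (fand (BaireN x) (CDHN x))))

theorem down_LitN {b : Bool} {φ : Set P} (h : Down φ) : Down (LitN b φ) := by
  cases b
  · exact down_fnot _
  · exact h

theorem down_ExtN (x : I → ℕ → Set P) (i : I) (s : List Bool) : Down (ExtN x i s) :=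
  down_fall fun _ => down_fall fun _ => down_LitN (down_meets _)

theorem down_IffN (φ ψ : Set P) : Down (IffN φ ψ) := down_fand (down_fimp _ _) (down_fimp _ _)

theorem down_AgrN (x : I → ℕ → Set P) (i j : I) (n : ℕ) : Down (AgrN x i j n) :=
  down_fall fun _ => down_fall fun _ => down_IffN _ _

theorem down_DenseN (x : I → ℕ → Set P) (D : I → Set P) : Down (DenseN x D) :=
  down_fall fun _ => down_fex _

theorem down_BaireN (x : I → ℕ → Set P) : Down (BaireN x) := down_fall fun _ => down_fimp _ _

theorem down_CDHN (x : I → ℕ → Set P) : Down (CDHN x) :=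
  down_fall fun _ => down_fall fun _ => down_fimp _ _

theorem down_InjN (x : I → ℕ → Set P) : Down (InjN x) :=
  down_fall fun _ => down_fall fun _ => down_fall fun _ => down_fex _

end Names

end Pool.Agent.W915
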