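import Pool.Agent.W915.Act
import Pool.Agent.W915.Stmt

/-!
# The combinatorial statement gives a small countable dense homogeneous space
-/

set_option autoImplicit false

namespace Pool.Agent.W915

open Classical Cardinal Topology

/-- countable dense homogeneous spaces -/
def IsCDH (X : Type) [TopologicalSpace X] : Prop :=
  ∀ D E : Set X, D.Countable → E.Countable → Dense D → Dense E → ∃ h : X ≃ₜ X, h '' D = E

theorem isOpen_agr (y : Rl) (n : ℕ) : IsOpen {z : Rl | Agr n z y} :=
  PiNat.isOpen_cylinder (fun _ => Bool) y n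

theorem exists_agr {U : Set Rl} (hU : IsOpen U) {y : Rl} (hy : y ∈ U) :
    ∃ n, ∀ z, Agr n z y → z ∈ U := by
  obtain ⟨v, ⟨x, n, rfl⟩, hyv, hv⟩ :=
    (PiNat.isTopologicalBasis_cylinders (fun _ : ℕ => Bool)).exists_subset_of_mem_open hy hU
  refine ⟨n, fun z hz => hv ?_⟩
  intro k hk
  rw [hz k hk]
  exact hyv k hk

theorem exists_agr_sub {X : Set Rl} {U : Set X} (hU : IsOpen U) {y : X} (hy : y ∈ U) :
    ∃ n, ∀ z : X, Agr n z.1 y.1 → z ∈ U := by
  obtain ⟨V, hV, rfl⟩ := isOpen_induced_iff.1 hU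
  obtain ⟨n, hn⟩ := exists_agr hV hy
  exact ⟨n, fun z hz => hn z.1 hz⟩

theorem continuous_of_agr {X : Set Rl} (f : X → X)
    (hf : ∀ n (y z : X), Agr n y.1 z.1 → Agr n (f y).1 (f z).1) : Continuous f := by
  refine continuous_induced_rng.2 (continuous_pi fun k => ?_)
  apply IsLocallyConstant.continuous
  rw [IsLocallyConstant.iff_exists_open]
  intro y
  refine ⟨{z | Agr (k + 1) z.1 y.1}, ?_, Agr.refl _ _, fun z hz => ?_⟩
  · exact (isOpen_agr y.1 (k + 1)).preimage continuous_subtype_val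
  · exact hf (k + 1) z y hz k (Nat.lt_succ_self k)

section

variable {I : Type} {x : I → ℕ → Prop}

/-- the point of the Cantor set -/
noncomputable def xb (x : I → ℕ → Prop) (i : I) : Rl := fun n => decide (x i n)

theorem extA_iff {i : I} {s : List Bool} :
    ExtA x i s ↔ ∀ k < s.length, xb x i k = s.getD k false := by
  unfold ExtA Lit xb
  refine forall_congr' fun k => imp_congr_right fun _ => ?_
  cases h : s.getD k false <;> simp

theorem extA_pre {i : I} {w : Rl} {n : ℕ} : ExtA x i (pre w n) ↔ Agr n (xb x i) w := by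
  rw [extA_iff]
  simp only [length_pre]
  constructor
  · intro h k hk
    rw [h k hk, pre_getD w hk]
  · intro h k hk
    rw [h k hk, pre_getD w hk]

theorem agrA_iff {i j : I} {n : ℕ} : AgrA x i j n ↔ Agr n (xb x i) (xb x j) := by
  unfold AgrA Agr IffA xb
  refine forall_congr' fun k => imp_congr_right fun _ => ?_
  rw [decide_eq_decide]
  exact ⟨fun h => ⟨h.1, h.2⟩, fun h => ⟨h.1, h.2⟩⟩

theorem xb_inj (h : InjA x) : Function.Injective (xb x) := by
  intro i j hij
  by_contra hne
  obtain ⟨n, hn⟩ := h i j hne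
  apply hn
  have := congrFun hij n
  unfold xb at this
  rw [decide_eq_decide] at this
  exact ⟨this.1, this.2⟩

theorem few_card (h : FewA I) : #I < 𝔠 := by
  by_contra hcon
  rw [not_lt] at hcon
  have h1 : #(ℕ → Prop) ≤ #I := by
    have : #(ℕ → Prop) = 𝔠 := by simp
    rw [this]
    exact hcon
  obtain ⟨e⟩ := h1
  have : Nonempty (ℕ → Prop) := ⟨fun _ => True⟩
  have hs := Function.invFun_surjective e.injective
  obtain ⟨y, hy⟩ := h (Function.invFun e)
  obtain ⟨i, hi⟩ := hs y
  obtain ⟨n, hn⟩ := hy i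
  apply hn
  rw [hi]
  exact ⟨id, id⟩

theorem exists_pre_of_list (s : List Bool) : s = pre (fun k => s.getD k false) s.length := by
  apply List.ext_getElem
  · simp
  · intro k h1 h2
    simp [pre, h1]

/-- the dense sets of indices -/
theorem denseA_iff {D : I → Prop} :
    DenseA x D ↔ ∀ (w : Rl) (n : ℕ), ∃ i, D i ∧ Agr n (xb x i) w := by
  constructor
  · intro h w n
    obtain ⟨i, h1, h2⟩ := h (pre w n)
    exact ⟨i, h1, extA_pre.1 h2⟩
  · intro h s
    obtain ⟨i, h1, h2⟩ := h (fun k => s.getD k false) s.length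
    refine ⟨i, h1, ?_⟩
    rw [exists_pre_of_list s]
    exact extA_pre.2 h2

theorem space_of (hinj : InjA x) (hd : ∀ s, ∃ i, ExtA x i s) (hB : BaireA x) (hC : CDHA x) :
    Dense (Set.range (xb x)) ∧ (∀ y : Set.range (xb x), ¬ IsOpen ({y} : Set (Set.range (xb x)))) ∧
      BaireSpace (Set.range (xb x)) ∧ IsCDH (Set.range (xb x)) := by
  have hd' : ∀ (w : Rl) (n : ℕ), ∃ i, Agr n (xb x i) w := by
    intro w n
    obtain ⟨i, h1⟩ := hd (pre w n)
    exact ⟨i, extA_pre.1 h1⟩
  have hdense : ∀ {D : Set (Set.range (xb x))}, Dense D →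
      DenseA x (fun i => (⟨xb x i, i, rfl⟩ : Set.range (xb x)) ∈ D) := by
    intro D hD
    rw [denseA_iff]
    intro w n
    obtain ⟨i, hi⟩ := hd' w n
    obtain ⟨⟨_, j, rfl⟩, h1, h2⟩ := hD.exists_mem_open
      (((isOpen_agr w n).preimage continuous_subtype_val : IsOpen
        {z : Set.range (xb x) | Agr n z.1 w})) ⟨⟨xb x i, i, rfl⟩, hi⟩
    exact ⟨j, h1, h2⟩
  refine ⟨?_, ?_, ?_, ?_⟩
  · rw [dense_iff_inter_open]
    rintro U hU ⟨y, hy⟩
    obtain ⟨n, hn⟩ := exists_agr hU hy
    obtain ⟨i, hi⟩ := hd' y n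
    exact ⟨xb x i, hn _ hi, i, rfl⟩
  · intro y hy
    obtain ⟨n, hn⟩ := exists_agr_sub hy (Set.mem_singleton y)
    obtain ⟨i, hi⟩ := hd' (fun k => if k < n then y.1 k else !(y.1 k)) (n + 1)
    have h1 := hn ⟨xb x i, i, rfl⟩ (fun k hk => by
      have := hi k (hk.trans (Nat.lt_succ_self n))
      simpa [hk] using this)
    have h2 : xb x i = y.1 := congrArg Subtype.val (Set.mem_singleton_iff.1 h1)
    have h3 := hi n (Nat.lt_succ_self n)
    rw [h2] at h3
    simp at h3
  · refine ⟨fun f hf hfd => ?_⟩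
    let U : ℕ → List Bool → Prop := fun n t =>
      ∀ i, ExtA x i t → (⟨xb x i, i, rfl⟩ : Set.range (xb x)) ∈ f n
    have hU : ∀ n s, ∃ t, s <+: t ∧ U n t := by
      intro n s
      obtain ⟨i, hi⟩ := hd s
      rw [exists_pre_of_list s, extA_pre] at hi
      obtain ⟨⟨_, j, rfl⟩, h1, h2⟩ := (hfd n).exists_mem_open
        (((isOpen_agr (fun k => s.getD k false) s.length).preimage continuous_subtype_val : IsOpen
          {z : Set.range (xb x) | Agr s.length z.1 (fun k => s.getD k false)}))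
        ⟨⟨xb x i, i, rfl⟩, hi⟩
      obtain ⟨m, hm⟩ := exists_agr_sub (hf n) h1
      refine ⟨pre (xb x j) (max s.length m), ?_, ?_⟩
      · have h3 : s = pre (xb x j) s.length := by
          conv_lhs => rw [exists_pre_of_list s]
          exact (pre_eq_iff.2 h2).symm
        obtain ⟨l, hl⟩ := Nat.exists_eq_add_of_le (le_max_left s.length m)
        rw [hl]
        conv_lhs => rw [h3]
        unfold pre
        rw [List.range_add, List.map_append]
        exact List.prefix_append _ _
      · intro i' hi'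
        rw [extA_pre] at hi'
        exact hm ⟨xb x i', i', rfl⟩ (hi'.mono (le_max_right _ _))
    rw [dense_iff_inter_open]
    rintro V hV ⟨⟨_, j, rfl⟩, hy⟩
    obtain ⟨n, hn⟩ := exists_agr_sub hV hy
    obtain ⟨i, h1, h2⟩ := hB U hU (pre (xb x j) n)
    refine ⟨⟨xb x i, i, rfl⟩, hn _ (extA_pre.1 h1), Set.mem_iInter.2 fun m => ?_⟩
    obtain ⟨t, ht, ht'⟩ := h2 m
    exact ht i ht'
  · intro D E hDc hEc hD hE
    obtain ⟨i0, _⟩ := hd []
    have hctb : ∀ {D : Set (Set.range (xb x))}, D.Countable →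
        CtbA (fun i => (⟨xb x i, i, rfl⟩ : Set.range (xb x)) ∈ D) := by
      intro D hDc
      have h1 : {i | (⟨xb x i, i, rfl⟩ : Set.range (xb x)) ∈ D}.Countable :=
        hDc.preimage_of_injOn (f := fun i => (⟨xb x i, i, rfl⟩ : Set.range (xb x))) (by
          intro i _ j _ hij
          exact xb_inj hinj (congrArg Subtype.val hij))
      rcases Set.eq_empty_or_nonempty {i | (⟨xb x i, i, rfl⟩ : Set.range (xb x)) ∈ D} with h2 | h2
      · refine ⟨fun _ i => i = i0, ⟨fun _ => ⟨i0, rfl⟩, ?_⟩, fun i hi => ?_⟩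
        · rintro _ i j ⟨rfl, rfl⟩
          rfl
        · have : i ∈ {i | (⟨xb x i, i, rfl⟩ : Set.range (xb x)) ∈ D} := hi
          rw [h2] at this
          exact absurd this (Set.notMem_empty i)
      · obtain ⟨e, he⟩ := h1.exists_eq_range h2
        refine ⟨fun n i => e n = i, ⟨fun n => ⟨e n, rfl⟩, ?_⟩, fun i hi => ?_⟩
        · rintro _ i j ⟨rfl, rfl⟩
          rfl
        · have : i ∈ {i | (⟨xb x i, i, rfl⟩ : Set.range (xb x)) ∈ D} := hi
          rw [he] at this
          exact this
    obtain ⟨h, ⟨hf1, hf2⟩, hinj', honto, hres, hiso⟩ := hC _ _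
      ⟨hctb hDc, hctb hEc, hdense hD, hdense hE⟩
    choose σ hσ using hf1
    choose τ hτ using honto
    have hστ : ∀ j, σ (τ j) = j := fun j => hf2 _ _ _ ⟨hσ _, hτ j⟩
    have hτσ : ∀ i, τ (σ i) = i := fun i => hinj' _ _ _ ⟨hτ _, hσ i⟩
    choose ix hix using fun y : Set.range (xb x) => y.2
    let mk : I → Set.range (xb x) := fun i => ⟨xb x i, Set.mem_range_self i⟩
    have hixx : ∀ i, ix (mk i) = i := by
      intro i
      apply xb_inj hinj
      exact hix _
    have hmk : ∀ y, mk (ix y) = y := fun y => Subtype.ext (hix y)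
    have hagr : ∀ i i' n, Agr n (xb x i) (xb x i') ↔ Agr n (xb x (σ i)) (xb x (σ i')) := by
      intro i i' n
      have := hiso i (σ i) i' (σ i') n ⟨hσ i, hσ i'⟩
      rw [← agrA_iff, ← agrA_iff]
      exact ⟨this.1, this.2⟩
    let H : Set.range (xb x) ≃ₜ Set.range (xb x) :=
      { toFun := fun y => mk (σ (ix y))
        invFun := fun y => mk (τ (ix y))
        left_inv := by
          intro y
          show mk (τ (ix (mk (σ (ix y))))) = y
          rw [hixx, hτσ, hmk]
        right_inv := by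
          intro y
          show mk (σ (ix (mk (τ (ix y))))) = y
          rw [hixx, hστ, hmk]
        continuous_toFun := by
          apply continuous_of_agr
          intro n y z hyz
          show Agr n (xb x (σ (ix y))) (xb x (σ (ix z)))
          rw [← hagr, hix, hix]
          exact hyz
        continuous_invFun := by
          apply continuous_of_agr
          intro n y z hyz
          show Agr n (xb x (τ (ix y))) (xb x (τ (ix z)))
          rw [hagr, hστ, hστ, hix, hix]
          exact hyz }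
    have hHi : ∀ i, H (mk i) = mk (σ i) := by
      intro i
      show mk (σ (ix (mk i))) = _
      rw [hixx]
    refine ⟨H, ?_⟩
    ext y
    constructor
    · rintro ⟨z, hiD, rfl⟩
      rw [← hmk z] at hiD ⊢
      rw [hHi]
      exact (hres (ix z) (σ (ix z)) (hσ _)).1 hiD
    · intro hyE
      refine ⟨mk (τ (ix y)), (hres (τ (ix y)) (ix y) (hτ _)).2 ?_, ?_⟩
      · show mk (ix y) ∈ E
        rw [hmk]
        exact hyE
      · rw [hHi, hστ, hmk]

end

/-- The combinatorial statement gives a small crowded Baire countable dense homogeneous space. -/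
theorem exists_space {I : Type} (h : SmallCDH I) :
    ∃ X : Set (ℕ → Bool), Dense X ∧ (∀ y : X, ¬ IsOpen ({y} : Set X)) ∧ BaireSpace X ∧ IsCDH X ∧
      #X < 𝔠 := by
  obtain ⟨hF, x, h1, h2, h3, h4⟩ := h
  obtain ⟨h5, h6, h7, h8⟩ := space_of h1 h2 h3 h4
  refine ⟨Set.range (xb x), h5, h6, h7, h8, ?_⟩
  exact mk_range_le.trans_lt (few_card hF)

end Pool.Agent.W915
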