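import Mathlib
import Pool.Agent.H964R4.SepR

/-!
# High powers of pairwise non-proportional polynomials in one variable are linearly independent
over polynomials of small degree
-/

set_option autoImplicit false

namespace Pool.Agent.W915.HP

open Polynomial Pool.Agent.H964R4

variable {K : Type*} [Field K]

/-- A finite family of nonzero polynomials, factored over a common finite family of pairwise coprime
polynomials of positive degree. -/
lemma exists_factor {ι : Type*} (t : Finset ι) (G : ι → K[X]) (hG : ∀ i ∈ t, G i ≠ 0) :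
    ∃ (p : ℕ) (g : Fin p → K[X]) (v : ι → Fin p → ℕ) (u : ι → K),
      (∀ j, g j ≠ 0 ∧ 1 ≤ (g j).natDegree) ∧ (∀ j j', j ≠ j' → IsCoprime (g j) (g j')) ∧
      ∀ i ∈ t, u i ≠ 0 ∧ G i = C (u i) * ∏ j, g j ^ v i j := by
  classical
  have hP : (∏ i ∈ t, G i) ≠ 0 := Finset.prod_ne_zero_iff.2 hG
  set S : Finset K[X] := (UniqueFactorizationMonoid.normalizedFactors (∏ i ∈ t, G i)).toFinset
    with hS
  have hirr : ∀ q ∈ S, Irreducible q := fun q hq =>
    UniqueFactorizationMonoid.irreducible_of_normalized_factor q (Multiset.mem_toFinset.1 hq)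
  have hnorm : ∀ q ∈ S, normalize q = q := fun q hq =>
    UniqueFactorizationMonoid.normalize_normalized_factor q (Multiset.mem_toFinset.1 hq)
  let g : Fin S.card → K[X] := fun j => (S.equivFin.symm j : K[X])
  have hgS : ∀ j, g j ∈ S := fun j => (S.equivFin.symm j).2
  refine ⟨S.card, g, fun i j => (UniqueFactorizationMonoid.normalizedFactors (G i)).count (g j),
    fun i => (G i).leadingCoeff, ?_, ?_, ?_⟩
  · intro j
    exact ⟨(hirr _ (hgS j)).ne_zero, (hirr _ (hgS j)).natDegree_pos⟩
  · intro j j' hjj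
    rw [(hirr _ (hgS j)).coprime_iff_not_dvd]
    intro hdvd
    have h1 : Associated (g j) (g j') :=
      (hirr _ (hgS j)).associated_of_dvd (hirr _ (hgS j')) hdvd
    have h2 : g j = g j' := by
      have h3 := normalize_eq_normalize_iff.2 ⟨h1.dvd, h1.symm.dvd⟩
      rwa [hnorm _ (hgS j), hnorm _ (hgS j')] at h3
    exact hjj (S.equivFin.symm.injective (Subtype.ext h2))
  · intro i hi
    refine ⟨leadingCoeff_ne_zero.2 (hG i hi), ?_⟩
    have h1 : Associated (UniqueFactorizationMonoid.normalizedFactors (G i)).prod (G i) :=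
      UniqueFactorizationMonoid.prod_normalizedFactors (hG i hi)
    have h2 : (UniqueFactorizationMonoid.normalizedFactors (G i)).prod =
        ∏ j, g j ^ (UniqueFactorizationMonoid.normalizedFactors (G i)).count (g j) := by
      have hsub : (UniqueFactorizationMonoid.normalizedFactors (G i)).toFinset ⊆ S := by
        intro q hq
        rw [Multiset.mem_toFinset] at hq ⊢
        have h3 : G i ∣ ∏ i ∈ t, G i := Finset.dvd_prod_of_mem _ hi
        have h4 := (UniqueFactorizationMonoid.dvd_iff_normalizedFactors_le_normalizedFactors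
          (hG i hi) hP).1 h3
        exact Multiset.mem_of_le h4 hq
      rw [Finset.prod_multiset_count_of_subset _ S hsub]
      rw [← Finset.prod_coe_sort S, ← Equiv.prod_comp S.equivFin.symm]
    rw [← h2]
    have h5 : (UniqueFactorizationMonoid.normalizedFactors (G i)).prod.Monic := by
      have h := monic_multiset_prod_of_monic
        (UniqueFactorizationMonoid.normalizedFactors (G i)) id (fun q hq => by
          have h6 := UniqueFactorizationMonoid.normalize_normalized_factor q hq
          have h7 : q ≠ 0 :=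
            (UniqueFactorizationMonoid.irreducible_of_normalized_factor q hq).ne_zero
          rw [id, ← h6]
          exact monic_normalize h7)
      rwa [Multiset.map_id] at h
    obtain ⟨w, hw⟩ := h1
    obtain ⟨r, hr, hr2⟩ := Polynomial.isUnit_iff.1 w.isUnit
    have h8 : G i = C r * (UniqueFactorizationMonoid.normalizedFactors (G i)).prod := by
      rw [hr2, mul_comm]
      exact hw.symm
    have h9 : (G i).leadingCoeff = r := by
      conv_lhs => rw [h8]
      rw [leadingCoeff_mul, leadingCoeff_C, h5.leadingCoeff, mul_one]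
    show G i = C ((G i).leadingCoeff) * _
    rw [h9]
    exact h8

variable [CharZero K]

/-- The Newman–Slater theorem with polynomial coefficients: if no `G i` is a constant multiple of
another one, then the `E`-th powers of the `G i` are linearly independent over the polynomials of
degree at most `δ`, for large `E`. -/
theorem ns {ι : Type*} [DecidableEq ι] (t : Finset ι) (ht : t.Nonempty) (R G : ι → K[X])
    (hR : ∀ i ∈ t, R i ≠ 0) (hG : ∀ i ∈ t, G i ≠ 0)
    (hprop : ∀ i ∈ t, ∀ j ∈ t, i ≠ j → ∀ c : K, G i ≠ C c * G j) (δ E : ℕ)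
    (hδ : ∀ i ∈ t, (R i).natDegree ≤ δ) (hE : t.card ^ 3 * (δ + 1) < E) :
    ∑ i ∈ t, R i * G i ^ E ≠ 0 := by
  classical
  intro h
  obtain ⟨p, g, v, u, hg, hco, hfac⟩ := exists_factor t G hG
  let P : Finset ι → Prop := fun s => s.Nonempty ∧ ∃ d : ι → K, (∀ i ∈ s, d i ≠ 0) ∧
    ∑ i ∈ s, C (d i) * (R i * G i ^ E) = 0
  have hPt : t ∈ t.powerset.filter P := by
    rw [Finset.mem_filter, Finset.mem_powerset]
    exact ⟨subset_rfl, ht, fun _ => 1, fun _ _ => one_ne_zero, by simpa using h⟩
  obtain ⟨s, hs, hsmin⟩ := Finset.exists_min_image (t.powerset.filter P) Finset.card ⟨t, hPt⟩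
  rw [Finset.mem_filter, Finset.mem_powerset] at hs
  obtain ⟨hst, hsne, d, hd, hdrel⟩ := hs
  have hmin : ∀ s', s' ⊂ s → ∀ c' : ι → K, ∑ i ∈ s', C (c' i) * (R i * G i ^ E) = 0 →
      ∀ i ∈ s', c' i = 0 := by
    intro s' hs' c' hc' i hi
    by_contra hne'
    have h1 : s'.filter (fun i => c' i ≠ 0) ∈ t.powerset.filter P := by
      rw [Finset.mem_filter, Finset.mem_powerset]
      refine ⟨((Finset.filter_subset _ _).trans hs'.1).trans hst,
        ⟨i, Finset.mem_filter.2 ⟨hi, hne'⟩⟩, c', fun i hi => (Finset.mem_filter.1 hi).2, ?_⟩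
      rw [← hc', Finset.sum_filter]
      refine Finset.sum_congr rfl fun i _ => ?_
      by_cases h0 : c' i = 0
      · simp [h0]
      · simp [h0]
    have h2 := hsmin _ h1
    have h3 := Finset.card_lt_card hs'
    have h4 := Finset.card_le_card (Finset.filter_subset (fun i => c' i ≠ 0) s')
    omega
  -- the minimal exponents
  have hmm : ∀ j, ∃ b ∈ s, ∀ i ∈ s, v b j ≤ v i j := fun j =>
    Finset.exists_min_image s (fun i => v i j) hsne
  choose β hβs hβ using hmm
  set e : ι → Fin p → ℕ := fun i j => E * (v i j - v (β j) j) with he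
  set M : K[X] := ∏ j, g j ^ (E * v (β j) j) with hM
  have hM0 : M ≠ 0 := Finset.prod_ne_zero_iff.2 fun j _ => pow_ne_zero _ (hg j).1
  have hterm : ∀ i ∈ s, R i * G i ^ E = M * (C (u i ^ E) * (R i * ∏ j, g j ^ e i j)) := by
    intro i hi
    have h1 : G i ^ E = C (u i ^ E) * (M * ∏ j, g j ^ e i j) := by
      rw [(hfac i (hst hi)).2, mul_pow, ← C_pow, hM, ← Finset.prod_mul_distrib,
        ← Finset.prod_pow]
      congr 1
      refine Finset.prod_congr rfl fun j _ => ?_
      rw [← pow_add, ← pow_mul, he]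
      congr 1
      show v i j * E = _
      have h2 := hβ j i hi
      rw [← Nat.mul_add, mul_comm]
      congr 1
      omega
    rw [h1]
    ring
  have hu0 : ∀ i ∈ s, u i ^ E ≠ 0 := fun i hi => pow_ne_zero _ (hfac i (hst hi)).1
  have hrel : ∑ i ∈ s, C (d i * u i ^ E) * (R i * ∏ j, g j ^ e i j) = 0 := by
    have h1 : M * ∑ i ∈ s, C (d i * u i ^ E) * (R i * ∏ j, g j ^ e i j) = 0 := by
      rw [← hdrel, Finset.mul_sum]
      refine Finset.sum_congr rfl fun i hi => ?_
      rw [hterm i hi, C_mul]
      ring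
    exact (mul_eq_zero.1 h1).resolve_left hM0
  have hmin' : ∀ s', s' ⊂ s → ∀ c' : ι → K,
      ∑ i ∈ s', C (c' i) * (R i * ∏ j, g j ^ e i j) = 0 → ∀ i ∈ s', c' i = 0 := by
    intro s' hs' c' hc' i hi
    have h1 := hmin s' hs' (fun i => c' i * (u i ^ E)⁻¹) (by
      have h2 : ∑ i ∈ s', C (c' i * (u i ^ E)⁻¹) * (R i * G i ^ E) =
          M * ∑ i ∈ s', C (c' i) * (R i * ∏ j, g j ^ e i j) := by
        rw [Finset.mul_sum]
        refine Finset.sum_congr rfl fun i hi => ?_
        rw [hterm i (hs'.1 hi)]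
        have h3 : C (c' i) = C (c' i * (u i ^ E)⁻¹) * C (u i ^ E) := by
          rw [← C_mul, mul_assoc, inv_mul_cancel₀ (hu0 i (hs'.1 hi)), mul_one]
        rw [h3]
        ring
      rw [h2, hc', mul_zero]) i hi
    exact (mul_eq_zero.1 h1).resolve_right (inv_ne_zero (hu0 i (hs'.1 hi)))
  have hclose := far_auxR R g (fun j => (hg j).1) hco e s (fun i => d i * u i ^ E)
    (fun i hi => mul_ne_zero (hd i hi) (hu0 i hi)) hrel hmin'
  set S : ℕ := ∑ i ∈ s, ∑ j, (g j).natDegree * (v i j - v (β j) j) with hS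
  have hE0 : 0 < E := lt_of_le_of_lt (Nat.zero_le _) hE
  have hrad : (∑ i ∈ s, ∑ j, if e i j = 0 then 0 else (g j).natDegree) ≤ S := by
    refine Finset.sum_le_sum fun i _ => Finset.sum_le_sum fun j _ => ?_
    split_ifs with h0
    · exact Nat.zero_le _
    · refine Nat.le_mul_of_pos_right _ (Nat.pos_of_ne_zero fun h1 => h0 ?_)
      rw [he]
      show E * _ = 0
      rw [h1, mul_zero]
  have hdR : ∑ i ∈ s, (R i).natDegree ≤ s.card * δ := by
    refine (Finset.sum_le_card_nsmul s _ δ fun i hi => hδ i (hst hi)).trans (le_of_eq ?_)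
    rw [smul_eq_mul]
  have hlow : E * S ≤ ∑ a ∈ s, ∑ b ∈ s, ∑ j, (g j).natDegree * (e a j - e b j) := by
    rw [hS, Finset.mul_sum]
    refine Finset.sum_le_sum fun a ha => ?_
    rw [Finset.sum_comm, Finset.mul_sum]
    refine Finset.sum_le_sum fun j _ => ?_
    refine le_trans ?_ (Finset.single_le_sum (f := fun b => (g j).natDegree * (e a j - e b j))
      (fun _ _ => Nat.zero_le _) (hβs j))
    rw [he]
    show E * ((g j).natDegree * (v a j - v (β j) j)) ≤
      (g j).natDegree * (E * (v a j - v (β j) j) - E * (v (β j) j - v (β j) j))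
    rw [Nat.sub_self, mul_zero, Nat.sub_zero]
    exact le_of_eq (by ring)
  have hup : ∑ a ∈ s, ∑ b ∈ s, ∑ j, (g j).natDegree * (e a j - e b j) ≤
      s.card * (s.card * ((s.card - 2) * S + s.card * δ)) := by
    refine (Finset.sum_le_card_nsmul s _ (s.card * ((s.card - 2) * S + s.card * δ))
      fun a ha => ?_).trans (le_of_eq (by rw [smul_eq_mul]))
    refine (Finset.sum_le_card_nsmul s _ ((s.card - 2) * S + s.card * δ)
      fun b hb => ?_).trans (le_of_eq (by rw [smul_eq_mul]))
    exact (hclose a b ha hb).trans (Nat.add_le_add (Nat.mul_le_mul_left _ hrad) hdR)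
  have hcard : s.card ≤ t.card := Finset.card_le_card hst
  by_cases hS0 : S = 0
  · -- all are proportional
    have hv : ∀ i ∈ s, ∀ j, v i j = v (β j) j := by
      intro i hi j
      have h1 := (Finset.sum_eq_zero_iff.1 hS0) i hi
      have h2 := (Finset.sum_eq_zero_iff.1 h1) j (Finset.mem_univ j)
      have h3 := (hg j).2
      have h4 := hβ j i hi
      rcases Nat.mul_eq_zero.1 h2 with h5 | h5 <;> omega
    by_cases h1 : ∃ a ∈ s, ∃ b ∈ s, a ≠ b
    · obtain ⟨a, ha, b, hb, hab⟩ := h1
      refine hprop a (hst ha) b (hst hb) hab (u a * (u b)⁻¹) ?_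
      rw [(hfac a (hst ha)).2, (hfac b (hst hb)).2]
      have h2 : (∏ j, g j ^ v a j) = ∏ j, g j ^ v b j :=
        Finset.prod_congr rfl fun j _ => by rw [hv a ha j, hv b hb j]
      rw [h2, ← mul_assoc, ← C_mul, mul_assoc, inv_mul_cancel₀ (hfac b (hst hb)).1, mul_one]
    · push Not at h1
      obtain ⟨a, ha⟩ := hsne
      have h2 : s = {a} := Finset.eq_singleton_iff_unique_mem.2 ⟨ha, fun b hb => (h1 a ha b hb).symm⟩
      rw [h2, Finset.sum_singleton] at hdrel
      have h3 : C (d a) * (R a * G a ^ E) ≠ 0 :=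
        mul_ne_zero (by simpa using hd a ha) (mul_ne_zero (hR a (hst ha))
          (pow_ne_zero _ (hG a (hst ha))))
      exact h3 hdrel
  · have hS1 : 1 ≤ S := Nat.one_le_iff_ne_zero.2 hS0
    have h1 := hlow.trans hup
    have h2 : s.card * (s.card * ((s.card - 2) * S + s.card * δ)) ≤
        (t.card ^ 3 * (δ + 1)) * S := by
      have h3 : (s.card - 2) * S + s.card * δ ≤ t.card * (δ + 1) * S := by
        calc (s.card - 2) * S + s.card * δ ≤ t.card * S + t.card * δ * S := by
              refine Nat.add_le_add (Nat.mul_le_mul_right _ (by omega)) ?_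
              exact (Nat.mul_le_mul_right _ hcard).trans (Nat.le_mul_of_pos_right _ hS1)
          _ = t.card * (δ + 1) * S := by ring
      calc s.card * (s.card * ((s.card - 2) * S + s.card * δ))
          ≤ t.card * (t.card * (t.card * (δ + 1) * S)) :=
            Nat.mul_le_mul hcard (Nat.mul_le_mul hcard h3)
        _ = (t.card ^ 3 * (δ + 1)) * S := by ring
    have h3 : E * S ≤ (t.card ^ 3 * (δ + 1)) * S := h1.trans h2
    have h4 := Nat.le_of_mul_le_mul_right h3 hS1
    omega

end Pool.Agent.W915.HP
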