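import Mathlib
import Pool.Agent.W915.HP1

/-!
# Huge powers of multiplicatively independent polynomials
-/

set_option autoImplicit false

namespace Pool.Agent.W915.HG

open MvPolynomial

variable {F : Type} [Field F] [CharZero F] {τ : Type}

/-- the field of rational functions in two copies of the variables -/
abbrev Kf (F : Type) [Field F] (τ : Type) : Type := FractionRing (MvPolynomial (τ ⊕ τ) F)

noncomputable def pa (v : τ) : Kf F τ := algebraMap (MvPolynomial (τ ⊕ τ) F) _ (X (Sum.inl v))
noncomputable def pb (v : τ) : Kf F τ := algebraMap (MvPolynomial (τ ⊕ τ) F) _ (X (Sum.inr v))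

/-- the generic line -/
noncomputable def line (F : Type) [Field F] (τ : Type) : MvPolynomial τ F →ₐ[F] Polynomial (Kf F τ) :=
  aeval fun v => Polynomial.C (pa v) + Polynomial.X * Polynomial.C (pb v - pa v)

lemma line_zero (p : MvPolynomial τ F) : Polynomial.eval 0 (line F τ p) =
    algebraMap (MvPolynomial (τ ⊕ τ) F) (Kf F τ) (rename Sum.inl p) := by
  induction p using MvPolynomial.induction_on with
  | C r =>
    rw [line, algHom_C, rename_C]
    show Polynomial.eval 0 (Polynomial.C (algebraMap F (Kf F τ) r)) = _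
    rw [Polynomial.eval_C, IsScalarTower.algebraMap_apply F (MvPolynomial (τ ⊕ τ) F) (Kf F τ)]
    rfl
  | add p q hp hq => rw [map_add, Polynomial.eval_add, hp, hq, map_add, map_add]
  | mul_X p v hp =>
    rw [map_mul, Polynomial.eval_mul, hp, map_mul, map_mul, rename_X]
    congr 1
    rw [line, aeval_X]
    simp [pa]

lemma line_one (p : MvPolynomial τ F) : Polynomial.eval 1 (line F τ p) =
    algebraMap (MvPolynomial (τ ⊕ τ) F) (Kf F τ) (rename Sum.inr p) := by
  induction p using MvPolynomial.induction_on with
  | C r =>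
    rw [line, algHom_C, rename_C]
    show Polynomial.eval 1 (Polynomial.C (algebraMap F (Kf F τ) r)) = _
    rw [Polynomial.eval_C, IsScalarTower.algebraMap_apply F (MvPolynomial (τ ⊕ τ) F) (Kf F τ)]
    rfl
  | add p q hp hq => rw [map_add, Polynomial.eval_add, hp, hq, map_add, map_add]
  | mul_X p v hp =>
    rw [map_mul, Polynomial.eval_mul, hp, map_mul, map_mul, rename_X]
    congr 1
    rw [line, aeval_X]
    simp [pa, pb]

lemma line_ne {p : MvPolynomial τ F} (hp : p ≠ 0) : line F τ p ≠ 0 := by
  intro h
  have h1 := line_zero p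
  rw [h, Polynomial.eval_zero] at h1
  have h2 := (IsFractionRing.injective (MvPolynomial (τ ⊕ τ) F) (Kf F τ))
    (h1.symm.trans (map_zero _).symm)
  exact hp ((rename_injective _ Sum.inl_injective) (h2.trans (map_zero _).symm))

lemma line_prop {p q : MvPolynomial τ F} (hq : q ≠ 0) (c : Kf F τ)
    (h : line F τ p = Polynomial.C c * line F τ q) : ∃ c' : F, p = C c' * q := by
  have h0 := congrArg (Polynomial.eval 0) h
  have h1 := congrArg (Polynomial.eval 1) h
  rw [Polynomial.eval_mul, Polynomial.eval_C, line_zero, line_zero] at h0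
  rw [Polynomial.eval_mul, Polynomial.eval_C, line_one, line_one] at h1
  have h2 : rename Sum.inl p * rename Sum.inr q = rename Sum.inr p * rename Sum.inl q := by
    apply IsFractionRing.injective (MvPolynomial (τ ⊕ τ) F) (Kf F τ)
    rw [map_mul, map_mul, h0, h1]
    ring
  obtain ⟨α, hα⟩ : ∃ α : τ → F, eval α q ≠ 0 := by
    by_contra hcon
    push Not at hcon
    exact hq (MvPolynomial.funext fun x => by rw [hcon x, map_zero])
  have h3 := congrArg (aeval (Sum.elim (fun v => (C (α v) : MvPolynomial τ F)) X)) h2
  have hl : ∀ f : MvPolynomial τ F,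
      aeval (Sum.elim (fun v => (C (α v) : MvPolynomial τ F)) X) (rename Sum.inl f) =
        C (eval α f) := by
    intro f
    rw [aeval_rename, Sum.elim_comp_inl]
    induction f using MvPolynomial.induction_on with
    | C r => rw [algHom_C, eval_C]; rfl
    | add p q hp hq => rw [map_add, hp, hq, map_add, map_add]
    | mul_X p v hp => rw [map_mul, hp, aeval_X, map_mul, eval_X, map_mul]
  have hr : ∀ f : MvPolynomial τ F,
      aeval (Sum.elim (fun v => (C (α v) : MvPolynomial τ F)) X) (rename Sum.inr f) = f := by
    intro f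
    rw [aeval_rename, Sum.elim_comp_inr, aeval_X_left_apply]
  rw [map_mul, map_mul, hl, hr, hl, hr] at h3
  refine ⟨eval α p * (eval α q)⁻¹, ?_⟩
  have h4 : C (eval α q)⁻¹ * (p * C (eval α q)) = C (eval α q)⁻¹ * (C (eval α p) * q) := by
    rw [h3]
  have h5 : C (eval α q)⁻¹ * (p * C (eval α q)) = p * C ((eval α q)⁻¹ * eval α q) := by
    rw [C_mul]; ring
  rw [h5, inv_mul_cancel₀ hα, C_1, mul_one] at h4
  refine h4.trans ?_
  rw [C_mul]
  ring

lemma line_natDegree (p : MvPolynomial τ F) : (line F τ p).natDegree ≤ p.totalDegree := by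
  have h1 : line F τ p = aeval (fun v => Polynomial.C (pa v) + Polynomial.X *
      Polynomial.C (pb v - pa v)) (map (algebraMap F (Kf F τ)) p) := by
    rw [aeval_map_algebraMap]
    rfl
  rw [h1]
  refine (MvPolynomial.aeval_natDegree_le (m := p.totalDegree) _
    (Finset.sup_mono (support_map_subset _ _)) _ (n := 1) fun v => ?_).trans (by rw [mul_one])
  refine (Polynomial.natDegree_add_le _ _).trans (max_le ?_ ?_)
  · rw [Polynomial.natDegree_C]; exact Nat.zero_le _
  · refine Polynomial.natDegree_mul_le.trans ?_
    rw [Polynomial.natDegree_C, add_zero]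
    exact Polynomial.natDegree_X_le


end Pool.Agent.W915.HG
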