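import Mathlib
import Pool.Agent.W915.HG1

/-!
# Splitting a polynomial along a set of variables; a bound from the Gram matrix
-/

set_option autoImplicit false

namespace Pool.Agent.W915.HG

open MvPolynomial

variable {F : Type} [Field F]

/-- Splitting along the variables `p 0, …, p (m - 1)`. -/
theorem split {σ : Type} {m : ℕ} (P : MvPolynomial σ F) (p : Fin m → σ)
    (hp : Function.Injective p) :
    ∃ (A : Finset (Fin m → ℕ)) (R : (Fin m → ℕ) → MvPolynomial σ F),
      (∀ α ∈ A, R α ≠ 0 ∧ (R α).totalDegree ≤ P.totalDegree ∧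
        (∀ v ∈ (R α).vars, v ∈ P.vars ∧ ∀ j, v ≠ p j) ∧ ∑ j, α j ≤ P.totalDegree) ∧
      P = ∑ α ∈ A, R α * ∏ j, X (p j) ^ α j := by
  classical
  let rest : (σ →₀ ℕ) → (σ →₀ ℕ) := fun s => s.filter (fun v => ∀ j, v ≠ p j)
  let al : (σ →₀ ℕ) → (Fin m → ℕ) := fun s j => s (p j)
  let A : Finset (Fin m → ℕ) := P.support.image al
  let R : (Fin m → ℕ) → MvPolynomial σ F := fun α =>
    ∑ s ∈ P.support.filter (fun s => al s = α), monomial (rest s) (coeff s P)
  have hle : ∀ s : σ →₀ ℕ, rest s ≤ s := by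
    intro s v
    by_cases h : ∀ j, v ≠ p j
    · rw [Finsupp.filter_apply_pos (fun v => ∀ j, v ≠ p j) s h]
    · rw [Finsupp.filter_apply_neg (fun v => ∀ j, v ≠ p j) s h]
      exact Nat.zero_le _
  have hdeg : ∀ s ∈ P.support, (s.sum fun _ e => e) ≤ P.totalDegree := fun s hs =>
    le_totalDegree hs
  have hdeg' : ∀ s ∈ P.support, ((rest s).sum fun _ e => e) ≤ P.totalDegree := by
    intro s hs
    refine le_trans ?_ (hdeg s hs)
    have h1 : (rest s).support ⊆ s.support := Finsupp.support_mono (hle s)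
    rw [Finsupp.sum_of_support_subset _ h1 _ (fun _ _ => rfl)]
    exact Finset.sum_le_sum fun v _ => hle s v
  have hinj : ∀ s s' : σ →₀ ℕ, al s = al s' → rest s = rest s' → s = s' := by
    intro s s' h1 h2
    ext v
    by_cases h : ∀ j, v ≠ p j
    · have h3 := DFunLike.congr_fun h2 v
      rwa [Finsupp.filter_apply_pos (fun v => ∀ j, v ≠ p j) s h,
        Finsupp.filter_apply_pos (fun v => ∀ j, v ≠ p j) s' h] at h3
    · push Not at h
      obtain ⟨j, rfl⟩ := h
      exact congrFun h1 j
  refine ⟨A, R, fun α hα => ?_, ?_⟩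
  · obtain ⟨s0, hs0, hs0α⟩ := Finset.mem_image.1 hα
    refine ⟨?_, ?_, ?_, ?_⟩
    · intro h0
      have h1 : coeff (rest s0) (R α) = coeff s0 P := by
        show coeff (rest s0) (∑ s ∈ P.support.filter (fun s => al s = α),
          monomial (rest s) (coeff s P)) = _
        rw [coeff_sum, Finset.sum_eq_single s0]
        · rw [coeff_monomial, if_pos rfl]
        · intro s hs hne
          rw [coeff_monomial, if_neg]
          intro h2
          exact hne (hinj s s0 ((Finset.mem_filter.1 hs).2.trans hs0α.symm) h2)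
        · intro h2
          exact absurd (Finset.mem_filter.2 ⟨hs0, hs0α⟩) h2
      rw [h0, coeff_zero] at h1
      exact (mem_support_iff.1 hs0) h1.symm
    · refine (totalDegree_finsetSum _ _).trans (Finset.sup_le fun s hs => ?_)
      refine (totalDegree_monomial_le _ _).trans ?_
      exact hdeg' s (Finset.mem_filter.1 hs).1
    · intro v hv
      have h1 := vars_sum_subset _ _ hv
      obtain ⟨s, hs, hvs⟩ := Finset.mem_biUnion.1 h1
      have hsP := (Finset.mem_filter.1 hs).1
      rw [vars_monomial (mem_support_iff.1 hsP)] at hvs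
      have h2 : v ∈ s.support ∧ ∀ j, v ≠ p j := by
        have h3 := hvs
        simp only [rest, Finsupp.support_filter, Finset.mem_filter] at h3
        exact h3
      exact ⟨(mem_vars_iff_mem_support v).2 ⟨s, hsP, h2.1⟩, h2.2⟩
    · rw [← hs0α]
      refine le_trans ?_ (hdeg s0 hs0)
      have h1 : ∑ j, al s0 j = ∑ v ∈ (Finset.univ.image p), s0 v := by
        rw [Finset.sum_image fun a _ b _ h => hp h]
      rw [h1, Finsupp.sum]
      have h2 : ∑ v ∈ (Finset.univ.image p), s0 v =
          ∑ v ∈ (Finset.univ.image p) ∩ s0.support, s0 v := by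
        symm
        refine Finset.sum_subset Finset.inter_subset_left fun v hv hv' => ?_
        by_contra h3
        exact hv' (Finset.mem_inter.2 ⟨hv, Finsupp.mem_support_iff.2 h3⟩)
      rw [h2]
      exact Finset.sum_le_sum_of_subset Finset.inter_subset_right
  · have hmono : ∀ s : σ →₀ ℕ, monomial s (coeff s P) =
        monomial (rest s) (coeff s P) * ∏ j, X (p j) ^ al s j := by
      intro s
      have h1 : (∏ j, X (p j) ^ al s j : MvPolynomial σ F) =
          monomial (s.filter (fun v => ¬ ∀ j, v ≠ p j)) 1 := by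
        have h2 : s.filter (fun v => ¬ ∀ j, v ≠ p j) = ∑ j, Finsupp.single (p j) (s (p j)) := by
          ext v
          rw [Finsupp.finsetSum_apply]
          by_cases h : ∀ j, v ≠ p j
          · rw [Finsupp.filter_apply_neg (fun v => ¬ ∀ j, v ≠ p j) s (not_not.2 h)]
            symm
            exact Finset.sum_eq_zero fun j _ => by
              rw [Finsupp.single_apply, if_neg (h j).symm]
          · rw [Finsupp.filter_apply_pos (fun v => ¬ ∀ j, v ≠ p j) s h]
            push Not at h
            obtain ⟨j, rfl⟩ := h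
            rw [Finset.sum_eq_single j]
            · rw [Finsupp.single_apply, if_pos rfl]
            · intro j' _ hj'
              rw [Finsupp.single_apply, if_neg (fun hc => hj' (hp hc))]
            · intro h; exact absurd (Finset.mem_univ j) h
        rw [h2, monomial_sum_one]
        refine Finset.prod_congr rfl fun j _ => ?_
        rw [X_pow_eq_monomial]
      rw [h1, monomial_mul, mul_one]
      have h5 : rest s + s.filter (fun v => ¬ ∀ j, v ≠ p j) = s :=
        Finsupp.filter_add_filter_not s (fun v => ∀ j, v ≠ p j)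
      rw [h5]
    conv_lhs => rw [P.as_sum]
    rw [← Finset.sum_fiberwise_of_maps_to (s := P.support) (t := A) (g := al)
      (fun s hs => Finset.mem_image_of_mem al hs)]
    refine Finset.sum_congr rfl fun α _ => ?_
    show _ = (∑ s ∈ P.support.filter (fun s => al s = α), monomial (rest s) (coeff s P)) * _
    rw [Finset.sum_mul]
    refine Finset.sum_congr rfl fun s hs => ?_
    rw [hmono s, (Finset.mem_filter.1 hs).2]

/-- If the rows of a matrix of natural numbers with row sums at most `Δ` are independent, then an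
integer vector is bounded in terms of its image. -/
theorem gram {m N : ℕ} (V : Fin m → Fin N → ℕ) (Δ : ℕ) (hV : ∀ j, ∑ l, V j l ≤ Δ)
    (hind : ∀ t : Fin m → ℤ, (∀ l, ∑ j, t j * (V j l : ℤ) = 0) → t = 0)
    (t : Fin m → ℤ) (H : ℕ) (hH : ∀ l, |∑ j, t j * (V j l : ℤ)| ≤ H) (j : Fin m) :
    |t j| ≤ ((m * m.factorial * (Δ + 1) ^ (2 * m + 1) * H : ℕ) : ℤ) := by
  classical
  set W : Matrix (Fin m) (Fin m) ℤ := Matrix.of fun a b => ∑ l, (V a l : ℤ) * (V b l : ℤ) with hW
  have hdet : W.det ≠ 0 := by
    intro h0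
    obtain ⟨u, hu, huW⟩ := Matrix.exists_vecMul_eq_zero_iff.2 h0
    apply hu
    apply hind
    have h1 : ∑ l, (∑ a, u a * (V a l : ℤ)) ^ 2 = 0 := by
      have h2 : ∑ l, (∑ a, u a * (V a l : ℤ)) ^ 2 = ∑ b, (Matrix.vecMul u W) b * u b := by
        have e1 : ∑ l, (∑ a, u a * (V a l : ℤ)) ^ 2 =
            ∑ l, ∑ a, ∑ b, u a * (V a l : ℤ) * (u b * (V b l : ℤ)) := by
          simp only [sq, Finset.sum_mul_sum]
        have e2 : ∑ b, (Matrix.vecMul u W) b * u b =
            ∑ b, ∑ a, ∑ l, u a * (V a l : ℤ) * (u b * (V b l : ℤ)) := by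
          refine Finset.sum_congr rfl fun b _ => ?_
          show (∑ a, u a * W a b) * u b = _
          rw [Finset.sum_mul]
          refine Finset.sum_congr rfl fun a _ => ?_
          rw [hW, Matrix.of_apply, Finset.mul_sum, Finset.sum_mul]
          refine Finset.sum_congr rfl fun l _ => ?_
          ring
        rw [e1, e2, Finset.sum_comm]
        rw [Finset.sum_congr rfl fun a _ => Finset.sum_comm (s := (Finset.univ : Finset (Fin N)))
          (t := (Finset.univ : Finset (Fin m)))]
        exact Finset.sum_comm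
      rw [h2, huW]
      simp
    intro l
    have h3 := (Finset.sum_eq_zero_iff_of_nonneg (fun l _ => sq_nonneg _)).1 h1 l
      (Finset.mem_univ l)
    exact pow_eq_zero_iff two_ne_zero |>.1 h3
  have hVle : ∀ a l, V a l ≤ Δ := fun a l =>
    (Finset.single_le_sum (f := fun l => V a l) (fun _ _ => Nat.zero_le _)
      (Finset.mem_univ l)).trans (hV a)
  have hWle : ∀ a b, |W a b| ≤ (((Δ + 1) ^ 2 : ℕ) : ℤ) := by
    intro a b
    rw [hW, Matrix.of_apply]
    have h1 : (0 : ℤ) ≤ ∑ l, (V a l : ℤ) * (V b l : ℤ) :=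
      Finset.sum_nonneg fun l _ => by positivity
    rw [abs_of_nonneg h1]
    have h2 : ∑ l, V a l * V b l ≤ (Δ + 1) ^ 2 := by
      calc ∑ l, V a l * V b l ≤ ∑ l, V a l * Δ :=
            Finset.sum_le_sum fun l _ => Nat.mul_le_mul_left _ (hVle b l)
        _ = (∑ l, V a l) * Δ := by rw [Finset.sum_mul]
        _ ≤ Δ * Δ := Nat.mul_le_mul_right _ (hV a)
        _ ≤ (Δ + 1) ^ 2 := by nlinarith
    exact_mod_cast h2
  have hadj : ∀ a b, |W.adjugate a b| ≤ ((m.factorial * (Δ + 1) ^ (2 * m) : ℕ) : ℤ) := by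
    intro a b
    rw [Matrix.adjugate_apply]
    have h1 := Matrix.det_le (A := W.updateRow b (Pi.single a 1)) (abv := AbsoluteValue.abs)
      (x := (((Δ + 1) ^ 2 : ℕ) : ℤ)) (by
        intro i j
        rw [Matrix.updateRow_apply]
        split_ifs with hi
        · have h1 : (1 : ℤ) ≤ (((Δ + 1) ^ 2 : ℕ) : ℤ) := by
            exact_mod_cast Nat.one_le_pow 2 (Δ + 1) (Nat.succ_pos Δ)
          by_cases hja : j = a
          · subst hja
            rw [Pi.single_eq_same]
            show |(1 : ℤ)| ≤ _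
            rw [abs_one]
            exact h1
          · rw [Pi.single_eq_of_ne hja]
            show |(0 : ℤ)| ≤ _
            rw [abs_zero]
            exact zero_le_one.trans h1
        · exact hWle i j)
    refine h1.trans (le_of_eq ?_)
    rw [Fintype.card_fin, nsmul_eq_mul]
    push_cast
    rw [← pow_mul]
  have hr : ∀ b, |(Matrix.vecMul t W) b| ≤ ((H * Δ : ℕ) : ℤ) := by
    intro b
    have h1 : (Matrix.vecMul t W) b = ∑ l, (∑ a, t a * (V a l : ℤ)) * (V b l : ℤ) := by
      simp only [Matrix.vecMul, dotProduct, hW, Matrix.of_apply, Finset.sum_mul, Finset.mul_sum]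
      rw [Finset.sum_comm]
      refine Finset.sum_congr rfl fun l _ => Finset.sum_congr rfl fun a _ => ?_
      ring
    rw [h1]
    refine (Finset.abs_sum_le_sum_abs _ _).trans ?_
    have h2 : ∀ l ∈ (Finset.univ : Finset (Fin N)),
        |(∑ a, t a * (V a l : ℤ)) * (V b l : ℤ)| ≤ (H : ℤ) * (V b l : ℤ) := by
      intro l _
      rw [abs_mul]
      have h3 : |((V b l : ℕ) : ℤ)| = (V b l : ℤ) := abs_of_nonneg (by positivity)
      rw [h3]
      exact mul_le_mul_of_nonneg_right (hH l) (by positivity)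
    refine (Finset.sum_le_sum h2).trans ?_
    rw [← Finset.mul_sum]
    have h4 : (∑ l, ((V b l : ℕ) : ℤ)) ≤ (Δ : ℤ) := by exact_mod_cast hV b
    push_cast
    exact mul_le_mul_of_nonneg_left h4 (by positivity)
  have hkey : Matrix.vecMul (Matrix.vecMul t W) W.adjugate = W.det • t := by
    rw [Matrix.vecMul_vecMul, Matrix.mul_adjugate, Matrix.vecMul_smul, Matrix.vecMul_one]
  have h1 := congrFun hkey j
  rw [Pi.smul_apply, smul_eq_mul] at h1
  have h2 : |t j| ≤ |W.det * t j| := by
    rw [abs_mul]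
    have h3 : 1 ≤ |W.det| := Int.one_le_abs hdet
    nlinarith [abs_nonneg (t j)]
  refine h2.trans ?_
  rw [← h1]
  show |∑ b, (Matrix.vecMul t W) b * W.adjugate b j| ≤ _
  refine (Finset.abs_sum_le_sum_abs _ _).trans ?_
  have h5 : ∀ b ∈ (Finset.univ : Finset (Fin m)), |(Matrix.vecMul t W) b * W.adjugate b j| ≤
      ((H * Δ : ℕ) : ℤ) * ((m.factorial * (Δ + 1) ^ (2 * m) : ℕ) : ℤ) := by
    intro b _
    rw [abs_mul]
    exact mul_le_mul (hr b) (hadj b j) (abs_nonneg _) (by positivity)
  refine (Finset.sum_le_card_nsmul _ _ _ h5).trans ?_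
  rw [Finset.card_univ, Fintype.card_fin, nsmul_eq_mul]
  have h6 : m * ((H * Δ) * (m.factorial * (Δ + 1) ^ (2 * m))) ≤
      m * m.factorial * (Δ + 1) ^ (2 * m + 1) * H := by
    calc m * ((H * Δ) * (m.factorial * (Δ + 1) ^ (2 * m)))
        = (m * m.factorial * (Δ + 1) ^ (2 * m) * H) * Δ := by ring
      _ ≤ (m * m.factorial * (Δ + 1) ^ (2 * m) * H) * (Δ + 1) :=
          Nat.mul_le_mul_left _ (Nat.le_succ _)
      _ = m * m.factorial * (Δ + 1) ^ (2 * m + 1) * H := by ring
  exact_mod_cast h6

end Pool.Agent.W915.HG
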