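import Mathlib
import Pool.Agent.W915.HG2
import Pool.Agent.H964R4.SepR

/-!
# Huge powers of multiplicatively independent polynomials, one variable
-/

set_option autoImplicit false

namespace Pool.Agent.W915.HG

open Polynomial Pool.Agent.H964R4 Pool.Agent.W915.HP

theorem far_uni {K : Type} [Field K] [CharZero K] {m : ℕ} (q : Fin m → K[X]) (Δ : ℕ)
    (hq : ∀ j, (q j).natDegree ≤ Δ)
    (hind : ∀ (a b : Fin m → ℕ) (c : K), ∏ j, q j ^ a j = C c * ∏ j, q j ^ b j → a = b)
    (A : Finset (Fin m → ℕ)) (hA : A.Nonempty) (R : (Fin m → ℕ) → K[X])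
    (hR : ∀ α ∈ A, R α ≠ 0) (δ M : ℕ) (hδ : ∀ α ∈ A, (R α).natDegree ≤ δ) (hM : A.card ≤ M)
    (E : Fin m → ℕ)
    (hE : ∀ j, m * m.factorial * (Δ + 1) ^ (2 * m + 1) * (M * (M * (m * Δ)) + M * δ) < E j) :
    ∑ α ∈ A, R α * ∏ j, (q j ^ E j) ^ α j ≠ 0 := by
  classical
  intro h0
  have hq0 : ∀ j, q j ≠ 0 := by
    intro j hj
    have h1 := hind (Pi.single j 1) 0 0 (by
      rw [C_0, zero_mul]
      refine Finset.prod_eq_zero (Finset.mem_univ j) ?_
      rw [Pi.single_eq_same, hj, pow_one])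
    have h2 := congrFun h1 j
    rw [Pi.single_eq_same] at h2
    exact one_ne_zero h2
  obtain ⟨N, p, V, u, hp, hco, hfac⟩ := exists_factor (Finset.univ : Finset (Fin m)) q
    (fun j _ => hq0 j)
  have hu0 : ∀ j, u j ≠ 0 := fun j => (hfac j (Finset.mem_univ j)).1
  have hqe : ∀ j, q j = C (u j) * ∏ l, p l ^ V j l := fun j => (hfac j (Finset.mem_univ j)).2
  have hdegq : ∀ j, ∑ l, V j l * (p l).natDegree ≤ Δ := by
    intro j
    have h1 : (q j).natDegree = ∑ l, V j l * (p l).natDegree := by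
      rw [hqe j, natDegree_C_mul (hu0 j), natDegree_prod _ _ fun l _ => pow_ne_zero _ (hp l).1]
      exact Finset.sum_congr rfl fun l _ => natDegree_pow _ _
    rw [← h1]
    exact hq j
  have hVsum : ∀ j, ∑ l, V j l ≤ Δ := fun j =>
    (Finset.sum_le_sum fun l _ => Nat.le_mul_of_pos_right _ (hp l).2).trans (hdegq j)
  -- powers in terms of the factors
  have hpow : ∀ a : Fin m → ℕ, ∏ j, q j ^ a j =
      C (∏ j, u j ^ a j) * ∏ l, p l ^ (∑ j, a j * V j l) := by
    intro a
    have h1 : ∀ j, q j ^ a j = C (u j ^ a j) * ∏ l, p l ^ (a j * V j l) := by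
      intro j
      rw [hqe j, mul_pow, ← C_pow, ← Finset.prod_pow]
      congr 1
      exact Finset.prod_congr rfl fun l _ => by rw [← pow_mul, mul_comm]
    rw [Finset.prod_congr rfl fun j _ => h1 j, Finset.prod_mul_distrib, ← map_prod,
      Finset.prod_comm]
    congr 1
    exact Finset.prod_congr rfl fun l _ => Finset.prod_pow_eq_pow_sum _ _ _
  have hindV : ∀ t : Fin m → ℤ, (∀ l, ∑ j, t j * (V j l : ℤ) = 0) → t = 0 := by
    intro t ht
    set a : Fin m → ℕ := fun j => (t j).toNat with ha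
    set b : Fin m → ℕ := fun j => (-t j).toNat with hb
    have hab : ∀ j, (t j : ℤ) = (a j : ℤ) - (b j : ℤ) := by
      intro j
      simp only [ha, hb]
      omega
    have he : ∀ l, ∑ j, a j * V j l = ∑ j, b j * V j l := by
      intro l
      have h1 := ht l
      have h2 : (∑ j, (a j : ℤ) * (V j l : ℤ)) - ∑ j, (b j : ℤ) * (V j l : ℤ) = 0 := by
        rw [← Finset.sum_sub_distrib, ← h1]
        refine Finset.sum_congr rfl fun j _ => ?_
        rw [hab j]
        ring
      have h3 : (∑ j, (a j : ℤ) * (V j l : ℤ)) = ∑ j, (b j : ℤ) * (V j l : ℤ) := by linarith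
      exact_mod_cast h3
    have he' : (∏ l, p l ^ (∑ j, a j * V j l)) = ∏ l, p l ^ (∑ j, b j * V j l) :=
      Finset.prod_congr rfl fun l _ => by rw [he l]
    have h1 := hind a b ((∏ j, u j ^ a j) * (∏ j, u j ^ b j)⁻¹) (by
      rw [hpow a, hpow b, he', ← mul_assoc, ← C_mul,
        mul_assoc (∏ j, u j ^ a j), inv_mul_cancel₀ (Finset.prod_ne_zero_iff.2 fun j _ =>
          pow_ne_zero _ (hu0 j)), mul_one])
    funext j
    rw [hab j, h1, sub_self]
    rfl
  -- the relation
  let e : A → Fin N → ℕ := fun α l => ∑ j, E j * α.1 j * V j l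
  let lab : A → ℕ := fun α => (Fintype.equivFin A α : ℕ)
  have hlab : Function.Injective lab := fun α β h =>
    (Fintype.equivFin A).injective (Fin.ext h)
  let w : A → K := fun α => ∏ j, u j ^ (E j * α.1 j)
  have hw0 : ∀ α, w α ≠ 0 := fun α => Finset.prod_ne_zero_iff.2 fun j _ => pow_ne_zero _ (hu0 j)
  have hterm : ∀ α : A, R α.1 * ∏ j, (q j ^ E j) ^ α.1 j =
      C (w α) * (R α.1 * ∏ l, p l ^ e α l) := by
    intro α
    have h1 : ∏ j, (q j ^ E j) ^ α.1 j = ∏ j, q j ^ (E j * α.1 j) :=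
      Finset.prod_congr rfl fun j _ => (pow_mul _ _ _).symm
    rw [h1, hpow]
    show R α.1 * (C (w α) * ∏ l, p l ^ e α l) = _
    ring
  have hsum : ∑ α : A, C (w α) * (R α.1 * ∏ l, p l ^ e α l) = 0 := by
    rw [← h0, ← Finset.sum_coe_sort A]
    exact Finset.sum_congr rfl fun α _ => (hterm α).symm
  set Nn : ℕ := M * (M * (m * Δ)) + M * δ with hNn
  have hcardA : (Finset.univ : Finset A).card ≤ M := by
    rw [Finset.card_univ, Fintype.card_coe]
    exact hM
  have hrad : ∀ α : A, (∑ l, if e α l = 0 then 0 else (p l).natDegree) ≤ m * Δ := by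
    intro α
    have h1 : (∑ l, if e α l = 0 then 0 else (p l).natDegree) ≤
        ∑ l, ∑ j, V j l * (p l).natDegree := by
      refine Finset.sum_le_sum fun l _ => ?_
      split_ifs with h
      · exact Nat.zero_le _
      · have h2 : ∃ j, V j l ≠ 0 := by
          by_contra hcon
          push Not at hcon
          apply h
          show ∑ j, E j * α.1 j * V j l = 0
          exact Finset.sum_eq_zero fun j _ => by rw [hcon j, mul_zero]
        obtain ⟨j, hj⟩ := h2
        refine le_trans ?_ (Finset.single_le_sum (f := fun j => V j l * (p l).natDegree)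
          (fun _ _ => Nat.zero_le _) (Finset.mem_univ j))
        exact Nat.le_mul_of_pos_left _ (Nat.pos_of_ne_zero hj)
    refine h1.trans ?_
    rw [Finset.sum_comm]
    refine (Finset.sum_le_card_nsmul _ _ Δ fun j _ => hdegq j).trans (le_of_eq ?_)
    rw [Finset.card_univ, Fintype.card_fin, smul_eq_mul]
  have hbound : ((Finset.univ : Finset A).card - 2) *
      (∑ α : A, ∑ l, if e α l = 0 then 0 else (p l).natDegree) +
      ∑ α : A, (R α.1).natDegree ≤ Nn := by
    refine Nat.add_le_add (Nat.mul_le_mul (by omega) ?_) ?_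
    · refine (Finset.sum_le_card_nsmul _ _ (m * Δ) fun α _ => hrad α).trans ?_
      rw [smul_eq_mul]
      exact Nat.mul_le_mul_right _ hcardA
    · refine (Finset.sum_le_card_nsmul _ _ δ fun α _ => hδ α.1 α.2).trans ?_
      rw [smul_eq_mul]
      exact Nat.mul_le_mul_right _ hcardA
  have hfar : ∀ α β : A, lab α ≠ lab β →
      Nn < ∑ l, (p l).natDegree * (e α l - e β l) ∨
        Nn < ∑ l, (p l).natDegree * (e β l - e α l) := by
    intro α β hne
    by_contra hcon
    push Not at hcon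
    obtain ⟨h1, h2⟩ := hcon
    have h3 : ∀ l, |∑ j, ((E j : ℤ) * ((α.1 j : ℤ) - (β.1 j : ℤ))) * (V j l : ℤ)| ≤ (Nn : ℤ) := by
      intro l
      have h4 : e α l - e β l ≤ Nn := by
        refine le_trans (Nat.le_mul_of_pos_left _ (hp l).2) ((Finset.single_le_sum
          (f := fun l => (p l).natDegree * (e α l - e β l)) (fun _ _ => Nat.zero_le _)
          (Finset.mem_univ l)).trans h1)
      have h5 : e β l - e α l ≤ Nn := by
        refine le_trans (Nat.le_mul_of_pos_left _ (hp l).2) ((Finset.single_le_sum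
          (f := fun l => (p l).natDegree * (e β l - e α l)) (fun _ _ => Nat.zero_le _)
          (Finset.mem_univ l)).trans h2)
      have h6 : ∑ j, ((E j : ℤ) * ((α.1 j : ℤ) - (β.1 j : ℤ))) * (V j l : ℤ) =
          (e α l : ℤ) - (e β l : ℤ) := by
        show _ = ((∑ j, E j * α.1 j * V j l : ℕ) : ℤ) - ((∑ j, E j * β.1 j * V j l : ℕ) : ℤ)
        push_cast
        rw [← Finset.sum_sub_distrib]
        exact Finset.sum_congr rfl fun j _ => by ring
      rw [h6, abs_le]
      omega
    obtain ⟨j, hj⟩ : ∃ j, α.1 j ≠ β.1 j := by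
      by_contra hcon
      push Not at hcon
      exact hne (congrArg lab (Subtype.ext (funext hcon)))
    have h7 := gram V Δ hVsum hindV (fun j => (E j : ℤ) * ((α.1 j : ℤ) - (β.1 j : ℤ))) Nn h3 j
    have h8 : (E j : ℤ) ≤ |(E j : ℤ) * ((α.1 j : ℤ) - (β.1 j : ℤ))| := by
      rw [abs_mul, abs_of_nonneg (by positivity : (0 : ℤ) ≤ (E j : ℤ))]
      have h9 : (1 : ℤ) ≤ |(α.1 j : ℤ) - (β.1 j : ℤ)| := by
        apply Int.one_le_abs
        intro h
        exact hj (by omega)
      nlinarith [(by positivity : (0 : ℤ) ≤ (E j : ℤ))]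
    have h10 : (E j : ℤ) ≤
        ((m * m.factorial * (Δ + 1) ^ (2 * m + 1) * Nn : ℕ) : ℤ) := h8.trans h7
    have h11 : E j ≤ m * m.factorial * (Δ + 1) ^ (2 * m + 1) * Nn := by exact_mod_cast h10
    exact absurd (hE j) (not_lt.2 h11)
  obtain ⟨α0, hα0⟩ := hA
  have hs := sepR (fun α : A => R α.1) p (fun l => (hp l).1) hco e lab Nn hfar
    (Finset.univ : Finset A).card Finset.univ w rfl hbound hsum (lab ⟨α0, hα0⟩)
  have hfil : (Finset.univ : Finset A).filter (fun α => lab α = lab ⟨α0, hα0⟩) =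
      {(⟨α0, hα0⟩ : A)} := by
    ext α
    rw [Finset.mem_filter, Finset.mem_singleton]
    exact ⟨fun h => hlab h.2, fun h => ⟨Finset.mem_univ _, congrArg lab h⟩⟩
  rw [hfil, Finset.sum_singleton] at hs
  refine (mul_ne_zero (by simpa using hw0 _) (mul_ne_zero (hR α0 hα0)
    (Finset.prod_ne_zero_iff.2 fun l _ => pow_ne_zero _ (hp l).1))) hs

end Pool.Agent.W915.HG
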