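import Mathlib
import Pool.Agent.W915.HG3

/-!
# Nested huge powers behave like independent variables
-/

set_option autoImplicit false

namespace Pool.Agent.W915.HG

open MvPolynomial Pool.Agent.W915.HP

/-- The variables: `Sum.inl i` is the variable `x_i`, and `Sum.inr (l, j)` stands for the `j`-th
power gate of level `l`. -/
abbrev Var (n m : ℕ) : Type := Fin n ⊕ (ℕ × Fin m)

/-- The variable `u` is one of the `x_i` or belongs to a power gate of a level below `l`. -/
def Below {n m : ℕ} (l : ℕ) : Var n m → Prop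
  | .inl _ => True
  | .inr u => u.1 < l

/-- the bound `∏_{i < l} (γ ∑_j E i j + 1)` for the degrees of the power gates below level `l` -/
def growth {m : ℕ} (γ : ℕ) (E : ℕ → Fin m → ℕ) (l : ℕ) : ℕ :=
  ∏ i ∈ Finset.range l, (γ * ∑ j, E i j + 1)

variable {F : Type} [Field F] {n m : ℕ}

lemma growth_pos (γ : ℕ) (E : ℕ → Fin m → ℕ) (l : ℕ) : 1 ≤ growth γ E l :=
  Finset.one_le_prod' fun _ _ => Nat.succ_le_succ (Nat.zero_le _)

lemma growth_succ (γ : ℕ) (E : ℕ → Fin m → ℕ) (l : ℕ) :
    growth γ E (l + 1) = growth γ E l * (γ * ∑ j, E l j + 1) := Finset.prod_range_succ _ _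

lemma totalDegree_aeval_vars {σ τ : Type} (v : σ → MvPolynomial τ F) (W : ℕ)
    (P : MvPolynomial σ F) (h : ∀ u ∈ P.vars, (v u).totalDegree ≤ W) :
    (aeval v P).totalDegree ≤ P.totalDegree * W := by
  classical
  rw [aeval_def, eval₂_eq]
  refine (totalDegree_finsetSum _ _).trans (Finset.sup_le fun d hd => ?_)
  refine (totalDegree_mul _ _).trans ?_
  have h1 : (algebraMap F (MvPolynomial τ F) (coeff d P)).totalDegree = 0 := totalDegree_C _
  rw [h1, zero_add]
  refine (totalDegree_finsetProd _ _).trans ?_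
  refine (Finset.sum_le_sum (g := fun i => d i * W) fun i hi =>
    (totalDegree_pow _ _).trans (Nat.mul_le_mul_left _ (h i
      ((mem_vars_iff_mem_support i).2 ⟨d, hd, hi⟩)))).trans ?_
  rw [← Finset.sum_mul]
  refine Nat.mul_le_mul_right _ ?_
  exact le_totalDegree hd

lemma totalDegree_prod_pow_le {σ : Type} (g : Fin m → MvPolynomial σ F) (γ : ℕ)
    (hg : ∀ j, (g j).totalDegree ≤ γ) (a : Fin m → ℕ) :
    (∏ j, g j ^ a j).totalDegree ≤ (∑ j, a j) * γ := by
  refine (totalDegree_finsetProd _ _).trans ?_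
  rw [Finset.sum_mul]
  exact Finset.sum_le_sum fun j _ => (totalDegree_pow _ _).trans (Nat.mul_le_mul_left _ (hg j))

lemma card_le {A : Finset (Fin m → ℕ)} {D : ℕ} (h : ∀ α ∈ A, ∑ j, α j ≤ D) :
    A.card ≤ (D + 1) ^ m := by
  classical
  have h1 : A ⊆ Fintype.piFinset fun _ : Fin m => Finset.range (D + 1) := by
    intro α hα
    rw [Fintype.mem_piFinset]
    intro j
    rw [Finset.mem_range]
    have h2 := Finset.single_le_sum (f := fun j => α j) (fun _ _ => Nat.zero_le _)
      (Finset.mem_univ j)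
    have h3 := h α hα
    omega
  refine (Finset.card_le_card h1).trans ?_
  rw [Fintype.card_piFinset_const, Finset.card_range]

variable [CharZero F]

/-- The substitution is injective on polynomials of degree at most `D` in the variables below
level `l`. -/
def InjOn (v : Var n m → MvPolynomial (Fin n) F) (l D : ℕ) : Prop :=
  ∀ P : MvPolynomial (Var n m) F, (∀ u ∈ P.vars, Below l u) → P.totalDegree ≤ D →
    aeval v P = 0 → P = 0

lemma injOn_zero {v : Var n m → MvPolynomial (Fin n) F} (hv : ∀ i, v (.inl i) = X i) (D : ℕ) :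
    InjOn v 0 D := by
  classical
  intro P hP _ h0
  obtain ⟨Q, rfl⟩ := exists_rename_eq_of_vars_subset_range P (Sum.inl : Fin n → Var n m)
    Sum.inl_injective (by
      intro u hu
      have h1 := hP u hu
      rcases u with i | u
      · exact ⟨i, rfl⟩
      · exact absurd h1 (Nat.not_lt_zero _))
  rw [aeval_rename] at h0
  have h1 : (v ∘ Sum.inl) = X := funext hv
  rw [h1, aeval_X_left_apply] at h0
  rw [h0, map_zero]

lemma prod_vars {σ : Type} [DecidableEq σ] (g : Fin m → MvPolynomial σ F) (a : Fin m → ℕ)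
    {S : σ → Prop} (h : ∀ j, ∀ u ∈ (g j).vars, S u) : ∀ u ∈ (∏ j, g j ^ a j).vars, S u := by
  intro u hu
  have h1 := vars_prod (s := Finset.univ) (fun j => g j ^ a j) hu
  obtain ⟨j, _, hj⟩ := Finset.mem_biUnion.1 h1
  exact h j u (vars_pow _ _ hj)

/-- If the formal bases are multiplicatively independent up to a degree, so are their values. -/
lemma indep_values {v : Var n m → MvPolynomial (Fin n) F} {l D γ : ℕ} (hl : InjOn v l D)
    (g : Fin m → MvPolynomial (Var n m) F) (hvars : ∀ j, ∀ u ∈ (g j).vars, Below l u)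
    (hdeg : ∀ j, (g j).totalDegree ≤ γ) (a b : Fin m → ℕ) (c : F) (ha : (∑ j, a j) * γ ≤ D)
    (hb : (∑ j, b j) * γ ≤ D)
    (h : ∏ j, (aeval v (g j)) ^ a j = C c * ∏ j, (aeval v (g j)) ^ b j) :
    ∏ j, g j ^ a j = C c * ∏ j, g j ^ b j := by
  classical
  have h1 := hl (∏ j, g j ^ a j - C c * ∏ j, g j ^ b j) (by
      intro u hu
      rcases Finset.mem_union.1 (vars_sub_subset _ hu) with h2 | h2
      · exact prod_vars g a hvars u h2
      · have h3 := vars_mul _ _ h2
        rw [vars_C, Finset.empty_union] at h3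
        exact prod_vars g b hvars u h3) (by
      refine (totalDegree_sub _ _).trans (max_le ?_ ?_)
      · exact (totalDegree_prod_pow_le g γ hdeg a).trans ha
      · refine (totalDegree_mul _ _).trans ?_
        rw [totalDegree_C, zero_add]
        exact (totalDegree_prod_pow_le g γ hdeg b).trans hb) (by
      rw [map_sub, map_mul, map_prod, map_prod, algHom_C]
      simp only [map_pow]
      rw [h]
      exact sub_self _)
  exact sub_eq_zero.1 h1

/-- The first level: arbitrary exponents. -/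
lemma level_one {v : Var n m → MvPolynomial (Fin n) F} (hv : ∀ i, v (.inl i) = X i)
    (g : Fin m → MvPolynomial (Var n m) F) (E : Fin m → ℕ)
    (hvg : ∀ j, v (.inr (0, j)) = (aeval v (g j)) ^ E j)
    (hvars : ∀ j, ∀ u ∈ (g j).vars, Below 0 u) (γ : ℕ) (hdeg : ∀ j, (g j).totalDegree ≤ γ)
    (hind : ∀ (a b : Fin m → ℕ) (c : F), ∏ j, g j ^ a j = C c * ∏ j, g j ^ b j → a = b)
    (D : ℕ) (hE : ∀ j, ((m + 1) * (γ + 1) * (D + 1)) ^ (2 * m + 2) < E j) :
    InjOn v 1 D := by
  classical
  intro P hP hPD h0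
  by_contra hP0
  have hi0 : ∀ D, InjOn v 0 D := injOn_zero hv
  have hdegv : ∀ Q : MvPolynomial (Var n m) F, (∀ u ∈ Q.vars, Below 0 u) →
      (aeval v Q).totalDegree ≤ Q.totalDegree := by
    intro Q hQ
    refine (totalDegree_aeval_vars v 1 Q fun u hu => ?_).trans (by rw [mul_one])
    have h1 := hQ u hu
    rcases u with i | u
    · rw [hv i, totalDegree_X]
    · exact absurd h1 (Nat.not_lt_zero _)
  obtain ⟨A, R, hR, hPsum⟩ := split P (fun j : Fin m => (Sum.inr (0, j) : Var n m))
    (fun a b h => by simpa using h)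
  have hA : A.Nonempty := by
    rw [Finset.nonempty_iff_ne_empty]
    rintro rfl
    exact hP0 (by rw [hPsum, Finset.sum_empty])
  have hRvars : ∀ α ∈ A, ∀ u ∈ (R α).vars, Below 0 u := by
    intro α hα u hu
    obtain ⟨h1, h2⟩ := (hR α hα).2.2.1 u hu
    have h3 := hP u h1
    rcases u with i | ⟨l, j⟩
    · trivial
    · exfalso
      have h4 : l < 1 := h3
      have h5 : l = 0 := by omega
      subst h5
      exact h2 j rfl
  have hg0 : ∀ j, g j ≠ 0 := by
    intro j hj
    have h1 := hind (Pi.single j 1) 0 0 (by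
      rw [C_0, zero_mul]
      refine Finset.prod_eq_zero (Finset.mem_univ j) ?_
      rw [Pi.single_eq_same, hj, pow_one])
    have h2 := congrFun h1 j
    rw [Pi.single_eq_same] at h2
    exact one_ne_zero h2
  have hG0 : ∀ j, aeval v (g j) ≠ 0 := fun j h => hg0 j (hi0 _ _ (hvars j) le_rfl h)
  have h1 : ∑ α ∈ A, aeval v (R α) * ∏ j, ((aeval v (g j)) ^ E j) ^ α j = 0 := by
    rw [← h0]
    conv_rhs => rw [hPsum]
    rw [map_sum]
    refine Finset.sum_congr rfl fun α _ => ?_
    rw [map_mul, map_prod]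
    congr 1
    exact Finset.prod_congr rfl fun j _ => by rw [map_pow, aeval_X, hvg]
  have h2 := congrArg (line F (Fin n)) h1
  rw [map_zero, map_sum] at h2
  simp only [map_mul, map_prod, map_pow] at h2
  refine far_uni (fun j => line F (Fin n) (aeval v (g j))) γ ?_ ?_ A hA
    (fun α => line F (Fin n) (aeval v (R α))) ?_ D ((D + 1) ^ m) ?_ ?_ E ?_ h2
  · intro j
    exact (line_natDegree _).trans ((hdegv _ (hvars j)).trans (hdeg j))
  · intro a b c hc
    have h3 : line F (Fin n) (∏ j, aeval v (g j) ^ a j) =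
        Polynomial.C c * line F (Fin n) (∏ j, aeval v (g j) ^ b j) := by
      rw [map_prod, map_prod]
      simp only [map_pow]
      exact hc
    obtain ⟨c', hc'⟩ := line_prop (Finset.prod_ne_zero_iff.2 fun j _ => pow_ne_zero _ (hG0 j)) c h3
    exact hind a b c' (indep_values (hi0 (max ((∑ j, a j) * γ) ((∑ j, b j) * γ))) g hvars hdeg a b
      c' (le_max_left _ _) (le_max_right _ _) hc')
  · intro α hα
    exact line_ne fun h => (hR α hα).1 (hi0 _ _ (hRvars α hα) le_rfl h)
  · intro α hα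
    exact (line_natDegree _).trans ((hdegv _ (hRvars α hα)).trans ((hR α hα).2.1.trans hPD))
  · exact card_le fun α hα => (hR α hα).2.2.2.trans hPD
  · intro j
    refine lt_of_le_of_lt ?_ (hE j)
    set X := (m + 1) * (γ + 1) * (D + 1) with hX
    have e1 : m * m.factorial ≤ (m + 1) ^ (m + 1) := by
      rw [pow_succ, mul_comm]
      exact Nat.mul_le_mul ((Nat.factorial_le_pow m).trans (Nat.pow_le_pow_left (Nat.le_succ m) m))
        (Nat.le_succ m)
    have e2 : (D + 1) ^ m * ((D + 1) ^ m * (m * γ)) + (D + 1) ^ m * D ≤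
        (D + 1) ^ (2 * m) * X := by
      have e3 : (D + 1) ^ m ≤ (D + 1) ^ (2 * m) := Nat.pow_le_pow_right (Nat.succ_pos _) (by omega)
      calc (D + 1) ^ m * ((D + 1) ^ m * (m * γ)) + (D + 1) ^ m * D
          = (D + 1) ^ (2 * m) * (m * γ) + (D + 1) ^ m * D := by ring
        _ ≤ (D + 1) ^ (2 * m) * (m * γ) + (D + 1) ^ (2 * m) * D :=
            Nat.add_le_add_left (Nat.mul_le_mul_right _ e3) _
        _ = (D + 1) ^ (2 * m) * (m * γ + D) := by ring
        _ ≤ (D + 1) ^ (2 * m) * X := Nat.mul_le_mul_left _ (by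
            have f1 : D ≤ (m + 1) * (γ + 1) * D :=
              Nat.le_mul_of_pos_left _ (Nat.mul_pos (Nat.succ_pos m) (Nat.succ_pos γ))
            have f2 : m * γ ≤ (m + 1) * (γ + 1) :=
              Nat.mul_le_mul (Nat.le_succ m) (Nat.le_succ γ)
            rw [hX, Nat.mul_succ]
            omega)
    calc m * m.factorial * (γ + 1) ^ (2 * m + 1) *
          ((D + 1) ^ m * ((D + 1) ^ m * (m * γ)) + (D + 1) ^ m * D)
        ≤ (m + 1) ^ (m + 1) * (γ + 1) ^ (2 * m + 1) * ((D + 1) ^ (2 * m) * X) :=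
          Nat.mul_le_mul (Nat.mul_le_mul_right _ e1) e2
      _ ≤ (m + 1) ^ (2 * m + 1) * (γ + 1) ^ (2 * m + 1) * ((D + 1) ^ (2 * m + 1) * X) := by
          refine Nat.mul_le_mul (Nat.mul_le_mul_right _ (Nat.pow_le_pow_right (Nat.succ_pos _)
            (by omega))) (Nat.mul_le_mul_right _ (Nat.pow_le_pow_right (Nat.succ_pos _)
            (by omega)))
      _ = X ^ (2 * m + 2) := by
          rw [show 2 * m + 2 = (2 * m + 1) + 1 from rfl, pow_succ X, hX, mul_pow, mul_pow]
          ring

/-- The other levels: equal exponents. -/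
lemma level_succ {v : Var n m → MvPolynomial (Fin n) F} {l : ℕ}
    (g : Fin m → MvPolynomial (Var n m) F) (E : ℕ)
    (hvg : ∀ j, v (.inr (l, j)) = (aeval v (g j)) ^ E)
    (hvars : ∀ j, ∀ u ∈ (g j).vars, Below l u) (γ : ℕ) (hγ : 1 ≤ γ)
    (hdeg : ∀ j, (g j).totalDegree ≤ γ) (D W : ℕ)
    (hind : ∀ (a b : Fin m → ℕ) (c : F), ∑ j, a j ≤ D + 1 → ∑ j, b j ≤ D + 1 →
      ∏ j, g j ^ a j = C c * ∏ j, g j ^ b j → a = b)
    (hl : InjOn v l (D * γ)) (hl1 : InjOn v l γ)
    (hW : ∀ u, Below l u → (v u).totalDegree ≤ W)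
    (hE : (D + 1) ^ (3 * m) * (D * W + 1) < E) :
    InjOn v (l + 1) D := by
  classical
  intro P hP hPD h0
  by_contra hP0
  obtain ⟨A, R, hR, hPsum⟩ := split P (fun j : Fin m => (Sum.inr (l, j) : Var n m))
    (fun a b h => by simpa using h)
  have hA : A.Nonempty := by
    rw [Finset.nonempty_iff_ne_empty]
    rintro rfl
    exact hP0 (by rw [hPsum, Finset.sum_empty])
  have hRvars : ∀ α ∈ A, ∀ u ∈ (R α).vars, Below l u := by
    intro α hα u hu
    obtain ⟨h1, h2⟩ := (hR α hα).2.2.1 u hu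
    have h3 := hP u h1
    rcases u with i | ⟨l', j⟩
    · trivial
    · have h4 : l' < l + 1 := h3
      show l' < l
      by_contra h5
      have h6 : l' = l := by omega
      subst h6
      exact h2 j rfl
  have hg0 : ∀ j, g j ≠ 0 := by
    intro j hj
    have h1 := hind (Pi.single j 1) 0 0 (by simp) (by simp) (by
      rw [C_0, zero_mul]
      refine Finset.prod_eq_zero (Finset.mem_univ j) ?_
      rw [Pi.single_eq_same, hj, pow_one])
    have h2 := congrFun h1 j
    rw [Pi.single_eq_same] at h2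
    exact one_ne_zero h2
  have hG0 : ∀ j, aeval v (g j) ≠ 0 := fun j h => hg0 j (hl1 _ (hvars j) (hdeg j) h)
  have h1 : ∑ α ∈ A, aeval v (R α) * (∏ j, (aeval v (g j)) ^ α j) ^ E = 0 := by
    rw [← h0]
    conv_rhs => rw [hPsum]
    rw [map_sum]
    refine Finset.sum_congr rfl fun α _ => ?_
    rw [map_mul, map_prod, ← Finset.prod_pow]
    congr 1
    refine Finset.prod_congr rfl fun j _ => ?_
    rw [map_pow, aeval_X, hvg, ← pow_mul, ← pow_mul, mul_comm]
  have h2 := congrArg (line F (Fin n)) h1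
  rw [map_zero, map_sum] at h2
  simp only [map_mul, map_prod, map_pow] at h2
  refine ns A hA (fun α => line F (Fin n) (aeval v (R α)))
    (fun α => ∏ j, (line F (Fin n) (aeval v (g j))) ^ α j) ?_ ?_ ?_ (D * W) E ?_ ?_ h2
  · intro α hα
    exact line_ne fun h => (hR α hα).1 (hl _ (hRvars α hα)
      (((hR α hα).2.1.trans hPD).trans (Nat.le_mul_of_pos_right _ hγ)) h)
  · intro α _
    exact Finset.prod_ne_zero_iff.2 fun j _ => pow_ne_zero _ (line_ne (hG0 j))
  · intro α hα β hβ hne c hc
    apply hne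
    have h3 : line F (Fin n) (∏ j, aeval v (g j) ^ α j) =
        Polynomial.C c * line F (Fin n) (∏ j, aeval v (g j) ^ β j) := by
      rw [map_prod, map_prod]
      simp only [map_pow]
      exact hc
    obtain ⟨c', hc'⟩ := line_prop (Finset.prod_ne_zero_iff.2 fun j _ => pow_ne_zero _ (hG0 j)) c h3
    have hα' := (hR α hα).2.2.2.trans hPD
    have hβ' := (hR β hβ).2.2.2.trans hPD
    exact hind α β c' (by omega) (by omega) (indep_values hl g hvars hdeg α β c'
      (Nat.mul_le_mul_right _ hα') (Nat.mul_le_mul_right _ hβ') hc')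
  · intro α hα
    refine (line_natDegree _).trans ((totalDegree_aeval_vars v W _ fun u hu =>
      hW u (hRvars α hα u hu)).trans ?_)
    exact Nat.mul_le_mul_right _ ((hR α hα).2.1.trans hPD)
  · refine lt_of_le_of_lt (Nat.mul_le_mul_right _ ?_) hE
    have h3 : A.card ≤ (D + 1) ^ m := card_le fun α hα => (hR α hα).2.2.2.trans hPD
    calc A.card ^ 3 ≤ ((D + 1) ^ m) ^ 3 := Nat.pow_le_pow_left h3 3
      _ = (D + 1) ^ (3 * m) := by rw [← pow_mul, mul_comm]

end Pool.Agent.W915.HG
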