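import Mathlib
import Pool.Agent.W915.HP1

/-!
# Substitutions which keep pairs linearly independent keep sums of high powers nonzero
-/

set_option autoImplicit false

namespace Pool.Agent.W915.HP

open MvPolynomial

variable {τ : Type} {n : ℕ}

/-- the field of rational functions in two copies of the variables -/
abbrev Kf (τ : Type) : Type := FractionRing (MvPolynomial (τ ⊕ τ) ℂ)

noncomputable def pa (v : τ) : Kf τ := algebraMap (MvPolynomial (τ ⊕ τ) ℂ) _ (X (Sum.inl v))
noncomputable def pb (v : τ) : Kf τ := algebraMap (MvPolynomial (τ ⊕ τ) ℂ) _ (X (Sum.inr v))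

/-- the generic line -/
noncomputable def line (τ : Type) : MvPolynomial τ ℂ →ₐ[ℂ] Polynomial (Kf τ) :=
  aeval fun v => Polynomial.C (pa v) + Polynomial.X * Polynomial.C (pb v - pa v)

lemma line_zero (p : MvPolynomial τ ℂ) : Polynomial.eval 0 (line τ p) =
    algebraMap (MvPolynomial (τ ⊕ τ) ℂ) (Kf τ) (rename Sum.inl p) := by
  induction p using MvPolynomial.induction_on with
  | C r =>
    rw [line, algHom_C, rename_C]
    show Polynomial.eval 0 (Polynomial.C (algebraMap ℂ (Kf τ) r)) = _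
    rw [Polynomial.eval_C, IsScalarTower.algebraMap_apply ℂ (MvPolynomial (τ ⊕ τ) ℂ) (Kf τ)]
    rfl
  | add p q hp hq => rw [map_add, Polynomial.eval_add, hp, hq, map_add, map_add]
  | mul_X p v hp =>
    rw [map_mul, Polynomial.eval_mul, hp, map_mul, map_mul, rename_X]
    congr 1
    rw [line, aeval_X]
    simp [pa]

lemma line_one (p : MvPolynomial τ ℂ) : Polynomial.eval 1 (line τ p) =
    algebraMap (MvPolynomial (τ ⊕ τ) ℂ) (Kf τ) (rename Sum.inr p) := by
  induction p using MvPolynomial.induction_on with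
  | C r =>
    rw [line, algHom_C, rename_C]
    show Polynomial.eval 1 (Polynomial.C (algebraMap ℂ (Kf τ) r)) = _
    rw [Polynomial.eval_C, IsScalarTower.algebraMap_apply ℂ (MvPolynomial (τ ⊕ τ) ℂ) (Kf τ)]
    rfl
  | add p q hp hq => rw [map_add, Polynomial.eval_add, hp, hq, map_add, map_add]
  | mul_X p v hp =>
    rw [map_mul, Polynomial.eval_mul, hp, map_mul, map_mul, rename_X]
    congr 1
    rw [line, aeval_X]
    simp [pa, pb]

lemma line_ne {p : MvPolynomial τ ℂ} (hp : p ≠ 0) : line τ p ≠ 0 := by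
  intro h
  have h1 := line_zero p
  rw [h, Polynomial.eval_zero] at h1
  have h2 := (IsFractionRing.injective (MvPolynomial (τ ⊕ τ) ℂ) (Kf τ))
    (h1.symm.trans (map_zero _).symm)
  exact hp ((rename_injective _ Sum.inl_injective) (h2.trans (map_zero _).symm))

lemma line_prop {p q : MvPolynomial τ ℂ} (hq : q ≠ 0) (c : Kf τ)
    (h : line τ p = Polynomial.C c * line τ q) : ∃ c' : ℂ, p = C c' * q := by
  have h0 := congrArg (Polynomial.eval 0) h
  have h1 := congrArg (Polynomial.eval 1) h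
  rw [Polynomial.eval_mul, Polynomial.eval_C, line_zero, line_zero] at h0
  rw [Polynomial.eval_mul, Polynomial.eval_C, line_one, line_one] at h1
  have h2 : rename Sum.inl p * rename Sum.inr q = rename Sum.inr p * rename Sum.inl q := by
    apply IsFractionRing.injective (MvPolynomial (τ ⊕ τ) ℂ) (Kf τ)
    rw [map_mul, map_mul, h0, h1]
    ring
  obtain ⟨α, hα⟩ : ∃ α : τ → ℂ, eval α q ≠ 0 := by
    by_contra hcon
    push Not at hcon
    exact hq (MvPolynomial.funext fun x => by rw [hcon x, map_zero])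
  have h3 := congrArg (aeval (Sum.elim (fun v => (C (α v) : MvPolynomial τ ℂ)) X)) h2
  have hl : ∀ f : MvPolynomial τ ℂ,
      aeval (Sum.elim (fun v => (C (α v) : MvPolynomial τ ℂ)) X) (rename Sum.inl f) =
        C (eval α f) := by
    intro f
    rw [aeval_rename, Sum.elim_comp_inl]
    induction f using MvPolynomial.induction_on with
    | C r => rw [algHom_C, eval_C]; rfl
    | add p q hp hq => rw [map_add, hp, hq, map_add, map_add]
    | mul_X p v hp => rw [map_mul, hp, aeval_X, map_mul, eval_X, map_mul]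
  have hr : ∀ f : MvPolynomial τ ℂ,
      aeval (Sum.elim (fun v => (C (α v) : MvPolynomial τ ℂ)) X) (rename Sum.inr f) = f := by
    intro f
    rw [aeval_rename, Sum.elim_comp_inr, aeval_X_left_apply]
  rw [map_mul, map_mul, hl, hr, hl, hr] at h3
  refine ⟨eval α p * (eval α q)⁻¹, ?_⟩
  have h4 : C (eval α q)⁻¹ * (p * C (eval α q)) = C (eval α q)⁻¹ * (C (eval α p) * q) := by
    rw [h3]
  have h5 : C (eval α q)⁻¹ * (p * C (eval α q)) = p * C ((eval α q)⁻¹ * eval α q) := by
    rw [C_mul]; ring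
  rw [h5, inv_mul_cancel₀ hα, C_1, mul_one] at h4
  refine h4.trans ?_
  rw [C_mul]
  ring

lemma line_natDegree (p : MvPolynomial τ ℂ) : (line τ p).natDegree ≤ p.totalDegree := by
  have h1 : line τ p = aeval (fun v => Polynomial.C (pa v) + Polynomial.X *
      Polynomial.C (pb v - pa v)) (map (algebraMap ℂ (Kf τ)) p) := by
    rw [aeval_map_algebraMap]
    rfl
  rw [h1]
  refine (MvPolynomial.aeval_natDegree_le (m := p.totalDegree) _
    (Finset.sup_mono (support_map_subset _ _)) _ (n := 1) fun v => ?_).trans (by rw [mul_one])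
  refine (Polynomial.natDegree_add_le _ _).trans (max_le ?_ ?_)
  · rw [Polynomial.natDegree_C]; exact Nat.zero_le _
  · refine Polynomial.natDegree_mul_le.trans ?_
    rw [Polynomial.natDegree_C, add_zero]
    exact Polynomial.natDegree_X_le

lemma totalDegree_aeval_le' {σ : Type} (f : σ → MvPolynomial τ ℂ) (D0 : ℕ)
    (hf : ∀ i, (f i).totalDegree ≤ D0) (R : MvPolynomial σ ℂ) :
    (aeval f R).totalDegree ≤ R.totalDegree * D0 := by
  classical
  rw [aeval_def, eval₂_eq]
  refine (totalDegree_finsetSum _ _).trans (Finset.sup_le fun d hd => ?_)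
  refine (totalDegree_mul _ _).trans ?_
  have h1 : (algebraMap ℂ (MvPolynomial τ ℂ) (coeff d R)).totalDegree = 0 := totalDegree_C _
  rw [h1, zero_add]
  refine (totalDegree_finsetProd _ _).trans ?_
  refine (Finset.sum_le_sum (g := fun i => d i * D0) fun i _ =>
    (totalDegree_pow _ _).trans (Nat.mul_le_mul_left _ (hf i))).trans ?_
  rw [← Finset.sum_mul]
  refine Nat.mul_le_mul_right _ ?_
  exact le_totalDegree hd

/-- The theorem of Newman and Slater behind a substitution. -/
theorem ns_mv (φ : MvPolynomial (Fin n) ℂ →ₐ[ℂ] MvPolynomial τ ℂ) (D0 : ℕ)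
    (hφ : ∀ i, (φ (X i)).totalDegree ≤ D0) {ι : Type*} [DecidableEq ι] (t : Finset ι)
    (ht : t.Nonempty) (R G : ι → MvPolynomial (Fin n) ℂ) (hR : ∀ i ∈ t, φ (R i) ≠ 0)
    (hG : ∀ i ∈ t, φ (G i) ≠ 0)
    (hprop : ∀ i ∈ t, ∀ j ∈ t, i ≠ j → ∀ c : ℂ, φ (G i) ≠ C c * φ (G j)) (δ E : ℕ)
    (hδ : ∀ i ∈ t, (R i).totalDegree ≤ δ) (hE : t.card ^ 3 * (δ * D0 + 1) < E) :
    φ (∑ i ∈ t, R i * G i ^ E) ≠ 0 := by
  intro h
  have h1 := congrArg (line τ) h
  rw [map_zero, map_sum, map_sum] at h1
  simp only [map_mul, map_pow] at h1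
  refine ns t ht (fun i => line τ (φ (R i))) (fun i => line τ (φ (G i)))
    (fun i hi => line_ne (hR i hi)) (fun i hi => line_ne (hG i hi)) ?_ (δ * D0) E ?_ hE h1
  · intro i hi j hj hij c hc
    obtain ⟨c', hc'⟩ := line_prop (hG j hj) c hc
    exact hprop i hi j hj hij c' hc'
  · intro i hi
    refine (line_natDegree _).trans ?_
    have h2 : φ (R i) = aeval (fun j => φ (X j)) (R i) :=
      congrArg (fun g : MvPolynomial (Fin n) ℂ →ₐ[ℂ] MvPolynomial τ ℂ => g (R i)) (aeval_unique φ)
    rw [h2]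
    exact (totalDegree_aeval_le' _ D0 hφ _).trans (Nat.mul_le_mul_right _ (hδ i hi))

end Pool.Agent.W915.HP
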