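import Mathlib
import Pool.Agent.W915.HP2

/-!
# Layers of sums of high powers
-/

set_option autoImplicit false

namespace Pool.Agent.W915.HP

open MvPolynomial

variable {τ : Type} {n : ℕ}

/-- `φ` is injective on the span of any two members of `S`. -/
def PairInj (φ : MvPolynomial (Fin n) ℂ →ₐ[ℂ] MvPolynomial τ ℂ)
    (S : Set (MvPolynomial (Fin n) ℂ)) : Prop :=
  ∀ a ∈ S, ∀ b ∈ S, ∀ x y : ℂ, φ (C x * a + C y * b) = 0 → C x * a + C y * b = 0

/-- products of `R` members of `S` -/
def Prods (S : Set (MvPolynomial (Fin n) ℂ)) (R : ℕ) : Set (MvPolynomial (Fin n) ℂ) :=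
  {f | ∃ g : Fin R → MvPolynomial (Fin n) ℂ, (∀ j, g j ∈ S) ∧ f = ∏ j, g j}

/-- sums of `k` products of a polynomial with at most `s` monomials and degree at most `δ` and the
`E`-th power of a product of `r` members of `S` -/
def Next (S : Set (MvPolynomial (Fin n) ℂ)) (k r s δ E : ℕ) : Set (MvPolynomial (Fin n) ℂ) :=
  {f | ∃ (R : Fin k → MvPolynomial (Fin n) ℂ) (g : Fin k → Fin r → MvPolynomial (Fin n) ℂ),
    (∀ i, (R i).support.card ≤ s ∧ (R i).totalDegree ≤ δ) ∧ (∀ i j, g i j ∈ S) ∧
      f = ∑ i, R i * (∏ j, g i j) ^ E}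

lemma PairInj.ne {φ : MvPolynomial (Fin n) ℂ →ₐ[ℂ] MvPolynomial τ ℂ}
    {S : Set (MvPolynomial (Fin n) ℂ)} (h : PairInj φ S) {a : MvPolynomial (Fin n) ℂ}
    (ha : a ∈ S) (h0 : a ≠ 0) : φ a ≠ 0 := by
  intro hc
  apply h0
  have h1 := h a ha a ha 1 0 (by simpa using hc)
  simpa using h1

lemma card_support_C_mul_le (c : ℂ) (p : MvPolynomial (Fin n) ℂ) :
    (C c * p).support.card ≤ p.support.card := by
  rw [C_mul']
  exact Finset.card_le_card (support_smul)

lemma card_support_add_le (p q : MvPolynomial (Fin n) ℂ) :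
    (p + q).support.card ≤ p.support.card + q.support.card := by
  classical
  exact (Finset.card_le_card support_add).trans (Finset.card_union_le _ _)

lemma card_support_mul_le (p q : MvPolynomial (Fin n) ℂ) :
    (p * q).support.card ≤ p.support.card * q.support.card := by
  classical
  exact (Finset.card_le_card (support_mul p q)).trans (Finset.card_add_le)

lemma card_support_prod_le {R s : ℕ} (f : Fin R → MvPolynomial (Fin n) ℂ)
    (hf : ∀ x, (f x).support.card ≤ s) : (∏ x, f x).support.card ≤ s ^ R := by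
  classical
  induction R with
  | zero =>
    rw [Finset.univ_eq_empty, Finset.prod_empty, pow_zero]
    have h : (1 : MvPolynomial (Fin n) ℂ) = monomial 0 1 := rfl
    rw [h]
    refine (Finset.card_le_card support_monomial_subset).trans ?_
    simp
  | succ R ih =>
    rw [Fin.prod_univ_castSucc, pow_succ]
    exact (card_support_mul_le _ _).trans (Nat.mul_le_mul (ih _ fun x => hf _) (hf _))

/-- Sums of high powers. -/
theorem core (φ : MvPolynomial (Fin n) ℂ →ₐ[ℂ] MvPolynomial τ ℂ) (D0 : ℕ)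
    (hφ : ∀ i, (φ (X i)).totalDegree ≤ D0) {T : Set (MvPolynomial (Fin n) ℂ)}
    (hT : PairInj φ T) (δ E M K : ℕ)
    (hsp : ∀ h : MvPolynomial (Fin n) ℂ, h.support.card ≤ M → h ≠ 0 → φ h ≠ 0)
    (hE : K ^ 3 * (δ * D0 + 1) < E) {ι : Type*} [DecidableEq ι] :
    ∀ (m : ℕ) (t : Finset ι) (R G : ι → MvPolynomial (Fin n) ℂ), t.card = m → m ≤ K →
      ∑ i ∈ t, (R i).support.card ≤ M → (∀ i ∈ t, (R i).totalDegree ≤ δ) →
      (∀ i ∈ t, G i ∈ T) → φ (∑ i ∈ t, R i * G i ^ E) = 0 → ∑ i ∈ t, R i * G i ^ E = 0 := by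
  intro m
  have hE0 : E ≠ 0 := by omega
  induction m using Nat.strong_induction_on with
  | _ m ih =>
    intro t R G htm hmK hM hδ hG h0
    rcases t.eq_empty_or_nonempty with rfl | hne
    · simp
    by_cases hz : ∃ i ∈ t, R i = 0 ∨ G i = 0
    · obtain ⟨i, hi, hz⟩ := hz
      have hti : R i * G i ^ E = 0 := by
        rcases hz with h | h
        · rw [h, zero_mul]
        · rw [h, zero_pow hE0, mul_zero]
      have hsum : ∑ j ∈ t, R j * G j ^ E = ∑ j ∈ t.erase i, R j * G j ^ E := by
        rw [← Finset.add_sum_erase t _ hi, hti, zero_add]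
      have hlt : (t.erase i).card < m := by
        rw [← htm]; exact Finset.card_erase_lt_of_mem hi
      rw [hsum] at h0 ⊢
      exact ih _ hlt (t.erase i) R G rfl (by omega)
        ((Finset.sum_le_sum_of_subset (Finset.erase_subset _ _)).trans hM)
        (fun j hj => hδ j (Finset.mem_of_mem_erase hj))
        (fun j hj => hG j (Finset.mem_of_mem_erase hj)) h0
    · push Not at hz
      by_cases hp : ∃ i ∈ t, ∃ j ∈ t, i ≠ j ∧ ∃ c : ℂ, φ (G i) = C c * φ (G j)
      · obtain ⟨i, hi, j, hj, hij, c, hc⟩ := hp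
        have hGc : G i = C c * G j := by
          have h1 := hT (G i) (hG i hi) (G j) (hG j hj) 1 (-c) (by
            rw [map_add, map_mul, map_mul, algHom_C, algHom_C, hc]
            show C (1 : ℂ) * (C c * φ (G j)) + C (-c) * φ (G j) = 0
            rw [C_1, C_neg]
            ring)
          rw [C_1, C_neg] at h1
          linear_combination h1
        set R' : ι → MvPolynomial (Fin n) ℂ := Function.update R j (R j + C (c ^ E) * R i) with hR'
        have hj' : j ∈ t.erase i := Finset.mem_erase.2 ⟨fun h => hij h.symm, hj⟩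
        have hsum : ∑ l ∈ t, R l * G l ^ E = ∑ l ∈ t.erase i, R' l * G l ^ E := by
          rw [← Finset.add_sum_erase t _ hi, ← Finset.add_sum_erase (t.erase i) _ hj',
            ← Finset.add_sum_erase (t.erase i) (fun l => R' l * G l ^ E) hj']
          have h1 : ∑ l ∈ (t.erase i).erase j, R' l * G l ^ E =
              ∑ l ∈ (t.erase i).erase j, R l * G l ^ E := by
            refine Finset.sum_congr rfl fun l hl => ?_
            rw [hR', Function.update_of_ne (Finset.ne_of_mem_erase hl)]
          rw [h1, hR', Function.update_self, hGc, mul_pow, ← C_pow]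
          ring
        have hlt : (t.erase i).card < m := by
          rw [← htm]; exact Finset.card_erase_lt_of_mem hi
        rw [hsum] at h0 ⊢
        refine ih _ hlt (t.erase i) R' G rfl (by omega) ?_ ?_
          (fun l hl => hG l (Finset.mem_of_mem_erase hl)) h0
        · rw [← Finset.add_sum_erase (t.erase i) (fun l => (R' l).support.card) hj']
          have h1 : ∑ l ∈ (t.erase i).erase j, (R' l).support.card =
              ∑ l ∈ (t.erase i).erase j, (R l).support.card := by
            refine Finset.sum_congr rfl fun l hl => ?_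
            rw [hR', Function.update_of_ne (Finset.ne_of_mem_erase hl)]
          rw [h1]
          rw [← Finset.add_sum_erase t _ hi, ← Finset.add_sum_erase (t.erase i) _ hj'] at hM
          have h2 : (R' j).support.card ≤ (R j).support.card + (R i).support.card := by
            rw [hR', Function.update_self]
            exact (card_support_add_le _ _).trans
              (Nat.add_le_add_left (card_support_C_mul_le _ _) _)
          omega
        · intro l hl
          by_cases hlj : l = j
          · subst hlj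
            rw [hR', Function.update_self]
            refine (totalDegree_add _ _).trans (max_le (hδ _ hj) ?_)
            refine (totalDegree_mul _ _).trans ?_
            rw [totalDegree_C, zero_add]
            exact hδ _ hi
          · rw [hR', Function.update_of_ne hlj]
            exact hδ l (Finset.mem_of_mem_erase hl)
      · push Not at hp
        exfalso
        refine ns_mv φ D0 hφ t hne R G ?_ (fun i hi => hT.ne (hG i hi) (hz i hi).2) hp δ E hδ ?_ h0
        · intro i hi
          refine hsp (R i) ?_ (hz i hi).1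
          exact (Finset.single_le_sum (f := fun i => (R i).support.card)
            (fun _ _ => Nat.zero_le _) hi).trans hM
        · refine lt_of_le_of_lt (Nat.mul_le_mul_right _ (Nat.pow_le_pow_left ?_ 3)) hE
          omega

/-- One layer. -/
theorem step (φ : MvPolynomial (Fin n) ℂ →ₐ[ℂ] MvPolynomial τ ℂ) (D0 : ℕ)
    (hφ : ∀ i, (φ (X i)).totalDegree ≤ D0) {S : Set (MvPolynomial (Fin n) ℂ)}
    (k r s δ E R : ℕ) (hS : PairInj φ (Prods S (R * r)))
    (hsp : ∀ h : MvPolynomial (Fin n) ℂ, h.support.card ≤ 2 * (k * s) ^ R → h ≠ 0 → φ h ≠ 0)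
    (hE : (2 * k ^ R) ^ 3 * (R * δ * D0 + 1) < E) :
    PairInj φ (Prods (Next S k r s δ E) R) := by
  classical
  rintro a ⟨fa, hfa, rfl⟩ b ⟨fb, hfb, rfl⟩ x y h0
  choose Ra ga hRa hga hea using hfa
  choose Rb gb hRb hgb heb using hfb
  have hexp : ∀ (f : Fin R → MvPolynomial (Fin n) ℂ) (Q : Fin R → Fin k → MvPolynomial (Fin n) ℂ)
      (g : Fin R → Fin k → Fin r → MvPolynomial (Fin n) ℂ),
      (∀ z, f z = ∑ i, Q z i * (∏ j, g z i j) ^ E) →
      ∏ z, f z = ∑ p : Fin R → Fin k, (∏ z, Q z (p z)) * (∏ z, ∏ j, g z (p z) j) ^ E := by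
    intro f Q g hf
    rw [Finset.prod_congr rfl fun z _ => hf z, Finset.prod_univ_sum, Fintype.piFinset_univ]
    refine Finset.sum_congr rfl fun p _ => ?_
    rw [Finset.prod_mul_distrib, Finset.prod_pow]
  have hmem : ∀ (g : Fin R → Fin k → Fin r → MvPolynomial (Fin n) ℂ),
      (∀ z i j, g z i j ∈ S) → ∀ p : Fin R → Fin k,
      (∏ z, ∏ j, g z (p z) j) ∈ Prods S (R * r) := by
    intro g hg p
    refine ⟨fun u => g (finProdFinEquiv.symm u).1 (p (finProdFinEquiv.symm u).1)
      (finProdFinEquiv.symm u).2, fun u => hg _ _ _, ?_⟩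
    rw [Equiv.prod_comp finProdFinEquiv.symm
      (fun u : Fin R × Fin r => g u.1 (p u.1) u.2), Fintype.prod_prod_type]
  have hprodsupp : ∀ (Q : Fin R → Fin k → MvPolynomial (Fin n) ℂ),
      (∀ z i, (Q z i).support.card ≤ s) → ∀ p : Fin R → Fin k,
      (∏ z, Q z (p z)).support.card ≤ s ^ R := fun Q hQ p =>
    card_support_prod_le _ fun z => hQ z (p z)
  have hproddeg : ∀ (Q : Fin R → Fin k → MvPolynomial (Fin n) ℂ),
      (∀ z i, (Q z i).totalDegree ≤ δ) → ∀ p : Fin R → Fin k,
      (∏ z, Q z (p z)).totalDegree ≤ R * δ := by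
    intro Q hQ p
    refine (totalDegree_finsetProd _ _).trans ?_
    refine (Finset.sum_le_card_nsmul _ _ δ fun z _ => hQ z (p z)).trans (le_of_eq ?_)
    rw [Finset.card_univ, Fintype.card_fin, smul_eq_mul]
  set ι := (Fin R → Fin k) ⊕ (Fin R → Fin k) with hι
  let Q : ι → MvPolynomial (Fin n) ℂ := Sum.elim (fun p => C x * ∏ z, Ra z (p z))
    (fun p => C y * ∏ z, Rb z (p z))
  let G : ι → MvPolynomial (Fin n) ℂ := Sum.elim (fun p => ∏ z, ∏ j, ga z (p z) j)
    (fun p => ∏ z, ∏ j, gb z (p z) j)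
  have hsum : C x * ∏ z, fa z + C y * ∏ z, fb z = ∑ i : ι, Q i * G i ^ E := by
    rw [Fintype.sum_sum_type, hexp fa Ra ga hea, hexp fb Rb gb heb, Finset.mul_sum,
      Finset.mul_sum]
    congr 1
    · exact Finset.sum_congr rfl fun p _ => (mul_assoc _ _ _).symm
    · exact Finset.sum_congr rfl fun p _ => (mul_assoc _ _ _).symm
  have hcard : Fintype.card ι = 2 * k ^ R := by
    show Fintype.card ((Fin R → Fin k) ⊕ (Fin R → Fin k)) = _
    rw [Fintype.card_sum, Fintype.card_fun, Fintype.card_fin, Fintype.card_fin]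
    ring
  rw [hsum] at h0 ⊢
  refine core φ D0 hφ hS (R * δ) E (2 * (k * s) ^ R) (2 * k ^ R) hsp hE (Fintype.card ι)
    Finset.univ Q G Finset.card_univ hcard.le ?_ ?_ ?_ h0
  · rw [Fintype.sum_sum_type]
    have h1 : ∀ p : Fin R → Fin k, (Q (Sum.inl p)).support.card ≤ s ^ R := fun p =>
      (card_support_C_mul_le _ _).trans (hprodsupp Ra (fun z i => (hRa z i).1) p)
    have h2 : ∀ p : Fin R → Fin k, (Q (Sum.inr p)).support.card ≤ s ^ R := fun p =>
      (card_support_C_mul_le _ _).trans (hprodsupp Rb (fun z i => (hRb z i).1) p)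
    have h3 : (Finset.univ : Finset (Fin R → Fin k)).card = k ^ R := by
      rw [Finset.card_univ, Fintype.card_fun, Fintype.card_fin, Fintype.card_fin]
    refine (Nat.add_le_add (Finset.sum_le_card_nsmul _ _ _ fun p _ => h1 p)
      (Finset.sum_le_card_nsmul _ _ _ fun p _ => h2 p)).trans (le_of_eq ?_)
    rw [h3, smul_eq_mul, mul_pow]
    ring
  · rintro (p | p) _
    · refine (totalDegree_mul _ _).trans ?_
      rw [totalDegree_C, zero_add]
      exact hproddeg Ra (fun z i => (hRa z i).2) p
    · refine (totalDegree_mul _ _).trans ?_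
      rw [totalDegree_C, zero_add]
      exact hproddeg Rb (fun z i => (hRb z i).2) p
  · rintro (p | p) _
    · exact hmem ga hga p
    · exact hmem gb hgb p

/-- layers over the set `S` -/
def Lay (S : Set (MvPolynomial (Fin n) ℂ)) (k r s δ : ℕ) (E : ℕ → ℕ) :
    ℕ → Set (MvPolynomial (Fin n) ℂ)
  | 0 => S
  | l + 1 => Next (Lay S k r s δ E l) k r s δ (E l)

theorem layers (φ : MvPolynomial (Fin n) ℂ →ₐ[ℂ] MvPolynomial τ ℂ) (D0 : ℕ)
    (hφ : ∀ i, (φ (X i)).totalDegree ≤ D0) {S : Set (MvPolynomial (Fin n) ℂ)}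
    (k r s δ L ρ : ℕ) (E : ℕ → ℕ) (hr : 1 ≤ r) (hρ : r ^ L ≤ ρ)
    (hS : PairInj φ (Prods S (r ^ L)))
    (hsp : ∀ h : MvPolynomial (Fin n) ℂ, h.support.card ≤ 2 * (k * s + 1) ^ ρ → h ≠ 0 → φ h ≠ 0)
    (hE : ∀ l < L, (2 * (k + 1) ^ ρ) ^ 3 * (ρ * δ * D0 + 1) < E l) :
    PairInj φ (Lay S k r s δ E L) := by
  have key : ∀ l ≤ L, PairInj φ (Prods (Lay S k r s δ E l) (r ^ (L - l))) := by
    intro l
    induction l with
    | zero => intro _; simpa [Lay] using hS
    | succ l ih =>
      intro hl
      have h1 := ih (by omega)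
      have h2 : r ^ (L - l) = r ^ (L - (l + 1)) * r := by
        rw [← pow_succ]
        congr 1
        omega
      rw [h2] at h1
      have h3 : r ^ (L - (l + 1)) ≤ ρ := (Nat.pow_le_pow_right hr (Nat.sub_le _ _)).trans hρ
      refine step φ D0 hφ k r s δ (E l) _ h1 (fun h hh => hsp h (hh.trans ?_)) ?_
      · refine Nat.mul_le_mul_left _ ((Nat.pow_le_pow_left (Nat.le_succ _) _).trans ?_)
        exact Nat.pow_le_pow_right (Nat.succ_pos _) h3
      · refine lt_of_le_of_lt (Nat.mul_le_mul (Nat.pow_le_pow_left (Nat.mul_le_mul_left _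
          ((Nat.pow_le_pow_left (Nat.le_succ _) _).trans
            (Nat.pow_le_pow_right (Nat.succ_pos _) h3))) 3) ?_) (hE l (by omega))
        exact Nat.add_le_add_right (Nat.mul_le_mul_right _ (Nat.mul_le_mul_right _ h3)) 1
  have h := key L le_rfl
  rw [Nat.sub_self, pow_zero] at h
  intro a ha b hb
  exact h a ⟨fun _ => a, fun _ => ha, by simp⟩ b ⟨fun _ => b, fun _ => hb, by simp⟩

end Pool.Agent.W915.HP
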