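import Mathlib
import Pool.Agent.W936.RO.Ext

/-!
# Sums of products of formulas

Definitions and lemmas of helper936 (file `SumsOfSparseFormulas` of `MP_c2aa42_lc`), with a
hitting theorem for all large base parameters.
-/

set_option autoImplicit false

namespace Pool.Agent.W915.SSF

open MvPolynomial

/-- Formulas in `n` variables: the leaves are polynomials, a gate computes
`c₀ + c₁ a + c₂ b + c₃ a b` from the values `a`, `b` of its arguments (in particular `a + b`,
`a - b` and `a b`). -/
inductive Formula (n : ℕ) : Type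
  | leaf (g : MvPolynomial (Fin n) ℂ) : Formula n
  | gate (c₀ c₁ c₂ c₃ : ℂ) (a b : Formula n) : Formula n

variable {n : ℕ}

/-- the polynomial computed by a formula -/
noncomputable def Formula.value : Formula n → MvPolynomial (Fin n) ℂ
  | .leaf g => g
  | .gate c₀ c₁ c₂ c₃ a b => C c₀ + C c₁ * a.value + C c₂ * b.value + C c₃ * (a.value * b.value)

open Classical in
/-- the number of leaves in which the variable `x` occurs -/
noncomputable def Formula.reads : Formula n → Fin n → ℕ
  | .leaf g, x => if x ∈ g.vars then 1 else 0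
  | .gate _ _ _ _ a b, x => a.reads x + b.reads x

/-- all leaves have the property `L` -/
def Formula.Leaves (L : MvPolynomial (Fin n) ℂ → Prop) : Formula n → Prop
  | .leaf g => L g
  | .gate _ _ _ _ a b => a.Leaves L ∧ b.Leaves L

/-- the number of leaves -/
def Formula.size : Formula n → ℕ
  | .leaf _ => 1
  | .gate _ _ _ _ a b => a.size + b.size

/-- the outermost gate is a sum -/
def Formula.IsSum : Formula n → Prop
  | .leaf _ => False
  | .gate _ _ _ c₃ _ _ => c₃ = 0

open Classical in
/-- the maximal number of blocks of consecutive sum gates (`c₃ = 0`) on a path from the output to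
a leaf -/
noncomputable def Formula.sumDepth : Formula n → ℕ
  | .leaf _ => 0
  | .gate _ _ _ c₃ a b => if c₃ = 0 then
      max (if a.IsSum then a.sumDepth else a.sumDepth + 1)
        (if b.IsSum then b.sumDepth else b.sumDepth + 1)
    else max a.sumDepth b.sumDepth

/-- `Rank w false t S E`: the formula `E` has rank at most `t` (relative to the set `S` of
variables), and `Rank w true t ∅ E`: it has spine rank at most `t`.
* Spine rank at most `t`: leaves; sums (gates with `c₃ = 0`) of two formulas of spine rank at most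
  `t`; and, if `t ≥ 1`, all gates with one argument of spine rank at most `t` and one of rank at
  most `t - 1`.
* Rank at most `t`: formulas of spine rank at most `t`; all gates with `c₃ ≠ 0` of two formulas of
  rank at most `t` relative to the same set `S`; and all gates (`bag`) of formulas of rank at
  most `t` relative to a bag `B` of at most `w` variables, which contains all variables occurring
  in both arguments and all variables of `S` occurring in one of them. -/
inductive Rank (w : ℕ) : Bool → ℕ → Finset (Fin n) → Formula n → Prop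
  | leaf (t : ℕ) (g : MvPolynomial (Fin n) ℂ) : Rank w true t ∅ (.leaf g)
  | sum {t : ℕ} {c₀ c₁ c₂ : ℂ} {a b : Formula n} :
      Rank w true t ∅ a → Rank w true t ∅ b → Rank w true t ∅ (.gate c₀ c₁ c₂ 0 a b)
  | left {t : ℕ} {c₀ c₁ c₂ c₃ : ℂ} {a b : Formula n} :
      Rank w true (t + 1) ∅ a → Rank w false t ∅ b →
        Rank w true (t + 1) ∅ (.gate c₀ c₁ c₂ c₃ a b)
  | right {t : ℕ} {c₀ c₁ c₂ c₃ : ℂ} {a b : Formula n} :
      Rank w false t ∅ a → Rank w true (t + 1) ∅ b →
        Rank w true (t + 1) ∅ (.gate c₀ c₁ c₂ c₃ a b)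
  | spine {t : ℕ} {S : Finset (Fin n)} {E : Formula n} : Rank w true t ∅ E → Rank w false t S E
  | product {t : ℕ} {S : Finset (Fin n)} {c₀ c₁ c₂ c₃ : ℂ} {a b : Formula n} : c₃ ≠ 0 →
      Rank w false t S a → Rank w false t S b → Rank w false t S (.gate c₀ c₁ c₂ c₃ a b)
  | bag {t : ℕ} {S B : Finset (Fin n)} {c₀ c₁ c₂ c₃ : ℂ} {a b : Formula n} : B.card ≤ w →
      (∀ x, 0 < a.reads x → 0 < b.reads x → x ∈ B) →
      (∀ x ∈ S, 0 < a.reads x + b.reads x → x ∈ B) →
      Rank w false t B a → Rank w false t B b → Rank w false t S (.gate c₀ c₁ c₂ c₃ a b)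

/-- The contents of `u` registers after `b` steps. The registers start with the constants `c₀`;
step `b` multiplies the vector of the contents by the matrix `M b`. -/
noncomputable def contents {n u : ℕ} (c₀ : Fin u → ℂ)
    (M : ℕ → Matrix (Fin u) (Fin u) (MvPolynomial (Fin n) ℂ)) : ℕ → Fin u → MvPolynomial (Fin n) ℂ
  | 0 => fun j => C (c₀ j)
  | b + 1 => Matrix.vecMul (contents c₀ M b) (M b)

/-- `Prog w s D f`: the polynomial `f` is computed with depth `D`.
* Depth `0`: polynomials with at most `s` monomials which are univariate, or in which every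
  variable occurs with at most `w` different exponents.
* `program` (depth `D + 1`): a polynomial `P` in the contents of the at most `w` registers of a
  linear program of any length `R`, whose matrices have entries of depth `D`, where every variable
  occurs in at most `w` of the matrices `M 0, …, M (R - 1)`. -/
inductive Prog {n : ℕ} (w s : ℕ) : ℕ → MvPolynomial (Fin n) ℂ → Prop
  | sparse {f : MvPolynomial (Fin n) ℂ} : f.support.card ≤ s →
      (f.vars.card ≤ 1 ∨ ∀ i, (f.support.image fun a => a i).card ≤ w) → Prog w s 0 f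
  | program {D u : ℕ} (c₀ : Fin u → ℂ)
      (M : ℕ → Matrix (Fin u) (Fin u) (MvPolynomial (Fin n) ℂ)) (R : ℕ)
      (P : MvPolynomial (Fin u) ℂ) : u ≤ w →
      (∀ x, ((Finset.range R).filter fun b => ∃ i j, x ∈ (M b i j).vars).card ≤ w) →
      (∀ b i j, Prog w s D (M b i j)) → Prog w s (D + 1) (aeval (contents c₀ M R) P)

/-- a polynomial in `w` formulas of rank at most `t` over leaves of depth `D`, where every variable
occurs in at most `w` leaves of each formula -/
def Composite (w s D t : ℕ) (g : MvPolynomial (Fin n) ℂ) : Prop :=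
  ∃ (E : Fin w → Formula n) (P : MvPolynomial (Fin w) ℂ),
    (∀ i, (E i).Leaves (Prog w s D) ∧ (∀ x, (E i).reads x ≤ w) ∧ Rank w false t ∅ (E i)) ∧
      g = aeval (fun i => (E i).value) P

/-- a polynomial in finitely many products of any number of members of `Composite w s D t`, no
`κ + 1` of which are algebraically independent; for instance a sum of `κ` such products -/
def Sums (w s D t κ : ℕ) (f : MvPolynomial (Fin n) ℂ) : Prop :=
  ∃ (N : ℕ) (T : Fin N → Multiset (MvPolynomial (Fin n) ℂ)),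
    (∀ i, ∀ g ∈ T i, Composite w s D t g) ∧
    (∀ u : Fin (κ + 1) → Fin N, ¬ AlgebraicIndependent ℂ (fun a => (T (u a)).prod)) ∧
    f ∈ Algebra.adjoin ℂ (Set.range fun i => (T i).prod)

/-- `∑_{i ≤ N} (v - 1)^i (u choose i)`, which is equal to `v ^ u` for `u ≤ N` -/
def power (N v u : ℕ) : ℕ := ∑ i ∈ Finset.range (N + 1), (v - 1) ^ i * u.choose i

/-- The point with seeds `u ∈ ℕ`, `y, z ∈ ℕ^m`: its `i`-th coordinate is
`power N p_i u + ∑_l y_l ∏_{k ≠ i} (z_l - k)`, where `p_0 = 2, p_1 = 3, …` are the primes. -/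
noncomputable def point (n m N u : ℕ) (y z : Fin m → ℕ) : Fin n → ℤ := fun i =>
  (power N (Nat.nth Nat.Prime i) u : ℤ) +
    ∑ l : Fin m, (y l : ℤ) * ∏ k ∈ Finset.univ.erase i, ((z l : ℤ) - ((k : ℕ) : ℤ))

/-- The explicit set of all points with seeds `u ∈ {0,…,Nd}`, `y ∈ {0,…,d}^m`,
`z ∈ {0,…,nd}^m`. -/
noncomputable def points (n m N d : ℕ) : Finset (Fin n → ℤ) :=
  ((Finset.range (N * d + 1)) ×ˢ ((Fintype.piFinset fun _ : Fin m => Finset.range (d + 1)) ×ˢ
    (Fintype.piFinset fun _ : Fin m => Finset.range (n * d + 1)))).image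
    fun uyz => point n m N uyz.1 uyz.2.1 uyz.2.2

open Pool.Agent.H530R2 Pool.Agent.W936.RO

open Pool.Agent.H626R2.Loc (evG base)

/-- the parameter of the classes -/
def bd (w : ℕ) : ℕ → ℕ
  | 0 => 1
  | D + 1 => bd w D + w * w + w

/-- the number of coefficients -/
def nc (w k : ℕ) : ℕ → ℕ
  | 0 => (w + 1) ^ k
  | D + 1 => (k * w) * (w * w + w * w * nc w k D) + w * w

theorem contents_eq {n u : ℕ} (c₀ : Fin u → ℂ)
    (M : ℕ → Matrix (Fin u) (Fin u) (MvPolynomial (Fin n) ℂ)) (b : ℕ) :
    contents c₀ M b = lin (fun j => C (c₀ j)) M b := by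
  induction b with
  | zero => rfl
  | succ b ih => simp only [contents, lin, ih]

theorem prog_mem {n w s D k : ℕ} (𝔎 : Fam (RatFunc ℂ)) (σ : ℕ)
    (h𝔎 : ∀ f : MvPolynomial (Fin n) ℂ, f.support.card ≤ s → sext f ∈ 𝔎.K σ n 1)
    {f : MvPolynomial (Fin n) ℂ} (h : Prog w s D f) :
    sext f ∈ (up 𝔎 D).K σ n (bd w D) ∧
      ∀ A : Finset (Fin n), A.card ≤ k → Gn ((up 𝔎 D).K σ n (bd w D)) A (nc w k D) (sext f) := by
  classical
  induction h with
  | @sparse f hf hw =>
    refine ⟨h𝔎 f hf, fun A hA => ?_⟩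
    rcases hw with hw | hw
    · exact Gn.ext (univ_gn hf hw (Nat.one_le_pow _ _ (Nat.succ_pos w))) h𝔎
    · refine Gn.ext (sparse_gn hf (fun i => ?_) hA) h𝔎
      refine le_trans (le_of_eq ?_) (hw i)
      congr!
  | @program D u c₀ M R P hu hocc _ ih =>
    have hκ : ∀ x, ((Finset.range R).filter fun b =>
        x ∈ mv ((M b).map (map (algebraMap ℂ (RatFunc ℂ))))).card ≤ w := by
      intro x
      refine le_trans (Finset.card_le_card (t := (Finset.range R).filter fun b =>
        ∃ i j, x ∈ (M b i j).vars) ?_) (le_trans (le_of_eq ?_) (hocc x))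
      · intro b hb
        rw [Finset.mem_filter] at hb ⊢
        refine ⟨hb.1, ?_⟩
        obtain ⟨i, j, hij⟩ := mem_mv.1 hb.2
        rw [Matrix.map_apply] at hij
        exact ⟨i, j, by rwa [ext_vars] at hij⟩
      · congr!
    have huu : u * u ≤ w * w := Nat.mul_le_mul hu hu
    have hc : ∀ i, ∃ y, (fun j => C (algebraMap ℂ (RatFunc ℂ) (c₀ j)) :
        Fin u → MvPolynomial (Fin n) (RatFunc ℂ)) i = C y := fun i => ⟨_, rfl⟩
    have hbd : 1 ≤ bd w D := by
      clear * -
      induction D with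
      | zero => exact le_rfl
      | succ D ih => simp only [bd]; omega
    have hf : sext (aeval (contents c₀ M R) P) ∈
        Algebra.adjoin (RatFunc ℂ) (Set.range (lin (fun j => C (algebraMap ℂ (RatFunc ℂ) (c₀ j)))
          (fun t => (M t).map (map (algebraMap ℂ (RatFunc ℂ)))) R)) := by
      rw [ext_aeval, Algebra.adjoin_range_eq_range_aeval]
      refine ⟨map (algebraMap ℂ (RatFunc ℂ)) P, ?_⟩
      show aeval _ _ = aeval _ _
      congr 2
      funext i
      rw [contents_eq]
      exact (lin_map c₀ M R i).symm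
    have hM : ∀ b i j, ((M b).map (map (algebraMap ℂ (RatFunc ℂ)))) i j ∈
        (up 𝔎 D).K σ n (bd w D) := fun b i j => (ih b i j).1
    constructor
    · exact lin_out (κ := w) hc hM R hκ
        (by simp only [bd]; omega) (by simp only [bd]; omega) (by simp only [bd]; omega) hf
    · intro A hA
      refine (Gn.lin (k := k) (κ := w) (W' := bd w (D + 1)) hc hM R hκ
        (by simp only [bd]; omega) (by simp only [bd]; omega) (by simp only [bd]; omega)
        (by simp only [bd]; omega) hA (fun b i j => (ih b i j).2 A hA) hf).mono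
        (fun g hg => hg) ?_
      simp only [nc]
      exact Nat.add_le_add (Nat.mul_le_mul_left _
        (Nat.add_le_add huu (Nat.mul_le_mul_right _ huu))) huu

/-- the leaves as a class: their coefficients with respect to few variables are generated by few
members of the family -/
def LfD (𝔎 : Fam (RatFunc ℂ)) (σ n w D κ : ℕ) : Set (MvPolynomial (Fin n) (RatFunc ℂ)) :=
  {g | g ∈ (up 𝔎 D).K σ n (bd w D + (up 𝔎 D).c0) ∧ ∀ A : Finset (Fin n), A.card ≤ κ →
    Gn ((up 𝔎 D).K σ n (bd w D + (up 𝔎 D).c0)) A (nc w κ D) g}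

theorem LfD.const {𝔎 : Fam (RatFunc ℂ)} {σ n w D κ : ℕ} (y : RatFunc ℂ) :
    (C y : MvPolynomial (Fin n) (RatFunc ℂ)) ∈ LfD 𝔎 σ n w D κ :=
  ⟨(up 𝔎 D).const (Nat.le_add_left _ _) y, fun _ _ => Gn.supp (Subalgebra.algebraMap_mem _ y)⟩

theorem prog_lf {n w s D κ : ℕ} {𝔎 : Fam (RatFunc ℂ)} {σ : ℕ}
    (h𝔎 : ∀ f : MvPolynomial (Fin n) ℂ, f.support.card ≤ s → sext f ∈ 𝔎.K σ n 1)
    {g : MvPolynomial (Fin n) ℂ} (h : Prog w s D g) : sext g ∈ LfD 𝔎 σ n w D κ := by
  obtain ⟨h1, h2⟩ := prog_mem (k := κ) 𝔎 σ h𝔎 h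
  exact ⟨(up 𝔎 D).mono (Nat.le_add_right _ _) h1, fun A hA =>
    (h2 A hA).mono ((up 𝔎 D).mono (Nat.le_add_right _ _)) le_rfl⟩

/-- translation to the formulas of `Pool.Agent.H530R2` -/
noncomputable def toTr : Formula n → Tr (RatFunc ℂ) n
  | .leaf g => .leaf (sext g)
  | .gate c₀ c₁ c₂ c₃ a b =>
    .gate (C (algebraMap ℂ (RatFunc ℂ) c₀) + C (algebraMap ℂ (RatFunc ℂ) c₁) * X 0 +
      C (algebraMap ℂ (RatFunc ℂ) c₂) * X 1 + C (algebraMap ℂ (RatFunc ℂ) c₃) * (X 0 * X 1))
      (toTr a) (toTr b)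

theorem toTr_val (E : Formula n) : (toTr E).val = sext E.value := by
  induction E with
  | leaf g => rfl
  | gate c₀ c₁ c₂ c₃ a b iha ihb =>
    simp only [toTr, Tr.val, Formula.value, map_add, map_mul, algHom_C, aeval_X, iha, ihb, map_C]
    rfl

theorem toTr_occ (E : Formula n) (x : Fin n) : (toTr E).occ x = E.reads x := by
  induction E with
  | leaf g => simp only [toTr, Tr.occ, Formula.reads, ext_vars]
  | gate c₀ c₁ c₂ c₃ a b iha ihb => simp only [toTr, Tr.occ, Formula.reads, iha, ihb]

theorem toTr_ml (E : Formula n) : (toTr E).ML := by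
  induction E with
  | leaf g => trivial
  | gate c₀ c₁ c₂ c₃ a b iha ihb => exact ⟨iha, ihb, _, _, _, _, rfl⟩

theorem toTr_rp {w t : ℕ} {f : Bool} {S : Finset (Fin n)} {E : Formula n} (h : Rank w f t S E) :
    RP w f t S (toTr E) := by
  induction h with
  | leaf t g => exact .leaf t _
  | sum _ _ iha ihb =>
    refine .add ?_ iha ihb
    rw [cpr_affine, map_zero]
  | left _ _ iha ihb => exact .left iha ihb
  | right _ _ iha ihb => exact .right iha ihb
  | spine _ ih => exact .path ih
  | @bag t S B c₀ c₁ c₂ c₃ a b h1 h2 h3 _ _ iha ihb =>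
    refine .share h1 (fun i ha hb => h2 i ?_ ?_) (fun i hi hab => h3 i hi ?_) iha ihb
    · rw [toTr_occ] at ha; omega
    · rw [toTr_occ] at hb; omega
    · rw [toTr_occ, toTr_occ] at hab; omega
  | product h _ _ iha ihb =>
    refine .prod ?_ iha ihb
    rw [cpr_affine]
    exact fun hc => h ((algebraMap ℂ (RatFunc ℂ)).injective (by rw [hc, map_zero]))

theorem toTr_lv {w s D κ : ℕ} {𝔎 : Fam (RatFunc ℂ)} {σ : ℕ}
    (h𝔎 : ∀ f : MvPolynomial (Fin n) ℂ, f.support.card ≤ s → sext f ∈ 𝔎.K σ n 1)
    (E : Formula n) (h : E.Leaves (Prog w s D)) : (toTr E).Lv (LfD 𝔎 σ n w D κ) := by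
  induction E with
  | leaf g => exact prog_lf h𝔎 h
  | gate c₀ c₁ c₂ c₃ a b iha ihb => exact ⟨iha h.1, ihb h.2⟩

theorem comp_polyIn {w s D t κ : ℕ} {𝔎 : Fam (RatFunc ℂ)} {σ : ℕ}
    (h𝔎 : ∀ f : MvPolynomial (Fin n) ℂ, f.support.card ≤ s → sext f ∈ 𝔎.K σ n 1)
    {g : MvPolynomial (Fin n) ℂ} (h : Composite w s D t g) :
    PolyIn (fun T : Tr (RatFunc ℂ) n => T.ML ∧ T.Lv (LfD 𝔎 σ n w D κ) ∧
      (∀ i, T.occ i ≤ w + 1) ∧ RP w false t ∅ T) w (sext g) := by
  obtain ⟨E, P, hE, rfl⟩ := h
  refine ⟨fun i => toTr (E i), map (algebraMap ℂ (RatFunc ℂ)) P,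
    fun i => ⟨toTr_ml _, toTr_lv h𝔎 _ (hE i).1, fun x => ?_, toTr_rp (hE i).2.2⟩, ?_⟩
  · rw [toTr_occ]
    exact ((hE i).2.1 x).trans (Nat.le_succ w)
  · rw [ext_aeval]
    congr 2
    funext i
    exact (toTr_val _).symm

/-- the members of the class do not vanish on the generator -/
theorem sums_hit (w D κ : ℕ) : ∃ A m : ℕ, ∀ n s t N : ℕ, (s + 2) ^ A ≤ N →
    ∀ f : MvPolynomial (Fin n) ℂ,
    Sums w s D t κ f → f ≠ 0 → evG ℂ (base ℂ n N) (m * (t + 1)) f ≠ 0 := by
  classical
  by_contra hcon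
  push Not at hcon
  choose n_ s_ t_ N_ hN_ f_ hf_ hf0 hev using fun k => hcon k k
  set 𝔎 : Fam (RatFunc ℂ) := fam n_ N_ s_ hN_ with h𝔎
  obtain ⟨m, hm⟩ := rank_hit3 (F := RatFunc ℂ) (up 𝔎 D) κ (w + 1) w (nc w κ D) w
    (bd w D + (up 𝔎 D).c0) (Nat.succ_pos w)
  have hmem : ∀ f : MvPolynomial (Fin (n_ m)) ℂ, f.support.card ≤ s_ m →
      sext f ∈ 𝔎.K m (n_ m) 1 :=
    fun f hf => fam_mem n_ N_ s_ hN_ m hf
  refine hm (n_ m) m (bVan (n_ m) (N_ m))
    (fam_ok n_ N_ s_ hN_ D m) (bpt (n_ m) _) 1
    (sh_bVan _ _) (t_ m) (LfD 𝔎 m (n_ m) w D κ) (fun g hg => hg.1) (fun y => LfD.const y)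
    (fun A hA g hg => hg.2 A hA) (sext (f_ m)) ?_
    (fun h => hf0 m (ext_inj (by rw [h, map_zero]))) (mem_bVan (hev m))
  obtain ⟨N', T, hT, hdep, hmem'⟩ := hf_ m
  have he : ∀ S : Multiset (MvPolynomial (Fin (n_ m)) ℂ), (S.map sext).prod = sext S.prod :=
    fun S => (map_multiset_prod (sext (n := n_ m)) S).symm
  refine ⟨N', fun i => (T i).map sext, fun i g hg => ?_, fun u => ?_, ?_⟩
  · obtain ⟨g', hg', rfl⟩ := Multiset.mem_map.1 hg
    exact comp_polyIn hmem (hT i g' hg')
  · simp only [he]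
    exact ext_dep (hdep u)
  · simp only [he]
    exact ext_adjoin hmem'

theorem exists_point {n m N d : ℕ} {f : MvPolynomial (Fin n) ℂ} (h : evG ℂ (base ℂ n N) m f ≠ 0)
    (hd : f.totalDegree ≤ d) : ∃ p ∈ points n m N d, eval (fun i => (p i : ℂ)) f ≠ 0 := by
  obtain ⟨u, y, z, hu, hy, hz, hne⟩ := Pool.Agent.H626R2.Loc.exists_gridG h hd
  refine ⟨point n m N u y z, ?_, ?_⟩
  · unfold points
    rw [Finset.mem_image]
    refine ⟨(u, y, z), ?_, rfl⟩
    rw [Finset.mem_product, Finset.mem_product]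
    exact ⟨Finset.mem_range.2 (Nat.lt_succ_of_le hu),
      Fintype.mem_piFinset.2 fun l => Finset.mem_range.2 (Nat.lt_succ_of_le (hy l)),
      Fintype.mem_piFinset.2 fun l => Finset.mem_range.2 (Nat.lt_succ_of_le (hz l))⟩
  · have h3 : (fun i => ((point n m N u y z i : ℤ) : ℂ)) = (fun i : Fin n =>
        ((Pool.Agent.H626R2.Loc.psiN N (Nat.nth Nat.Prime i) u : ℕ) : ℂ) +
        ∑ l, (y l : ℂ) * ∏ j ∈ Finset.univ.erase i, ((z l : ℂ) - ((j : ℕ) : ℂ))) := by
      funext i
      unfold point
      push_cast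
      rfl
    rw [h3]
    exact hne

theorem rank_of_readOnce {w t : ℕ} (E : Formula n) (h : ∀ x, E.reads x ≤ 1) :
    Rank w false t ∅ E := by
  induction E with
  | leaf g => exact .spine (.leaf t g)
  | gate c₀ c₁ c₂ c₃ a b iha ihb =>
    refine .bag (B := ∅) (by simp) (fun x h1 h2 => ?_) (fun x hx => by simp at hx)
      (iha fun x => ?_) (ihb fun x => ?_)
    · have h3 : a.reads x + b.reads x ≤ 1 := h x
      omega
    · have h3 : a.reads x + b.reads x ≤ 1 := h x
      omega
    · have h3 : a.reads x + b.reads x ≤ 1 := h x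
      omega

/-- smaller bags -/
theorem Rank.weaken {w t : ℕ} {f : Bool} {S : Finset (Fin n)} {E : Formula n}
    (h : Rank w f t S E) : f = false → Rank w false t ∅ E := by
  induction h with
  | leaf t g => intro h; cases h
  | sum _ _ _ _ => intro h; cases h
  | left _ _ _ _ => intro h; cases h
  | right _ _ _ _ => intro h; cases h
  | spine h _ => exact fun _ => .spine h
  | product h _ _ iha ihb => exact fun _ => .product h (iha rfl) (ihb rfl)
  | bag h1 h2 h3 ha hb _ _ =>
    exact fun _ => .bag h1 h2 (fun x hx => absurd hx (Finset.notMem_empty x)) ha hb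

theorem Rank.succ {w t : ℕ} {f : Bool} {S : Finset (Fin n)} {E : Formula n}
    (h : Rank w f t S E) : Rank w f (t + 1) S E := by
  induction h with
  | leaf t g => exact .leaf _ g
  | sum _ _ iha ihb => exact .sum iha ihb
  | left _ _ iha ihb => exact .left iha ihb
  | right _ _ iha ihb => exact .right iha ihb
  | spine _ ih => exact .spine ih
  | product h _ _ iha ihb => exact .product h iha ihb
  | bag h1 h2 h3 _ _ iha ihb => exact .bag h1 h2 h3 iha ihb

theorem Rank.toSpine {w t : ℕ} {f : Bool} {S : Finset (Fin n)} {E : Formula n}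
    (h : Rank w f t S E) : Rank w true (t + 1) ∅ E := by
  induction h with
  | leaf t g => exact .leaf _ g
  | sum _ _ iha ihb => exact .sum iha ihb
  | left h1 h2 iha ihb => exact .left iha h2.succ
  | right h1 h2 iha ihb => exact .right h1.succ ihb
  | spine _ ih => exact ih
  | product h ha hb iha ihb => exact .left iha (hb.weaken rfl)
  | bag h1 h2 h3 ha hb iha ihb => exact .left iha (hb.weaken rfl)

theorem rank_of_sumDepth {w : ℕ} (E : Formula n) : ∀ t, E.sumDepth ≤ t →
    Rank w false t ∅ E ∧ (E.IsSum → Rank w true t ∅ E) := by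
  classical
  induction E with
  | leaf g => exact fun t _ => ⟨.spine (.leaf t g), fun h => h.elim⟩
  | gate c₀ c₁ c₂ c₃ a b iha ihb =>
    intro t ht
    by_cases h3 : c₃ = 0
    · subst h3
      have key : ∀ c : Formula n, (∀ t, c.sumDepth ≤ t →
          Rank w false t ∅ c ∧ (c.IsSum → Rank w true t ∅ c)) →
          (if c.IsSum then c.sumDepth else c.sumDepth + 1) ≤ t → Rank w true t ∅ c := by
        intro c hc hct
        split_ifs at hct with hs
        · exact (hc t hct).2 hs
        · obtain ⟨t', rfl⟩ : ∃ t', t = t' + 1 := ⟨t - 1, by omega⟩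
          exact (hc t' (by omega)).1.toSpine
      have ht' : max (if a.IsSum then a.sumDepth else a.sumDepth + 1)
          (if b.IsSum then b.sumDepth else b.sumDepth + 1) ≤ t := by
        have h0 : (Formula.gate c₀ c₁ c₂ 0 a b).sumDepth =
            max (if a.IsSum then a.sumDepth else a.sumDepth + 1)
              (if b.IsSum then b.sumDepth else b.sumDepth + 1) := by
          simp only [Formula.sumDepth, if_true]
        rw [← h0]
        exact ht
      have h4 : Rank w true t ∅ (.gate c₀ c₁ c₂ 0 a b) :=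
        .sum (key a iha ((le_max_left _ _).trans ht')) (key b ihb ((le_max_right _ _).trans ht'))
      exact ⟨.spine h4, fun _ => h4⟩
    · have ht' : max a.sumDepth b.sumDepth ≤ t := by
        have h0 : (Formula.gate c₀ c₁ c₂ c₃ a b).sumDepth = max a.sumDepth b.sumDepth := by
          simp only [Formula.sumDepth, if_neg h3]
        rw [← h0]
        exact ht
      exact ⟨.product h3 (iha t ((le_max_left _ _).trans ht')).1
        (ihb t ((le_max_right _ _).trans ht')).1, fun h => absurd h h3⟩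

theorem size_pos (E : Formula n) : 1 ≤ E.size := by
  induction E with
  | leaf g => exact le_rfl
  | gate c₀ c₁ c₂ c₃ a b iha ihb => exact iha.trans (Nat.le_add_right _ _)

theorem spine_of_size {w : ℕ} (E : Formula n) : ∀ t, E.size < 2 ^ (t + 1) →
    Rank w true t ∅ E := by
  induction E with
  | leaf g => exact fun t _ => .leaf t g
  | gate c₀ c₁ c₂ c₃ a b iha ihb =>
    intro t ht
    have hs : a.size + b.size < 2 ^ (t + 1) := ht
    have ha := size_pos a
    have hb := size_pos b
    cases t with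
    | zero => omega
    | succ t =>
      rw [pow_succ] at hs
      rcases le_total a.size b.size with h | h
      · exact .right (.spine (iha t (by omega))) (ihb (t + 1) (by rw [pow_succ]; omega))
      · exact .left (iha (t + 1) (by rw [pow_succ]; omega)) (.spine (ihb t (by omega)))

theorem comp_formula {w s D t : ℕ} (hw : 1 ≤ w) (E : Formula n) (hE : E.Leaves (Prog w s D))
    (h : ∀ x, E.reads x ≤ w) (ht : Rank w false t ∅ E) : Composite w s D t E.value :=
  ⟨fun _ => E, X ⟨0, hw⟩, fun _ => ⟨hE, h, ht⟩, by rw [aeval_X]⟩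

/-- sums of `κ` products -/
theorem sums_of_products {w s D t κ : ℕ} (T : Fin κ → Multiset (MvPolynomial (Fin n) ℂ))
    (hT : ∀ i, ∀ g ∈ T i, Composite w s D t g) : Sums w s D t κ (∑ i, (T i).prod) := by
  refine ⟨κ, T, hT, ?_, Subalgebra.sum_mem _ fun i _ => Algebra.subset_adjoin ⟨i, rfl⟩⟩
  intro u hu
  have h1 : Function.Injective u := by
    intro a b hab
    exact hu.injective (by
      show (T (u a)).prod = (T (u b)).prod
      rw [hab])
  have h2 := Fintype.card_le_of_injective u h1
  rw [Fintype.card_fin, Fintype.card_fin] at h2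
  omega


end Pool.Agent.W915.SSF
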