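import Mathlib
import Pool.Agent.W915.HP3
import Pool.Agent.W915.SSF

/-!
# The generator as a substitution of small degree, and pairs of sums of products
-/

set_option autoImplicit false

namespace Pool.Agent.W915.HP

open MvPolynomial

open Pool.Agent.H626R2.Loc (evG base genG psi)

variable {n : ℕ}

/-- the generator, as a substitution of polynomials over `ℂ` -/
noncomputable def gen (n N T : ℕ) :
    MvPolynomial (Fin n) ℂ →ₐ[ℂ] MvPolynomial (Option (Fin T ⊕ Fin T)) ℂ :=
  ((optionEquivRight ℂ (Fin T ⊕ Fin T)).symm.toAlgHom).comp (evG ℂ (base ℂ n N) T)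

lemma gen_ne {N T : ℕ} {f : MvPolynomial (Fin n) ℂ} :
    gen n N T f ≠ 0 ↔ evG ℂ (base ℂ n N) T f ≠ 0 := by
  have h : gen n N T f = (optionEquivRight ℂ (Fin T ⊕ Fin T)).symm
      (evG ℂ (base ℂ n N) T f) := rfl
  rw [h, Ne, Ne, map_eq_zero_iff _ (optionEquivRight ℂ (Fin T ⊕ Fin T)).symm.injective]

lemma natDegree_base_le (N : ℕ) (i : Fin n) : (base ℂ n N i).natDegree ≤ N := by
  unfold base psi
  refine (Polynomial.natDegree_sum_le_of_forall_le _ _ fun j hj => ?_)
  refine (Polynomial.natDegree_C_mul_le _ _).trans ?_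
  rw [descPochhammer_natDegree]
  have := Finset.mem_range.1 hj
  omega

lemma totalDegree_aeval_X_le {τ : Type} (v : τ) (p : Polynomial ℂ) :
    (Polynomial.aeval (X v : MvPolynomial τ ℂ) p).totalDegree ≤ p.natDegree := by
  rw [Polynomial.aeval_eq_sum_range]
  refine (totalDegree_finsetSum _ _).trans (Finset.sup_le fun j hj => ?_)
  refine (totalDegree_smul_le _ _).trans ?_
  refine (totalDegree_pow _ _).trans ?_
  rw [totalDegree_X, mul_one]
  have := Finset.mem_range.1 hj
  omega

lemma gen_X_totalDegree (N T : ℕ) (i : Fin n) : (gen n N T (X i)).totalDegree ≤ N + n + 1 := by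
  classical
  set P : MvPolynomial (Option (Fin T ⊕ Fin T)) ℂ :=
    Polynomial.aeval (X none) (base ℂ n N i) +
      ∑ l : Fin T, X (some (Sum.inl l)) * ∏ j ∈ Finset.univ.erase i,
        (X (some (Sum.inr l)) - C ((j : ℕ) : ℂ)) with hP
  have h1 : optionEquivRight ℂ (Fin T ⊕ Fin T) P = genG (base ℂ n N) T i := by
    rw [hP, map_add, map_sum, genG]
    congr 1
    · have h2 := Polynomial.aeval_algHom_apply
        (optionEquivRight ℂ (Fin T ⊕ Fin T)).toAlgHom
        (X none : MvPolynomial (Option (Fin T ⊕ Fin T)) ℂ) (base ℂ n N i)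
      have h3 : (optionEquivRight ℂ (Fin T ⊕ Fin T)).toAlgHom
          (X none : MvPolynomial (Option (Fin T ⊕ Fin T)) ℂ) = C Polynomial.X :=
        optionEquivRight_X_none ℂ (Fin T ⊕ Fin T)
      rw [h3] at h2
      refine h2.symm.trans ?_
      have h4 := Polynomial.aeval_algHom_apply
        (IsScalarTower.toAlgHom ℂ (Polynomial ℂ) (MvPolynomial (Fin T ⊕ Fin T) (Polynomial ℂ)))
        (Polynomial.X) (base ℂ n N i)
      rw [Polynomial.aeval_X_left_apply] at h4
      exact h4
    · refine Finset.sum_congr rfl fun l _ => ?_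
      rw [map_mul, map_prod, optionEquivRight_X_some]
      congr 1
      refine Finset.prod_congr rfl fun j _ => ?_
      rw [map_sub, optionEquivRight_X_some, optionEquivRight_C]
      simp
  have h2 : gen n N T (X i) = P := by
    show (optionEquivRight ℂ (Fin T ⊕ Fin T)).symm (evG ℂ (base ℂ n N) T (X i)) = P
    rw [evG, aeval_X, ← h1]
    exact (optionEquivRight ℂ (Fin T ⊕ Fin T)).symm_apply_apply P
  rw [h2, hP]
  refine (totalDegree_add _ _).trans (max_le ?_ ?_)
  · exact (totalDegree_aeval_X_le _ _).trans ((natDegree_base_le N i).trans (by omega))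
  · refine (totalDegree_finsetSum _ _).trans (Finset.sup_le fun l _ => ?_)
    refine (totalDegree_mul _ _).trans ?_
    rw [totalDegree_X]
    have h3 : (∏ j ∈ Finset.univ.erase i, (X (some (Sum.inr l)) - C ((j : ℕ) : ℂ) :
        MvPolynomial (Option (Fin T ⊕ Fin T)) ℂ)).totalDegree ≤ n := by
      refine (totalDegree_finsetProd _ _).trans ?_
      refine (Finset.sum_le_card_nsmul _ _ 1 fun j _ => ?_).trans ?_
      · refine (totalDegree_sub _ _).trans (max_le ?_ ?_)
        · rw [totalDegree_X]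
        · rw [totalDegree_C]; exact Nat.zero_le _
      · rw [smul_eq_mul, mul_one]
        refine (Finset.card_le_card (Finset.erase_subset _ _)).trans ?_
        rw [Finset.card_univ, Fintype.card_fin]
    omega

/-- sparse polynomials -/
lemma gen_sparse {N T : ℕ} {f : MvPolynomial (Fin n) ℂ} (h0 : f ≠ 0) (hN : f.support.card ≤ N) :
    gen n N T f ≠ 0 := by
  rw [gen_ne]
  intro hc
  apply Pool.Agent.H530R2.base_ne h0 hN
  have h1 := congrArg (aeval (fun _ => (0 : Polynomial ℂ)) :
    MvPolynomial (Fin T ⊕ Fin T) (Polynomial ℂ) →ₐ[Polynomial ℂ] Polynomial ℂ) hc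
  rw [map_zero] at h1
  rw [← h1]
  clear h1 hc hN h0
  induction f using MvPolynomial.induction_on with
  | C r =>
    rw [algHom_C, evG, algHom_C]
    rw [IsScalarTower.algebraMap_apply ℂ (Polynomial ℂ)
      (MvPolynomial (Fin T ⊕ Fin T) (Polynomial ℂ))]
    rw [AlgHom.commutes]
    rfl
  | add p q hp hq => rw [map_add, hp, hq, map_add, map_add]
  | mul_X p i hp =>
    rw [map_mul, hp, map_mul, map_mul, aeval_X]
    congr 1
    rw [evG, aeval_X, genG, map_add, map_sum]
    rw [Finset.sum_eq_zero fun l _ => by rw [map_mul, aeval_X, zero_mul], add_zero]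
    rw [aeval_C]
    rfl

open Pool.Agent.W915.SSF

/-- A pair of products of `R` members of `Sums w s D t q`. -/
theorem sums_pair {w s D t q R κ : ℕ} (hκ : 2 * R * q ≤ κ) {a b : MvPolynomial (Fin n) ℂ}
    (ha : a ∈ Prods {f | Sums w s D t q f} R) (hb : b ∈ Prods {f | Sums w s D t q f} R)
    (x y : ℂ) : Sums w s D t κ (C x * a + C y * b) := by
  classical
  obtain ⟨fa, hfa, rfl⟩ := ha
  obtain ⟨fb, hfb, rfl⟩ := hb
  let F : Fin R ⊕ Fin R → MvPolynomial (Fin n) ℂ := Sum.elim fa fb
  have hF : ∀ i, Sums w s D t q (F i) := by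
    rintro (i | i)
    · exact hfa i
    · exact hfb i
  choose N T hT hdep hadj using hF
  let J := Σ i : Fin R ⊕ Fin R, Fin (N i)
  let e : Fin (Fintype.card J) ≃ J := (Fintype.equivFin J).symm
  let U : J → Multiset (MvPolynomial (Fin n) ℂ) := fun j => T j.1 j.2
  refine ⟨Fintype.card J, fun i => U (e i), fun i => hT _ _, ?_, ?_⟩
  · intro u hu
    let v : Fin (κ + 1) → Fin R ⊕ Fin R := fun i => (e (u i)).1
    have hc : Fintype.card (Fin R ⊕ Fin R) * q < Fintype.card (Fin (κ + 1)) := by
      rw [Fintype.card_sum, Fintype.card_fin, Fintype.card_fin]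
      have : (R + R) * q = 2 * R * q := by ring
      omega
    obtain ⟨i0, hi0⟩ := Fintype.exists_lt_card_fiber_of_mul_lt_card v hc
    set Z := Finset.univ.filter fun i => v i = i0 with hZ
    have hZc : q + 1 ≤ Z.card := hi0
    obtain ⟨Z', hZ', hZ'c⟩ := Finset.exists_subset_card_eq hZc
    let g : Fin (q + 1) → Fin (κ + 1) := fun i => (Z'.equivFinOfCardEq hZ'c).symm i
    have hginj : Function.Injective g := fun i j h =>
      (Z'.equivFinOfCardEq hZ'c).symm.injective (Subtype.ext h)
    have hgv : ∀ i, (e (u (g i))).1 = i0 := fun i =>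
      (Finset.mem_filter.1 (hZ' ((Z'.equivFinOfCardEq hZ'c).symm i).2)).2
    have h1 := hu.comp g hginj
    have h2 : ∀ i, ∃ m : Fin (N i0), U (e (u (g i))) = T i0 m := by
      intro i
      have h3 := hgv i
      generalize e (u (g i)) = j at h3
      obtain ⟨j1, j2⟩ := j
      simp only at h3
      subst h3
      exact ⟨j2, rfl⟩
    choose m hm using h2
    apply hdep i0 m
    have h3 : (fun i => (T i0 (m i)).prod) = (fun a => (U (e (u a))).prod) ∘ g := by
      funext i
      show (T i0 (m i)).prod = (U (e (u (g i)))).prod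
      rw [hm]
    rw [h3]
    exact h1
  · have h1 : ∀ i, F i ∈ Algebra.adjoin ℂ (Set.range fun i => (U (e i)).prod) := by
      intro i
      refine Algebra.adjoin_mono ?_ (hadj i)
      rintro _ ⟨m, rfl⟩
      exact ⟨e.symm ⟨i, m⟩, by simp [U]⟩
    refine Subalgebra.add_mem _ (Subalgebra.mul_mem _ ?_ ?_) (Subalgebra.mul_mem _ ?_ ?_)
    · exact Subalgebra.algebraMap_mem _ x
    · exact Subalgebra.prod_mem _ fun i _ => h1 (Sum.inl i)
    · exact Subalgebra.algebraMap_mem _ y
    · exact Subalgebra.prod_mem _ fun i _ => h1 (Sum.inr i)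

end Pool.Agent.W915.HP
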