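import Mathlib
import Pool.Agent.W915.HP4

/-!
# The curve through the points of a hitting set
-/

set_option autoImplicit false

namespace Pool.Agent.W915.HP

open MvPolynomial

variable {n : ℕ}

/-- The point with parameter `T` on the curve of degree `M - 1` which passes through the points
`h 0, …, h (M - 1)` at the parameters `0, …, M - 1`. -/
def curvePt {n M : ℕ} (h : Fin M → Fin n → ℚ) (T : ℕ) : Fin n → ℚ := fun i =>
  ∑ m : Fin M, h m i * ∏ l ∈ Finset.univ.erase m,
    (((T : ℕ) : ℚ) - ((l : ℕ) : ℚ)) / (((m : ℕ) : ℚ) - ((l : ℕ) : ℚ))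

/-- the coordinates of the curve -/
noncomputable def crv {n M : ℕ} (h : Fin M → Fin n → ℚ) (i : Fin n) : Polynomial ℂ :=
  ∑ m : Fin M, Polynomial.C ((h m i : ℚ) : ℂ) * ∏ l ∈ Finset.univ.erase m,
    (Polynomial.X - Polynomial.C ((l : ℕ) : ℂ)) *
      Polynomial.C ((((m : ℕ) : ℂ) - ((l : ℕ) : ℂ))⁻¹)

lemma crv_eval {M : ℕ} (h : Fin M → Fin n → ℚ) (i : Fin n) (T : ℕ) :
    (crv h i).eval (T : ℂ) = ((curvePt h T i : ℚ) : ℂ) := by
  unfold crv curvePt
  rw [Polynomial.eval_finsetSum]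
  push_cast
  refine Finset.sum_congr rfl fun m _ => ?_
  rw [Polynomial.eval_mul, Polynomial.eval_C, Polynomial.eval_prod]
  congr 1
  refine Finset.prod_congr rfl fun l _ => ?_
  rw [Polynomial.eval_mul, Polynomial.eval_sub, Polynomial.eval_X, Polynomial.eval_C,
    Polynomial.eval_C, div_eq_mul_inv]

lemma curvePt_node {M : ℕ} (h : Fin M → Fin n → ℚ) (m : Fin M) :
    curvePt h m = h m := by
  classical
  funext i
  unfold curvePt
  rw [Finset.sum_eq_single m]
  · rw [Finset.prod_eq_one, mul_one]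
    intro l hl
    refine div_self (sub_ne_zero.2 fun hc => Finset.ne_of_mem_erase hl ?_)
    have : (m : ℕ) = (l : ℕ) := by exact_mod_cast hc
    exact Fin.ext this.symm
  · intro m' _ hm'
    rw [Finset.prod_eq_zero (i := m) (Finset.mem_erase.2 ⟨hm'.symm, Finset.mem_univ _⟩),
      mul_zero]
    rw [sub_self, zero_div]
  · intro hm
    exact absurd (Finset.mem_univ m) hm

lemma crv_natDegree {M : ℕ} (h : Fin M → Fin n → ℚ) (i : Fin n) : (crv h i).natDegree ≤ M := by
  classical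
  unfold crv
  refine Polynomial.natDegree_sum_le_of_forall_le _ _ fun m _ => ?_
  refine (Polynomial.natDegree_C_mul_le _ _).trans ?_
  refine (Polynomial.natDegree_prod_le _ _).trans ?_
  refine (Finset.sum_le_card_nsmul _ _ 1 fun l _ => ?_).trans ?_
  · refine Polynomial.natDegree_mul_le.trans ?_
    rw [Polynomial.natDegree_C, add_zero]
    refine (Polynomial.natDegree_sub_le _ _).trans (max_le Polynomial.natDegree_X_le ?_)
    rw [Polynomial.natDegree_C]
    exact Nat.zero_le _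
  · rw [smul_eq_mul, mul_one]
    refine (Finset.card_le_card (Finset.erase_subset _ _)).trans ?_
    rw [Finset.card_univ, Fintype.card_fin]

lemma eval_aeval_crv {M : ℕ} (h : Fin M → Fin n → ℚ) (T : ℕ) (f : MvPolynomial (Fin n) ℂ) :
    (aeval (crv h) f : Polynomial ℂ).eval (T : ℂ) =
      eval (fun i => ((curvePt h T i : ℚ) : ℂ)) f := by
  induction f using MvPolynomial.induction_on with
  | C r => rw [algHom_C, eval_C]; exact Polynomial.eval_C
  | add p q hp hq => rw [map_add, Polynomial.eval_add, hp, hq, map_add]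
  | mul_X p i hp => rw [map_mul, Polynomial.eval_mul, hp, aeval_X, crv_eval, map_mul, eval_X]

/-- the substitution of the curve -/
noncomputable def crvHom {n M : ℕ} (h : Fin M → Fin n → ℚ) :
    MvPolynomial (Fin n) ℂ →ₐ[ℂ] MvPolynomial Unit ℂ :=
  (Polynomial.aeval (X () : MvPolynomial Unit ℂ)).comp (aeval (crv h))

lemma crvHom_ne {M : ℕ} {h : Fin M → Fin n → ℚ} {f : MvPolynomial (Fin n) ℂ} :
    crvHom h f ≠ 0 ↔ (aeval (crv h) f : Polynomial ℂ) ≠ 0 := by
  have h1 : crvHom h f = Polynomial.aeval (X () : MvPolynomial Unit ℂ)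
    (aeval (crv h) f : Polynomial ℂ) := rfl
  rw [h1, not_iff_not]
  constructor
  · intro h0
    have h2 := congrArg (aeval (fun _ => (Polynomial.X : Polynomial ℂ)) :
      MvPolynomial Unit ℂ →ₐ[ℂ] Polynomial ℂ) h0
    rw [map_zero, ← Polynomial.aeval_algHom_apply, aeval_X, Polynomial.aeval_X_left_apply] at h2
    exact h2
  · intro h0
    rw [h0, map_zero]

lemma crvHom_X {M : ℕ} (h : Fin M → Fin n → ℚ) (i : Fin n) :
    (crvHom h (X i)).totalDegree ≤ M := by
  have h1 : crvHom h (X i) = Polynomial.aeval (X () : MvPolynomial Unit ℂ) (crv h i) := by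
    show Polynomial.aeval (X () : MvPolynomial Unit ℂ) (aeval (crv h) (X i)) = _
    rw [aeval_X]
  rw [h1]
  exact (totalDegree_aeval_X_le _ _).trans (crv_natDegree h i)

lemma crvHom_hit {M : ℕ} {h : Fin M → Fin n → ℚ} {f : MvPolynomial (Fin n) ℂ}
    (hf : ∃ m, eval (fun i => ((h m i : ℚ) : ℂ)) f ≠ 0) : crvHom h f ≠ 0 := by
  obtain ⟨m, hm⟩ := hf
  rw [crvHom_ne]
  intro h0
  have h1 := eval_aeval_crv h m f
  rw [h0, Polynomial.eval_zero, curvePt_node] at h1
  exact hm h1.symm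

lemma exists_crv {M d : ℕ} {h : Fin M → Fin n → ℚ} {f : MvPolynomial (Fin n) ℂ}
    (hf : crvHom h f ≠ 0) (hd : f.totalDegree ≤ d) :
    ∃ T ≤ d * M, eval (fun i => ((curvePt h T i : ℚ) : ℂ)) f ≠ 0 := by
  classical
  rw [crvHom_ne] at hf
  by_contra hcon
  push Not at hcon
  have hdeg : (aeval (crv h) f : Polynomial ℂ).natDegree ≤ d * M :=
    MvPolynomial.aeval_natDegree_le f hd (crv h) fun i => crv_natDegree h i
  have h1 : (Finset.range (d * M + 1)).image (fun T : ℕ => (T : ℂ)) ⊆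
      (aeval (crv h) f : Polynomial ℂ).roots.toFinset := by
    intro z hz
    obtain ⟨T, hT, rfl⟩ := Finset.mem_image.1 hz
    rw [Multiset.mem_toFinset, Polynomial.mem_roots hf, Polynomial.IsRoot.def, eval_aeval_crv]
    exact hcon T (by have := Finset.mem_range.1 hT; omega)
  have h2 := Finset.card_le_card h1
  rw [Finset.card_image_of_injective _ Nat.cast_injective, Finset.card_range] at h2
  have h3 := (Multiset.toFinset_card_le (aeval (crv h) f : Polynomial ℂ).roots).trans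
    (Polynomial.card_roots' _)
  omega

/-- Black-box identity testing for layers of sums of high powers over an arbitrary class. -/
theorem transfer {S : Set (MvPolynomial (Fin n) ℂ)} (k r s δ L ρ M d : ℕ) (E : ℕ → ℕ)
    (h : Fin M → Fin n → ℚ) (hr : 1 ≤ r) (hρ : r ^ L ≤ ρ)
    (hS : ∀ a ∈ Prods S (r ^ L), ∀ b ∈ Prods S (r ^ L), ∀ x y : ℂ, C x * a + C y * b ≠ 0 →
      ∃ m, eval (fun i => ((h m i : ℚ) : ℂ)) (C x * a + C y * b) ≠ 0)
    (hsp : ∀ g : MvPolynomial (Fin n) ℂ, g.support.card ≤ 2 * (k * s + 1) ^ ρ → g ≠ 0 →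
      ∃ m, eval (fun i => ((h m i : ℚ) : ℂ)) g ≠ 0)
    (hE : ∀ l < L, (2 * (k + 1) ^ ρ) ^ 3 * (ρ * δ * M + 1) < E l)
    (f : MvPolynomial (Fin n) ℂ) (J : ℕ) (F : Fin J → MvPolynomial (Fin n) ℂ)
    (hF : ∀ j, F j ∈ Lay S k r s δ E L) (hF0 : ∀ j, F j ≠ 0) (hdvd : f ∣ ∏ j, F j)
    (hd : f.totalDegree ≤ d) :
    ∃ T ≤ d * M, eval (fun i => ((curvePt h T i : ℚ) : ℂ)) f ≠ 0 := by
  have hl := layers (crvHom h) M (crvHom_X h) k r s δ L ρ E hr hρ
    (fun a ha b hb x y h0 => by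
      by_contra hc
      exact crvHom_hit (hS a ha b hb x y hc) h0)
    (fun g hg h0 => crvHom_hit (hsp g hg h0)) hE
  refine exists_crv (fun hz => ?_) hd
  obtain ⟨g, hg⟩ := hdvd
  have h2 : crvHom h (∏ j, F j) = 0 := by rw [hg, map_mul, hz, zero_mul]
  rw [map_prod] at h2
  obtain ⟨j, _, hj⟩ := Finset.prod_eq_zero_iff.1 h2
  exact hl.ne (hF j) (hF0 j) hj

end Pool.Agent.W915.HP
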