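import Pool.Agent.W792.WA.Stm2
import Pool.Agent.W918.LL.Opr
import Pool.Agent.W792.LL.Dia

/-!
Project WA (helper792), part PSIW: the effective phase is Lipschitz in the law.
-/

set_option autoImplicit false

open MeasureTheory ProbabilityTheory Filter Topology
open scoped ENNReal

namespace Pool.Agent.W915.WA

open Pool.Agent.W792.LL Pool.Agent.W792.WA

/-! ### resampling one coordinate -/

section General

variable {ι : Type} {X : ι → Type} [∀ i, MeasurableSpace (X i)]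
  (μ : ∀ i, Measure (X i)) [∀ i, IsProbabilityMeasure (μ i)]

lemma measurable_of_dependsOn {β : Type} [MeasurableSpace β] [∀ i, Nonempty (X i)]
    {f : (∀ i, X i) → β} (hf : Measurable f) {S : Set ι} (hS : DependsOn f S) :
    Measurable[⨆ i ∈ S, MeasurableSpace.comap (fun ω : ∀ i, X i => ω i) inferInstance] f := by
  classical
  let c : ∀ i, X i := fun i => Classical.arbitrary (X i)
  let g : (∀ i, X i) → (∀ i, X i) := fun ω i => if i ∈ S then ω i else c i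
  have hg : @Measurable (∀ i, X i) (∀ i, X i)
      (⨆ i ∈ S, MeasurableSpace.comap (fun ω : ∀ i, X i => ω i) inferInstance)
      MeasurableSpace.pi g := by
    refine (@measurable_pi_iff (∀ i, X i) ι X
      (⨆ i ∈ S, MeasurableSpace.comap (fun ω : ∀ i, X i => ω i) inferInstance) _ g).2
      (fun i => ?_)
    by_cases hi : i ∈ S
    · simp only [g, hi, if_true]
      exact measurable_iff_comap_le.2 (le_iSup₂_of_le i hi le_rfl)
    · simp only [g, hi, if_false]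
      exact measurable_const
  have hfg : f = f ∘ g := by
    funext ω
    apply hS
    intro i hi
    simp [g, hi]
  rw [hfg]
  exact hf.comp hg

lemma indepFun_of_dependsOn {β γ : Type} [MeasurableSpace β] [MeasurableSpace γ]
    {f : (∀ i, X i) → β} {g : (∀ i, X i) → γ} (hf : Measurable f)
    (hg : Measurable g) {S T : Set ι} (hS : DependsOn f S) (hT : DependsOn g T)
    (hST : Disjoint S T) : IndepFun f g (Measure.infinitePi μ) := by
  have hne : ∀ i, Nonempty (X i) := fun i => nonempty_of_isProbabilityMeasure (μ i)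
  have h0 : iIndepFun (fun (i : ι) (ω : ∀ i, X i) => ω i) (Measure.infinitePi μ) :=
    iIndepFun_infinitePi (P := μ) (X := fun i (x : X i) => x) (fun i => measurable_id)
  have h1 : iIndep (fun i => MeasurableSpace.comap (fun ω : ∀ i, X i => ω i) inferInstance)
      (Measure.infinitePi μ) := h0
  have h2 := indep_iSup_of_disjoint (fun i => (measurable_pi_apply i).comap_le) h1 hST
  rw [IndepFun_iff_Indep]
  exact indep_of_indep_of_le_left (indep_of_indep_of_le_right h2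
    (measurable_iff_comap_le.1 (measurable_of_dependsOn hg hT)))
    (measurable_iff_comap_le.1 (measurable_of_dependsOn hf hS))

/-- Resampling one coordinate. -/
lemma lintegral_resample [DecidableEq ι] (w : ι)
    {f : (∀ i, X i) → ℝ≥0∞} (hf : Measurable f) :
    ∫⁻ ω, f ω ∂(Measure.infinitePi μ)
      = ∫⁻ ω, ∫⁻ b, f (Function.update ω w b) ∂(μ w) ∂(Measure.infinitePi μ) := by
  have hne : ∀ i, Nonempty (X i) := fun i => nonempty_of_isProbabilityMeasure (μ i)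
  let b0 : X w := Classical.arbitrary (X w)
  let R : (∀ i, X i) → (∀ i, X i) := fun ω => Function.update ω w b0
  have hR : Measurable R := measurable_update_left
  have hRd : DependsOn R {w}ᶜ := by
    intro x y hxy
    funext i
    by_cases hi : i = w
    · subst hi; simp [R]
    · simp only [R, Function.update_of_ne hi]
      exact hxy i (by simpa using hi)
  have hEd : DependsOn (fun ω : ∀ i, X i => ω w) {w} := by
    intro x y hxy
    exact hxy w rfl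
  have hind : IndepFun R (fun ω : ∀ i, X i => ω w) (Measure.infinitePi μ) :=
    indepFun_of_dependsOn μ hR (measurable_pi_apply w) hRd hEd
      (Set.disjoint_left.2 fun x hx hx' => hx hx')
  have hmap : (Measure.infinitePi μ).map (fun ω => (R ω, ω w))
      = ((Measure.infinitePi μ).map R).prod (μ w) := by
    rw [(indepFun_iff_map_prod_eq_prod_map_map hR.aemeasurable
      (measurable_pi_apply w).aemeasurable).1 hind, Measure.infinitePi_map_eval]
  have hupd : Measurable (fun q : (∀ i, X i) × X w => Function.update q.1 w q.2) :=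
    measurable_update'
  have hF : Measurable (fun q : (∀ i, X i) × X w => f (Function.update q.1 w q.2)) :=
    hf.comp hupd
  have h1 : ∀ ω : ∀ i, X i, f ω = f (Function.update (R ω) w (ω w)) := by
    intro ω
    congr 1
    simp [R]
  have hpair : Measurable (fun ω : ∀ i, X i => (R ω, ω w)) := hR.prodMk (measurable_pi_apply w)
  calc ∫⁻ ω, f ω ∂(Measure.infinitePi μ)
      = ∫⁻ ω, f (Function.update (R ω) w (ω w)) ∂(Measure.infinitePi μ) := by
        exact lintegral_congr h1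
    _ = ∫⁻ q, f (Function.update q.1 w q.2)
          ∂((Measure.infinitePi μ).map (fun ω => (R ω, ω w))) := by
        rw [lintegral_map hF hpair]
    _ = ∫⁻ q, f (Function.update q.1 w q.2) ∂(((Measure.infinitePi μ).map R).prod (μ w)) := by
        rw [hmap]
    _ = ∫⁻ r, ∫⁻ b, f (Function.update r w b) ∂(μ w) ∂((Measure.infinitePi μ).map R) := by
        rw [lintegral_prod _ hF.aemeasurable]
    _ = ∫⁻ ω, ∫⁻ b, f (Function.update (R ω) w b) ∂(μ w) ∂(Measure.infinitePi μ) := by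
        rw [lintegral_map hF.lintegral_prod_right' hR]
    _ = ∫⁻ ω, ∫⁻ b, f (Function.update ω w b) ∂(μ w) ∂(Measure.infinitePi μ) := by
        simp [R]

end General

/-! ### norms in `l2` -/

lemma hasSum_sq {Γ : Type} (u : l2 Γ) : HasSum (fun x => ‖u x‖ ^ 2) (‖u‖ ^ 2) := by
  have h := lp.hasSum_norm (p := 2) (by norm_num) u
  simpa using h

lemma enn_sq {Γ : Type} (u : l2 Γ) :
    ENNReal.ofReal (‖u‖ ^ 2) = ∑' x, ENNReal.ofReal (‖u x‖ ^ 2) := by
  rw [← (hasSum_sq u).tsum_eq]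
  exact ENNReal.ofReal_tsum_of_nonneg (fun x => by positivity) (hasSum_sq u).summable

lemma apply_le {Γ : Type} (u : l2 Γ) (x : Γ) : ‖u x‖ ≤ ‖u‖ := lp.norm_apply_le_norm (by norm_num) u x

/-! ### resolvents of contractions -/

section det

variable {d : ℕ} (m : C(UnitAddTorus (Fin d), ℂ)) (q : ℝ)

/-- the resolvent with diagonal `c` -/
noncomputable def Rs (c : (Fin d → ℤ) → ℂ) : l2 (Fin d → ℤ) →L[ℂ] l2 (Fin d → ℤ) :=
  Ring.inverse (1 - opr m * dia c)

variable {m q}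

lemma opr_norm (hm : ‖m‖ ≤ q) (u : l2 (Fin d → ℤ)) : ‖opr m u‖ ≤ q * ‖u‖ :=
  (opr m).le_of_opNorm_le (((Pool.Agent.W918.LL.main d m m).2.1).trans hm) u

lemma dia_norm {c : (Fin d → ℤ) → ℂ} (hc : ∀ x, ‖c x‖ ≤ 1) (u : l2 (Fin d → ℤ)) :
    ‖dia c u‖ ≤ ‖u‖ := by
  have h := (dia c).le_of_opNorm_le (Pool.Agent.W792.LL.DiaP.main _ c hc).2 u
  rwa [one_mul] at h

lemma dia_apply {c : (Fin d → ℤ) → ℂ} (hc : ∀ x, ‖c x‖ ≤ 1) (u : l2 (Fin d → ℤ))
    (x : Fin d → ℤ) : dia c u x = c x * u x :=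
  (Pool.Agent.W792.LL.DiaP.main _ c hc).1 u x

lemma rs_unit (hq : q < 1) (hm : ‖m‖ ≤ q) {c : (Fin d → ℤ) → ℂ} (hc : ∀ x, ‖c x‖ ≤ 1) :
    IsUnit (1 - opr m * dia c) := by
  refine isUnit_one_sub_of_norm_lt_one (lt_of_le_of_lt ?_ hq)
  calc ‖opr m * dia c‖ ≤ ‖opr m‖ * ‖dia c‖ := norm_mul_le _ _
    _ ≤ q * 1 := mul_le_mul (((Pool.Agent.W918.LL.main d m m).2.1).trans hm)
        (Pool.Agent.W792.LL.DiaP.main _ c hc).2 (norm_nonneg _) ((norm_nonneg _).trans hm)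
    _ = q := mul_one q

/-- the resolvent equation -/
lemma rs_eq (hq : q < 1) (hm : ‖m‖ ≤ q) {c : (Fin d → ℤ) → ℂ} (hc : ∀ x, ‖c x‖ ≤ 1)
    (u : l2 (Fin d → ℤ)) : Rs m c u = u + opr m (dia c (Rs m c u)) := by
  have h := Ring.mul_inverse_cancel _ (rs_unit hq hm hc)
  have h2 := congrArg (fun T : l2 (Fin d → ℤ) →L[ℂ] l2 (Fin d → ℤ) => T u) h
  simp only [mul_apply_eq_comp, sub_apply, one_apply_eq_self] at h2
  exact sub_eq_iff_eq_add.1 h2

/-- uniqueness of the solution -/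
lemma rs_uniq (hq : q < 1) (hm : ‖m‖ ≤ q) {c : (Fin d → ℤ) → ℂ} (hc : ∀ x, ‖c x‖ ≤ 1)
    (u w : l2 (Fin d → ℤ)) (h : w = u + opr m (dia c w)) : w = Rs m c u := by
  have h1 := Ring.inverse_mul_cancel _ (rs_unit hq hm hc)
  have h2 := congrArg (fun T : l2 (Fin d → ℤ) →L[ℂ] l2 (Fin d → ℤ) => T w) h1
  simp only [mul_apply_eq_comp, sub_apply, one_apply_eq_self] at h2
  have h3 : w - opr m (dia c w) = u := by
    nth_rewrite 1 [h]; abel
  rw [h3] at h2
  exact h2.symm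

lemma rs_norm (hq : q < 1) (hm : ‖m‖ ≤ q) {c : (Fin d → ℤ) → ℂ} (hc : ∀ x, ‖c x‖ ≤ 1)
    (u : l2 (Fin d → ℤ)) : ‖Rs m c u‖ ≤ ‖u‖ / (1 - q) := by
  have h1 := rs_eq hq hm hc u
  have h2 : ‖Rs m c u‖ ≤ ‖u‖ + q * ‖Rs m c u‖ := by
    calc ‖Rs m c u‖ = ‖u + opr m (dia c (Rs m c u))‖ := by rw [← h1]
      _ ≤ ‖u‖ + ‖opr m (dia c (Rs m c u))‖ := norm_add_le _ _
      _ ≤ ‖u‖ + q * ‖dia c (Rs m c u)‖ := by gcongr; exact opr_norm hm _
      _ ≤ ‖u‖ + q * ‖Rs m c u‖ := by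
          have hq0 : 0 ≤ q := (norm_nonneg _).trans hm
          gcongr; exact dia_norm hc _
  rw [le_div_iff₀ (by linarith)]
  linarith

/-- rank one perturbation -/
lemma rank_one (hq : q < 1) (hm : ‖m‖ ≤ q) {c : (Fin d → ℤ) → ℂ} (hc : ∀ x, ‖c x‖ ≤ 1)
    (x : Fin d → ℤ) (u : l2 (Fin d → ℤ)) :
    ‖Rs m c u x‖ ≤ ‖Rs m (Function.update c x 0) u x‖ / (1 - q) ∧
    ‖Rs m (Function.update c x 0) u x‖ ≤ (1 + q) * ‖Rs m c u x‖ := by
  have hq0 : 0 ≤ q := (norm_nonneg _).trans hm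
  set c' := Function.update c x 0 with hc'
  have hcb : ∀ y, ‖c' y‖ ≤ 1 := by
    intro y
    by_cases hy : y = x
    · rw [hc', hy, Function.update_self, norm_zero]; exact zero_le_one
    · rw [hc', Function.update_of_ne hy]; exact hc y
  set e : l2 (Fin d → ℤ) := lp.single 2 x (1 : ℂ) with he
  have hex : e x = 1 := by rw [he, lp.single_apply_self]
  have hey : ∀ y, y ≠ x → e y = 0 := fun y hy => by rw [he, lp.single_apply_ne _ _ _ hy]
  have hen : ‖e‖ = 1 := by rw [he, lp.norm_single (by norm_num)]; simp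
  set h := Rs m c' (opr m e) with hh
  have heq := rs_eq hq hm hcb (opr m e)
  rw [← hh] at heq
  have heq2 : h = opr m (e + dia c' h) := by rw [map_add]; exact heq
  -- bound of `h x`
  have hsum : ‖e + dia c' h‖ ^ 2 ≤ 1 + ‖h‖ ^ 2 - ‖h x‖ ^ 2 := by
    have s1 := hasSum_sq (e + dia c' h)
    have s2 := hasSum_sq h
    have s3 : HasSum (fun y => if y = x then (1 - ‖h x‖ ^ 2) else 0) (1 - ‖h x‖ ^ 2) :=
      hasSum_ite_eq x _
    have s4 := s2.add s3
    have h5 := hasSum_le (fun y => ?_) s1 s4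
    · linarith
    · show ‖(e + dia c' h) y‖ ^ 2 ≤ ‖h y‖ ^ 2 + (if y = x then (1 - ‖h x‖ ^ 2) else 0)
      rw [lp.coeFn_add, Pi.add_apply, dia_apply hcb]
      by_cases hy : y = x
      · rw [if_pos hy, hy, hc', Function.update_self, hex, zero_mul, add_zero, norm_one]
        linarith
      · rw [if_neg hy, hey y hy, zero_add, add_zero, norm_mul]
        have := hcb y
        have h6 : ‖c' y‖ * ‖h y‖ ≤ ‖h y‖ := by nlinarith [norm_nonneg (h y)]
        exact pow_le_pow_left₀ (by positivity) h6 2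
  have hhn : ‖h‖ ^ 2 ≤ q ^ 2 * ‖e + dia c' h‖ ^ 2 := by
    have h7 : ‖h‖ ≤ q * ‖e + dia c' h‖ := by
      nth_rewrite 1 [heq2]
      exact opr_norm hm _
    calc ‖h‖ ^ 2 ≤ (q * ‖e + dia c' h‖) ^ 2 := pow_le_pow_left₀ (norm_nonneg _) h7 2
      _ = _ := by ring
  have hax : ‖h x‖ ≤ q := by
    have h8 := apply_le h x
    have h9 : ‖h x‖ ^ 2 ≤ ‖h‖ ^ 2 := pow_le_pow_left₀ (norm_nonneg _) h8 2
    have h10 : ‖h x‖ ^ 2 ≤ q ^ 2 := by
      have h11 : ‖h‖ ^ 2 ≤ q ^ 2 * (1 + ‖h‖ ^ 2 - ‖h x‖ ^ 2) :=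
        hhn.trans (mul_le_mul_of_nonneg_left hsum (by positivity))
      nlinarith [mul_nonneg (by nlinarith : (0 : ℝ) ≤ 1 - q ^ 2) (sub_nonneg.2 h9)]
    exact (pow_le_pow_iff_left₀ (norm_nonneg _) hq0 (by norm_num)).1 h10
  -- the identity
  set χ := Rs m c u with hχ
  set χ' := Rs m c' u with hχ'
  have hid : χ = χ' + (c x * χ x) • h := by
    have h12 := rs_eq hq hm hc u
    rw [← hχ] at h12
    have h13 : dia c χ = dia c' χ + (c x * χ x) • e := by
      ext y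
      rw [lp.coeFn_add, Pi.add_apply, lp.coeFn_smul, Pi.smul_apply, dia_apply hc, dia_apply hcb,
        smul_eq_mul]
      by_cases hy : y = x
      · rw [hy, hc', Function.update_self, hex]; ring
      · rw [hey y hy, hc', Function.update_of_ne hy]; ring
    have h14 : χ - (c x * χ x) • h = u + opr m (dia c' (χ - (c x * χ x) • h)) := by
      rw [map_sub, map_sub, map_smul, map_smul]
      have h15 : (c x * χ x) • h = (c x * χ x) • opr m e + (c x * χ x) • opr m (dia c' h) := by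
        rw [← smul_add]; congr 1
      have h16 : opr m (dia c χ) = opr m (dia c' χ) + (c x * χ x) • opr m e := by
        rw [h13, map_add, map_smul]
      rw [h16] at h12
      nth_rewrite 1 [h12]
      nth_rewrite 1 [h15]
      abel
    have h17 := rs_uniq hq hm hcb u _ h14
    rw [← hχ'] at h17
    rw [← h17]; abel
  have hpt : χ x * (1 - h x * c x) = χ' x := by
    have h18 := congrArg (fun w : l2 (Fin d → ℤ) => w x) hid
    simp only [lp.coeFn_add, Pi.add_apply, lp.coeFn_smul, Pi.smul_apply, smul_eq_mul] at h18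
    linear_combination h18
  have hac : ‖h x * c x‖ ≤ q := by
    rw [norm_mul]
    calc ‖h x‖ * ‖c x‖ ≤ q * 1 := mul_le_mul hax (hc x) (norm_nonneg _) hq0
      _ = q := mul_one q
  have hlow : 1 - q ≤ ‖1 - h x * c x‖ := by
    have := norm_sub_norm_le (1 : ℂ) (h x * c x)
    rw [norm_one] at this
    linarith
  have hup : ‖1 - h x * c x‖ ≤ 1 + q := by
    have := norm_sub_le (1 : ℂ) (h x * c x)
    rw [norm_one] at this
    linarith
  have hn : ‖χ x‖ * ‖1 - h x * c x‖ = ‖χ' x‖ := by rw [← norm_mul, hpt]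
  constructor
  · rw [le_div_iff₀ (by linarith), ← hn]
    exact mul_le_mul_of_nonneg_left hlow (norm_nonneg _)
  · rw [← hn, mul_comm (1 + q)]
    exact mul_le_mul_of_nonneg_left hup (norm_nonneg _)

end det

/-! ### the coupling -/

lemma cay_norm (v : ℝ) : ‖cay v‖ ≤ 1 := by
  unfold cay
  have h : ((v : ℂ) + Complex.I) = (starRingEnd ℂ) ((v : ℂ) - Complex.I) := by
    rw [map_sub, Complex.conj_ofReal, Complex.conj_I]; ring
  rw [h, norm_div, RCLike.norm_conj]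
  exact div_self_le_one _

lemma cay_meas : Measurable cay := by unfold cay; fun_prop

/-- the uniform measure -/
noncomputable def lam1 : Measure ℝ := volume.restrict (Set.Ioc (0 : ℝ) 1)

instance : IsProbabilityMeasure lam1 := ⟨by simp [lam1]⟩

/-- independent uniform variables -/
noncomputable def PP (d : ℕ) : Measure ((Fin d → ℤ) → ℝ) :=
  Measure.infinitePi fun _ : Fin d → ℤ => lam1

instance (d : ℕ) : IsProbabilityMeasure (PP d) := by unfold PP; infer_instance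

/-- the potential -/
def pot {d : ℕ} (X : MX) (ω : (Fin d → ℤ) → ℝ) : (Fin d → ℤ) → ℝ := fun y => X.1 (ω y)

lemma pot_meas {d : ℕ} (X : MX) : Measurable (pot (d := d) X) :=
  measurable_pi_lambda _ fun y => X.2.comp (measurable_pi_apply y)

lemma pn_map (X : MX) (d : ℕ) : Pn (qlaw X) (Fin d → ℤ) = (PP d).map (pot X) := by
  unfold Pn PP
  exact (Measure.infinitePi_map_pi (fun _ : Fin d → ℤ => lam1) (f := fun _ => X.1)
    (fun _ => X.2)).symm

section coupling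

variable {d : ℕ} {m : C(UnitAddTorus (Fin d), ℂ)} {q : ℝ}

lemma rs_rsv (v : (Fin d → ℤ) → ℝ) : rsv m v = Rs m (fun y => cay (v y)) := rfl

lemma rsv_meas (hC : S_CSYM) (hq : q < 1) (hm : ‖m‖ ≤ q) (u₀ : l2 (Fin d → ℤ)) (x : Fin d → ℤ)
    (Y : MX) : Measurable (fun ω : (Fin d → ℤ) → ℝ => rsv m (pot Y ω) u₀ x) :=
  ((hC (qlaw Y) d m (lt_of_le_of_lt hm hq)).2.1 u₀ x).1.comp (pot_meas Y)

lemma one_coord (hC : S_CSYM) (X Y : MX) (hq : q < 1) (hm : ‖m‖ ≤ q) {τ : ℝ}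
    (hcd : cd X Y ≤ τ ^ 2) (u₀ : l2 (Fin d → ℤ)) (x : Fin d → ℤ) :
    ∫⁻ ω, ENNReal.ofReal (‖(cay (X.1 (ω x)) - cay (Y.1 (ω x))) * rsv m (pot Y ω) u₀ x‖ ^ 2)
      ∂(PP d) ≤ ENNReal.ofReal (τ ^ 2 * ((1 + q) / (1 - q)) ^ 2) *
        ∫⁻ ω, ENNReal.ofReal (‖rsv m (pot Y ω) u₀ x‖ ^ 2) ∂(PP d) := by
  classical
  have hq0 : 0 ≤ q := (norm_nonneg _).trans hm
  have hχ := rsv_meas hC hq hm u₀ x Y
  have hcX : Measurable (fun b : ℝ => cay (X.1 b) - cay (Y.1 b)) :=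
    (cay_meas.comp X.2).sub (cay_meas.comp Y.2)
  have hcω : Measurable (fun ω : (Fin d → ℤ) → ℝ => cay (X.1 (ω x)) - cay (Y.1 (ω x))) :=
    hcX.comp (measurable_pi_apply x)
  have hf : Measurable (fun ω : (Fin d → ℤ) → ℝ => ENNReal.ofReal
      (‖(cay (X.1 (ω x)) - cay (Y.1 (ω x))) * rsv m (pot Y ω) u₀ x‖ ^ 2)) :=
    ENNReal.measurable_ofReal.comp (((hcω.mul hχ).norm).pow_const 2)
  unfold PP
  rw [lintegral_resample (fun _ => lam1) x hf, ← lintegral_const_mul' _ _ ENNReal.ofReal_ne_top]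
  refine lintegral_mono fun ω => ?_
  have hb : ∀ b : ℝ, ‖rsv m (pot Y (Function.update ω x b)) u₀ x‖ ^ 2 ≤
      ((1 + q) / (1 - q)) ^ 2 * ‖rsv m (pot Y ω) u₀ x‖ ^ 2 := by
    intro b
    have h1 := (rank_one hq hm (c := fun y => cay (pot Y (Function.update ω x b) y))
      (fun y => cay_norm _) x u₀).1
    have h2 := (rank_one hq hm (c := fun y => cay (pot Y ω y)) (fun y => cay_norm _) x u₀).2
    have e : Function.update (fun y => cay (pot Y (Function.update ω x b) y)) x 0 =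
        Function.update (fun y => cay (pot Y ω y)) x 0 := by
      funext y
      by_cases hy : y = x
      · rw [hy, Function.update_self, Function.update_self]
      · rw [Function.update_of_ne hy, Function.update_of_ne hy]
        unfold pot
        rw [Function.update_of_ne hy]
    rw [e] at h1
    have h3 : ‖rsv m (pot Y (Function.update ω x b)) u₀ x‖ ≤
        (1 + q) / (1 - q) * ‖rsv m (pot Y ω) u₀ x‖ := by
      rw [rs_rsv, rs_rsv]
      refine h1.trans ?_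
      rw [div_mul_eq_mul_div]
      exact div_le_div_of_nonneg_right h2 (by linarith)
    calc _ ≤ ((1 + q) / (1 - q) * ‖rsv m (pot Y ω) u₀ x‖) ^ 2 :=
          pow_le_pow_left₀ (norm_nonneg _) h3 2
      _ = _ := by ring
  have hcdE : ∫⁻ b, ENNReal.ofReal (‖cay (X.1 b) - cay (Y.1 b)‖ ^ 2) ∂lam1 ≤
      ENNReal.ofReal (τ ^ 2) := by
    rw [← ofReal_integral_eq_lintegral_ofReal]
    · exact ENNReal.ofReal_le_ofReal hcd
    · refine Integrable.of_bound ((hcX.norm).pow_const 2).aestronglyMeasurable 4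
        (Eventually.of_forall fun b => ?_)
      rw [Real.norm_eq_abs, abs_of_nonneg (by positivity)]
      have h4 : ‖cay (X.1 b) - cay (Y.1 b)‖ ≤ 2 := by
        refine (norm_sub_le _ _).trans ?_
        linarith [cay_norm (X.1 b), cay_norm (Y.1 b)]
      nlinarith [norm_nonneg (cay (X.1 b) - cay (Y.1 b))]
    · exact Eventually.of_forall fun b => by positivity
  calc ∫⁻ b, ENNReal.ofReal (‖(cay (X.1 (Function.update ω x b x)) -
        cay (Y.1 (Function.update ω x b x))) *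
          rsv m (pot Y (Function.update ω x b)) u₀ x‖ ^ 2) ∂lam1
      ≤ ∫⁻ b, ENNReal.ofReal (‖cay (X.1 b) - cay (Y.1 b)‖ ^ 2) *
          ENNReal.ofReal (((1 + q) / (1 - q)) ^ 2 * ‖rsv m (pot Y ω) u₀ x‖ ^ 2) ∂lam1 := by
        refine lintegral_mono fun b => ?_
        rw [← ENNReal.ofReal_mul (by positivity)]
        refine ENNReal.ofReal_le_ofReal ?_
        rw [Function.update_self, norm_mul, mul_pow]
        exact mul_le_mul_of_nonneg_left (hb b) (by positivity)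
    _ = (∫⁻ b, ENNReal.ofReal (‖cay (X.1 b) - cay (Y.1 b)‖ ^ 2) ∂lam1) *
          ENNReal.ofReal (((1 + q) / (1 - q)) ^ 2 * ‖rsv m (pot Y ω) u₀ x‖ ^ 2) := by
        rw [lintegral_mul_const' _ _ ENNReal.ofReal_ne_top]
    _ ≤ ENNReal.ofReal (τ ^ 2) *
          ENNReal.ofReal (((1 + q) / (1 - q)) ^ 2 * ‖rsv m (pot Y ω) u₀ x‖ ^ 2) := by
        gcongr
    _ = ENNReal.ofReal (τ ^ 2 * ((1 + q) / (1 - q)) ^ 2) *
          ENNReal.ofReal (‖rsv m (pot Y ω) u₀ x‖ ^ 2) := by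
        rw [← ENNReal.ofReal_mul (by positivity), ← ENNReal.ofReal_mul (by positivity), mul_assoc]

/-- the difference of the phases applied to the solution -/
noncomputable def Df (m : C(UnitAddTorus (Fin d), ℂ)) (X Y : MX) (u₀ : l2 (Fin d → ℤ))
    (ω : (Fin d → ℤ) → ℝ) : l2 (Fin d → ℤ) :=
  dc (pot X ω) (rsv m (pot Y ω) u₀) - dc (pot Y ω) (rsv m (pot Y ω) u₀)

lemma df_apply (X Y : MX) (u₀ : l2 (Fin d → ℤ)) (ω : (Fin d → ℤ) → ℝ) (y : Fin d → ℤ) :
    Df m X Y u₀ ω y = (cay (X.1 (ω y)) - cay (Y.1 (ω y))) * rsv m (pot Y ω) u₀ y := by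
  unfold Df dc
  rw [lp.coeFn_sub, Pi.sub_apply, dia_apply (fun y => cay_norm _), dia_apply (fun y => cay_norm _)]
  unfold pot
  ring

lemma all_coord (hC : S_CSYM) (X Y : MX) (hq : q < 1) (hm : ‖m‖ ≤ q) {τ : ℝ}
    (hcd : cd X Y ≤ τ ^ 2) (u₀ : l2 (Fin d → ℤ)) :
    ∫⁻ ω, ENNReal.ofReal (‖Df m X Y u₀ ω‖ ^ 2) ∂(PP d) ≤
      ENNReal.ofReal (τ ^ 2 * ((1 + q) / (1 - q)) ^ 2 * (‖u₀‖ / (1 - q)) ^ 2) := by
  have hq0 : 0 ≤ q := (norm_nonneg _).trans hm
  have hcω : ∀ x : Fin d → ℤ,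
      Measurable (fun ω : (Fin d → ℤ) → ℝ => cay (X.1 (ω x)) - cay (Y.1 (ω x))) := fun x =>
    ((cay_meas.comp X.2).sub (cay_meas.comp Y.2)).comp (measurable_pi_apply x)
  have t1 : ∀ x : Fin d → ℤ, AEMeasurable (fun ω : (Fin d → ℤ) → ℝ => ENNReal.ofReal
      (‖(cay (X.1 (ω x)) - cay (Y.1 (ω x))) * rsv m (pot Y ω) u₀ x‖ ^ 2)) (PP d) := fun x =>
    (ENNReal.measurable_ofReal.comp
      ((((hcω x).mul (rsv_meas hC hq hm u₀ x Y)).norm).pow_const 2)).aemeasurable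
  have t2 : ∀ x : Fin d → ℤ, AEMeasurable (fun ω : (Fin d → ℤ) → ℝ => ENNReal.ofReal
      (‖rsv m (pot Y ω) u₀ x‖ ^ 2)) (PP d) := fun x =>
    (ENNReal.measurable_ofReal.comp ((rsv_meas hC hq hm u₀ x Y).norm.pow_const 2)).aemeasurable
  simp only [enn_sq (Df m X Y u₀ _), df_apply]
  rw [lintegral_tsum t1]
  calc ∑' x, ∫⁻ ω, ENNReal.ofReal (‖(cay (X.1 (ω x)) - cay (Y.1 (ω x))) *
        rsv m (pot Y ω) u₀ x‖ ^ 2) ∂(PP d)
      ≤ ∑' x, ENNReal.ofReal (τ ^ 2 * ((1 + q) / (1 - q)) ^ 2) *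
        ∫⁻ ω, ENNReal.ofReal (‖rsv m (pot Y ω) u₀ x‖ ^ 2) ∂(PP d) :=
        ENNReal.tsum_le_tsum fun x => one_coord hC X Y hq hm hcd u₀ x
    _ = ENNReal.ofReal (τ ^ 2 * ((1 + q) / (1 - q)) ^ 2) *
        ∫⁻ ω, ∑' x, ENNReal.ofReal (‖rsv m (pot Y ω) u₀ x‖ ^ 2) ∂(PP d) := by
        rw [ENNReal.tsum_mul_left, lintegral_tsum t2]
    _ ≤ ENNReal.ofReal (τ ^ 2 * ((1 + q) / (1 - q)) ^ 2) *
        ∫⁻ _ω : (Fin d → ℤ) → ℝ, ENNReal.ofReal ((‖u₀‖ / (1 - q)) ^ 2) ∂(PP d) := by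
        gcongr with ω
        rw [← enn_sq]
        refine ENNReal.ofReal_le_ofReal (pow_le_pow_left₀ (norm_nonneg _) ?_ 2)
        exact rs_norm hq hm (fun y => cay_norm _) u₀
    _ = _ := by
        rw [lintegral_const, measure_univ, mul_one, ← ENNReal.ofReal_mul (by positivity)]

/-- the difference of the random operators -/
noncomputable def Ff (m : C(UnitAddTorus (Fin d), ℂ)) (X Y : MX) (u₀ : l2 (Fin d → ℤ))
    (ω : (Fin d → ℤ) → ℝ) : l2 (Fin d → ℤ) :=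
  dc (pot X ω) (rsv m (pot X ω) u₀) - dc (pot Y ω) (rsv m (pot Y ω) u₀)

lemma ff_le (X Y : MX) (hq : q < 1) (hm : ‖m‖ ≤ q) (u₀ : l2 (Fin d → ℤ))
    (ω : (Fin d → ℤ) → ℝ) : ‖Ff m X Y u₀ ω‖ ≤ ‖Df m X Y u₀ ω‖ / (1 - q) := by
  have hq0 : 0 ≤ q := (norm_nonneg _).trans hm
  have h1 := rs_eq hq hm (c := fun y => cay (pot X ω y)) (fun y => cay_norm _) u₀
  have h2 := rs_eq hq hm (c := fun y => cay (pot Y ω y)) (fun y => cay_norm _) u₀
  have e : Ff m X Y u₀ ω = dc (pot X ω) (opr m (Ff m X Y u₀ ω)) + Df m X Y u₀ ω := by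
    unfold Ff Df
    rw [rs_rsv, rs_rsv]
    unfold dc
    set ξ := Rs m (fun y => cay (pot X ω y)) u₀
    set χ := Rs m (fun y => cay (pot Y ω y)) u₀
    have h3 : opr m (dia (fun y => cay (pot X ω y)) ξ - dia (fun y => cay (pot Y ω y)) χ) =
        ξ - χ := by
      rw [map_sub]
      have a1 : opr m (dia (fun y => cay (pot X ω y)) ξ) = ξ - u₀ := by
        rw [eq_sub_iff_add_eq, add_comm]; exact h1.symm
      have a2 : opr m (dia (fun y => cay (pot Y ω y)) χ) = χ - u₀ := by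
        rw [eq_sub_iff_add_eq, add_comm]; exact h2.symm
      rw [a1, a2]; abel
    rw [h3, map_sub]; abel
  have h4 : ‖Ff m X Y u₀ ω‖ ≤ q * ‖Ff m X Y u₀ ω‖ + ‖Df m X Y u₀ ω‖ := by
    calc ‖Ff m X Y u₀ ω‖ = ‖dc (pot X ω) (opr m (Ff m X Y u₀ ω)) + Df m X Y u₀ ω‖ := by
          rw [← e]
      _ ≤ ‖dc (pot X ω) (opr m (Ff m X Y u₀ ω))‖ + ‖Df m X Y u₀ ω‖ := norm_add_le _ _
      _ ≤ ‖opr m (Ff m X Y u₀ ω)‖ + ‖Df m X Y u₀ ω‖ := by
          gcongr; exact dia_norm (fun y => cay_norm _) _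
      _ ≤ _ := by gcongr; exact opr_norm hm _
  rw [le_div_iff₀ (by linarith)]
  linarith

lemma jens {Ω : Type} [MeasurableSpace Ω] (P : Measure Ω) [IsProbabilityMeasure P] (F : Ω → ℂ)
    (hF : Measurable F) (K : ℝ) (hK : ∀ ω, ‖F ω‖ ≤ K) :
    ENNReal.ofReal (‖∫ ω, F ω ∂P‖ ^ 2) ≤ ∫⁻ ω, ENNReal.ofReal (‖F ω‖ ^ 2) ∂P := by
  have i1 : Integrable (fun ω => ‖F ω‖) P :=
    Integrable.of_bound hF.norm.aestronglyMeasurable K
      (Eventually.of_forall fun ω => by rw [norm_norm]; exact hK ω)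
  have i2 : Integrable (fun ω => ‖F ω‖ ^ 2) P :=
    Integrable.of_bound (hF.norm.pow_const 2).aestronglyMeasurable (K ^ 2)
      (Eventually.of_forall fun ω => by
        rw [Real.norm_eq_abs, abs_of_nonneg (by positivity)]
        exact pow_le_pow_left₀ (norm_nonneg _) (hK ω) 2)
  rw [← ofReal_integral_eq_lintegral_ofReal i2 (Eventually.of_forall fun ω => by positivity)]
  refine ENNReal.ofReal_le_ofReal ?_
  set A := ∫ ω, ‖F ω‖ ∂P with hA
  have h1 : ‖∫ ω, F ω ∂P‖ ≤ A := norm_integral_le_integral_norm _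
  have h2 : 0 ≤ ∫ ω, (‖F ω‖ - A) ^ 2 ∂P := integral_nonneg fun ω => by positivity
  have h3 : ∫ ω, (‖F ω‖ - A) ^ 2 ∂P = ∫ ω, ‖F ω‖ ^ 2 ∂P - A ^ 2 := by
    have e : (fun ω => (‖F ω‖ - A) ^ 2) = fun ω => (‖F ω‖ ^ 2 - 2 * A * ‖F ω‖) + A ^ 2 := by
      funext ω; ring
    have s1 := integral_sub i2 (i1.const_mul (2 * A))
    have s2 := integral_add (i2.sub (i1.const_mul (2 * A))) (integrable_const (μ := P) (A ^ 2))
    simp only [Pi.sub_apply] at s2
    rw [e, s2, s1, integral_const_mul, integral_const, ← hA]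
    simp
    ring
  have h4 : ‖∫ ω, F ω ∂P‖ ^ 2 ≤ A ^ 2 := pow_le_pow_left₀ (norm_nonneg _) h1 2
  linarith

lemma dcr_meas (hC : S_CSYM) (hq : q < 1) (hm : ‖m‖ ≤ q) (u₀ : l2 (Fin d → ℤ)) (x : Fin d → ℤ)
    (X : MX) :
    Measurable (fun ω : (Fin d → ℤ) → ℝ => dc (pot X ω) (rsv m (pot X ω) u₀) x) :=
  ((hC (qlaw X) d m (lt_of_le_of_lt hm hq)).2.1 u₀ x).2.1.comp (pot_meas X)

lemma dcr_bd (hq : q < 1) (hm : ‖m‖ ≤ q) (u₀ : l2 (Fin d → ℤ)) (x : Fin d → ℤ)
    (X : MX) (ω : (Fin d → ℤ) → ℝ) :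
    ‖dc (pot X ω) (rsv m (pot X ω) u₀) x‖ ≤ ‖u₀‖ / (1 - q) :=
  (apply_le _ x).trans ((dia_norm (fun y => cay_norm _) _).trans
    (rs_norm hq hm (fun y => cay_norm _) u₀))

lemma csym_int (hC : S_CSYM) (hq : q < 1) (hm : ‖m‖ ≤ q) (u₀ : l2 (Fin d → ℤ)) (x : Fin d → ℤ)
    (X : MX) : opr (csym (qlaw X) m) u₀ x =
      ∫ ω, dc (pot X ω) (rsv m (pot X ω) u₀) x ∂(PP d) := by
  have h := (hC (qlaw X) d m (lt_of_le_of_lt hm hq)).2.1 u₀ x
  rw [← h.2.2.1, pn_map, integral_map (pot_meas X).aemeasurable h.2.1.aestronglyMeasurable]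

lemma opr_sub' (a b : C(UnitAddTorus (Fin d), ℂ)) : opr (a - b) = opr a - opr b := by
  have h1 := (Pool.Agent.W918.LL.main d (a - b) b).2.2.2.1
  rw [sub_add_cancel] at h1
  rw [h1]; abel

lemma csym_lip (hS : S_SYMB) (hC : S_CSYM) (X Y : MX) (hq : q < 1) (hm : ‖m‖ ≤ q) {τ : ℝ}
    (hτ : 0 ≤ τ) (hcd : cd X Y ≤ τ ^ 2) :
    ‖csym (qlaw X) m - csym (qlaw Y) m‖ ≤ (1 + q) / (1 - q) ^ 3 * τ := by
  have hq0 : 0 ≤ q := (norm_nonneg _).trans hm
  have hq1 : 0 < 1 - q := by linarith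
  rw [← (hS d).2.1]
  refine ContinuousLinearMap.opNorm_le_bound _ (by positivity) fun u₀ => ?_
  have hx : ∀ x, opr (csym (qlaw X) m - csym (qlaw Y) m) u₀ x =
      ∫ ω, Ff m X Y u₀ ω x ∂(PP d) := by
    intro x
    have i1 : Integrable (fun ω => dc (pot X ω) (rsv m (pot X ω) u₀) x) (PP d) :=
      Integrable.of_bound (dcr_meas hC hq hm u₀ x X).aestronglyMeasurable _
        (Eventually.of_forall fun ω => dcr_bd hq hm u₀ x X ω)
    have i2 : Integrable (fun ω => dc (pot Y ω) (rsv m (pot Y ω) u₀) x) (PP d) :=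
      Integrable.of_bound (dcr_meas hC hq hm u₀ x Y).aestronglyMeasurable _
        (Eventually.of_forall fun ω => dcr_bd hq hm u₀ x Y ω)
    rw [opr_sub', sub_apply, lp.coeFn_sub, Pi.sub_apply, csym_int hC hq hm, csym_int hC hq hm,
      ← integral_sub i1 i2]
    rfl
  have hmeas : ∀ x, Measurable (fun ω => Ff m X Y u₀ ω x) := fun x =>
    (dcr_meas hC hq hm u₀ x X).sub (dcr_meas hC hq hm u₀ x Y)
  have hbd : ∀ x ω, ‖Ff m X Y u₀ ω x‖ ≤ 2 * (‖u₀‖ / (1 - q)) := by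
    intro x ω
    have h := norm_sub_le (dc (pot X ω) (rsv m (pot X ω) u₀) x)
      (dc (pot Y ω) (rsv m (pot Y ω) u₀) x)
    have h1 := dcr_bd hq hm u₀ x X ω
    have h2 := dcr_bd hq hm u₀ x Y ω
    calc ‖Ff m X Y u₀ ω x‖ ≤ _ := h
      _ ≤ _ := by linarith
  have key : ENNReal.ofReal (‖opr (csym (qlaw X) m - csym (qlaw Y) m) u₀‖ ^ 2) ≤
      ENNReal.ofReal (((1 + q) / (1 - q) ^ 3 * τ * ‖u₀‖) ^ 2) := by
    calc ENNReal.ofReal (‖opr (csym (qlaw X) m - csym (qlaw Y) m) u₀‖ ^ 2)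
        = ∑' x, ENNReal.ofReal (‖∫ ω, Ff m X Y u₀ ω x ∂(PP d)‖ ^ 2) := by
          rw [enn_sq]; simp only [hx]
      _ ≤ ∑' x, ∫⁻ ω, ENNReal.ofReal (‖Ff m X Y u₀ ω x‖ ^ 2) ∂(PP d) :=
          ENNReal.tsum_le_tsum fun x => jens _ _ (hmeas x) _ (hbd x)
      _ = ∫⁻ ω, ENNReal.ofReal (‖Ff m X Y u₀ ω‖ ^ 2) ∂(PP d) := by
          have t3 : ∀ x : Fin d → ℤ, AEMeasurable (fun ω : (Fin d → ℤ) → ℝ => ENNReal.ofReal
              (‖Ff m X Y u₀ ω x‖ ^ 2)) (PP d) := fun x =>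
            (ENNReal.measurable_ofReal.comp ((hmeas x).norm.pow_const 2)).aemeasurable
          rw [← lintegral_tsum t3]
          simp only [enn_sq (Ff m X Y u₀ _)]
      _ ≤ ∫⁻ ω, ENNReal.ofReal ((1 / (1 - q)) ^ 2) * ENNReal.ofReal (‖Df m X Y u₀ ω‖ ^ 2)
            ∂(PP d) := by
          refine lintegral_mono fun ω => ?_
          rw [← ENNReal.ofReal_mul (by positivity)]
          refine ENNReal.ofReal_le_ofReal ?_
          calc ‖Ff m X Y u₀ ω‖ ^ 2 ≤ (‖Df m X Y u₀ ω‖ / (1 - q)) ^ 2 :=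
                pow_le_pow_left₀ (norm_nonneg _) (ff_le X Y hq hm u₀ ω) 2
            _ = _ := by field_simp
      _ = ENNReal.ofReal ((1 / (1 - q)) ^ 2) *
            ∫⁻ ω, ENNReal.ofReal (‖Df m X Y u₀ ω‖ ^ 2) ∂(PP d) := by
          rw [lintegral_const_mul' _ _ ENNReal.ofReal_ne_top]
      _ ≤ ENNReal.ofReal ((1 / (1 - q)) ^ 2) *
            ENNReal.ofReal (τ ^ 2 * ((1 + q) / (1 - q)) ^ 2 * (‖u₀‖ / (1 - q)) ^ 2) := by
          gcongr
          exact all_coord hC X Y hq hm hcd u₀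
      _ = _ := by
          rw [← ENNReal.ofReal_mul (by positivity)]
          congr 1
          field_simp
  have h5 := (ENNReal.ofReal_le_ofReal_iff (by positivity)).1 key
  exact (pow_le_pow_iff_left₀ (norm_nonneg _) (by positivity) (by norm_num)).1 h5

end coupling

theorem main : Pool.Agent.W792.WA.S_SYMB → Pool.Agent.W792.WA.S_CSYM →
    Pool.Agent.W792.WA.S_PSI → Pool.Agent.W792.WA.S_PSIW := by
  intro hS hC hP q hq0 hq
  have hq1 : 0 < 1 - q := by linarith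
  refine ⟨4 * ((1 + q) / (1 - q) ^ 3), by positivity, ?_⟩
  intro X Y τ hτ hcd d m hm
  have hlip := csym_lip hS hC X Y hq hm hτ hcd
  rw [ContinuousMap.norm_le _ (by positivity)]
  intro k
  rw [ContinuousMap.sub_apply]
  obtain ⟨a1, a2, a3, -⟩ := (hP (qlaw X) d q m m hq0 hq hm hm).1 k
  obtain ⟨b1, b2, b3, -⟩ := (hP (qlaw Y) d q m m hq0 hq hm hm).1 k
  have hk := (csym (qlaw X) m - csym (qlaw Y) m).norm_coe_le_norm k
  rw [ContinuousMap.sub_apply] at hk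
  have hmk : ‖m k‖ ≤ 1 := (m.norm_coe_le_norm k).trans (by linarith)
  set A := csym (qlaw X) m k
  set B := csym (qlaw Y) m k
  have e1 : (1 + m k * A)⁻¹ = 1 - m k * psi (qlaw X) m k := by
    rw [a2]; field_simp; ring
  have e2 : (1 + m k * B)⁻¹ = 1 - m k * psi (qlaw Y) m k := by
    rw [b2]; field_simp; ring
  have n1 : ‖(1 + m k * A)⁻¹‖ ≤ 2 := by
    rw [e1]
    refine (norm_sub_le _ _).trans ?_
    rw [norm_one, norm_mul]
    nlinarith [norm_nonneg (m k), norm_nonneg (psi (qlaw X) m k)]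
  have n2 : ‖(1 + m k * B)⁻¹‖ ≤ 2 := by
    rw [e2]
    refine (norm_sub_le _ _).trans ?_
    rw [norm_one, norm_mul]
    nlinarith [norm_nonneg (m k), norm_nonneg (psi (qlaw Y) m k)]
  have e3 : psi (qlaw X) m k - psi (qlaw Y) m k =
      (A - B) * ((1 + m k * A)⁻¹ * (1 + m k * B)⁻¹) := by
    rw [a2, b2, div_sub_div _ _ a1 b1, div_eq_mul_inv, mul_inv]
    congr 1; ring
  rw [e3, norm_mul, norm_mul]
  calc ‖A - B‖ * (‖(1 + m k * A)⁻¹‖ * ‖(1 + m k * B)⁻¹‖)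
      ≤ ((1 + q) / (1 - q) ^ 3 * τ) * (2 * 2) := by
        refine mul_le_mul (hk.trans hlip) (mul_le_mul n1 n2 (norm_nonneg _) (by norm_num))
          (by positivity) (by positivity)
    _ = _ := by ring

end Pool.Agent.W915.WA
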