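import Mathlib

/-!
# Isometries of the Cantor set given by flips

`act ε` is the isometry of `ℕ → Bool` which flips the bit number `n` of `y` iff `ε` is true at the
initial segment of `y` of length `n`.
-/

set_option autoImplicit false

namespace Pool.Agent.W915

/-- the Cantor set -/
abbrev Rl : Type := ℕ → Bool

/-- `y` and `z` have the same initial segment of length `n` -/
def Agr (n : ℕ) (y z : Rl) : Prop := ∀ k < n, y k = z k

theorem Agr.refl (n : ℕ) (y : Rl) : Agr n y y := fun _ _ => rfl

theorem Agr.symm {n : ℕ} {y z : Rl} (h : Agr n y z) : Agr n z y := fun k hk => (h k hk).symm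

theorem Agr.trans {n : ℕ} {y z w : Rl} (h : Agr n y z) (h' : Agr n z w) : Agr n y w :=
  fun k hk => (h k hk).trans (h' k hk)

theorem Agr.mono {m n : ℕ} {y z : Rl} (h : Agr n y z) (hmn : m ≤ n) : Agr m y z :=
  fun k hk => h k (hk.trans_le hmn)

/-- the initial segment of length `n` -/
def pre (y : Rl) (n : ℕ) : List Bool := (List.range n).map y

@[simp] theorem length_pre (y : Rl) (n : ℕ) : (pre y n).length = n := by simp [pre]

theorem pre_eq_iff {y z : Rl} {n : ℕ} : pre y n = pre z n ↔ Agr n y z := by
  simp only [pre, List.map_inj_left, List.mem_range]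
  rfl

theorem Agr.pre_eq {y z : Rl} {n m : ℕ} (h : Agr n y z) (hm : m ≤ n) : pre y m = pre z m :=
  pre_eq_iff.2 (h.mono hm)

theorem pre_succ (y : Rl) (n : ℕ) : pre y (n + 1) = pre y n ++ [y n] := by
  simp [pre, List.range_succ]

theorem pre_getD (y : Rl) {n k : ℕ} (h : k < n) (b : Bool) : (pre y n).getD k b = y k := by
  simp [pre, h]

/-- the isometry with the flips `ε` -/
def act (ε : List Bool → Bool) (y : Rl) : Rl := fun n => xor (y n) (ε (pre y n))

theorem act_apply (ε : List Bool → Bool) (y : Rl) (n : ℕ) :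
    act ε y n = xor (y n) (ε (pre y n)) := rfl

theorem Agr.act {ε : List Bool → Bool} {y z : Rl} {n : ℕ} (h : Agr n y z) :
    Agr n (act ε y) (act ε z) := by
  intro k hk
  rw [act_apply, act_apply, h k hk, h.pre_eq hk.le]

theorem Agr.act_congr {ε η : List Bool → Bool} {y z : Rl} {n : ℕ} (h : Agr n y z)
    (hε : ∀ s : List Bool, s.length < n → ε s = η s) : Agr n (W915.act ε y) (W915.act η z) := by
  intro k hk
  rw [act_apply, act_apply, h k hk, h.pre_eq hk.le, hε _ (by simpa using hk)]

theorem agr_of_act {ε : List Bool → Bool} {y z : Rl} {n : ℕ} (h : Agr n (act ε y) (act ε z)) :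
    Agr n y z := by
  intro k
  induction k using Nat.strong_induction_on with
  | _ k ih =>
    intro hk
    have h1 : Agr k y z := fun j hj => ih j hj (hj.trans hk)
    have h2 := h k hk
    rw [act_apply, act_apply, h1.pre_eq le_rfl] at h2
    revert h2
    cases y k <;> cases z k <;> cases ε (pre z k) <;> simp

/-- the initial segments of the inverse image -/
def invL (ε : List Bool → Bool) (z : Rl) : ℕ → List Bool
  | 0 => []
  | n + 1 => invL ε z n ++ [xor (z n) (ε (invL ε z n))]

/-- the inverse isometry -/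
def actInv (ε : List Bool → Bool) (z : Rl) : Rl := fun n => xor (z n) (ε (invL ε z n))

theorem pre_actInv (ε : List Bool → Bool) (z : Rl) (n : ℕ) : pre (actInv ε z) n = invL ε z n := by
  induction n with
  | zero => rfl
  | succ n ih => rw [pre_succ, ih]; rfl

theorem act_actInv (ε : List Bool → Bool) (z : Rl) : act ε (actInv ε z) = z := by
  funext n
  rw [act_apply, pre_actInv]
  show xor (xor (z n) (ε (invL ε z n))) (ε (invL ε z n)) = z n
  cases z n <;> cases ε (invL ε z n) <;> rfl

theorem eq_of_agr {y z : Rl} (h : ∀ n, Agr n y z) : y = z := funext fun k => h (k + 1) k (by omega)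

theorem actInv_act (ε : List Bool → Bool) (y : Rl) : actInv ε (act ε y) = y := by
  apply eq_of_agr
  intro n
  apply agr_of_act (ε := ε)
  rw [act_actInv]
  exact Agr.refl _ _

/-- the isometry as a permutation -/
def actPerm (ε : List Bool → Bool) : Equiv.Perm Rl where
  toFun := act ε
  invFun := actInv ε
  left_inv := actInv_act ε
  right_inv := act_actInv ε

@[simp] theorem actPerm_apply (ε : List Bool → Bool) (y : Rl) : actPerm ε y = act ε y := rfl

/-- the group of the isometries -/
def isoSub : Subgroup (Equiv.Perm Rl) where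
  carrier := {σ | ∀ n y z, Agr n y z ↔ Agr n (σ y) (σ z)}
  mul_mem' := by
    intro a b ha hb n y z
    rw [hb n y z, ha n (b y) (b z)]
    rfl
  one_mem' := fun _ _ _ => Iff.rfl
  inv_mem' := by
    intro a ha n y z
    rw [ha n (a⁻¹ y) (a⁻¹ z)]
    simp

theorem mem_isoSub {σ : Equiv.Perm Rl} : σ ∈ isoSub ↔ ∀ n y z, Agr n y z ↔ Agr n (σ y) (σ z) :=
  Iff.rfl

theorem actPerm_mem (ε : List Bool → Bool) : actPerm ε ∈ isoSub := by
  rw [mem_isoSub]
  intro n y z
  exact ⟨fun h => h.act, fun h => agr_of_act h⟩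

theorem lift_mem {Y : Type} (φ : Y → Equiv.Perm Rl) (hφ : ∀ y, φ y ∈ isoSub) (g : FreeGroup Y) :
    FreeGroup.lift φ g ∈ isoSub := by
  have h := FreeGroup.range_lift_le (f := φ) (s := isoSub) (by rintro _ ⟨y, rfl⟩; exact hφ y)
  exact h ⟨g, rfl⟩

end Pool.Agent.W915
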