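import Pool.Agent.W915.Cond

/-!
# Amalgamation of conditions
-/

set_option autoImplicit false

namespace Pool.Agent.W915

open Classical

theorem Valid.edge_unique {q : Pre} (hq : Valid q) {c : Cd} {u v u' v' : Pt}
    (h : (c, u, v) ∈ q.E) (h' : (c, u', v') ∈ q.E) (ha : Agr q.L (q.x u) (q.x u')) :
    u = u' ∧ v = v' := by
  have e1 := hq.sep u (hq.dom _ _ _ h).2.1 u' (hq.dom _ _ _ h').2.1 ha
  subst e1
  exact ⟨rfl, hq.sep v (hq.dom _ _ _ h).2.2 v' (hq.dom _ _ _ h').2.2
    ((hq.hom _ _ _ h).trans (hq.hom _ _ _ h').symm)⟩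

theorem Valid.edge_unique' {q : Pre} (hq : Valid q) {c : Cd} {u v u' v' : Pt}
    (h : (c, u, v) ∈ q.E) (h' : (c, u', v') ∈ q.E) (ha : Agr q.L (q.x v) (q.x v')) :
    u = u' ∧ v = v' := by
  refine hq.edge_unique h h' (agr_of_act (ε := q.ε c) ?_)
  exact (hq.hom _ _ _ h).symm.trans (ha.trans (hq.hom _ _ _ h'))

section Amal

variable (T : Set Cd) (B : Set Lev) (q r : Pre) (X : Pt → Rl) (δ : Cd → List Bool → Bool)
  (En : Finset (Cd × Pt × Pt))

/-- positions below `r.L` -/
noncomputable def posf (u : Pt) : Rl := if u.1.1 ∈ B then r.x u else X u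

/-- positions in the amalgam -/
noncomputable def px (u : Pt) : Rl := fun k =>
  if k < r.L then posf B r X u k else decide (u.1.1 ∉ B)

/-- flips in the amalgam -/
noncomputable def pe (c : Cd) (s : List Bool) : Bool :=
  if c ∈ T then (if s.length < r.L then r.ε c s else false)
  else if s.length < q.L then q.ε c s
  else if h : ∃ e : Pt × Pt, (c, e.1, e.2) ∈ q.E ∪ En ∧ pre (px B r X e.1) s.length = s then
    xor (px B r X h.choose.1 s.length) (px B r X h.choose.2 s.length)
  else δ c s

variable {T B q r X δ En}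

theorem agr_px (u : Pt) : Agr r.L (px B r X u) (posf B r X u) := by
  intro k hk
  simp [px, hk]

theorem ga (hcl : Closed T B) (hq : Valid q) (hr : Valid r) (hrp : InPart T B r)
    (hle : Le r (restr T B q))
    (hXa : ∀ u ∈ q.F, u.1.1 ∉ B → Agr q.L (X u) (q.x u))
    (hXb : ∀ c u v, (c, u, v) ∈ q.E → c ∈ T → u.1.1 ∉ B → Agr r.L (X v) (act (r.ε c) (X u)))
    (h1 : ∀ c u v, (c, u, v) ∈ En → c ∈ q.S ∧ c ∉ T ∧ u ∈ q.F ∪ r.F ∧ v ∈ q.F ∪ r.F ∧
      Agr q.L (posf B r X v) (act (q.ε c) (posf B r X u)) ∧
      ∀ p', Le p' q → Le p' r → Al p' c u v)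
    (h2 : ∀ c u v u' v', (c, u, v) ∈ En → (c, u', v') ∈ q.E ∪ En →
      Agr q.L (posf B r X u) (posf B r X u') → u = u' ∧ v = v') :
    ∃ p, Valid p ∧ Le p q ∧ Le p r ∧ p.L = r.L + 1 ∧ p.F = q.F ∪ r.F ∧ p.S = q.S ∪ r.S ∧
      p.E = q.E ∪ r.E ∪ En ∧ (∀ u, Agr r.L (p.x u) (posf B r X u)) ∧
      (∀ c s, c ∉ T → q.L ≤ s.length →
        (∀ u v, (c, u, v) ∈ q.E ∪ En → pre (p.x u) s.length ≠ s) → p.ε c s = δ c s) := by
  have hL : q.L ≤ r.L := hle.L
  -- points of `q` in the part are points of `r`
  have hqr : ∀ u ∈ q.F, u.1.1 ∈ B → u ∈ r.F := fun u hu hB =>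
    hle.F (Finset.mem_filter.2 ⟨hu, hB⟩)
  have hpos : ∀ u ∈ q.F, Agr q.L (posf B r X u) (q.x u) := by
    intro u hu
    unfold posf
    split_ifs with hB
    · exact (hle.x u (Finset.mem_filter.2 ⟨hu, hB⟩)).symm
    · exact hXa u hu hB
  have hpxq : ∀ u ∈ q.F, Agr q.L (px B r X u) (q.x u) := fun u hu =>
    ((agr_px u).mono hL).trans (hpos u hu)
  have hposr : ∀ u ∈ r.F, posf B r X u = r.x u := fun u hu => by
    unfold posf
    rw [if_pos (hrp.F u hu)]
  have hpxr : ∀ u ∈ r.F, Agr r.L (px B r X u) (r.x u) := fun u hu => by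
    rw [← hposr u hu]
    exact agr_px u
  -- uniqueness of the edges
  have huniq : ∀ c u v u' v', (c, u, v) ∈ q.E ∪ En → (c, u', v') ∈ q.E ∪ En →
      Agr q.L (posf B r X u) (posf B r X u') → u = u' ∧ v = v' := by
    intro c u v u' v' h h' ha
    rcases Finset.mem_union.1 h with h3 | h3
    · rcases Finset.mem_union.1 h' with h4 | h4
      · have hu := (hq.dom _ _ _ h3).2.1
        have hu' := (hq.dom _ _ _ h4).2.1
        exact hq.edge_unique h3 h4 ((hpos u hu).symm.trans (ha.trans (hpos u' hu')))
      · have := h2 c u' v' u v h4 h ha.symm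
        exact ⟨this.1.symm, this.2.symm⟩
    · exact h2 c u v u' v' h3 h' ha
  -- the part of `q` over the codes in `T`
  have hqT : ∀ c u v, (c, u, v) ∈ q.E → c ∈ T → u.1.1 ∈ B → (c, u, v) ∈ r.E := by
    intro c u v h hc hu
    exact hle.E (Finset.mem_filter.2 ⟨h, hc, hu⟩)
  let p : Pre := ⟨r.L + 1, q.F ∪ r.F, px B r X, q.S ∪ r.S, pe T B q r X δ En, q.E ∪ r.E ∪ En⟩
  have hpeT : ∀ c ∈ T, ∀ s : List Bool, s.length < r.L → pe T B q r X δ En c s = r.ε c s := by
    intro c hc s hs
    simp [pe, hc, hs]
  have hpeq : ∀ c ∈ q.S, ∀ s : List Bool, s.length < q.L → pe T B q r X δ En c s = q.ε c s := by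
    intro c hc s hs
    by_cases hcT : c ∈ T
    · rw [hpeT c hcT s (hs.trans_le hL)]
      exact hle.ε c (Finset.mem_filter.2 ⟨hc, hcT⟩) s hs
    · simp [pe, hcT, hs]
  have hlq : Le p q := by
    refine ⟨hL.trans (Nat.le_succ _), Finset.subset_union_left, Finset.subset_union_left,
      Finset.subset_union_left.trans Finset.subset_union_left,
      fun u hu => (hpxq u hu).symm, fun c hc s hs => hpeq c hc s hs⟩
  have hlr : Le p r := by
    refine ⟨Nat.le_succ _, Finset.subset_union_right, Finset.subset_union_right,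
      Finset.subset_union_right.trans Finset.subset_union_left,
      fun u hu => (hpxr u hu).symm, fun c hc s hs => hpeT c (hrp.S c hc) s hs⟩
  refine ⟨p, ⟨?_, ?_, ?_, ?_⟩, hlq, hlr, rfl, rfl, rfl, rfl, fun u => agr_px u, ?_⟩
  · -- separation
    intro u hu v hv hag
    have hlast : decide (u.1.1 ∉ B) = decide (v.1.1 ∉ B) := by
      have := hag r.L (Nat.lt_succ_self _)
      simpa [p, px] using this
    have hag' : Agr r.L (posf B r X u) (posf B r X v) :=
      (agr_px u).symm.trans ((hag.mono (Nat.le_succ _)).trans (agr_px v))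
    have hmem : ∀ w ∈ q.F ∪ r.F, (w.1.1 ∈ B → w ∈ r.F) ∧ (w.1.1 ∉ B → w ∈ q.F) := by
      intro w hw
      rcases Finset.mem_union.1 hw with h | h
      · exact ⟨hqr w h, fun _ => h⟩
      · exact ⟨fun _ => h, fun h' => absurd (hrp.F w h) h'⟩
    by_cases huB : u.1.1 ∈ B
    · have hvB : v.1.1 ∈ B := by
        by_contra h
        simp [huB, h] at hlast
      have hu' := (hmem u hu).1 huB
      have hv' := (hmem v hv).1 hvB
      rw [hposr u hu', hposr v hv'] at hag'
      exact hr.sep u hu' v hv' hag'
    · have hvB : v.1.1 ∉ B := by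
        intro h
        simp [huB, h] at hlast
      have hu' := (hmem u hu).2 huB
      have hv' := (hmem v hv).2 hvB
      exact hq.sep u hu' v hv' ((hpos u hu').symm.trans ((hag'.mono hL).trans (hpos v hv')))
  · -- domains
    intro c u v h
    rcases Finset.mem_union.1 h with h | h
    · rcases Finset.mem_union.1 h with h | h
      · obtain ⟨h3, h4, h5⟩ := hq.dom c u v h
        exact ⟨Finset.mem_union_left _ h3, Finset.mem_union_left _ h4, Finset.mem_union_left _ h5⟩
      · obtain ⟨h3, h4, h5⟩ := hr.dom c u v h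
        exact ⟨Finset.mem_union_right _ h3, Finset.mem_union_right _ h4,
          Finset.mem_union_right _ h5⟩
    · obtain ⟨h3, _, h4, h5, _⟩ := h1 c u v h
      exact ⟨Finset.mem_union_left _ h3, h4, h5⟩
  · -- the isometries
    have hrE : ∀ c u v, (c, u, v) ∈ r.E →
        Agr (r.L + 1) (px B r X v) (act (pe T B q r X δ En c) (px B r X u)) := by
      intro c u v h
      obtain ⟨h3, h4, h5⟩ := hr.dom c u v h
      have hcT := hrp.S c h3
      intro k hk
      rcases Nat.lt_succ_iff_lt_or_eq.1 hk with hk | rfl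
      · have h6 : Agr r.L (act (pe T B q r X δ En c) (px B r X u)) (act (r.ε c) (r.x u)) :=
          (hpxr u h4).act_congr fun s hs => hpeT c hcT s hs
        exact ((hpxr v h5).trans ((hr.hom c u v h).trans h6.symm)) k hk
      · rw [act_apply]
        have h7 : px B r X v r.L = false := by simp [px, hrp.F v h5]
        have h8 : px B r X u r.L = false := by simp [px, hrp.F u h4]
        rw [h7, h8]
        simp [pe, hcT]
    have hqE : ∀ c u v, (c, u, v) ∈ q.E ∪ En → c ∉ T →
        Agr (r.L + 1) (px B r X v) (act (pe T B q r X δ En c) (px B r X u)) := by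
      intro c u v h hcT k _
      rw [act_apply]
      by_cases hkq : k < q.L
      · have h3 : pe T B q r X δ En c (pre (px B r X u) k) = q.ε c (pre (px B r X u) k) := by
          simp [pe, hcT, hkq]
        rw [h3]
        have h4 : Agr q.L (px B r X v) (act (q.ε c) (px B r X u)) := by
          rcases Finset.mem_union.1 h with h5 | h5
          · obtain ⟨_, h6, h7⟩ := hq.dom c u v h5
            exact (hpxq v h7).trans ((hq.hom c u v h5).trans (hpxq u h6).symm.act)
          · have h6 := (h1 c u v h5).2.2.2.2.1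
            exact ((agr_px v).mono hL).trans (h6.trans ((agr_px u).mono hL).symm.act)
        exact h4 k hkq
      · have hex : ∃ e : Pt × Pt, (c, e.1, e.2) ∈ q.E ∪ En ∧
            pre (px B r X e.1) (pre (px B r X u) k).length = pre (px B r X u) k :=
          ⟨(u, v), h, by simp⟩
        have h3 : pe T B q r X δ En c (pre (px B r X u) k) =
            xor (px B r X hex.choose.1 (pre (px B r X u) k).length)
              (px B r X hex.choose.2 (pre (px B r X u) k).length) := by
          unfold pe
          rw [if_neg hcT, if_neg (by simpa using hkq), dif_pos hex]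
        obtain ⟨h4, h5⟩ := hex.choose_spec
        generalize hex.choose = e at h3 h4 h5
        rw [length_pre, pre_eq_iff] at h5
        have h6 : Agr q.L (posf B r X e.1) (posf B r X u) := by
          exact ((agr_px _).mono hL).symm.trans ((h5.mono (not_lt.1 hkq)).trans
            ((agr_px u).mono hL))
        obtain ⟨h7, h8⟩ := huniq c _ _ u v h4 h h6
        rw [h3, h7, h8, length_pre]
        cases px B r X u k <;> cases px B r X v k <;> rfl
    intro c u v h
    show Agr (r.L + 1) (px B r X v) (act (pe T B q r X δ En c) (px B r X u))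
    rcases Finset.mem_union.1 h with h | h
    · rcases Finset.mem_union.1 h with h | h
      · by_cases hcT : c ∈ T
        · by_cases huB : u.1.1 ∈ B
          · exact hrE c u v (hqT c u v h hcT huB)
          · have hvB : v.1.1 ∉ B := fun h' => huB (((hq.al c u v h).level hcl hcT).1 h')
            intro k hk
            rcases Nat.lt_succ_iff_lt_or_eq.1 hk with hk | rfl
            · have h3 := hXb c u v h hcT huB
              have e1 : posf B r X v = X v := by unfold posf; rw [if_neg hvB]
              have e2 : posf B r X u = X u := by unfold posf; rw [if_neg huB]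
              have h4 : Agr r.L (px B r X v) (X v) := by rw [← e1]; exact agr_px v
              have h5 : Agr r.L (px B r X u) (X u) := by rw [← e2]; exact agr_px u
              have h6 : Agr r.L (act (pe T B q r X δ En c) (px B r X u)) (act (r.ε c) (X u)) :=
                h5.act_congr fun s hs => hpeT c hcT s hs
              exact (h4.trans (h3.trans h6.symm)) k hk
            · rw [act_apply]
              have h7 : px B r X v r.L = true := by simp [px, hvB]
              have h8 : px B r X u r.L = true := by simp [px, huB]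
              rw [h7, h8]
              simp [pe, hcT]
        · exact hqE c u v (Finset.mem_union_left _ h) hcT
      · exact hrE c u v h
    · exact hqE c u v (Finset.mem_union_right _ h) (h1 c u v h).2.1
  · -- allowed edges
    intro c u v h
    rcases Finset.mem_union.1 h with h | h
    · rcases Finset.mem_union.1 h with h | h
      · exact (hq.al c u v h).mono hlq
      · exact (hr.al c u v h).mono hlr
    · exact (h1 c u v h).2.2.2.2.2 p hlq hlr
  · intro c s hcT hs hfree
    have hne : ¬ ∃ e : Pt × Pt, (c, e.1, e.2) ∈ q.E ∪ En ∧ pre (px B r X e.1) s.length = s := by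
      rintro ⟨⟨u, v⟩, h3, h4⟩
      exact hfree u v h3 h4
    show pe T B q r X δ En c s = δ c s
    unfold pe
    rw [if_neg hcT, if_neg (not_lt.2 hs), dif_neg hne]

end Amal

end Pool.Agent.W915
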