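import Pool.Agent.W915.Edge

/-!
# The combinatorial statement is forced
-/

set_option autoImplicit false

namespace Pool.Agent.W915

open Classical Cardinal Pool.Agent.W684.FM Pool.Agent.Helper669.Forcing

theorem countable_possible {D : Pt → Set PP} {e : ℕ → Pt → Set PP} {q : PP}
    (h : q ∈ fand (IsFun e) (fall fun i => fimp (meets (D i)) (fex fun n => meets (e n i)))) :
    {i | ∃ p ≤ q, p ∈ meets (D i)}.Countable := by
  by_contra hcon
  have h1 : ∀ i : {i | ∃ p ≤ q, p ∈ meets (D i)}, ∃ n, ∃ p ≤ q, p ∈ meets (e n i.1) := by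
    rintro ⟨i, p, hp, hi⟩
    obtain ⟨r, hr, hr'⟩ := mem_fimp.1 (h.2 i) p hp hi
    obtain ⟨s, hs, n, hn⟩ := mem_fex.1 hr' r le_rfl
    exact ⟨n, s, (hs.trans hr).trans hp, hn⟩
  choose n f hf hn using h1
  obtain ⟨i, i', hne, heq, s, hs, hs'⟩ := pccc.exists_compat_same
    (X := {i | ∃ p ≤ q, p ∈ meets (D i)}) (Z := ℕ) (by
      rw [mk_nat, aleph0_mul_aleph0]
      by_contra hle
      rw [not_lt] at hle
      exact hcon (Cardinal.le_aleph0_iff_set_countable.1 hle)) f n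
  apply hne
  apply Subtype.ext
  refine IsFun.unique (down_IsFun e q h.1 s (hs.trans (hf i))) (down_meets _ _ (hn i) s hs) ?_
  rw [heq]
  exact down_meets _ _ (hn i') s hs'

theorem exists_enum {α : Type} {Y : Set α} (hY : Y.Countable) :
    ∃ f : ℕ → Option α, ∀ s, (∃ n, f n = some s) ↔ s ∈ Y := by
  rcases Y.eq_empty_or_nonempty with rfl | hne
  · exact ⟨fun _ => none, fun s => by simp⟩
  · obtain ⟨f, hf⟩ := hY.exists_eq_range hne
    refine ⟨fun n => some (f n), fun s => ?_⟩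
    rw [hf]
    simp

theorem exists_cluster {Z : Set Cl} (hZ : Z.Countable) : ∃ j, j ∉ Z := by
  by_contra hcon
  push Not at hcon
  have h1 : #Cl ≤ ℵ₀ := by
    rw [← mk_univ, Cardinal.le_aleph0_iff_set_countable]
    exact hZ.mono fun j _ => hcon j
  rw [mk_Cl] at h1
  exact absurd h1 (not_le.2 aleph0_lt_continuum)

theorem cdhN (p : PP) : p ∈ CDHN xN := by
  intro D E
  refine mem_fimp.2 fun q _ hq => ?_
  obtain ⟨hD, hE, hdD, hdE⟩ := hq
  obtain ⟨q1, h1, eD, heD⟩ := mem_fex.1 hD q le_rfl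
  obtain ⟨q2, h2, eE, heE⟩ := mem_fex.1 hE q1 h1
  have cD := countable_possible (q := q2) (e := eD) (D := D)
    ⟨down_IsFun _ _ heD.1 _ h2, down_fall (fun _ => down_fimp _ _) _ heD.2 _ h2⟩
  have cE := countable_possible heE
  obtain ⟨j, hj⟩ := exists_cluster ((cD.union cE).image fun i => i.1)
  have hZ : (((fun i : Pt => i.1) '' ({i | ∃ p ≤ q2, p ∈ meets (D i)} ∪
      {i | ∃ p ≤ q2, p ∈ meets (E i)})) ∪ {j}).Countable :=
    ((cD.union cE).image _).union (Set.countable_singleton j)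
  obtain ⟨K0, hK0⟩ := hZ.exists_eq_range ⟨j, Or.inr rfl⟩
  have hA : ∀ u v, ∃ A : Set PP, A.Countable ∧ A ⊆ IffN (meets (D u)) (meets (E v)) ∧
      ∀ p ∈ IffN (meets (D u)) (meets (E v)), ∃ a ∈ A, ∃ r, r ≤ p ∧ r ≤ a := fun u v =>
    exists_predense pccc _ (down_IffN _ _)
  choose A hA1 hA2 hA3 using hA
  have hN0 : ∀ u v, ∃ f : ℕ → Option (Finset Fact), ∀ s, (∃ n, f n = some s) ↔
      s ∈ (fun a : PP => facts a.1) '' A u v := fun u v => exists_enum ((hA1 u v).image _)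
  choose N0 hN0 using hN0
  have hAD : ∀ u, ∃ A : Set PP, A.Countable ∧ meets A = meets (D u) := fun u =>
    exists_countable_name pccc _
  choose AD hAD1 hAD2 using hAD
  have hAE : ∀ u, ∃ A : Set PP, A.Countable ∧ meets A = meets (E u) := fun u =>
    exists_countable_name pccc _
  choose AE hAE1 hAE2 using hAE
  obtain ⟨T, hT, hcl, hin⟩ := exists_part_univ (ι := Pt × Pt)
    (by rw [mk_prod, lift_id, mk_Pt, continuum_mul_self])
    (fun z => {q2} ∪ A z.1 z.2 ∪ (AD z.1 ∪ AE z.2))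
    (fun z => ((Set.countable_singleton q2).union (hA1 _ _)).union ((hAD1 _).union (hAE1 _)))
  obtain ⟨c, hcT, hc⟩ := exists_code (K0, N0) T hT
  have hK : K c = K0 := by
    unfold K
    rw [hc]
  have hN' : ∀ u v, N c u v = (fun a : PP => facts a.1) '' A u v := by
    intro u v
    unfold N
    rw [hc]
    ext s
    exact hN0 u v s
  have hmem : ∀ k, k ∈ (((fun i : Pt => i.1) '' ({i | ∃ p ≤ q2, p ∈ meets (D i)} ∪
      {i | ∃ p ≤ q2, p ∈ meets (E i)})) ∪ {j}) → k ∈ Kst c := by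
    intro k hk
    rw [hK0] at hk
    obtain ⟨n, rfl⟩ := hk
    rw [← hK]
    exact K_mem c n
  let i0 : Pt := (j, 0)
  have hS : Setup q2 D E T c := by
    refine ⟨hcl, hcT, hin (i0, i0) q2 (Or.inl (Or.inl rfl)), fun u => ⟨AD u, fun a ha =>
      hin (u, i0) a (Or.inr (Or.inl ha)), hAD2 u⟩, fun u => ⟨AE u, fun a ha =>
      hin (i0, u) a (Or.inr (Or.inr ha)), hAE2 u⟩, fun u v => ⟨A u v, fun a ha =>
      hin (u, v) a (Or.inl (Or.inr ha)), hA2 u v, hA3 u v, hN' u v⟩, fun u p hp hu => ?_,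
      fun u p hp hu => ?_, ⟨j, hmem j (Or.inr rfl), fun u hu p hp => ⟨fun h => ?_, fun h => ?_⟩⟩,
      down_DenseN _ _ _ hdD _ (h2.trans h1), down_DenseN _ _ _ hdE _ (h2.trans h1)⟩
    · exact hmem _ (Or.inl ⟨u, Or.inl ⟨p, hp, hu⟩, rfl⟩)
    · exact hmem _ (Or.inl ⟨u, Or.inr ⟨p, hp, hu⟩, rfl⟩)
    · exact hj ⟨u, Or.inl ⟨p, hp, h⟩, hu⟩
    · exact hj ⟨u, Or.inr ⟨p, hp, h⟩, hu⟩
  refine ⟨q2, h2.trans h1, mem_fex_of_mem (hN c) ?_ hS.forced⟩
  exact down_fand (down_IsFun _) (down_fand (down_IsInj _) (down_fand (down_IsOnto _)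
    (down_fand (down_fall fun _ => down_fall fun _ => down_fimp _ _)
      (down_fall fun _ => down_fall fun _ => down_fall fun _ => down_fall fun _ =>
        down_fall fun _ => down_fimp _ _))))

/-- the combinatorial statement is forced -/
theorem smallCDHN (p : PP) : p ∈ SmallCDHN PP Pt := by
  refine ⟨fewN p, mem_fex.2 fun q _ => ⟨q, le_rfl, xN, injN q, denseN q, baireN q, cdhN q⟩⟩

theorem valid_nil : Valid ⟨0, ∅, fun _ _ => false, ∅, fun _ _ => false, ∅⟩ :=
  ⟨fun i hi => absurd hi (Finset.notMem_empty i),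
    fun c u v h => absurd h (Finset.notMem_empty _), fun c u v h => absurd h (Finset.notMem_empty _),
    fun c u v h => absurd h (Finset.notMem_empty _)⟩

/-- there is a preordered set of conditions which preserves all cardinals and forces the
combinatorial statement -/
theorem exists_forcing : ∃ (P : Type) (_ : Preorder P), Nonempty P ∧ ∀ p : P,
    p ∈ CardinalsPreserved.{0, 0} P ∧ p ∈ SmallCDHN P Pt :=
  ⟨PP, inferInstance, ⟨⟨_, valid_nil⟩⟩, fun p => ⟨pccc.cardinalsPreserved p, smallCDHN p⟩⟩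

end Pool.Agent.W915
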