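import Pool.Agent.W915.Theta
import Pool.Agent.W684.FM.Ambient

/-!
# The partial order of the conditions; the countable chain condition
-/

set_option autoImplicit false

namespace Pool.Agent.W915

open Classical Pool.Agent.W684.FM

/-- two conditions which agree on the common points and codes are compatible -/
theorem compat_of_agree {p q : Pre} (hp : Valid p) (hq : Valid q) (hL : p.L = q.L)
    (hx : ∀ i ∈ p.F, i ∈ q.F → Agr p.L (p.x i) (q.x i))
    (hε : ∀ c ∈ p.S, c ∈ q.S → ∀ s : List Bool, s.length < p.L → p.ε c s = q.ε c s)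
    (hR : ∀ c u v, (c, u, v) ∈ q.E → c ∈ p.S → (u ∈ p.F ↔ v ∈ p.F)) :
    ∃ r, Valid r ∧ Le r p ∧ Le r q := by
  let x : Pt → Rl := fun u k =>
    if k < p.L then (if u ∈ p.F then p.x u k else q.x u k) else decide (u ∉ p.F)
  let ε : Cd → List Bool → Bool := fun c s =>
    if s.length < p.L then (if c ∈ p.S then p.ε c s else q.ε c s)
    else if c ∈ p.S then false
    else if h : ∃ e : Pt × Pt, (c, e.1, e.2) ∈ q.E ∧ pre (x e.1) s.length = s then
      xor (x h.choose.1 s.length) (x h.choose.2 s.length)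
    else false
  have hxp : ∀ u ∈ p.F, Agr p.L (x u) (p.x u) := by
    intro u hu k hk
    simp [x, hk, hu]
  have hxq : ∀ u ∈ q.F, Agr p.L (x u) (q.x u) := by
    intro u hu k hk
    by_cases hup : u ∈ p.F
    · simp only [x, if_pos hk, if_pos hup]
      exact hx u hup hu k hk
    · simp [x, hk, hup]
  have hεp : ∀ c ∈ p.S, ∀ s : List Bool, s.length < p.L → ε c s = p.ε c s := by
    intro c hc s hs
    simp [ε, hc, hs]
  have hεq : ∀ c ∈ q.S, ∀ s : List Bool, s.length < p.L → ε c s = q.ε c s := by
    intro c hc s hs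
    by_cases hcp : c ∈ p.S
    · rw [hεp c hcp s hs, hε c hcp hc s hs]
    · simp [ε, hcp, hs]
  let r : Pre := ⟨p.L + 1, p.F ∪ q.F, x, p.S ∪ q.S, ε, p.E ∪ q.E⟩
  have hlp : Le r p := ⟨Nat.le_succ _, Finset.subset_union_left, Finset.subset_union_left,
    Finset.subset_union_left, fun u hu => (hxp u hu).symm, fun c hc s hs => hεp c hc s hs⟩
  have hlq : Le r q := by
    refine ⟨hL ▸ Nat.le_succ _, Finset.subset_union_right, Finset.subset_union_right,
      Finset.subset_union_right, fun u hu => ?_, fun c hc s hs => ?_⟩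
    · rw [← hL]
      exact (hxq u hu).symm
    · rw [← hL] at hs
      exact hεq c hc s hs
  refine ⟨r, ⟨?_, ?_, ?_, ?_⟩, hlp, hlq⟩
  · intro u hu v hv hag
    have hlast : decide (u ∉ p.F) = decide (v ∉ p.F) := by
      have := hag p.L (Nat.lt_succ_self _)
      simpa [r, x] using this
    have hag' : Agr p.L (x u) (x v) := hag.mono (Nat.le_succ _)
    by_cases hup : u ∈ p.F
    · have hvp : v ∈ p.F := by
        by_contra h
        simp [hup, h] at hlast
      exact hp.sep u hup v hvp ((hxp u hup).symm.trans (hag'.trans (hxp v hvp)))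
    · have hvp : v ∉ p.F := by
        intro h
        simp [hup, h] at hlast
      have huq : u ∈ q.F := (Finset.mem_union.1 hu).resolve_left hup
      have hvq : v ∈ q.F := (Finset.mem_union.1 hv).resolve_left hvp
      refine hq.sep u huq v hvq ?_
      rw [← hL]
      exact (hxq u huq).symm.trans (hag'.trans (hxq v hvq))
  · intro c u v h
    rcases Finset.mem_union.1 h with h | h
    · obtain ⟨h3, h4, h5⟩ := hp.dom c u v h
      exact ⟨Finset.mem_union_left _ h3, Finset.mem_union_left _ h4, Finset.mem_union_left _ h5⟩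
    · obtain ⟨h3, h4, h5⟩ := hq.dom c u v h
      exact ⟨Finset.mem_union_right _ h3, Finset.mem_union_right _ h4,
        Finset.mem_union_right _ h5⟩
  · intro c u v h
    show Agr (p.L + 1) (x v) (act (ε c) (x u))
    intro k hk
    rcases Finset.mem_union.1 h with h | h
    · obtain ⟨h3, h4, h5⟩ := hp.dom c u v h
      rcases Nat.lt_succ_iff_lt_or_eq.1 hk with hk | rfl
      · have h6 : Agr p.L (act (ε c) (x u)) (act (p.ε c) (p.x u)) :=
          (hxp u h4).act_congr fun s hs => hεp c h3 s hs
        exact ((hxp v h5).trans ((hp.hom c u v h).trans h6.symm)) k hk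
      · rw [act_apply]
        have h7 : x v p.L = false := by simp [x, h5]
        have h8 : x u p.L = false := by simp [x, h4]
        rw [h7, h8]
        simp [ε, h3]
    · obtain ⟨h3, h4, h5⟩ := hq.dom c u v h
      rcases Nat.lt_succ_iff_lt_or_eq.1 hk with hk | rfl
      · have h6 : Agr p.L (act (ε c) (x u)) (act (q.ε c) (q.x u)) :=
          (hxq u h4).act_congr fun s hs => hεq c h3 s hs
        have h7 : Agr p.L (q.x v) (act (q.ε c) (q.x u)) := by
          rw [hL]
          exact hq.hom c u v h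
        exact ((hxq v h5).trans (h7.trans h6.symm)) k hk
      · rw [act_apply]
        by_cases hcp : c ∈ p.S
        · have h6 := hR c u v h hcp
          have h7 : x v p.L = decide (v ∉ p.F) := by simp [x]
          have h8 : x u p.L = decide (u ∉ p.F) := by simp [x]
          have h9 : ε c (pre (x u) p.L) = false := by simp [ε, hcp]
          rw [h7, h8, h9, Bool.xor_false]
          simp [h6]
        · have hex : ∃ e : Pt × Pt, (c, e.1, e.2) ∈ q.E ∧
              pre (x e.1) (pre (x u) p.L).length = pre (x u) p.L := ⟨(u, v), h, by simp⟩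
          have h9 : ε c (pre (x u) p.L) = xor (x hex.choose.1 (pre (x u) p.L).length)
              (x hex.choose.2 (pre (x u) p.L).length) := by
            simp only [ε]
            rw [if_neg (by simp), if_neg hcp, dif_pos hex]
          obtain ⟨h10, h11⟩ := hex.choose_spec
          generalize hex.choose = e at h9 h10 h11
          rw [length_pre, pre_eq_iff] at h11
          have h12 : Agr q.L (q.x e.1) (q.x u) := by
            rw [← hL]
            exact (hxq _ (hq.dom _ _ _ h10).2.1).symm.trans (h11.trans (hxq u h4))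
          obtain ⟨h13, h14⟩ := hq.edge_unique h10 h h12
          rw [h9, h13, h14, length_pre]
          cases x u p.L <;> cases x v p.L <;> rfl
  · intro c u v h
    rcases Finset.mem_union.1 h with h | h
    · exact (hp.al c u v h).mono hlp
    · exact (hq.al c u v h).mono hlq

/-- the partial order of the conditions -/
def PP : Type := {p : Pre // Valid p}

instance : Preorder PP where
  le q p := Le q.1 p.1
  le_refl p := Le.refl p.1
  le_trans _ _ _ h h' := h.trans h'

theorem PP.le_def {p q : PP} : q ≤ p ↔ Le q.1 p.1 := Iff.rfl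

/-- possible values of the isometry with code `c` -/
def Cand (c : Cd) (u v : Pt) : Prop := (u.1 ∉ Kst c ∧ v.1 = mv c u.1) ∨ (u.1 ∈ Kst c ∧ v.1 ∈ Kst c)

theorem Al.cand {p : Pre} {c : Cd} {u v : Pt} (h : Al p c u v) : Cand c u v := by
  rcases h with h | ⟨h1, h2, _⟩
  · exact Or.inl h
  · exact Or.inr ⟨h1, h2⟩

theorem countable_fst {Z : Set Cl} (hZ : Z.Countable) : {v : Pt | v.1 ∈ Z}.Countable := by
  have : {v : Pt | v.1 ∈ Z} = Z ×ˢ Set.univ := by
    ext v
    simp
  rw [this]
  exact hZ.prod (Set.countable_univ)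

theorem countable_cand (c : Cd) (u : Pt) : {v | Cand c u v}.Countable := by
  refine ((countable_fst (Set.countable_singleton (mv c u.1))).union
    (countable_fst (countable_Kst c))).mono ?_
  rintro v (h | h)
  · exact Or.inl h.2
  · exact Or.inr h.2

theorem countable_cand' (c : Cd) (v : Pt) : {u | Cand c u v}.Countable := by
  refine ((countable_fst (Set.countable_singleton
    ((v.1.1, (FreeGroup.of (gn c v.1.1))⁻¹ * v.1.2) : Cl))).union
    (countable_fst (countable_Kst c))).mono ?_
  rintro u (h | h)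
  · left
    have h1 := h.2
    show u.1 = _
    rw [h1]
    refine Prod.ext rfl ?_
    show u.1.2 = (FreeGroup.of (gn c u.1.1))⁻¹ * (FreeGroup.of (gn c u.1.1) * u.1.2)
    group
  · exact Or.inr h.1

/-- facts about the elements of a finite set of points and codes -/
def RootFact (R : Finset (Pt ⊕ Cd)) : Fact → Prop
  | .pt i _ => Sum.inl i ∈ R
  | .fl c _ _ => Sum.inr c ∈ R
  | .cd c => Sum.inr c ∈ R
  | .lv _ => True
  | .ed c u v => Sum.inr c ∈ R ∧ Cand c u v ∧ (Sum.inl u ∈ R ∨ Sum.inl v ∈ R)

theorem countable_rootFact (R : Finset (Pt ⊕ Cd)) : {f | RootFact R f}.Countable := by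
  have hR : (R : Set (Pt ⊕ Cd)).Countable := R.countable_toSet
  have h1 : (⋃ z ∈ (R : Set (Pt ⊕ Cd)), ⋃ i ∈ {i | z = Sum.inl i},
      Set.range fun t => Fact.pt i t).Countable := by
    refine hR.biUnion fun z _ => Set.Countable.biUnion ?_ fun i _ => Set.countable_range _
    cases z with
    | inl j => exact (Set.countable_singleton j).mono (by rintro i h; cases h; rfl)
    | inr j => exact Set.countable_empty.mono (by rintro i h; cases h)
  have hc : ∀ (G : Cd → Set Fact), (∀ c, (G c).Countable) →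
      (⋃ z ∈ (R : Set (Pt ⊕ Cd)), ⋃ c ∈ {c | z = Sum.inr c}, G c).Countable := by
    intro G hG
    refine hR.biUnion fun z _ => Set.Countable.biUnion ?_ fun i _ => hG _
    cases z with
    | inl j => exact Set.countable_empty.mono (by rintro i h; cases h)
    | inr j => exact (Set.countable_singleton j).mono (by rintro i h; cases h; rfl)
  have hp : ∀ (G : Pt → Set Fact), (∀ c, (G c).Countable) →
      (⋃ z ∈ (R : Set (Pt ⊕ Cd)), ⋃ c ∈ {c | z = Sum.inl c}, G c).Countable := by
    intro G hG
    refine hR.biUnion fun z _ => Set.Countable.biUnion ?_ fun i _ => hG _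
    cases z with
    | inr j => exact Set.countable_empty.mono (by rintro i h; cases h)
    | inl j => exact (Set.countable_singleton j).mono (by rintro i h; cases h; rfl)
  have h2 := hc (fun c => Set.range fun a : List Bool × Bool => Fact.fl c a.1 a.2)
    fun c => Set.countable_range _
  have h3 := hc (fun c => {Fact.cd c}) fun c => Set.countable_singleton _
  have h4 : (Set.range Fact.lv).Countable := Set.countable_range _
  have h5 := hc (fun c => ⋃ z ∈ (R : Set (Pt ⊕ Cd)), ⋃ u ∈ {u | z = Sum.inl u},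
    (fun v => Fact.ed c u v) '' {v | Cand c u v}) fun c =>
      hp _ fun u => (countable_cand c u).image _
  have h6 := hc (fun c => ⋃ z ∈ (R : Set (Pt ⊕ Cd)), ⋃ v ∈ {v | z = Sum.inl v},
    (fun u => Fact.ed c u v) '' {u | Cand c u v}) fun c =>
      hp _ fun v => (countable_cand' c v).image _
  refine (h1.union (h2.union (h3.union (h4.union (h5.union h6))))).mono ?_
  intro f hf
  cases f with
  | pt i t =>
    left
    exact Set.mem_biUnion (show Sum.inl i ∈ (R : Set (Pt ⊕ Cd)) from hf)
      (Set.mem_biUnion (show i ∈ {j | Sum.inl i = Sum.inl j} from rfl) ⟨t, rfl⟩)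
  | fl c s b =>
    right; left
    exact Set.mem_biUnion (show Sum.inr c ∈ (R : Set (Pt ⊕ Cd)) from hf)
      (Set.mem_biUnion (show c ∈ {j | Sum.inr c = Sum.inr j} from rfl) ⟨(s, b), rfl⟩)
  | cd c =>
    right; right; left
    exact Set.mem_biUnion (show Sum.inr c ∈ (R : Set (Pt ⊕ Cd)) from hf)
      (Set.mem_biUnion (show c ∈ {j | Sum.inr c = Sum.inr j} from rfl) rfl)
  | lv n =>
    right; right; right; left
    exact ⟨n, rfl⟩
  | ed c u v =>
    right; right; right; right
    obtain ⟨h7, h8, h9 | h9⟩ := hf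
    · left
      exact Set.mem_biUnion (show Sum.inr c ∈ (R : Set (Pt ⊕ Cd)) from h7)
        (Set.mem_biUnion (show c ∈ {j | Sum.inr c = Sum.inr j} from rfl)
          (Set.mem_biUnion (show Sum.inl u ∈ (R : Set (Pt ⊕ Cd)) from h9)
            (Set.mem_biUnion (show u ∈ {j | Sum.inl u = Sum.inl j} from rfl) ⟨v, h8, rfl⟩)))
    · right
      exact Set.mem_biUnion (show Sum.inr c ∈ (R : Set (Pt ⊕ Cd)) from h7)
        (Set.mem_biUnion (show c ∈ {j | Sum.inr c = Sum.inr j} from rfl)
          (Set.mem_biUnion (show Sum.inl v ∈ (R : Set (Pt ⊕ Cd)) from h9)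
            (Set.mem_biUnion (show v ∈ {j | Sum.inl v = Sum.inl j} from rfl) ⟨u, h8, rfl⟩)))

/-- the countable chain condition -/
theorem pccc : PCCC PP := by
  intro A hA
  by_contra hunc
  obtain ⟨A', R, hA', hunc', hR, hd⟩ := Helper126.delta_system
    (fun p : PP => p.1.F.disjSum p.1.S) A hunc
  let g : PP → Set Fact := fun p => {f | f ∈ facts p.1 ∧ RootFact R f}
  have hg : (g '' A').Countable := by
    refine (Set.countable_ofPred_finite_subset (countable_rootFact R)).mono ?_
    rintro _ ⟨p, _, rfl⟩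
    refine ⟨(facts p.1).finite_toSet.subset fun f hf => hf.1, fun f hf => hf.2⟩
  have hninj : ¬ Set.InjOn g A' := fun hinj =>
    hunc' (Set.countable_of_injective_of_countable_image hinj hg)
  simp only [Set.InjOn, not_forall] at hninj
  obtain ⟨p, hp, q, hq, hgpq, hne⟩ := hninj
  apply hA p (hA' hp) q (hA' hq) hne
  have hpq : ∀ f ∈ facts p.1, RootFact R f → f ∈ facts q.1 := by
    intro f hf hf'
    have : f ∈ g p := ⟨hf, hf'⟩
    rw [hgpq] at this
    exact this.1
  have hqp : ∀ f ∈ facts q.1, RootFact R f → f ∈ facts p.1 := by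
    intro f hf hf'
    have : f ∈ g q := ⟨hf, hf'⟩
    rw [← hgpq] at this
    exact this.1
  have hF : ∀ i ∈ p.1.F, i ∈ q.1.F → Sum.inl i ∈ R := fun i hi hi' =>
    hd p hp q hq hne _ (Finset.inl_mem_disjSum.2 hi) (Finset.inl_mem_disjSum.2 hi')
  have hS : ∀ c ∈ p.1.S, c ∈ q.1.S → Sum.inr c ∈ R := fun c hc hc' =>
    hd p hp q hq hne _ (Finset.inr_mem_disjSum.2 hc) (Finset.inr_mem_disjSum.2 hc')
  have hL : p.1.L = q.1.L := by
    have h1 := hpq _ (mem_facts.2 (Or.inl rfl)) trivial
    have h2 : p.1.L ≤ q.1.L := sat_facts h1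
    have h3 := hqp _ (mem_facts.2 (Or.inl rfl)) trivial
    have h4 : q.1.L ≤ p.1.L := sat_facts h3
    exact le_antisymm h2 h4
  have hx : ∀ i ∈ p.1.F, i ∈ q.1.F → Agr p.1.L (p.1.x i) (q.1.x i) := by
    intro i hi hi'
    have h1 := hpq _ (mem_facts.2 (Or.inr (Or.inl ⟨i, hi, rfl⟩))) (hF i hi hi')
    have h2 := (sat_facts h1).2.2
    rw [length_pre] at h2
    exact (pre_eq_iff.1 h2).symm
  have hε : ∀ c ∈ p.1.S, c ∈ q.1.S → ∀ s : List Bool, s.length < p.1.L →
      p.1.ε c s = q.1.ε c s := by
    intro c hc hc' s hs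
    have h1 := hpq _ (mem_facts.2 (Or.inr (Or.inr (Or.inr (Or.inl ⟨c, hc, s, hs, rfl⟩)))))
      (hS c hc hc')
    exact (sat_facts h1).2.2.symm
  have hE : ∀ c u v, (c, u, v) ∈ q.1.E → c ∈ p.1.S → (u ∈ p.1.F ↔ v ∈ p.1.F) := by
    intro c u v h hc
    obtain ⟨h1, h2, h3⟩ := q.2.dom c u v h
    have h4 := (q.2.al c u v h).cand
    have key : Sum.inl u ∈ R ∨ Sum.inl v ∈ R → (c, u, v) ∈ p.1.E := by
      intro h5
      have h6 := hqp _ (mem_facts.2 (Or.inr (Or.inr (Or.inr (Or.inr ⟨c, u, v, h, rfl⟩)))))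
        ⟨hS c hc h1, h4, h5⟩
      exact sat_facts h6
    constructor
    · intro hu
      exact (p.2.dom c u v (key (Or.inl (hF u hu h2)))).2.2
    · intro hv
      exact (p.2.dom c u v (key (Or.inr (hF v hv h3)))).2.1
  obtain ⟨r, hr, h1, h2⟩ := compat_of_agree p.2 q.2 hL hx hε hE
  exact ⟨⟨r, hr⟩, h1, h2⟩

end Pool.Agent.W915
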