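import Pool.Agent.W915.Chain

/-!
# Existence of closed pairs
-/

set_option autoImplicit false

namespace Pool.Agent.W915

open Classical Cardinal

/-- the codes mentioned by a fact -/
def fcodes : Fact → Set Cd
  | .pt _ _ => ∅
  | .fl c _ _ => {c}
  | .ed c _ _ => {c}
  | .cd c => {c}
  | .lv _ => ∅

/-- the levels mentioned by a fact -/
def flevs : Fact → Set Lev
  | .pt i _ => {i.1.1}
  | .fl _ _ _ => ∅
  | .ed _ u v => {u.1.1, v.1.1}
  | .cd _ => ∅
  | .lv _ => ∅

theorem countable_fcodes (f : Fact) : (fcodes f).Countable := by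
  cases f <;> simp [fcodes]

theorem countable_flevs (f : Fact) : (flevs f).Countable := by
  cases f <;> simp [flevs]

theorem factIn_of {T : Set Cd} {B : Set Lev} {f : Fact} (h1 : fcodes f ⊆ T) (h2 : flevs f ⊆ B) :
    FactIn T B f := by
  cases f with
  | pt i t => exact h2 rfl
  | fl c s b => exact h1 rfl
  | ed c u v => exact ⟨h1 rfl, h2 (Or.inl rfl), h2 (Or.inr rfl)⟩
  | cd c => exact h1 rfl
  | lv n => trivial

/-- the relevant pairs of points of a code -/
def rel (c : Cd) : Set (Pt × Pt) := {u | u.1 ∈ Kst c} ×ˢ {v | v.1 ∈ Kst c}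

theorem countable_rel (c : Cd) : (rel c).Countable :=
  (countable_fst (countable_Kst c)).prod (countable_fst (countable_Kst c))

theorem countable_N (c : Cd) (u v : Pt) : (N c u v).Countable := by
  have : N c u v ⊆ ⋃ n, {s | (Phi c).1.2 u v n = some s} := by
    rintro s ⟨n, hn⟩
    exact Set.mem_iUnion.2 ⟨n, hn⟩
  refine (Set.countable_iUnion fun n => ?_).mono this
  apply Set.Subsingleton.countable
  intro s hs t ht
  exact Option.some.inj (hs.symm.trans ht)

/-- the codes mentioned in the names of a code -/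
def refs (c : Cd) : Set Cd := ⋃ z ∈ rel c, ⋃ s ∈ N c z.1 z.2, ⋃ f ∈ (s : Set Fact), fcodes f

/-- the levels mentioned in the names of a code, and those of its clusters -/
def levs (c : Cd) : Set Lev :=
  (Set.range fun m => (K c m).1) ∪
    ⋃ z ∈ rel c, ⋃ s ∈ N c z.1 z.2, ⋃ f ∈ (s : Set Fact), flevs f

theorem countable_refs (c : Cd) : (refs c).Countable :=
  (countable_rel c).biUnion fun z _ => (countable_N c z.1 z.2).biUnion fun s _ =>
    s.countable_toSet.biUnion fun f _ => countable_fcodes f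

theorem countable_levs (c : Cd) : (levs c).Countable :=
  (Set.countable_range _).union ((countable_rel c).biUnion fun z _ =>
    (countable_N c z.1 z.2).biUnion fun s _ =>
      s.countable_toSet.biUnion fun f _ => countable_flevs f)

theorem closed_of {T : Set Cd} {B : Set Lev} (h1 : ∀ c ∈ T, refs c ⊆ T) (h2 : ∀ c ∈ T, levs c ⊆ B)
    (h3 : ∀ a ∉ B, ∀ c ∈ T, ∀ d ∈ T, gn c a = gn d a → c = d) : Closed T B := by
  refine ⟨fun c hc m => h2 c hc (Or.inl ⟨m, rfl⟩), ?_, h3⟩
  intro c hc u v hu hv s hs f hf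
  apply factIn_of
  · intro d hd
    apply h1 c hc
    exact Set.mem_biUnion (show (u, v) ∈ rel c from ⟨hu, hv⟩) (Set.mem_biUnion hs
      (Set.mem_biUnion (show f ∈ (s : Set Fact) from hf) hd))
  · intro d hd
    apply h2 c hc
    exact Or.inr (Set.mem_biUnion (show (u, v) ∈ rel c from ⟨hu, hv⟩) (Set.mem_biUnion hs
      (Set.mem_biUnion (show f ∈ (s : Set Fact) from hf) hd)))

theorem exists_refs_closed (κ : Cardinal.{0}) (hκ : ℵ₀ ≤ κ) (T₀ : Set Cd) (hT : #T₀ ≤ κ) :
    ∃ T : Set Cd, T₀ ⊆ T ∧ #T ≤ κ ∧ ∀ c ∈ T, refs c ⊆ T := by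
  let stp : Set Cd → Set Cd := fun T => T ∪ ⋃ c : T, refs c.1
  let Tn : ℕ → Set Cd := fun n => stp^[n] T₀
  have hsucc : ∀ n, Tn (n + 1) = Tn n ∪ ⋃ c : Tn n, refs c.1 := fun n =>
    Function.iterate_succ_apply' stp n T₀
  have hcard : ∀ n, #(Tn n) ≤ κ := by
    intro n
    induction n with
    | zero => exact hT
    | succ n ih =>
      rw [hsucc]
      refine (mk_union_le _ _).trans ?_
      refine (add_le_add ih ?_).trans (add_eq_self hκ).le
      refine (mk_iUnion_le _).trans ?_
      calc #(Tn n) * _ ≤ κ * ℵ₀ := by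
            apply mul_le_mul' ih
            apply ciSup_le'
            intro c
            rw [Cardinal.le_aleph0_iff_set_countable]
            exact countable_refs c.1
        _ ≤ κ * κ := mul_le_mul' le_rfl hκ
        _ = κ := mul_eq_self hκ
  refine ⟨⋃ n, Tn n, fun c hc => Set.mem_iUnion.2 ⟨0, hc⟩, ?_, ?_⟩
  · refine (mk_iUnion_le _).trans ?_
    calc #ℕ * _ ≤ κ * κ := by
          apply mul_le_mul'
          · rw [mk_nat]
            exact hκ
          · apply ciSup_le'
            exact hcard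
      _ = κ := mul_eq_self hκ
  · intro c hc d hd
    obtain ⟨n, hn⟩ := Set.mem_iUnion.1 hc
    refine Set.mem_iUnion.2 ⟨n + 1, ?_⟩
    rw [hsucc]
    exact Or.inr (Set.mem_iUnion.2 ⟨⟨c, hn⟩, hd⟩)

/-- a large closed pair -/
theorem exists_closed_univ (T₀ : Set Cd) (hT : #T₀ ≤ 𝔠) :
    ∃ T : Set Cd, T₀ ⊆ T ∧ #T ≤ 𝔠 ∧ Closed T Set.univ := by
  obtain ⟨T, h1, h2, h3⟩ := exists_refs_closed 𝔠 aleph0_le_continuum T₀ hT
  exact ⟨T, h1, h2, closed_of h3 (fun _ _ => Set.subset_univ _)
    fun a ha => absurd (Set.mem_univ a) ha⟩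

theorem not_countable_Rl : ¬ (Set.univ : Set Rl).Countable := by
  rw [← Cardinal.le_aleph0_iff_set_countable, mk_univ, mk_Rl]
  exact not_le.2 aleph0_lt_continuum

/-- a countable closed pair -/
theorem exists_closed_countable (T₀ : Set Cd) (hT : T₀.Countable) (B₀ : Set Lev)
    (hB : B₀.Countable) :
    ∃ (T : Set Cd) (B : Set Lev), T₀ ⊆ T ∧ B₀ ⊆ B ∧ Closed T B ∧ ∃ a, a ∉ B := by
  obtain ⟨T, h1, h2, h3⟩ := exists_refs_closed ℵ₀ le_rfl T₀
    (Cardinal.le_aleph0_iff_set_countable.2 hT)
  rw [Cardinal.le_aleph0_iff_set_countable] at h2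
  let B₁ : Set Lev := B₀ ∪ ⋃ c ∈ T, levs c
  have hB₁ : B₁.Countable := hB.union (h2.biUnion fun c _ => countable_levs c)
  let B : Set Lev := B₁ ∪ {a | ∃ c ∈ T, ∃ d ∈ T, c ≠ d ∧ gn c a = gn d a}
  refine ⟨T, B, h1, fun a ha => Or.inl (Or.inl ha), closed_of h3 ?_ ?_, ?_⟩
  · intro c hc a ha
    exact Or.inl (Or.inr (Set.mem_biUnion hc ha))
  · intro a ha c hc d hd hcd
    by_contra hne
    exact ha (Or.inr ⟨c, hc, d, hd, hne, hcd⟩)
  · -- a level which separates the codes in `T`
    have hsep : ∃ z : ℕ → Rl, ∀ c ∈ T, ∀ d ∈ T, c ≠ d → ∃ n, c (z n) ≠ d (z n) := by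
      rcases (T ×ˢ T).eq_empty_or_nonempty with he | hne
      · refine ⟨fun _ _ => false, fun c hc d hd => ?_⟩
        have : (c, d) ∈ T ×ˢ T := ⟨hc, hd⟩
        rw [he] at this
        exact absurd this (Set.notMem_empty _)
      · obtain ⟨e, he⟩ := (h2.prod h2).exists_eq_range hne
        have hr : ∀ x : Cd × Cd, ∃ r : Rl, x.1 ≠ x.2 → x.1 r ≠ x.2 r := by
          intro x
          by_cases h : x.1 = x.2
          · exact ⟨fun _ => false, fun h' => absurd h h'⟩
          · obtain ⟨r, hr⟩ := Function.ne_iff.1 h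
            exact ⟨r, fun _ => hr⟩
        choose r hr using hr
        refine ⟨fun n => r (e n), fun c hc d hd hcd => ?_⟩
        have : (c, d) ∈ T ×ˢ T := ⟨hc, hd⟩
        rw [he] at this
        obtain ⟨n, hn⟩ := this
        refine ⟨n, ?_⟩
        have := hr (e n)
        rw [hn] at this
        show c (r (e n)) ≠ d (r (e n))
        rw [hn]
        exact this hcd
    obtain ⟨z, hz⟩ := hsep
    let at' : Rl → Lev := fun t n => if n = 0 then t else z (n - 1)
    have hinj : Function.Injective at' := by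
      intro t t' h
      have := congrFun h 0
      simpa [at'] using this
    obtain ⟨t, ht⟩ : ∃ t, at' t ∉ B₁ := by
      by_contra hcon
      push Not at hcon
      apply not_countable_Rl
      refine Set.countable_of_injective_of_countable_image (f := at') hinj.injOn ?_
      refine hB₁.mono ?_
      rintro _ ⟨t, _, rfl⟩
      exact hcon t
    refine ⟨at' t, ?_⟩
    rintro (h | ⟨c, hc, d, hd, hcd, h⟩)
    · exact ht h
    · obtain ⟨n, hn⟩ := hz c hc d hd hcd
      apply hn
      have := congrFun h (n + 1)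
      simpa [gn, at'] using this

/-- the codes mentioned by a condition -/
def pcodes (p : Pre) : Set Cd := p.S

/-- the levels mentioned by a condition -/
def plevs (p : Pre) : Set Lev := (fun i : Pt => i.1.1) '' (p.F : Set Pt)

theorem inPart_of {T : Set Cd} {B : Set Lev} {p : Pre} (h1 : pcodes p ⊆ T) (h2 : plevs p ⊆ B) :
    InPart T B p := ⟨fun i hi => h2 ⟨i, hi, rfl⟩, fun _ hc => h1 hc⟩

theorem countable_pcodes (p : Pre) : (pcodes p).Countable := p.S.countable_toSet

theorem countable_plevs (p : Pre) : (plevs p).Countable := p.F.countable_toSet.image _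

/-- every countable set of conditions lies in a part of a closed pair which leaves out a level -/
theorem exists_part_countable (A : Set PP) (hA : A.Countable) :
    ∃ (T : Set Cd) (B : Set Lev), Closed T B ∧ (∀ p ∈ A, InPart T B p.1) ∧ ∃ a, a ∉ B := by
  obtain ⟨T, B, h1, h2, h3, h4⟩ := exists_closed_countable (⋃ p ∈ A, pcodes p.1)
    (hA.biUnion fun p _ => countable_pcodes p.1) (⋃ p ∈ A, plevs p.1)
    (hA.biUnion fun p _ => countable_plevs p.1)
  exact ⟨T, B, h3, fun p hp => inPart_of ((Set.subset_biUnion_of_mem hp).trans h1)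
    ((Set.subset_biUnion_of_mem hp).trans h2), h4⟩

/-- at most continuum many conditions lie in a part given by at most continuum many codes -/
theorem exists_part_univ {ι : Type} (hι : #ι ≤ 𝔠) (A : ι → Set PP) (hA : ∀ i, (A i).Countable) :
    ∃ T : Set Cd, #T ≤ 𝔠 ∧ Closed T Set.univ ∧ ∀ i, ∀ p ∈ A i, InPart T Set.univ p.1 := by
  have h0 : #(⋃ i, ⋃ p ∈ A i, pcodes p.1) ≤ 𝔠 := by
    refine (mk_iUnion_le _).trans ?_
    calc #ι * _ ≤ 𝔠 * 𝔠 := by
          apply mul_le_mul' hι
          apply ciSup_le'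
          intro i
          refine le_trans ?_ aleph0_le_continuum
          rw [Cardinal.le_aleph0_iff_set_countable]
          exact (hA i).biUnion fun p _ => countable_pcodes p.1
      _ = 𝔠 := continuum_mul_self
  obtain ⟨T, h1, h2, h3⟩ := exists_closed_univ _ h0
  refine ⟨T, h2, h3, fun i p hp => inPart_of ?_ (Set.subset_univ _)⟩
  refine Set.Subset.trans ?_ h1
  intro c hc
  exact Set.mem_iUnion.2 ⟨i, Set.mem_biUnion hp hc⟩

end Pool.Agent.W915
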