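import Pool.Agent.W915.Act

/-!
# Points, clusters, codes and facts

* `Pt` is the set of the indices of the points of the space to be constructed, arranged in
  clusters; a cluster is a pair of a level and an element of a free group.
* `Cd` is the set of the codes of the isometries to be added. Every code `c` assigns to each level
  `a` one of the generators `f c a`, and it carries a list `K c` of clusters and countable families
  `N c u v` of finite sets of facts.
-/

set_option autoImplicit false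

namespace Pool.Agent.W915

open Cardinal

/-- levels -/
abbrev Lev : Type := ℕ → Rl

/-- clusters -/
abbrev Cl : Type := Lev × FreeGroup Rl

/-- indices of points -/
abbrev Pt : Type := Cl × ℕ

/-- codes of isometries -/
abbrev Cd : Type := Rl → Bool

/-- The facts a condition can decide: the point `i` has the initial segment `t`; the isometry with
code `c` flips (`b = true`) or does not flip (`b = false`) at `s`; the isometry with code `c` maps
the point `u` to the point `v`; the condition mentions `c`; the level of the condition is at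
least `n`. -/
inductive Fact : Type
  | pt (i : Pt) (t : List Bool)
  | fl (c : Cd) (s : List Bool) (b : Bool)
  | ed (c : Cd) (u v : Pt)
  | cd (c : Cd)
  | lv (n : ℕ)

/-- the data of a code -/
abbrev NameData : Type := (ℕ → Cl) × (Pt → Pt → ℕ → Option (Finset Fact))

theorem mk_Rl : #Rl = 𝔠 := by
  simp

theorem mk_Lev : #Lev = 𝔠 := by
  simp

theorem mk_FG : #(FreeGroup Rl) = 𝔠 := by
  rw [Cardinal.mk_freeGroup, mk_Rl, max_eq_left aleph0_le_continuum]

theorem mk_Cl : #Cl = 𝔠 := by
  rw [mk_prod, lift_id, lift_id, mk_Lev, mk_FG, continuum_mul_self]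

theorem mk_Pt : #Pt = 𝔠 := by
  rw [mk_prod, lift_id, lift_id, mk_Cl, mk_nat, continuum_mul_aleph0]

theorem mk_Cd : #Cd = 2 ^ 𝔠 := by
  simp

theorem kk_pow : ((2 : Cardinal.{0}) ^ 𝔠) ^ 𝔠 = 2 ^ 𝔠 := by
  rw [← power_mul, continuum_mul_self]

theorem aleph0_le_kk : ℵ₀ ≤ (2 : Cardinal.{0}) ^ 𝔠 :=
  aleph0_le_continuum.trans (cantor _).le

theorem kk_pow_aleph0 : ((2 : Cardinal.{0}) ^ 𝔠) ^ ℵ₀ ≤ 2 ^ 𝔠 := by
  conv_rhs => rw [← kk_pow]
  exact power_le_power_left (ne_of_gt (lt_of_lt_of_le aleph0_pos aleph0_le_kk))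
    aleph0_le_continuum

theorem kk_mul : ((2 : Cardinal.{0}) ^ 𝔠) * (2 ^ 𝔠) = 2 ^ 𝔠 := mul_eq_self aleph0_le_kk

theorem prod_le {A B : Type} (hA : #A ≤ 2 ^ 𝔠) (hB : #B ≤ 2 ^ 𝔠) : #(A × B) ≤ 2 ^ 𝔠 := by
  rw [mk_prod, lift_id, lift_id]
  exact (mul_le_mul' hA hB).trans kk_mul.le

theorem fun_le {A B : Type} (hA : #A ≤ 𝔠) (hB : #B ≤ 2 ^ 𝔠) : #(A → B) ≤ 2 ^ 𝔠 := by
  rw [mk_pi, prod_const, lift_id, lift_id]
  refine (power_le_power_right hB).trans ?_
  conv_rhs => rw [← kk_pow]
  exact power_le_power_left (ne_of_gt (lt_of_lt_of_le aleph0_pos aleph0_le_kk)) hA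

theorem c_le_kk : 𝔠 ≤ (2 : Cardinal.{0}) ^ 𝔠 := (cantor _).le

theorem mk_Fact : #Fact ≤ 2 ^ 𝔠 := by
  let i0 : Pt := ((fun _ _ => false, 1), 0)
  let c0 : Cd := fun _ => false
  let enc : Fact → ℕ × ℕ × Bool × List Bool × Pt × Pt × Cd := fun
    | .pt i t => (0, 0, false, t, i, i0, c0)
    | .fl c s b => (1, 0, b, s, i0, i0, c)
    | .ed c u v => (2, 0, false, [], u, v, c)
    | .cd c => (3, 0, false, [], i0, i0, c)
    | .lv n => (4, n, false, [], i0, i0, c0)
  have hinj : Function.Injective enc := by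
    intro x y h
    cases x <;> cases y <;> simp_all [enc]
  refine (mk_le_of_injective hinj).trans ?_
  have hN : #ℕ ≤ 2 ^ 𝔠 := mk_nat.le.trans aleph0_le_kk
  have hB : #Bool ≤ 2 ^ 𝔠 := (lt_aleph0_of_finite Bool).le.trans aleph0_le_kk
  have hL : #(List Bool) ≤ 2 ^ 𝔠 := mk_le_aleph0.trans aleph0_le_kk
  have hP : #Pt ≤ 2 ^ 𝔠 := mk_Pt.le.trans c_le_kk
  exact prod_le hN (prod_le hN (prod_le hB (prod_le hL (prod_le hP (prod_le hP mk_Cd.le)))))

theorem mk_Opt : #(Option (Finset Fact)) ≤ 2 ^ 𝔠 := by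
  rw [mk_option]
  have h : #(Finset Fact) ≤ 2 ^ 𝔠 := by
    have h0 : Infinite Fact := Infinite.of_injective Fact.lv fun m n h => by cases h; rfl
    rw [mk_finset_of_infinite]
    exact mk_Fact
  refine (add_le_add h (one_le_aleph0.trans aleph0_le_kk)).trans ?_
  exact (add_eq_self aleph0_le_kk).le

theorem mk_NameData : #(NameData × Cd) ≤ #Cd := by
  rw [mk_Cd]
  exact prod_le (prod_le (fun_le (mk_nat.le.trans aleph0_le_continuum) (mk_Cl.le.trans c_le_kk))
    (fun_le mk_Pt.le (fun_le mk_Pt.le (fun_le (mk_nat.le.trans aleph0_le_continuum) mk_Opt))))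
    mk_Cd.le

theorem exists_Phi : ∃ Φ : Cd → NameData × Cd, Function.Surjective Φ := by
  obtain ⟨e⟩ := mk_NameData
  have : Nonempty (NameData × Cd) :=
    ⟨((fun _ => (fun _ _ => false, 1), fun _ _ _ => none), fun _ => false)⟩
  exact ⟨Function.invFun e, Function.invFun_surjective e.injective⟩

/-- every code carries data; every datum is carried by as many codes as there are codes -/
noncomputable def Phi : Cd → NameData × Cd := exists_Phi.choose

theorem Phi_surj : Function.Surjective Phi := exists_Phi.choose_spec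

/-- the list of clusters of a code -/
noncomputable def K (c : Cd) : ℕ → Cl := (Phi c).1.1

/-- the named families of a code -/
def N (c : Cd) (u v : Pt) : Set (Finset Fact) := {s | ∃ n, (Phi c).1.2 u v n = some s}

/-- the generator assigned to the level `a` by the code `c` -/
def gn (c : Cd) (a : Lev) : Rl := fun n => c (a n)

/-- the action of the code on the clusters -/
def mv (c : Cd) (j : Cl) : Cl := (j.1, FreeGroup.of (gn c j.1) * j.2)

/-- the clusters in the list of the code, and those obtained from them by the action -/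
def Kst (c : Cd) : Set Cl :=
  {j | ∃ m, ∃ z : ℤ, j = ((K c m).1, FreeGroup.of (gn c (K c m).1) ^ z * (K c m).2)}

theorem K_mem (c : Cd) (m : ℕ) : K c m ∈ Kst c := ⟨m, 0, by simp⟩

theorem mv_mem {c : Cd} {j : Cl} : mv c j ∈ Kst c ↔ j ∈ Kst c := by
  constructor
  · rintro ⟨m, z, h⟩
    refine ⟨m, z - 1, ?_⟩
    have h1 : j.1 = (K c m).1 := (Prod.mk.inj h).1
    have h2 : FreeGroup.of (gn c j.1) * j.2 = FreeGroup.of (gn c (K c m).1) ^ z * (K c m).2 :=
      (Prod.mk.inj h).2
    refine Prod.ext h1 ?_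
    show j.2 = FreeGroup.of (gn c (K c m).1) ^ (z - 1) * (K c m).2
    rw [h1] at h2
    rw [eq_inv_mul_of_mul_eq h2]
    group
  · rintro ⟨m, z, rfl⟩
    refine ⟨m, z + 1, ?_⟩
    refine Prod.ext rfl ?_
    show FreeGroup.of (gn c (K c m).1) * (FreeGroup.of (gn c (K c m).1) ^ z * (K c m).2) =
      FreeGroup.of (gn c (K c m).1) ^ (z + 1) * (K c m).2
    group

theorem countable_Kst (c : Cd) : (Kst c).Countable := by
  have : Kst c = ⋃ m, Set.range fun z : ℤ =>
      (((K c m).1, FreeGroup.of (gn c (K c m).1) ^ z * (K c m).2) : Cl) := by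
    ext j
    simp only [Kst, Set.mem_ofPred_eq, Set.mem_iUnion, Set.mem_range, eq_comm]
  rw [this]
  exact Set.countable_iUnion fun m => Set.countable_range _

/-- there are more than continuum many codes with given data -/
theorem exists_code (d : NameData) (T : Set Cd) (hT : #T ≤ 𝔠) : ∃ c, c ∉ T ∧ (Phi c).1 = d := by
  by_contra hcon
  push Not at hcon
  choose g hg using fun c' : Cd => Phi_surj (d, c')
  have h1 : ∀ c', g c' ∈ T := by
    intro c'
    by_contra h
    exact hcon _ h (by rw [hg])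
  have h2 : #Cd ≤ #T := by
    apply mk_le_of_injective (f := fun c' => (⟨g c', h1 c'⟩ : T))
    intro c' c'' h
    have h3 : g c' = g c'' := congrArg Subtype.val h
    have h4 := hg c'
    rw [h3, hg c''] at h4
    exact (Prod.mk.inj h4).2.symm
  have h3 := h2.trans hT
  rw [mk_Cd] at h3
  exact absurd h3 (not_le.2 (cantor _))

end Pool.Agent.W915
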