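import Pool.Agent.W915.Code

/-!
# Conditions
-/

set_option autoImplicit false

namespace Pool.Agent.W915

open Classical

/-- Finite information about the points and the isometries: below the level `L` the positions of
the points in `F` and the flips of the isometries with codes in `S` are determined; `(c, u, v)` in
`E` means that the isometry with code `c` maps the point `u` to the point `v`. -/
structure Pre : Type where
  L : ℕ
  F : Finset Pt
  x : Pt → Rl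
  S : Finset Cd
  ε : Cd → List Bool → Bool
  E : Finset (Cd × Pt × Pt)

/-- truth of a fact in a condition -/
def Sat (p : Pre) : Fact → Prop
  | .pt i t => i ∈ p.F ∧ t.length ≤ p.L ∧ pre (p.x i) t.length = t
  | .fl c s b => c ∈ p.S ∧ s.length < p.L ∧ p.ε c s = b
  | .ed c u v => (c, u, v) ∈ p.E
  | .cd c => c ∈ p.S
  | .lv n => n ≤ p.L

/-- the isometry with code `c` is allowed to map `u` to `v` -/
def Al (p : Pre) (c : Cd) (u v : Pt) : Prop :=
  (u.1 ∉ Kst c ∧ v.1 = mv c u.1) ∨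
    (u.1 ∈ Kst c ∧ v.1 ∈ Kst c ∧ ∃ s ∈ N c u v, ∀ f ∈ s, Sat p f)

/-- valid conditions -/
structure Valid (p : Pre) : Prop where
  sep : ∀ i ∈ p.F, ∀ j ∈ p.F, Agr p.L (p.x i) (p.x j) → i = j
  dom : ∀ c u v, (c, u, v) ∈ p.E → c ∈ p.S ∧ u ∈ p.F ∧ v ∈ p.F
  hom : ∀ c u v, (c, u, v) ∈ p.E → Agr p.L (p.x v) (act (p.ε c) (p.x u))
  al : ∀ c u v, (c, u, v) ∈ p.E → Al p c u v

/-- `q` extends `p` -/
structure Le (q p : Pre) : Prop where
  L : p.L ≤ q.L
  F : p.F ⊆ q.F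
  S : p.S ⊆ q.S
  E : p.E ⊆ q.E
  x : ∀ i ∈ p.F, Agr p.L (p.x i) (q.x i)
  ε : ∀ c ∈ p.S, ∀ s : List Bool, s.length < p.L → q.ε c s = p.ε c s

theorem Le.refl (p : Pre) : Le p p :=
  ⟨le_rfl, fun _ h => h, fun _ h => h, fun _ h => h, fun _ _ => Agr.refl _ _, fun _ _ _ _ => rfl⟩

theorem Le.trans {p q r : Pre} (h : Le r q) (h' : Le q p) : Le r p :=
  ⟨h'.L.trans h.L, fun _ k => h.F (h'.F k), fun _ k => h.S (h'.S k), fun _ k => h.E (h'.E k),
    fun i hi => (h'.x i hi).trans ((h.x i (h'.F hi)).mono h'.L),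
    fun c hc s hs => (h.ε c (h'.S hc) s (hs.trans_le h'.L)).trans (h'.ε c hc s hs)⟩

theorem Sat.mono {p q : Pre} (h : Le q p) {f : Fact} (hf : Sat p f) : Sat q f := by
  cases f with
  | pt i t =>
    obtain ⟨h1, h2, h3⟩ := hf
    exact ⟨h.F h1, h2.trans h.L, by rw [← h3, length_pre, (h.x i h1).pre_eq h2]⟩
  | fl c s b =>
    obtain ⟨h1, h2, h3⟩ := hf
    exact ⟨h.S h1, h2.trans_le h.L, by rw [h.ε c h1 s h2, h3]⟩
  | ed c u v => exact h.E hf
  | cd c => exact h.S hf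
  | lv n => exact le_trans hf h.L

theorem Al.mono {p q : Pre} (h : Le q p) {c : Cd} {u v : Pt} (hf : Al p c u v) : Al q c u v := by
  rcases hf with hf | ⟨h1, h2, s, hs, h3⟩
  · exact Or.inl hf
  · exact Or.inr ⟨h1, h2, s, hs, fun f hf => (h3 f hf).mono h⟩

theorem Al.mem_iff {p : Pre} {c : Cd} {u v : Pt} (h : Al p c u v) : v.1 ∈ Kst c ↔ u.1 ∈ Kst c := by
  rcases h with ⟨h1, h2⟩ | ⟨h1, h2, _⟩
  · rw [h2, mv_mem]
  · exact ⟨fun _ => h1, fun _ => h2⟩

/-- the strings of length less than `n` -/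
noncomputable def strs (n : ℕ) : Finset (List Bool) := (List.finite_length_lt Bool n).toFinset

theorem mem_strs {n : ℕ} {s : List Bool} : s ∈ strs n ↔ s.length < n := by
  simp [strs]

/-- the description of a condition by facts -/
noncomputable def facts (p : Pre) : Finset Fact :=
  {Fact.lv p.L} ∪ p.F.image (fun i => Fact.pt i (pre (p.x i) p.L)) ∪ p.S.image Fact.cd ∪
    (p.S ×ˢ strs p.L).image (fun a => Fact.fl a.1 a.2 (p.ε a.1 a.2)) ∪
    p.E.image (fun e => Fact.ed e.1 e.2.1 e.2.2)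

theorem mem_facts {p : Pre} {f : Fact} : f ∈ facts p ↔ f = Fact.lv p.L ∨
    (∃ i ∈ p.F, f = Fact.pt i (pre (p.x i) p.L)) ∨ (∃ c ∈ p.S, f = Fact.cd c) ∨
    (∃ c ∈ p.S, ∃ s : List Bool, s.length < p.L ∧ f = Fact.fl c s (p.ε c s)) ∨
    ∃ c u v, (c, u, v) ∈ p.E ∧ f = Fact.ed c u v := by
  simp only [facts, Finset.mem_union, Finset.mem_singleton, Finset.mem_image, Finset.mem_product,
    mem_strs, Prod.exists, eq_comm (b := f)]
  constructor
  · rintro ((((h | h) | h) | ⟨c, s, ⟨h1, h2⟩, h3⟩) | h)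
    · exact Or.inl h
    · exact Or.inr (Or.inl h)
    · exact Or.inr (Or.inr (Or.inl h))
    · exact Or.inr (Or.inr (Or.inr (Or.inl ⟨c, h1, s, h2, h3⟩)))
    · exact Or.inr (Or.inr (Or.inr (Or.inr h)))
  · rintro (h | h | h | ⟨c, h1, s, h2, h3⟩ | h)
    · exact Or.inl (Or.inl (Or.inl (Or.inl h)))
    · exact Or.inl (Or.inl (Or.inl (Or.inr h)))
    · exact Or.inl (Or.inl (Or.inr h))
    · exact Or.inl (Or.inr ⟨c, s, ⟨h1, h2⟩, h3⟩)
    · exact Or.inr h

theorem sat_facts {p : Pre} {f : Fact} (hf : f ∈ facts p) : Sat p f := by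
  rcases mem_facts.1 hf with rfl | ⟨i, hi, rfl⟩ | ⟨c, hc, rfl⟩ | ⟨c, hc, s, hs, rfl⟩ | ⟨c, u, v, h, rfl⟩
  · exact le_refl p.L
  · exact ⟨hi, by simp, by simp⟩
  · exact hc
  · exact ⟨hc, hs, rfl⟩
  · exact h

theorem le_of_sat {p q : Pre} (h : ∀ f ∈ facts p, Sat q f) : Le q p := by
  have hL : p.L ≤ q.L := h _ (mem_facts.2 (Or.inl rfl))
  refine ⟨hL, fun i hi => ?_, fun c hc => ?_, fun e he => ?_, fun i hi => ?_, fun c hc s hs => ?_⟩
  · exact (h _ (mem_facts.2 (Or.inr (Or.inl ⟨i, hi, rfl⟩)))).1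
  · exact h _ (mem_facts.2 (Or.inr (Or.inr (Or.inl ⟨c, hc, rfl⟩))))
  · obtain ⟨c, u, v⟩ := e
    exact h _ (mem_facts.2 (Or.inr (Or.inr (Or.inr (Or.inr ⟨c, u, v, he, rfl⟩)))))
  · have h1 := (h _ (mem_facts.2 (Or.inr (Or.inl ⟨i, hi, rfl⟩)))).2.2
    rw [length_pre] at h1
    exact (pre_eq_iff.1 h1).symm
  · exact (h _ (mem_facts.2 (Or.inr (Or.inr (Or.inr (Or.inl ⟨c, hc, s, hs, rfl⟩)))))).2.2

/-! ### Parts -/

/-- a fact only mentions codes in `T` and points of levels in `B` -/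
def FactIn (T : Set Cd) (B : Set Lev) : Fact → Prop
  | .pt i _ => i.1.1 ∈ B
  | .fl c _ _ => c ∈ T
  | .ed c u v => c ∈ T ∧ u.1.1 ∈ B ∧ v.1.1 ∈ B
  | .cd c => c ∈ T
  | .lv _ => True

/-- a condition only mentions codes in `T` and points of levels in `B` -/
structure InPart (T : Set Cd) (B : Set Lev) (p : Pre) : Prop where
  F : ∀ i ∈ p.F, i.1.1 ∈ B
  S : ∀ c ∈ p.S, c ∈ T

/-- closed pairs -/
structure Closed (T : Set Cd) (B : Set Lev) : Prop where
  lev : ∀ c ∈ T, ∀ m, (K c m).1 ∈ B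
  nm : ∀ c ∈ T, ∀ u v : Pt, u.1 ∈ Kst c → v.1 ∈ Kst c → ∀ s ∈ N c u v, ∀ f ∈ s, FactIn T B f
  inj : ∀ a ∉ B, ∀ c ∈ T, ∀ d ∈ T, gn c a = gn d a → c = d

/-- the restriction of a condition to a part -/
noncomputable def restr (T : Set Cd) (B : Set Lev) (p : Pre) : Pre where
  L := p.L
  F := p.F.filter fun i => i.1.1 ∈ B
  x := p.x
  S := p.S.filter fun c => c ∈ T
  ε := p.ε
  E := p.E.filter fun e => e.1 ∈ T ∧ e.2.1.1.1 ∈ B

variable {T : Set Cd} {B : Set Lev}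

theorem le_restr (p : Pre) : Le p (restr T B p) :=
  ⟨le_rfl, Finset.filter_subset _ _, Finset.filter_subset _ _, Finset.filter_subset _ _,
    fun _ _ => Agr.refl _ _, fun _ _ _ _ => rfl⟩

theorem inPart_restr (p : Pre) : InPart T B (restr T B p) :=
  ⟨fun _ h => (Finset.mem_filter.1 h).2, fun _ h => (Finset.mem_filter.1 h).2⟩

theorem Kst_level (hcl : Closed T B) {c : Cd} (hc : c ∈ T) {j : Cl} (hj : j ∈ Kst c) :
    j.1 ∈ B := by
  obtain ⟨m, z, rfl⟩ := hj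
  exact hcl.lev c hc m

theorem Al.level {p : Pre} (hcl : Closed T B) {c : Cd} (hc : c ∈ T) {u v : Pt}
    (h : Al p c u v) : v.1.1 ∈ B ↔ u.1.1 ∈ B := by
  rcases h with ⟨_, h2⟩ | ⟨h1, h2, _⟩
  · rw [h2]
    rfl
  · exact ⟨fun _ => Kst_level hcl hc h1, fun _ => Kst_level hcl hc h2⟩

theorem valid_restr (hcl : Closed T B) {p : Pre} (hp : Valid p) : Valid (restr T B p) := by
  refine ⟨fun i hi j hj => hp.sep i (Finset.mem_filter.1 hi).1 j (Finset.mem_filter.1 hj).1,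
    fun c u v h => ?_, fun c u v h => hp.hom c u v (Finset.mem_filter.1 h).1, fun c u v h => ?_⟩
  · obtain ⟨h1, h2, h3⟩ := Finset.mem_filter.1 h
    obtain ⟨h4, h5, h6⟩ := hp.dom c u v h1
    exact ⟨Finset.mem_filter.2 ⟨h4, h2⟩, Finset.mem_filter.2 ⟨h5, h3⟩,
      Finset.mem_filter.2 ⟨h6, ((hp.al c u v h1).level hcl h2).2 h3⟩⟩
  · obtain ⟨h1, h2, h3⟩ := Finset.mem_filter.1 h
    rcases hp.al c u v h1 with h4 | ⟨h4, h5, s, hs, h6⟩
    · exact Or.inl h4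
    · refine Or.inr ⟨h4, h5, s, hs, fun f hf => ?_⟩
      have h7 := hcl.nm c h2 u v h4 h5 s hs f hf
      have h8 := h6 f hf
      cases f with
      | pt i t => exact ⟨Finset.mem_filter.2 ⟨h8.1, h7⟩, h8.2⟩
      | fl c s b => exact ⟨Finset.mem_filter.2 ⟨h8.1, h7⟩, h8.2⟩
      | ed c u v => exact Finset.mem_filter.2 ⟨h8, h7.1, h7.2.1⟩
      | cd c => exact Finset.mem_filter.2 ⟨h8, h7⟩
      | lv n => exact h8

/-- the restriction of `q` extends every condition of the part which `q` extends -/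
theorem restr_le {q a : Pre} (ha : InPart T B a) (hav : Valid a) (h : Le q a) :
    Le (restr T B q) a := by
  refine ⟨h.L, fun i hi => Finset.mem_filter.2 ⟨h.F hi, ha.F i hi⟩,
    fun c hc => Finset.mem_filter.2 ⟨h.S hc, ha.S c hc⟩, fun e he => ?_, h.x, h.ε⟩
  obtain ⟨c, u, v⟩ := e
  have h1 := hav.dom c u v he
  exact Finset.mem_filter.2 ⟨h.E he, ha.S c h1.1, ha.F u h1.2.1⟩

theorem restr_mono {p q : Pre} (hcl : Closed T B) (hp : Valid p) (h : Le q p) :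
    Le (restr T B q) (restr T B p) :=
  restr_le (inPart_restr p) (valid_restr hcl hp) (h.trans (le_restr p))

end Pool.Agent.W915
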