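import Pool.Agent.W915.Few

/-!
# Forced: countable dense homogeneity
-/

set_option autoImplicit false

namespace Pool.Agent.W915

open Classical Cardinal Pool.Agent.W684.FM Pool.Agent.Helper669.Forcing

theorem mem_restr {T : Set Cd} {B : Set Lev} {p : Pre} {i : Pt} (hi : i ∈ p.F) (h : i.1.1 ∈ B) :
    i ∈ (restr T B p).F := Finset.mem_filter.2 ⟨hi, h⟩

/-- a new edge for a code outside of the part -/
theorem add_edge {T : Set Cd} (hcl : Closed T Set.univ) {c : Cd} (hc : c ∉ T) {q r : PP}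
    (hcq : c ∈ q.1.S) (hrp : InPart T Set.univ r.1) (hle : r ≤ rs hcl q) {u v : Pt}
    (hu : u ∈ r.1.F) (hv : v ∈ r.1.F) (hal : Al r.1 c u v)
    (hag : Agr q.1.L (r.1.x v) (act (q.1.ε c) (r.1.x u)))
    (hne : ∀ u' v', (c, u', v') ∈ q.1.E → ¬ Agr q.1.L (r.1.x u) (q.1.x u')) :
    ∃ p : PP, p ≤ q ∧ p ≤ r ∧ (c, u, v) ∈ p.1.E := by
  have hposf : ∀ w, posf Set.univ r.1 (fun _ _ => false) w = r.1.x w := by
    intro w
    unfold posf
    rw [if_pos (Set.mem_univ _)]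
  obtain ⟨p, h1, h2, h3, _, _, _, h4, _⟩ := ga (T := T) (B := Set.univ) (q := q.1) (r := r.1)
    (X := fun _ _ => false) (δ := fun _ _ => false) (En := {(c, u, v)}) hcl q.2 r.2 hrp hle
    (fun u _ h => absurd (Set.mem_univ _) h) (fun c u v _ _ h => absurd (Set.mem_univ _) h)
    (fun c' u' v' h => by
      obtain ⟨rfl, rfl, rfl⟩ : c' = c ∧ u' = u ∧ v' = v := by simpa using h
      refine ⟨hcq, hc, Finset.mem_union_right _ hu, Finset.mem_union_right _ hv, ?_,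
        fun p' _ hp' => hal.mono hp'⟩
      rw [hposf, hposf]
      exact hag)
    (fun c' u' v' u'' v'' h h' ha => by
      obtain ⟨rfl, rfl, rfl⟩ : c' = c ∧ u' = u ∧ v' = v := by simpa using h
      rw [hposf, hposf] at ha
      rcases Finset.mem_union.1 h' with h' | h'
      · exfalso
        apply hne _ _ h'
        have hu'' := (q.2.dom _ _ _ h').2.1
        exact ha.trans (hle.x u'' (mem_restr hu'' (Set.mem_univ _))).symm
      · obtain ⟨rfl, rfl⟩ : u'' = u' ∧ v'' = v' := by simpa using h'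
        exact ⟨rfl, rfl⟩)
  refine ⟨⟨p, h1⟩, h2, h3, ?_⟩
  show (c, u, v) ∈ p.E
  rw [h4]
  exact Finset.mem_union_right _ (Finset.mem_singleton_self _)

/-- The situation: `T` is a part in which `q0`, the names `D`, `E` and the names carried by the code
`c` live, and `c` is outside of `T`. -/
structure Setup (q0 : PP) (D E : Pt → Set PP) (T : Set Cd) (c : Cd) : Prop where
  cl : Closed T Set.univ
  cT : c ∉ T
  nq : InPart T Set.univ q0.1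
  nD : ∀ u, ∃ A : Set PP, (∀ a ∈ A, InPart T Set.univ a.1) ∧ meets A = meets (D u)
  nE : ∀ u, ∃ A : Set PP, (∀ a ∈ A, InPart T Set.univ a.1) ∧ meets A = meets (E u)
  nA : ∀ u v, ∃ A : Set PP, (∀ a ∈ A, InPart T Set.univ a.1) ∧
    A ⊆ IffN (meets (D u)) (meets (E v)) ∧
    (∀ p ∈ IffN (meets (D u)) (meets (E v)), ∃ a ∈ A, ∃ r, r ≤ p ∧ r ≤ a) ∧
    N c u v = (fun a : PP => facts a.1) '' A
  KD : ∀ u, ∀ p ≤ q0, p ∈ meets (D u) → u.1 ∈ Kst c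
  KE : ∀ u, ∀ p ≤ q0, p ∈ meets (E u) → u.1 ∈ Kst c
  j1 : ∃ j ∈ Kst c, ∀ u : Pt, u.1 = j → ∀ p ≤ q0, p ∉ meets (D u) ∧ p ∉ meets (E u)
  dD : q0 ∈ DenseN xN D
  dE : q0 ∈ DenseN xN E

variable {q0 : PP} {D E : Pt → Set PP} {T : Set Cd} {c : Cd}

/-- a new edge inside the clusters of the code -/
theorem Setup.finish (h : Setup q0 D E T c) {q r : PP} (hcq : c ∈ q.1.S)
    (hle : r ≤ rs h.cl q) {u v : Pt} (hu : u ∈ r.1.F) (hv : v ∈ r.1.F) (huK : u.1 ∈ Kst c)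
    (hvK : v.1 ∈ Kst c) (hr : r ∈ IffN (meets (D u)) (meets (E v)))
    (hag : Agr q.1.L (r.1.x v) (act (q.1.ε c) (r.1.x u)))
    (hne : ∀ u' v', (c, u', v') ∈ q.1.E → ¬ Agr q.1.L (r.1.x u) (q.1.x u')) :
    ∃ p : PP, p ≤ q ∧ (c, u, v) ∈ p.1.E := by
  obtain ⟨A, hA1, hA2, hA3, hA4⟩ := h.nA u v
  obtain ⟨a, ha, r1, h1, h2⟩ := hA3 r hr
  have h3 : rs h.cl r1 ≤ rs h.cl q := rs_le h.cl (inPart_rs h.cl _) (h1.trans hle)
  have h4 : rs h.cl r1 ≤ a := rs_le h.cl (hA1 a ha) h2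
  have hL : q.1.L ≤ r.1.L := hle.L
  have hu1 : u ∈ (rs h.cl r1).1.F := mem_restr (h1.F hu) (Set.mem_univ _)
  have hv1 : v ∈ (rs h.cl r1).1.F := mem_restr (h1.F hv) (Set.mem_univ _)
  have hxu : Agr q.1.L (r.1.x u) ((rs h.cl r1).1.x u) := (h1.x u hu).mono hL
  have hxv : Agr q.1.L (r.1.x v) ((rs h.cl r1).1.x v) := (h1.x v hv).mono hL
  obtain ⟨p, h5, _, h6⟩ := add_edge h.cl h.cT hcq (inPart_rs h.cl r1) h3 hu1 hv1
    (Or.inr ⟨huK, hvK, facts a.1, by rw [hA4]; exact ⟨a, ha, rfl⟩,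
      fun f hf => (sat_facts hf).mono h4⟩)
    (hxv.symm.trans (hag.trans hxu.act))
    (fun u' v' h' ha' => hne u' v' h' (hxu.trans ha'))
  exact ⟨p, h5, h6⟩

/-- deciding a name inside the part -/
theorem decide_in (hcl : Closed T Set.univ) {M : Set PP}
    (hM : ∃ A : Set PP, (∀ a ∈ A, InPart T Set.univ a.1) ∧ meets A = meets M) (q : PP) :
    ∃ r, r ≤ rs hcl q ∧ InPart T Set.univ r.1 ∧ (r ∈ meets M ∨ r ∈ fnot (meets M)) := by
  obtain ⟨A, hA, hAM⟩ := hM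
  obtain ⟨r, hr, h1⟩ := decide_meets A (rs hcl q)
  refine ⟨rs hcl r, rs_le hcl (inPart_rs hcl _) hr, inPart_rs hcl _, ?_⟩
  rw [← hAM]
  rcases h1 with h1 | h1
  · exact Or.inl (meets_rs hcl hA h1)
  · exact Or.inr (not_meets_rs hcl hA h1)

/-- a condition with a given point and a given code -/
theorem exists_both (q : PP) (u : Pt) (c : Cd) : ∃ r : PP, r ≤ q ∧ u ∈ r.1.F ∧ c ∈ r.1.S := by
  obtain ⟨q1, h1, h2, _⟩ := exists_point q u 0
  obtain ⟨q2, h3, h4⟩ := exists_with_code q1 c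
  exact ⟨q2, h3.trans h1, h3.F h2, h4⟩

/-- adding a fresh point of a cluster -/
theorem add_fresh (r : PP) (j : Cl) (w : Rl) : ∃ (s : PP) (v : Pt), s ≤ r ∧ v.1 = j ∧ v ∉ r.1.F ∧
    v ∈ s.1.F ∧ Agr s.1.L (s.1.x v) w ∧ s.1.S = r.1.S := by
  obtain ⟨k, hk⟩ := exists_fresh r.1.F j
  obtain ⟨s, h1, h2, _, h3, h4, h5, _⟩ := add_point r.2 hk w 0
  exact ⟨⟨s, h1⟩, (j, k), h2, rfl, hk, by rw [h4]; exact Finset.mem_insert_self _ _, h3, h5⟩

theorem Setup.total (h : Setup q0 D E T c) {q : PP} (hq : q ≤ q0) (u : Pt) :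
    ∃ p : PP, p ≤ q ∧ ∃ v, (c, u, v) ∈ p.1.E := by
  obtain ⟨q1, h1, hu, hc⟩ := exists_both q u c
  by_cases hex : ∃ v, (c, u, v) ∈ q1.1.E
  · exact ⟨q1, h1, hex⟩
  have hne : ∀ u' v', (c, u', v') ∈ q1.1.E → ¬ Agr q1.1.L (q1.1.x u) (q1.1.x u') := by
    intro u' v' h' ha
    have := q1.2.sep u hu u' (q1.2.dom _ _ _ h').2.1 ha
    subst this
    exact hex ⟨v', h'⟩
  have hq10 : rs h.cl q1 ≤ q0 := rs_le h.cl h.nq (h1.trans hq)
  have hur : u ∈ (rs h.cl q1).1.F := mem_restr hu (Set.mem_univ _)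
  -- the positions
  have hx : ∀ r : PP, r ≤ rs h.cl q1 → Agr q1.1.L (q1.1.x u) (r.1.x u) := fun r hr => hr.x u hur
  have hne' : ∀ r : PP, r ≤ rs h.cl q1 → ∀ u' v', (c, u', v') ∈ q1.1.E →
      ¬ Agr q1.1.L (r.1.x u) (q1.1.x u') := fun r hr u' v' h' ha => hne u' v' h' ((hx r hr).trans ha)
  have hag : ∀ r : PP, r ≤ rs h.cl q1 → ∀ v, Agr q1.1.L (r.1.x v) (act (q1.1.ε c) (q1.1.x u)) →
      Agr q1.1.L (r.1.x v) (act (q1.1.ε c) (r.1.x u)) := fun r hr v ha => ha.trans (hx r hr).act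
  by_cases huK : u.1 ∈ Kst c
  · obtain ⟨r1, hr1, hr1p, hr1D⟩ := decide_in h.cl (h.nD u) q1
    rcases hr1D with hD | hD
    · obtain ⟨r2, hr2, v, hv1, hv2⟩ := mem_fex.1 (h.dE (pre (act (q1.1.ε c) (q1.1.x u)) q1.1.L)) r1
        (hr1.trans hq10)
      obtain ⟨r3, hr3, hv3, _⟩ := exists_point r2 v 0
      have hr31 : r3 ≤ r1 := hr3.trans hr2
      have hr3q : r3 ≤ rs h.cl q1 := hr31.trans hr1
      have hEv : r3 ∈ meets (E v) := down_meets _ _ hv1 _ hr3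
      have hDu : r3 ∈ meets (D u) := down_meets _ _ hD _ hr31
      have hv4 : Agr q1.1.L (r3.1.x v) (act (q1.1.ε c) (q1.1.x u)) :=
        (mem_ext_pre hv3 hr3q.L).1 (down_ExtN _ _ _ _ hv2 _ hr3)
      obtain ⟨p, h2, h3⟩ := h.finish hc hr3q (hr3q.F hur) hv3 huK
        (h.KE v r3 (hr3q.trans hq10) hEv) (mem_iffN.2
          ⟨fun s hs _ => ⟨s, le_rfl, down_meets _ _ hEv _ hs⟩,
            fun s hs _ => ⟨s, le_rfl, down_meets _ _ hDu _ hs⟩⟩) (hag _ hr3q _ hv4) (hne' _ hr3q)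
      exact ⟨p, h2.trans h1, v, h3⟩
    · obtain ⟨j, hj1, hj2⟩ := h.j1
      obtain ⟨r2, v, hr2, hvj, _, hv, hv4, _⟩ := add_fresh r1 j (act (q1.1.ε c) (q1.1.x u))
      have hr2q : r2 ≤ rs h.cl q1 := hr2.trans hr1
      obtain ⟨p, h2, h3⟩ := h.finish hc hr2q (hr2q.F hur) hv huK (by rw [hvj]; exact hj1)
        (mem_iffN.2 ⟨fun s hs hs' => absurd hs' (hD s (hs.trans hr2)),
          fun s hs hs' => absurd hs' (hj2 v hvj s (hs.trans (hr2q.trans hq10))).2⟩)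
        (hag _ hr2q _ (hv4.mono hr2q.L)) (hne' _ hr2q)
      exact ⟨p, h2.trans h1, v, h3⟩
  · obtain ⟨r, v, hr, hvj, _, hv, hv4, hS⟩ := add_fresh (rs h.cl q1) (mv c u.1)
      (act (q1.1.ε c) (q1.1.x u))
    have hrp : InPart T Set.univ r.1 := ⟨fun _ _ => Set.mem_univ _, fun d hd => by
      rw [hS] at hd
      exact (inPart_rs h.cl q1).S d hd⟩
    obtain ⟨p, h2, _, h3⟩ := add_edge h.cl h.cT hc hrp hr (hr.F hur) hv (Or.inl ⟨huK, hvj⟩)
      (hag _ hr _ (hv4.mono hr.L)) (hne' _ hr)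
    exact ⟨p, h2.trans h1, v, h3⟩

theorem Setup.onto (h : Setup q0 D E T c) {q : PP} (hq : q ≤ q0) (v : Pt) :
    ∃ p : PP, p ≤ q ∧ ∃ u, (c, u, v) ∈ p.1.E := by
  obtain ⟨q1, h1, hv, hc⟩ := exists_both q v c
  by_cases hex : ∃ u, (c, u, v) ∈ q1.1.E
  · exact ⟨q1, h1, hex⟩
  have hne : ∀ u' v', (c, u', v') ∈ q1.1.E → ¬ Agr q1.1.L (q1.1.x v) (q1.1.x v') := by
    intro u' v' h' ha
    have := q1.2.sep v hv v' (q1.2.dom _ _ _ h').2.2 ha
    subst this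
    exact hex ⟨u', h'⟩
  have hq10 : rs h.cl q1 ≤ q0 := rs_le h.cl h.nq (h1.trans hq)
  have hvr : v ∈ (rs h.cl q1).1.F := mem_restr hv (Set.mem_univ _)
  have hx : ∀ r : PP, r ≤ rs h.cl q1 → Agr q1.1.L (q1.1.x v) (r.1.x v) := fun r hr => hr.x v hvr
  have hag : ∀ r : PP, r ≤ rs h.cl q1 → ∀ u, Agr q1.1.L (r.1.x u) (actInv (q1.1.ε c) (q1.1.x v)) →
      Agr q1.1.L (r.1.x v) (act (q1.1.ε c) (r.1.x u)) := by
    intro r hr u ha
    have h2 := ha.act (ε := q1.1.ε c)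
    rw [act_actInv] at h2
    exact (hx r hr).symm.trans h2.symm
  have hne' : ∀ r : PP, r ≤ rs h.cl q1 → ∀ u, Agr q1.1.L (r.1.x v) (act (q1.1.ε c) (r.1.x u)) →
      ∀ u' v', (c, u', v') ∈ q1.1.E → ¬ Agr q1.1.L (r.1.x u) (q1.1.x u') := by
    intro r hr u hu u' v' h' ha
    apply hne u' v' h'
    exact (hx r hr).trans (hu.trans (ha.act.trans (q1.2.hom _ _ _ h').symm))
  by_cases hvK : v.1 ∈ Kst c
  · obtain ⟨r1, hr1, hr1p, hr1D⟩ := decide_in h.cl (h.nE v) q1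
    rcases hr1D with hD | hD
    · obtain ⟨r2, hr2, u, hv1, hv2⟩ := mem_fex.1 (h.dD (pre (actInv (q1.1.ε c) (q1.1.x v)) q1.1.L))
        r1 (hr1.trans hq10)
      obtain ⟨r3, hr3, hv3, _⟩ := exists_point r2 u 0
      have hr31 : r3 ≤ r1 := hr3.trans hr2
      have hr3q : r3 ≤ rs h.cl q1 := hr31.trans hr1
      have hEv : r3 ∈ meets (E v) := down_meets _ _ hD _ hr31
      have hDu : r3 ∈ meets (D u) := down_meets _ _ hv1 _ hr3
      have hv4 : Agr q1.1.L (r3.1.x u) (actInv (q1.1.ε c) (q1.1.x v)) :=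
        (mem_ext_pre hv3 hr3q.L).1 (down_ExtN _ _ _ _ hv2 _ hr3)
      obtain ⟨p, h2, h3⟩ := h.finish hc hr3q hv3 (hr3q.F hvr)
        (h.KD u r3 (hr3q.trans hq10) hDu) hvK (mem_iffN.2
          ⟨fun s hs _ => ⟨s, le_rfl, down_meets _ _ hEv _ hs⟩,
            fun s hs _ => ⟨s, le_rfl, down_meets _ _ hDu _ hs⟩⟩) (hag _ hr3q _ hv4)
        (hne' _ hr3q _ (hag _ hr3q _ hv4))
      exact ⟨p, h2.trans h1, u, h3⟩
    · obtain ⟨j, hj1, hj2⟩ := h.j1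
      obtain ⟨r2, u, hr2, huj, _, hu, hu4, _⟩ := add_fresh r1 j (actInv (q1.1.ε c) (q1.1.x v))
      have hr2q : r2 ≤ rs h.cl q1 := hr2.trans hr1
      obtain ⟨p, h2, h3⟩ := h.finish hc hr2q hu (hr2q.F hvr) (by rw [huj]; exact hj1) hvK
        (mem_iffN.2 ⟨fun s hs hs' => absurd hs' (hj2 u huj s (hs.trans (hr2q.trans hq10))).1,
          fun s hs hs' => absurd hs' (hD s (hs.trans hr2))⟩)
        (hag _ hr2q _ (hu4.mono hr2q.L)) (hne' _ hr2q _ (hag _ hr2q _ (hu4.mono hr2q.L)))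
      exact ⟨p, h2.trans h1, u, h3⟩
  · obtain ⟨j, hj⟩ : ∃ j : Cl, v.1 = mv c j := by
      refine ⟨(v.1.1, (FreeGroup.of (gn c v.1.1))⁻¹ * v.1.2), ?_⟩
      refine Prod.ext rfl ?_
      show v.1.2 = FreeGroup.of (gn c v.1.1) * ((FreeGroup.of (gn c v.1.1))⁻¹ * v.1.2)
      group
    have hjK : j ∉ Kst c := by rwa [hj, mv_mem] at hvK
    obtain ⟨r, u, hr, huj, _, hu, hu4, hS⟩ := add_fresh (rs h.cl q1) j
      (actInv (q1.1.ε c) (q1.1.x v))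
    have hrp : InPart T Set.univ r.1 := ⟨fun _ _ => Set.mem_univ _, fun d hd => by
      rw [hS] at hd
      exact (inPart_rs h.cl q1).S d hd⟩
    obtain ⟨p, h2, _, h3⟩ := add_edge h.cl h.cT hc hrp hr hu (hr.F hvr)
      (Or.inl ⟨by rw [huj]; exact hjK, by rw [huj]; exact hj⟩)
      (hag _ hr _ (hu4.mono hr.L)) (hne' _ hr _ (hag _ hr _ (hu4.mono hr.L)))
    exact ⟨p, h2.trans h1, u, h3⟩

/-- the name of the isometry with code `c` -/
def hN (c : Cd) (u v : Pt) : Set PP := {p | (c, u, v) ∈ p.1.E}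

theorem down_hN (c : Cd) (u v : Pt) : Down (hN c u v) := fun _ hp _ hq => hq.E hp

theorem Setup.forced (h : Setup q0 D E T c) :
    q0 ∈ fand (IsFun (hN c)) (fand (IsInj (hN c)) (fand (IsOnto (hN c))
      (fand (fall fun i => fall fun j => fimp (meets (hN c i j)) (IffN (meets (D i)) (meets (E j))))
        (fall fun i => fall fun j => fall fun i' => fall fun j' => fall fun n =>
          fimp (fand (meets (hN c i j)) (meets (hN c i' j')))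
            (IffN (AgrN xN i i' n) (AgrN xN j j' n)))))) := by
  have key : ∀ {u v u' v' : Pt} {q : PP}, q ∈ meets (hN c u v) → q ∈ meets (hN c u' v') →
      ∃ r ≤ q, (c, u, v) ∈ r.1.E ∧ (c, u', v') ∈ r.1.E := by
    intro u v u' v' q h1 h2
    obtain ⟨r, hr, h3⟩ := exists_of_meets (down_hN c u v) h1
    obtain ⟨s, hs, h4⟩ := exists_of_meets (down_hN c u' v') (down_meets _ _ h2 _ hr)
    exact ⟨s, hs.trans hr, hs.E h3, h4⟩
  refine ⟨⟨fun u => mem_fex.2 fun q hq => ?_, fun u v v' => mem_fimp.2 fun q _ hq => ?_⟩,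
    fun u u' v => mem_fimp.2 fun q _ hq => ?_, fun v => mem_fex.2 fun q hq => ?_,
    fun u v => mem_fimp.2 fun q hq0 hq => ?_,
    fun u v u' v' n => mem_fimp.2 fun q _ hq => ?_⟩
  · obtain ⟨p, hp, v, hv⟩ := h.total hq u
    exact ⟨p, hp, v, meets_of_mem hv⟩
  · obtain ⟨r, hr, h1, h2⟩ := key hq.1 hq.2
    exact ⟨r, hr, (r.2.edge_unique h1 h2 (Agr.refl _ _)).2⟩
  · obtain ⟨r, hr, h1, h2⟩ := key hq.1 hq.2
    exact ⟨r, hr, (r.2.edge_unique' h1 h2 (Agr.refl _ _)).1⟩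
  · obtain ⟨p, hp, u, hu⟩ := h.onto hq v
    exact ⟨p, hp, u, meets_of_mem hu⟩
  · obtain ⟨r, hr, h1⟩ := exists_of_meets (down_hN c u v) hq
    have hr0 : r ≤ q0 := hr.trans hq0
    refine ⟨r, hr, ?_⟩
    rcases r.2.al c u v h1 with ⟨h2, h3⟩ | ⟨_, _, s, hs, h4⟩
    · refine mem_iffN.2 ⟨fun s hs hs' => absurd (h.KD u s (hs.trans hr0) hs') h2,
        fun s hs hs' => absurd (h.KE v s (hs.trans hr0) hs') ?_⟩
      rw [h3, mv_mem]
      exact h2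
    · obtain ⟨A, _, hA2, _, hA4⟩ := h.nA u v
      rw [hA4] at hs
      obtain ⟨a, ha, rfl⟩ := hs
      exact down_IffN _ _ a (hA2 ha) r (PP.le_def.2 (le_of_sat h4))
  · obtain ⟨r0, hr0, h1, h2⟩ := key hq.1 hq.2
    obtain ⟨r, hr, hL, _, _, _⟩ := exists_level r0 n
    have h3 := hr.E h1
    have h4 := hr.E h2
    obtain ⟨_, hu, hv⟩ := r.2.dom _ _ _ h3
    obtain ⟨_, hu', hv'⟩ := r.2.dom _ _ _ h4
    refine ⟨r, hr.trans hr0, ?_⟩
    have hdec : ∀ i ∈ r.1.F, ∀ j ∈ r.1.F, ∀ s ≤ r,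
        (s ∈ AgrN xN i j n ↔ Agr n (r.1.x i) (r.1.x j)) := by
      intro i hi j hj s hs
      rw [mem_agrN (hs.F hi) (hs.F hj) (hL.trans hs.L)]
      have h5 : Agr n (r.1.x i) (s.1.x i) := (hs.x i hi).mono hL
      have h6 : Agr n (r.1.x j) (s.1.x j) := (hs.x j hj).mono hL
      exact ⟨fun h => h5.trans (h.trans h6.symm), fun h => h5.symm.trans (h.trans h6)⟩
    rw [iffN_iff (hdec u hu u' hu') (hdec v hv v' hv')]
    have h5 : Agr n (r.1.x v) (act (r.1.ε c) (r.1.x u)) := (r.2.hom _ _ _ h3).mono hL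
    have h6 : Agr n (r.1.x v') (act (r.1.ε c) (r.1.x u')) := (r.2.hom _ _ _ h4).mono hL
    constructor
    · intro h7
      exact h5.trans (h7.act.trans h6.symm)
    · intro h7
      exact agr_of_act (h5.symm.trans (h7.trans h6))

end Pool.Agent.W915
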