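import Pool.Agent.W915.Clos
import Pool.Agent.W915.Stmt

/-!
# Extending conditions, and names in a part
-/

set_option autoImplicit false

namespace Pool.Agent.W915

open Classical Pool.Agent.W684.FM Pool.Agent.Helper669.Forcing

theorem closed_empty : Closed ∅ ∅ :=
  ⟨fun c hc => absurd hc (Set.notMem_empty c), fun c hc => absurd hc (Set.notMem_empty c),
    fun _ _ c hc => absurd hc (Set.notMem_empty c)⟩

/-- raising the level -/
theorem bump {p : Pre} (hp : Valid p) {n : ℕ} (hn : p.L ≤ n) (X : Pt → Rl)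
    (hX : ∀ u ∈ p.F, Agr p.L (X u) (p.x u)) (δ : Cd → List Bool → Bool) :
    ∃ q, Valid q ∧ Le q p ∧ q.L = n + 1 ∧ q.F = p.F ∧ q.S = p.S ∧ q.E = p.E ∧
      (∀ u, Agr n (q.x u) (X u)) ∧
      (∀ c s, p.L ≤ s.length → (∀ u v, (c, u, v) ∈ p.E → pre (q.x u) s.length ≠ s) →
        q.ε c s = δ c s) := by
  let r : Pre := ⟨n, ∅, fun _ _ => false, ∅, fun _ _ => false, ∅⟩
  have hr : Valid r := ⟨fun i hi => absurd hi (Finset.notMem_empty i),
    fun c u v h => absurd h (Finset.notMem_empty _), fun c u v h => absurd h (Finset.notMem_empty _),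
    fun c u v h => absurd h (Finset.notMem_empty _)⟩
  have hrp : InPart ∅ ∅ r := ⟨fun i hi => absurd hi (Finset.notMem_empty i),
    fun i hi => absurd hi (Finset.notMem_empty i)⟩
  have hle : Le r (restr ∅ ∅ p) := by
    have hF : ∀ i ∈ (restr ∅ ∅ p).F, False := fun i hi =>
      Set.notMem_empty _ ((inPart_restr (T := ∅) (B := ∅) p).F i hi)
    have hS : ∀ i ∈ (restr ∅ ∅ p).S, False := fun i hi =>
      Set.notMem_empty _ ((inPart_restr (T := ∅) (B := ∅) p).S i hi)
    refine ⟨hn, ?_, ?_, ?_, ?_, ?_⟩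
    · intro i hi
      exact (hF i hi).elim
    · intro i hi
      exact (hS i hi).elim
    · rintro ⟨c, u, v⟩ hi
      exact (hS c ((valid_restr closed_empty hp).dom c u v hi).1).elim
    · intro i hi
      exact (hF i hi).elim
    · intro i hi
      exact (hS i hi).elim
  obtain ⟨q, h1, h2, _, h3, h4, h5, h6, h7, h8⟩ := ga (X := X) (δ := δ) (En := ∅) closed_empty hp hr
    hrp hle (fun u hu _ => hX u hu) (fun c u v _ hc => absurd hc (Set.notMem_empty c))
    (fun c u v h => absurd h (Finset.notMem_empty _))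
    (fun c u v u' v' h => absurd h (Finset.notMem_empty _))
  refine ⟨q, h1, h2, h3, by simpa [r] using h4, by simpa [r] using h5, by simpa [r] using h6,
    fun u => ?_, fun c s hs hfree => ?_⟩
  · have := h7 u
    unfold posf at this
    rwa [if_neg (Set.notMem_empty _)] at this
  · exact h8 c s (Set.notMem_empty c) hs fun u v h => hfree u v (by simpa using h)

/-- adding a point with prescribed position -/
theorem add_point {p : Pre} (hp : Valid p) {i : Pt} (hi : i ∉ p.F) (w : Rl) (n : ℕ) :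
    ∃ q, Valid q ∧ Le q p ∧ n ≤ q.L ∧ Agr q.L (q.x i) w ∧ q.F = insert i p.F ∧ q.S = p.S ∧
      q.E = p.E := by
  obtain ⟨p1, h1, h2, h3, h4, h5, h6, h7, _⟩ := bump hp (n := max p.L n + 1)
    ((le_max_left _ _).trans (Nat.le_succ _)) (fun u k => if k < p.L then p.x u k else !(w k))
    (fun u _ k hk => by simp [hk]) (fun _ _ => false)
  have hne : ∀ u, p1.x u p.L ≠ w p.L := by
    intro u
    have := h7 u p.L (Nat.lt_succ_of_le (le_max_left _ _))
    rw [this]
    simp
  have hL : p.L < p1.L := by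
    rw [h3]
    have := le_max_left p.L n
    omega
  let q : Pre := ⟨p1.L, insert i p1.F, Function.update p1.x i w, p1.S, p1.ε, p1.E⟩
  have hi1 : i ∉ p1.F := by rwa [h4]
  have hx : ∀ u ∈ p1.F, q.x u = p1.x u := by
    intro u hu
    have : u ≠ i := fun h => hi1 (h ▸ hu)
    exact Function.update_of_ne this _ _
  have hxi : q.x i = w := Function.update_self _ _ _
  have hle : Le q p1 := ⟨le_rfl, Finset.subset_insert _ _, fun _ h => h, fun _ h => h,
    fun u hu => by rw [hx u hu]; exact Agr.refl _ _, fun _ _ _ _ => rfl⟩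
  refine ⟨q, ⟨?_, ?_, ?_, ?_⟩, hle.trans h2, ?_, ?_, ?_, ?_, ?_⟩
  · intro u hu v hv hag
    rcases Finset.mem_insert.1 hu with hui | hu'
    · rcases Finset.mem_insert.1 hv with hvi | hv'
      · rw [hui, hvi]
      · exfalso
        have := hag p.L hL
        rw [hui, hxi, hx v hv'] at this
        exact hne v this.symm
    · rcases Finset.mem_insert.1 hv with hvi | hv'
      · exfalso
        have := hag p.L hL
        rw [hvi, hxi, hx u hu'] at this
        exact hne u this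
      · rw [hx u hu', hx v hv'] at hag
        exact h1.sep u hu' v hv' hag
  · intro c u v h
    obtain ⟨h8, h9, h10⟩ := h1.dom c u v h
    exact ⟨h8, Finset.mem_insert_of_mem h9, Finset.mem_insert_of_mem h10⟩
  · intro c u v h
    obtain ⟨h8, h9, h10⟩ := h1.dom c u v h
    rw [hx u h9, hx v h10]
    exact h1.hom c u v h
  · intro c u v h
    exact (h1.al c u v h).mono hle
  · show n ≤ p1.L
    rw [h3]
    have := le_max_right p.L n
    omega
  · rw [hxi]
    exact Agr.refl _ _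
  · show insert i p1.F = _
    rw [h4]
  · exact h5
  · exact h6

/-- adding a code -/
theorem add_code {p : Pre} (hp : Valid p) (c : Cd) :
    ∃ q, Valid q ∧ Le q p ∧ q.L = p.L ∧ q.F = p.F ∧ q.S = insert c p.S ∧ q.E = p.E := by
  let q : Pre := ⟨p.L, p.F, p.x, insert c p.S, p.ε, p.E⟩
  have hle : Le q p := ⟨le_rfl, fun _ h => h, Finset.subset_insert _ _, fun _ h => h,
    fun _ _ => Agr.refl _ _, fun _ _ _ _ => rfl⟩
  refine ⟨q, ⟨hp.sep, fun d u v h => ?_, hp.hom, fun d u v h => (hp.al d u v h).mono hle⟩, hle,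
    rfl, rfl, rfl, rfl⟩
  obtain ⟨h1, h2, h3⟩ := hp.dom d u v h
  exact ⟨Finset.mem_insert_of_mem h1, h2, h3⟩

/-! ### In the partial order -/

theorem exists_level (p : PP) (n : ℕ) : ∃ q : PP, q ≤ p ∧ n ≤ q.1.L ∧ q.1.F = p.1.F ∧
    q.1.S = p.1.S ∧ q.1.E = p.1.E := by
  obtain ⟨q, h1, h2, h3, h4, h5, h6, _⟩ := bump p.2 (n := max p.1.L n) (le_max_left _ _) p.1.x
    (fun u _ => Agr.refl _ _) (fun _ _ => false)
  refine ⟨⟨q, h1⟩, h2, ?_, h4, h5, h6⟩
  show n ≤ q.L
  rw [h3]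
  exact (le_max_right _ _).trans (Nat.le_succ _)

theorem exists_point (p : PP) (i : Pt) (n : ℕ) : ∃ q : PP, q ≤ p ∧ i ∈ q.1.F ∧ n ≤ q.1.L ∧
    q.1.F = insert i p.1.F ∧ q.1.S = p.1.S ∧ q.1.E = p.1.E := by
  by_cases hi : i ∈ p.1.F
  · obtain ⟨q, h1, h2, h3, h4, h5⟩ := exists_level p n
    exact ⟨q, h1, by rw [h3]; exact hi, h2, by rw [h3, Finset.insert_eq_of_mem hi], h4, h5⟩
  · obtain ⟨q, h1, h2, h3, _, h4, h5, h6⟩ := add_point p.2 hi (fun _ => false) n
    exact ⟨⟨q, h1⟩, h2, by rw [h4]; exact Finset.mem_insert_self _ _, h3, h4, h5, h6⟩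

theorem exists_with_code (p : PP) (c : Cd) : ∃ q : PP, q ≤ p ∧ c ∈ q.1.S := by
  obtain ⟨q, h1, h2, _, _, h3, _⟩ := add_code p.2 c
  exact ⟨⟨q, h1⟩, h2, by rw [h3]; exact Finset.mem_insert_self _ _⟩

section Part

variable {T : Set Cd} {B : Set Lev}

/-- restriction in the partial order -/
noncomputable def rs (hcl : Closed T B) (p : PP) : PP := ⟨restr T B p.1, valid_restr hcl p.2⟩

theorem le_rs (hcl : Closed T B) (p : PP) : p ≤ rs hcl p := le_restr p.1

theorem rs_le (hcl : Closed T B) {q a : PP} (ha : InPart T B a.1) (h : q ≤ a) : rs hcl q ≤ a :=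
  restr_le ha a.2 h

theorem rs_mono (hcl : Closed T B) {q p : PP} (h : q ≤ p) : rs hcl q ≤ rs hcl p :=
  restr_mono hcl p.2 h

theorem inPart_rs (hcl : Closed T B) (p : PP) : InPart T B (rs hcl p).1 := inPart_restr p.1

theorem exists_compat (hcl : Closed T B) {q r : PP} (hr : InPart T B r.1) (h : r ≤ rs hcl q) :
    ∃ p : PP, p ≤ q ∧ p ≤ r := by
  obtain ⟨p, h1, h2, h3⟩ := amalg hcl q.2 r.2 hr h
  exact ⟨⟨p, h1⟩, h2, h3⟩

theorem meets_rs (hcl : Closed T B) {A : Set PP} (hA : ∀ a ∈ A, InPart T B a.1) {p : PP}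
    (hp : p ∈ meets A) : rs hcl p ∈ meets A := by
  intro q hq
  have h1 : rs hcl q ≤ rs hcl p := rs_le hcl (inPart_rs hcl p) hq
  obtain ⟨t, ht1, ht2⟩ := exists_compat hcl (inPart_rs hcl q) h1
  obtain ⟨t', ht', a, ha, hta⟩ := hp t ht1
  have h2 : rs hcl t' ≤ rs hcl q := by
    have : t' ≤ rs hcl q := ht'.trans ht2
    exact rs_le hcl (inPart_rs hcl q) this
  obtain ⟨s, hs1, hs2⟩ := exists_compat hcl (inPart_rs hcl t') h2
  exact ⟨s, hs1, a, ha, hs2.trans (rs_le hcl (hA a ha) hta)⟩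

theorem not_meets_rs (hcl : Closed T B) {A : Set PP} (hA : ∀ a ∈ A, InPart T B a.1) {p : PP}
    (hp : p ∈ fnot (meets A)) : rs hcl p ∈ fnot (meets A) := by
  intro q hq hqA
  obtain ⟨t, ht1, ht2⟩ := exists_compat hcl (inPart_rs hcl q)
    (rs_le hcl (inPart_rs hcl p) hq)
  exact hp t ht1 (down_meets A _ (meets_rs hcl hA hqA) _ ht2)

end Part

theorem decide_meets (A : Set PP) (p : PP) : ∃ q ≤ p, q ∈ meets A ∨ q ∈ fnot (meets A) := by
  by_cases h : ∃ q ≤ p, q ∈ meets A
  · obtain ⟨q, h1, h2⟩ := h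
    exact ⟨q, h1, Or.inl h2⟩
  · push Not at h
    exact ⟨p, le_rfl, Or.inr h⟩

/-! ### The name of the family of points -/

/-- the names of the points -/
def xN (i : Pt) (n : ℕ) : Set PP := {p | i ∈ p.1.F ∧ n < p.1.L ∧ p.1.x i n = true}

theorem xN_eq {p q : PP} (hq : q ≤ p) {i : Pt} {n : ℕ} (hi : i ∈ p.1.F) (hn : n < p.1.L) :
    q.1.x i n = p.1.x i n := (hq.x i hi n hn).symm

theorem mem_lit {p : PP} {i : Pt} {n : ℕ} (hi : i ∈ p.1.F) (hn : n < p.1.L) {b : Bool} :
    p ∈ LitN b (meets (xN i n)) ↔ p.1.x i n = b := by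
  have h1 : p ∈ meets (xN i n) ↔ p.1.x i n = true := by
    constructor
    · intro h
      obtain ⟨r, hr, s, ⟨h1, h2, h3⟩, hrs⟩ := h p le_rfl
      rw [← xN_eq hr hi hn, xN_eq hrs h1 h2, h3]
    · intro h
      exact meets_of_mem ⟨hi, hn, h⟩
  cases b
  · show p ∈ fnot (meets (xN i n)) ↔ _
    constructor
    · intro h
      by_contra h2
      rw [Bool.not_eq_false] at h2
      exact h p le_rfl (h1.2 h2)
    · intro h q hq hq'
      obtain ⟨r, hr, s, ⟨h3, h4, h5⟩, hrs⟩ := hq' q le_rfl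
      have h6 := xN_eq (hr.trans hq) hi hn
      rw [xN_eq hrs h3 h4, h5, h] at h6
      exact absurd h6 (by simp)
  · exact h1

theorem mem_ext {p : PP} {i : Pt} {s : List Bool} (hi : i ∈ p.1.F) (hs : s.length ≤ p.1.L) :
    p ∈ ExtN xN i s ↔ ∀ k < s.length, p.1.x i k = s.getD k false := by
  constructor
  · intro h k hk
    exact (mem_lit hi (hk.trans_le hs)).1 (h k hk)
  · intro h k hk
    exact (mem_lit hi (hk.trans_le hs)).2 (h k hk)

theorem mem_ext_pre {p : PP} {i : Pt} {w : Rl} {n : ℕ} (hi : i ∈ p.1.F) (hs : n ≤ p.1.L) :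
    p ∈ ExtN xN i (pre w n) ↔ Agr n (p.1.x i) w := by
  rw [mem_ext hi (by simpa using hs)]
  simp only [length_pre]
  constructor
  · intro h k hk
    rw [h k hk, pre_getD w hk]
  · intro h k hk
    rw [h k hk, pre_getD w hk]

end Pool.Agent.W915
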