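import Pool.Agent.W915.Ext

/-!
# Forced: the points are different, dense, and fewer than the continuum; the Baire property
-/

set_option autoImplicit false

namespace Pool.Agent.W915

open Classical Cardinal Pool.Agent.W684.FM Pool.Agent.Helper669.Forcing

theorem mem_iffN {P : Type} [Preorder P] {φ ψ : Set P} {p : P} :
    p ∈ IffN φ ψ ↔ (∀ q ≤ p, q ∈ φ → ∃ r ≤ q, r ∈ ψ) ∧ ∀ q ≤ p, q ∈ ψ → ∃ r ≤ q, r ∈ φ := by
  unfold IffN
  rw [mem_fand, mem_fimp, mem_fimp]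

/-- equivalence of statements which are decided below `p` -/
theorem iffN_iff {P : Type} [Preorder P] {φ ψ : Set P} {p : P} {a b : Prop}
    (h1 : ∀ q ≤ p, (q ∈ φ ↔ a)) (h2 : ∀ q ≤ p, (q ∈ ψ ↔ b)) : p ∈ IffN φ ψ ↔ (a ↔ b) := by
  rw [mem_iffN]
  constructor
  · rintro ⟨h3, h4⟩
    constructor
    · intro ha
      obtain ⟨r, hr, hr'⟩ := h3 p le_rfl ((h1 p le_rfl).2 ha)
      exact (h2 r hr).1 hr'
    · intro hb
      obtain ⟨r, hr, hr'⟩ := h4 p le_rfl ((h2 p le_rfl).2 hb)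
      exact (h1 r hr).1 hr'
  · intro h
    exact ⟨fun q hq hqφ => ⟨q, le_rfl, (h2 q hq).2 (h.1 ((h1 q hq).1 hqφ))⟩,
      fun q hq hqψ => ⟨q, le_rfl, (h1 q hq).2 (h.2 ((h2 q hq).1 hqψ))⟩⟩

theorem mem_meets_xN {p q : PP} (hq : q ≤ p) {i : Pt} {n : ℕ} (hi : i ∈ p.1.F) (hn : n < p.1.L) :
    q ∈ meets (xN i n) ↔ p.1.x i n = true := by
  have h := mem_lit (p := q) (hq.F hi) (hn.trans_le hq.L) (b := true)
  rw [xN_eq hq hi hn] at h
  exact h

theorem mem_iff_xN {p : PP} {i j : Pt} {n : ℕ} (hi : i ∈ p.1.F) (hj : j ∈ p.1.F) (hn : n < p.1.L) :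
    p ∈ IffN (meets (xN i n)) (meets (xN j n)) ↔ p.1.x i n = p.1.x j n := by
  rw [iffN_iff (fun q hq => mem_meets_xN hq hi hn) (fun q hq => mem_meets_xN hq hj hn)]
  exact Bool.eq_iff_iff.symm

theorem mem_agrN {p : PP} {i j : Pt} {n : ℕ} (hi : i ∈ p.1.F) (hj : j ∈ p.1.F) (hn : n ≤ p.1.L) :
    p ∈ AgrN xN i j n ↔ Agr n (p.1.x i) (p.1.x j) := by
  constructor
  · intro h k hk
    exact (mem_iff_xN hi hj (hk.trans_le hn)).1 (h k hk)
  · intro h k hk
    exact (mem_iff_xN hi hj (hk.trans_le hn)).2 (h k hk)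

theorem injN (p : PP) : p ∈ InjN xN := by
  intro i j hij
  refine mem_fex.2 fun q _ => ?_
  obtain ⟨q1, h1, h2, _⟩ := exists_point q i 0
  obtain ⟨q2, h3, h4, _⟩ := exists_point q1 j 0
  have hi : i ∈ q2.1.F := h3.F h2
  have h5 : ¬ Agr q2.1.L (q2.1.x i) (q2.1.x j) := fun h => hij (q2.2.sep i hi j h4 h)
  unfold Agr at h5
  push Not at h5
  obtain ⟨n, hn, hne⟩ := h5
  refine ⟨q2, h3.trans h1, n, fun s hs hs' => ?_⟩
  rw [mem_iff_xN (hs.F hi) (hs.F h4) (hn.trans_le hs.L), xN_eq hs hi hn, xN_eq hs h4 hn] at hs'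
  exact hne hs'

theorem exists_fresh (F : Finset Pt) (j : Cl) : ∃ k, ((j, k) : Pt) ∉ F := by
  by_contra hcon
  push Not at hcon
  exact not_injective_infinite_finite (α := ℕ) (β := F) (fun k => ⟨(j, k), hcon k⟩) (by
    intro k l h
    have := congrArg (fun z : F => z.1.2) h
    exact this)

theorem denseN (p : PP) : p ∈ fall fun s => fex fun i => ExtN xN i s := by
  intro s
  refine mem_fex.2 fun q _ => ?_
  obtain ⟨k, hk⟩ := exists_fresh q.1.F (fun _ _ => false, 1)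
  obtain ⟨r, hr, h1, h2, h3, h4, _⟩ := add_point q.2 hk (fun k => s.getD k false) s.length
  have hi : (((fun _ _ => false, 1), k) : Pt) ∈ r.F := by
    rw [h4]
    exact Finset.mem_insert_self _ _
  refine ⟨⟨r, hr⟩, h1, ((fun _ _ => false, 1), k), ?_⟩
  exact (mem_ext (p := (⟨r, hr⟩ : PP)) hi h2).2 fun m hm => h3 m (hm.trans_le h2)

/-- the names of the new subsets of `ℕ` -/
def yN (c : Cd) (n : ℕ) : Set PP :=
  {p | c ∈ p.1.S ∧ n < p.1.L ∧ p.1.ε c (List.replicate n false) = true}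

theorem mem_meets_yN {p q : PP} (hq : q ≤ p) {c : Cd} {n : ℕ} (hc : c ∈ p.1.S) (hn : n < p.1.L) :
    q ∈ meets (yN c n) ↔ p.1.ε c (List.replicate n false) = true := by
  constructor
  · intro h
    obtain ⟨r, hr, s, ⟨h1, h2, h3⟩, hs⟩ := h q le_rfl
    have h4 := hs.ε c h1 (List.replicate n false) (by simpa using h2)
    have h5 := (hr.trans hq).ε c hc (List.replicate n false) (by simpa using hn)
    rw [← h5, h4, h3]
  · intro h
    refine meets_of_le (s := p) ⟨hc, hn, h⟩ hq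

theorem fewN (p : PP) : p ∈ FewN PP Pt := by
  intro g
  have hA : ∀ z : Pt × ℕ, ∃ A : Set PP, A.Countable ∧ meets A = meets (g z.1 z.2) := fun z =>
    exists_countable_name pccc _
  choose A hA1 hA2 using hA
  obtain ⟨T, hT, hcl, hTA⟩ := exists_part_univ (ι := Pt × ℕ)
    (by rw [mk_prod, lift_id, lift_id, mk_Pt, mk_nat, continuum_mul_aleph0]) A hA1
  obtain ⟨c, hcT, _⟩ := exists_code (fun _ => (fun _ _ => false, 1), fun _ _ _ => none) T hT
  refine mem_fex.2 fun q _ => ⟨q, le_rfl, yN c, fun i => mem_fex.2 fun q' _ => ?_⟩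
  obtain ⟨q1, h1, h2⟩ := exists_with_code q' c
  obtain ⟨q2, hq2, h4, h3, h5, h6, h7, h8, _⟩ := bump q1.2 (n := q1.1.L + 1) (Nat.le_succ _)
    (fun u k => if k < q1.1.L then q1.1.x u k else true) (fun u _ k hk => by simp [hk])
    (fun _ _ => false)
  have htrue : ∀ u, q2.x u q1.1.L = true := by
    intro u
    rw [h8 u q1.1.L (Nat.lt_succ_self _)]
    simp
  let Q2 : PP := ⟨q2, hq2⟩
  obtain ⟨r0, hr0, hr0'⟩ := decide_meets (A (i, q2.L)) (rs hcl Q2)
  have hr1 : rs hcl r0 ≤ rs hcl Q2 := rs_le hcl (inPart_rs hcl _) hr0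
  have hr1' : rs hcl r0 ∈ meets (A (i, q2.L)) ∨ rs hcl r0 ∈ fnot (meets (A (i, q2.L))) := by
    rcases hr0' with h | h
    · exact Or.inl (meets_rs hcl (hTA _) h)
    · exact Or.inr (not_meets_rs hcl (hTA _) h)
  rw [hA2] at hr1'
  obtain ⟨r, hr⟩ : ∃ r, r = rs hcl r0 := ⟨_, rfl⟩
  have hrp : InPart T Set.univ r.1 := by rw [hr]; exact inPart_rs hcl _
  rw [← hr] at hr1 hr1'
  obtain ⟨p', h9, h10, h11, h12, _, h14, _, _, h15⟩ := ga (X := fun _ _ => false) (En := ∅)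
    (δ := fun _ _ => !(decide (r ∈ meets (g i q2.L)))) hcl hq2 r.2 hrp hr1
    (fun u _ h => absurd (Set.mem_univ _) h) (fun c u v _ _ h => absurd (Set.mem_univ _) h)
    (fun c u v h => absurd h (Finset.notMem_empty _))
    (fun c u v u' v' h => absurd h (Finset.notMem_empty _))
  let P' : PP := ⟨p', h9⟩
  have hL : q2.L < p'.L := by
    rw [h12]
    exact Nat.lt_succ_of_le hr1.L
  have hcS : c ∈ p'.S := h10.S (h4.S h2)
  have hε : p'.ε c (List.replicate q2.L false) = !(decide (r ∈ meets (g i q2.L))) := by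
    apply h15 c _ hcT (by simp)
    intro u v h hpre
    rw [Finset.union_empty] at h
    have hu := (hq2.dom c u v h).2.1
    have hlt : q1.1.L < q2.L := by
      rw [h3]
      omega
    have h16 := h10.x u hu q1.1.L hlt
    rw [htrue] at h16
    rw [List.length_replicate] at hpre
    have h17 := pre_getD (p'.x u) hlt true
    rw [hpre, ← h16] at h17
    simp [hlt] at h17
  refine ⟨P', (h10.trans h4).trans h1, q2.L, fun s hs hs' => ?_⟩
  have h16 : ∀ t ≤ P', (t ∈ meets (yN c q2.L) ↔ ¬ r ∈ meets (g i q2.L)) := by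
    intro t ht
    rw [mem_meets_yN ht hcS hL]
    show p'.ε c _ = true ↔ _
    rw [hε]
    simp
  have h17 : ∀ t ≤ P', (t ∈ meets (g i q2.L) ↔ r ∈ meets (g i q2.L)) := by
    intro t ht
    have htr : t ≤ r := ht.trans h11
    rcases hr1' with h | h
    · exact ⟨fun _ => h, fun _ => down_meets _ _ h _ htr⟩
    · exact ⟨fun h' => absurd h' (h t htr), fun h' => absurd h' (h r le_rfl)⟩
  rw [iffN_iff (fun t ht => h16 t (ht.trans hs)) (fun t ht => h17 t (ht.trans hs))] at hs'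
  tauto

theorem mem_bool_list {s t : List Bool} (h : s <+: t) :
    ∀ k < s.length, t.getD k false = s.getD k false := by
  obtain ⟨u, rfl⟩ := h
  intro k hk
  rw [List.getD_append _ _ _ _ hk]

theorem baireN (p : PP) : p ∈ BaireN xN := by
  intro U
  refine mem_fimp.2 fun q _ hq => ⟨q, le_rfl, fun s => mem_fex.2 fun q' hq' => ?_⟩
  have hA : ∀ z : ℕ × List Bool, ∃ A : Set PP, A.Countable ∧ meets A = meets (U z.1 z.2) :=
    fun z => exists_countable_name pccc _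
  choose A hA1 hA2 using hA
  obtain ⟨T, B, hcl, hin, a, ha⟩ := exists_part_countable ({q} ∪ ⋃ z, A z)
    ((Set.countable_singleton q).union (Set.countable_iUnion hA1))
  have hqin : InPart T B q.1 := hin q (Or.inl rfl)
  have hAin : ∀ z, ∀ b ∈ A z, InPart T B b.1 := fun z b hb =>
    hin b (Or.inr (Set.mem_iUnion.2 ⟨z, hb⟩))
  obtain ⟨k, hk⟩ := exists_fresh q'.1.F (a, 1)
  obtain ⟨i, hi⟩ : ∃ i : Pt, i = ((a, 1), k) := ⟨_, rfl⟩
  rw [← hi] at hk
  have hiB : i.1.1 ∉ B := by rw [hi]; exact ha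
  obtain ⟨r, hr, h1, h2, h3, h4, _⟩ := add_point q'.2 hk (fun k => s.getD k false) s.length
  have hir : i ∈ r.F := by
    rw [h4]
    exact Finset.mem_insert_self _ _
  refine ⟨⟨r, hr⟩, h1, i, (mem_ext (p := (⟨r, hr⟩ : PP)) hir h2).2
    fun m hm => h3 m (hm.trans_le h2), fun n => mem_fex.2 fun q2 hq2 => ?_⟩
  have hq2q : q2 ≤ q := hq2.trans (PP.le_def.2 (h1.trans hq'))
  have hi2 : i ∈ q2.1.F := hq2.F hir
  have h5 : rs hcl q2 ≤ q := rs_le hcl hqin hq2q
  obtain ⟨r1, hr1, t, hpt, ht⟩ := mem_fex.1 (hq n (pre (q2.1.x i) q2.1.L)) (rs hcl q2) h5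
  have hpt' : pre (q2.1.x i) q2.1.L <+: t := hpt
  rw [← hA2 (n, t)] at ht
  have h6 : rs hcl r1 ≤ rs hcl q2 := rs_le hcl (inPart_rs hcl _) hr1
  have h7 : rs hcl r1 ∈ meets (A (n, t)) := meets_rs hcl (hAin _) ht
  obtain ⟨r2, h8, h9, h10, h11, _⟩ := exists_level (rs hcl r1) t.length
  have h12 : InPart T B r2.1 := by
    refine ⟨fun u hu => ?_, fun c hc => ?_⟩
    · rw [h10] at hu
      exact (inPart_rs hcl r1).F u hu
    · rw [h11] at hc
      exact (inPart_rs hcl r1).S c hc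
  obtain ⟨p', h13, h14, h15, h16⟩ := amalg_point hcl q2.2 r2.2 h12
    (PP.le_def.1 (h8.trans h6)) i hiB (fun k => t.getD k false) (fun k hk => by
      have h17 := mem_bool_list hpt' k (by simpa using hk)
      exact h17.trans (pre_getD _ hk _))
  refine ⟨⟨p', h13⟩, h14, t, ?_, ?_⟩
  · rw [← hA2 (n, t)]
    exact down_meets _ _ h7 (⟨p', h13⟩ : PP) (PP.le_def.2 (h15.trans h8))
  · exact (mem_ext (p := (⟨p', h13⟩ : PP)) (h14.F hi2) (h9.trans h15.L)).2
      fun m hm => h16 m (hm.trans_le h9)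

end Pool.Agent.W915
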