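import Pool.Agent.W915.TDen

/-!
# The amalgamation with a new promise
-/

set_option linter.unusedSectionVars false
set_option linter.unusedVariables false

noncomputable section

namespace Pool.Agent.W915.T

open Classical

variable {St Ω : Type} [LinearOrder St] [WellFoundedLT St]

namespace Pre

theorem LeAt_trans {p : Pre St Ω} (h : Basic p) {r r' r'' : Raw St Ω} {α : St}
    (hS : ∀ i ∈ (r α).2, (α, i) ∈ p.S) (hr' : p.Q r') (hr'' : p.Q r'')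
    (h1 : p.LeAt r' r α) (h2 : p.Le r'' r') : p.LeAt r'' r α := by
  refine ⟨h1.1.trans (h2 α).1, h1.2.1.trans (h2 α).2.1, fun i hi => ?_⟩
  have e1 := h1.2.2 i hi
  have e2 := (h2 α).2.2 i (h1.2.1 hi)
  have hm := h.mono (hS i hi) hr' hr'' h2
  have hlen := ((hr' α).2.2.1 i (h1.2.1 hi)).2.2
  refine Bk.trans (h2 α).1.length_le (e1.congr ?_ ?_) e2
  · intro m hm'
    exact dg_pre hm (lt_of_lt_of_le hm' hlen)
  · intro m hm'
    exact dg_pre (h2 α).1 hm'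

/-- the data for the amalgamation -/
structure Amd (w p₂ : Pre St Ω) (a : St) (i₀ : Ω) (N : Raw St Ω → List ℕ) (q₂ : Raw St Ω) :
    Prop where
  vw : Valid w
  full : Full w
  ha : a ∈ w.A
  hi : (a, i₀) ∉ w.S
  v2 : Valid p₂
  ext : Ext p₂ (w.RE a)
  subE : (w.RE a).E ⊆ p₂.E
  ovr : ∀ α ∈ p₂.A, α < a
  vq : p₂.Q q₂
  N1 : ∀ r, N r = N (p₂.rs r)
  N2 : ∀ r, Bd (N r)
  N3 : ∀ r r', p₂.Q r → p₂.Q r' → p₂.Le r' r → N r <+: N r'
  N4 : ∀ r, p₂.Q r → N r ≠ [] → p₂.Le r q₂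
  N6 : ∀ r, p₂.Q r → p₂.Le r q₂ → ∀ n, ∃ r', p₂.Q r' ∧ p₂.Le r' r ∧ n ≤ (N r').length

/-- the amalgamation -/
def AM (w p₂ : Pre St Ω) (a : St) (i₀ : Ω) (N : Raw St Ω → List ℕ) : Pre St Ω where
  A := w.A ∪ p₂.A
  S := {x | (x.1 < a ∧ x ∈ p₂.S) ∨ (a ≤ x.1 ∧ x ∈ w.S) ∨ x = (a, i₀)}
  nu α i := if α < a then p₂.nu α i else if α = a ∧ i = i₀ then N else w.nu α i
  E := w.E ∪ p₂.E

/-- the amalgamation of conditions -/
def mkR (a : St) (s e : Raw St Ω) (G : Finset Ω) : Raw St Ω :=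
  up (gl a s e) a ((e a).1, (e a).2 ∪ G)

theorem mk_lt {a α : St} (h : α < a) (s e : Raw St Ω) (G : Finset Ω) : mkR a s e G α = s α := by
  unfold mkR
  rw [up_ne _ _ h.ne, gl_lt h]

theorem mk_self (a : St) (s e : Raw St Ω) (G : Finset Ω) :
    mkR a s e G a = ((e a).1, (e a).2 ∪ G) := by
  unfold mkR
  rw [up_self]

theorem mk_gt {a α : St} (h : a < α) (s e : Raw St Ω) (G : Finset Ω) : mkR a s e G α = e α := by
  unfold mkR
  rw [up_ne _ _ h.ne', gl_ge h.le]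

section

variable {w p₂ : Pre St Ω} {a : St} {i₀ : Ω} {N : Raw St Ω → List ℕ} {q₂ : Raw St Ω}

theorem AM_nu_lt {α : St} (h : α < a) (i : Ω) : (AM w p₂ a i₀ N).nu α i = p₂.nu α i :=
  if_pos h

theorem AM_nu_new : (AM w p₂ a i₀ N).nu a i₀ = N := by
  unfold AM
  simp

theorem AM_nu_ge {α : St} (h : a ≤ α) {i : Ω} (h' : ¬ (α = a ∧ i = i₀)) :
    (AM w p₂ a i₀ N).nu α i = w.nu α i := by
  unfold AM
  simp only [not_lt.2 h, h', if_false]

variable (H : Amd w p₂ a i₀ N q₂)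
include H

theorem Amd.ne_new {α : St} {i : Ω} (h : (α, i) ∈ w.S) : ¬ (α = a ∧ i = i₀) := by
  rintro ⟨rfl, rfl⟩
  exact H.hi h

theorem Amd.ext_w : Ext (AM w p₂ a i₀ N) w := by
  refine ⟨Set.subset_union_left, ?_, ?_⟩
  · rintro ⟨α, i⟩ hx
    rcases lt_or_ge α a with h | h
    · exact Or.inl ⟨h, H.ext.S ⟨hx, h⟩⟩
    · exact Or.inr (Or.inl ⟨h, hx⟩)
  · intro α i hx
    rcases lt_or_ge α a with h | h
    · rw [AM_nu_lt h, H.ext.nu ⟨hx, h⟩, RE_nu w h]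
    · exact AM_nu_ge h (H.ne_new hx)

theorem Amd.ext_2 : Ext (AM w p₂ a i₀ N) p₂ := by
  refine ⟨Set.subset_union_right, ?_, ?_⟩
  · rintro ⟨α, i⟩ hx
    exact Or.inl ⟨H.ovr α (H.v2.SA hx), hx⟩
  · intro α i hx
    exact AM_nu_lt (H.ovr α (H.v2.SA hx)) i

theorem Amd.rs2_lo (r : Raw St Ω) : p₂.rs (lo a r) = p₂.rs r := by
  apply Raw.ext'
  intro α
  rcases lt_or_ge α a with h | h
  · exact rs_congr (lo_lt h r)
  · have : α ∉ p₂.A := fun h' => not_lt.2 h (H.ovr α h')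
    unfold rs
    rw [rs_of_not_mem this, rs_of_not_mem this]

theorem Amd.lo_rs2 (r : Raw St Ω) : lo a (p₂.rs r) = p₂.rs r := by
  unfold rs
  rw [lo_rs]
  exact H.rs2_lo r

theorem Amd.over_Q {s : Raw St Ω} (hs : p₂.Q s) : lo a s = s := by
  rw [← rs_self hs, H.lo_rs2]

theorem Amd.N_congr {r r' : Raw St Ω} (h : p₂.rs r' = p₂.rs r) : N r' = N r := by
  rw [H.N1 r', H.N1 r, h]

/-- below `a` the amalgamation is `p₂` -/
theorem Amd.rs2_eq {r : Raw St Ω} (hr : (AM w p₂ a i₀ N).Q r) : p₂.rs r = lo a r := by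
  apply Raw.ext'
  intro α
  rcases lt_or_ge α a with h | h
  · rw [lo_lt h]
    unfold rs
    by_cases hA : α ∈ p₂.A
    · rw [rs_of_mem hA]
      refine Prod.ext rfl ?_
      simp only
      rw [Finset.filter_true_of_mem]
      intro i hi
      rcases ((hr α).2.2.1 i hi).1 with h1 | h1 | h1
      · exact h1.2
      · exact absurd h (not_lt.2 h1.1)
      · exact absurd h (by rw [show α = a from congrArg Prod.fst h1]; exact lt_irrefl _)
    · rw [rs_of_not_mem hA]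
      by_contra h'
      rcases (hr α).1 (Ne.symm h') with h1 | h1
      · exact hA (H.ext.A ⟨h1, h⟩)
      · exact hA h1
  · rw [lo_ge h]
    exact rs_of_not_mem fun h' => not_lt.2 h (H.ovr α h')

theorem Amd.Q_lo2 {r : Raw St Ω} (hr : (AM w p₂ a i₀ N).Q r) : p₂.Q (lo a r) := by
  have := Q_rs H.ext_2 H.v2.toBasic hr
  rwa [H.rs2_eq hr] at this

theorem Amd.basic : Basic (AM w p₂ a i₀ N) where
  cA := H.vw.cA.union H.v2.cA
  cS := by
    refine ((H.v2.cS.union H.vw.cS).union (Set.countable_singleton (a, i₀))).mono ?_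
    rintro x (hx | hx | hx)
    · exact Or.inl (Or.inl hx.2)
    · exact Or.inl (Or.inr hx.2)
    · exact Or.inr hx
  SA := by
    rintro α i (hx | hx | hx)
    · exact Or.inr (H.v2.SA hx.2)
    · exact Or.inl (H.vw.SA hx.2)
    · left
      have : α = a := congrArg Prod.fst hx
      rw [this]
      exact H.ha
  loc := by
    intro α i r
    rcases lt_or_ge α a with h | h
    · rw [AM_nu_lt h]
      exact H.v2.toBasic.loc_ext H.ext_2.A H.ext_2.S α i r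
    · by_cases h' : α = a ∧ i = i₀
      · obtain ⟨rfl, rfl⟩ := h'
        rw [AM_nu_new]
        apply H.N_congr
        rw [H.rs2_lo]
        unfold rs
        rw [rs_rs H.ext_2.A H.ext_2.S]
      · rw [AM_nu_ge h h']
        exact H.vw.toBasic.loc_ext H.ext_w.A H.ext_w.S α i r
  bd := by
    intro α i r
    rcases lt_or_ge α a with h | h
    · rw [AM_nu_lt h]
      exact H.v2.bd _ _ _
    · by_cases h' : α = a ∧ i = i₀
      · obtain ⟨rfl, rfl⟩ := h'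
        rw [AM_nu_new]
        exact H.N2 r
      · rw [AM_nu_ge h h']
        exact H.vw.bd _ _ _
  off := by
    intro α i hi r
    rcases lt_or_ge α a with h | h
    · rw [AM_nu_lt h]
      exact H.v2.off (fun h' => hi (Or.inl ⟨h, h'⟩)) r
    · by_cases h' : α = a ∧ i = i₀
      · obtain ⟨rfl, rfl⟩ := h'
        exact absurd (Or.inr (Or.inr rfl)) hi
      · rw [AM_nu_ge h h']
        exact H.vw.off (fun h'' => hi (Or.inr (Or.inl ⟨h, h''⟩))) r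
  mono := by
    intro α i hi r r' hr hr' hle
    by_cases h' : α = a ∧ i = i₀
    · obtain ⟨rfl, rfl⟩ := h'
      rw [AM_nu_new]
      have := H.N3 _ _ (Q_rs H.ext_2 H.v2.toBasic hr) (Q_rs H.ext_2 H.v2.toBasic hr')
        (Le_rs H.ext_2 H.v2.toBasic hle)
      rw [← H.N1, ← H.N1] at this
      exact this
    rcases hi with hi | hi | hi
    · rw [AM_nu_lt hi.1]
      have := H.v2.mono hi.2 (Q_rs H.ext_2 H.v2.toBasic hr) (Q_rs H.ext_2 H.v2.toBasic hr')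
        (Le_rs H.ext_2 H.v2.toBasic hle)
      rw [H.v2.nu_rs, H.v2.nu_rs] at this
      exact this
    · rw [AM_nu_ge hi.1 h']
      have := H.vw.mono hi.2 (Q_rs H.ext_w H.vw.toBasic hr) (Q_rs H.ext_w H.vw.toBasic hr')
        (Le_rs H.ext_w H.vw.toBasic hle)
      rw [H.vw.nu_rs, H.vw.nu_rs] at this
      exact this
    · exact absurd ⟨congrArg Prod.fst hi, congrArg Prod.snd hi⟩ h'

theorem Amd.mk_rs_w {s e : Raw St Ω} (he : w.Q e) (hse : w.rs s = lo a e) {G : Finset Ω}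
    (hG : ∀ i ∈ G, i = i₀) : w.rs (mkR a s e G) = e := by
  apply Raw.ext'
  intro α
  rcases lt_trichotomy α a with h | h | h
  · have h1 : w.rs (mkR a s e G) α = w.rs s α := rs_congr (mk_lt h s e G)
    rw [h1, hse, lo_lt h]
  · subst h
    unfold rs
    rw [rs_of_mem H.ha, mk_self]
    refine Prod.ext rfl ?_
    simp only
    ext i
    rw [Finset.mem_filter, Finset.mem_union]
    constructor
    · rintro ⟨h1 | h1, h2⟩
      · exact h1
      · rw [hG i h1] at h2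
        exact absurd h2 H.hi
    · intro h1
      exact ⟨Or.inl h1, ((he α).2.2.1 i h1).1⟩
  · have h1 : w.rs (mkR a s e G) α = w.rs e α := rs_congr (mk_gt h s e G)
    rw [h1, rs_self he]

theorem Amd.mk_rs_2 {s e : Raw St Ω} (hs : p₂.Q s) {G : Finset Ω} :
    p₂.rs (mkR a s e G) = s := by
  rw [← H.rs2_lo]
  have : lo a (mkR a s e G) = lo a s := by
    apply Raw.ext'
    intro α
    rcases lt_or_ge α a with h | h
    · rw [lo_lt h, lo_lt h, mk_lt h]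
    · rw [lo_ge h, lo_ge h]
  rw [this, H.rs2_lo, rs_self hs]

theorem Amd.mk_Q {s e : Raw St Ω} (hs : p₂.Q s) (he : w.Q e) (hse : w.rs s = lo a e)
    {G : Finset Ω} (hG : ∀ i ∈ G, i = i₀)
    (h0 : i₀ ∈ G → 1 ≤ (e a).1.length ∧ (e a).1.length ≤ (N s).length)
    (hroom : 3 * ((e a).2 ∪ G).card < b (e a).1.length) :
    (AM w p₂ a i₀ N).Q (mkR a s e G) := by
  have hw := H.mk_rs_w he hse hG
  have h2 := H.mk_rs_2 (e := e) hs (G := G)
  intro α
  rcases lt_trichotomy α a with h | h | h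
  · obtain ⟨e1, e2, e3, e4⟩ := hs α
    unfold Qat
    rw [mk_lt h]
    refine ⟨fun h' => Or.inr (e1 h'), e2, fun i hi => ?_, e4⟩
    obtain ⟨e5, e6, e7⟩ := e3 i hi
    refine ⟨Or.inl ⟨h, e5⟩, e6, ?_⟩
    rw [AM_nu_lt h, ← H.v2.nu_rs, h2]
    exact e7
  · subst h
    obtain ⟨e1, e2, e3, e4⟩ := he α
    unfold Qat
    rw [mk_self]
    refine ⟨fun _ => Or.inl H.ha, e2, fun i hi => ?_, hroom⟩
    by_cases hi0 : i ∈ (e α).2
    · obtain ⟨e5, e6, e7⟩ := e3 i hi0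
      refine ⟨Or.inr (Or.inl ⟨le_rfl, e5⟩), e6, ?_⟩
      rw [AM_nu_ge le_rfl (H.ne_new e5), ← H.vw.nu_rs, hw]
      exact e7
    · have hiG : i ∈ G := by
        rcases Finset.mem_union.1 hi with h' | h'
        · exact absurd h' hi0
        · exact h'
      have := hG i hiG
      subst this
      refine ⟨Or.inr (Or.inr rfl), (h0 hiG).1, ?_⟩
      rw [AM_nu_new, H.N1, h2]
      exact (h0 hiG).2
  · obtain ⟨e1, e2, e3, e4⟩ := he α
    unfold Qat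
    rw [mk_gt h]
    refine ⟨fun h' => Or.inl (e1 h'), e2, fun i hi => ?_, e4⟩
    obtain ⟨e5, e6, e7⟩ := e3 i hi
    refine ⟨Or.inr (Or.inl ⟨h.le, e5⟩), e6, ?_⟩
    rw [AM_nu_ge h.le (H.ne_new e5), ← H.vw.nu_rs, hw]
    exact e7

theorem Amd.rs_w_ge {r : Raw St Ω} (hr : (AM w p₂ a i₀ N).Q r) {α : St} (h : a < α) :
    w.rs r α = r α := by
  unfold rs
  by_cases hA : α ∈ w.A
  · rw [rs_of_mem hA]
    refine Prod.ext rfl ?_
    simp only
    rw [Finset.filter_true_of_mem]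
    intro i hi
    rcases ((hr α).2.2.1 i hi).1 with h1 | h1 | h1
    · exact absurd h1.1 (not_lt.2 h.le)
    · exact h1.2
    · exact absurd h (by rw [show α = a from congrArg Prod.fst h1]; exact lt_irrefl _)
  · rw [rs_of_not_mem hA]
    by_contra h'
    rcases (hr α).1 (Ne.symm h') with h1 | h1
    · exact hA h1
    · exact absurd h (not_lt.2 (H.ovr α h1).le)

theorem Amd.rs_w_a {r : Raw St Ω} (hr : (AM w p₂ a i₀ N).Q r) :
    (w.rs r a).1 = (r a).1 ∧ ∀ i ∈ (r a).2, i ∈ (w.rs r a).2 ∨ i = i₀ := by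
  have e : w.rs r a = ((r a).1, (r a).2.filter fun i => (a, i) ∈ w.S) := rs_of_mem H.ha
  rw [e]
  refine ⟨rfl, fun i hi => ?_⟩
  simp only [Finset.mem_filter]
  rcases ((hr a).2.2.1 i hi).1 with h1 | h1 | h1
  · exact absurd h1.1 (lt_irrefl _)
  · exact Or.inl ⟨hi, h1.2⟩
  · exact Or.inr (congrArg Prod.snd h1)

theorem Amd.mk_Le {r s e : Raw St Ω} (hr : (AM w p₂ a i₀ N).Q r) (hs : p₂.Q s) (he : w.Q e)
    (hse : w.rs s = lo a e) {G : Finset Ω} (hG : ∀ i ∈ G, i = i₀)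
    (hle2 : p₂.Le s (lo a r)) (hlew : w.Le e (w.rs r))
    (h0 : i₀ ∈ (r a).2 → i₀ ∈ G ∧
      Bk 0 (dg (N s)) (dg (e a).1) (r a).1.length (e a).1.length) :
    (AM w p₂ a i₀ N).Le (mkR a s e G) r := by
  have hw := H.mk_rs_w he hse hG
  have h2 := H.mk_rs_2 (e := e) hs (G := G)
  intro α
  rcases lt_trichotomy α a with h | h | h
  · obtain ⟨e1, e2, e3⟩ := hle2 α
    rw [lo_lt h] at e1 e2 e3
    unfold LeAt
    rw [mk_lt h]
    refine ⟨e1, e2, fun i hi => ?_⟩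
    rw [AM_nu_lt h, ← H.v2.nu_rs, h2]
    exact e3 i hi
  · subst h
    obtain ⟨e1, e2, e3⟩ := hlew α
    obtain ⟨r1, r2⟩ := H.rs_w_a hr
    rw [r1] at e1 e3
    unfold LeAt
    rw [mk_self]
    refine ⟨e1, ?_, fun i hi => ?_⟩
    · intro i hi
      rw [Finset.mem_union]
      rcases r2 i hi with h' | h'
      · exact Or.inl (e2 h')
      · right
        rw [h']
        rw [h'] at hi
        exact (h0 hi).1
    · rcases r2 i hi with h' | h'
      · have hS := ((Q_rs H.ext_w H.vw.toBasic hr α).2.2.1 i h').1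
        rw [AM_nu_ge le_rfl (H.ne_new hS), ← H.vw.nu_rs, hw]
        exact e3 i h'
      · subst h'
        rw [AM_nu_new, H.N1, h2]
        exact (h0 hi).2
  · obtain ⟨e1, e2, e3⟩ := hlew α
    rw [H.rs_w_ge hr h] at e1 e2 e3
    unfold LeAt
    rw [mk_gt h]
    refine ⟨e1, e2, fun i hi => ?_⟩
    have hS : (α, i) ∈ w.S := by
      have hQ := Q_rs H.ext_w H.vw.toBasic hr α
      have : i ∈ (w.rs r α).2 := by
        rw [H.rs_w_ge hr h]
        exact hi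
      exact (hQ.2.2.1 i this).1
    rw [AM_nu_ge h.le (H.ne_new hS), ← H.vw.nu_rs, hw]
    exact e3 i hi

theorem Amd.lo_rsw (x : Raw St Ω) : w.rs (lo a x) = lo a (w.rs x) := by
  unfold rs
  rw [lo_rs]

theorem Amd.RE_rs_lo (x : Raw St Ω) : (w.RE a).rs (lo a x) = (w.RE a).rs x := by
  rw [RE_rs, RE_rs, H.lo_rsw, lo_lo le_rfl]

theorem Amd.RE_rs_eq {s : Raw St Ω} (hs : p₂.Q s) : (w.RE a).rs s = w.rs s := by
  rw [RE_rs, ← H.lo_rsw, H.over_Q hs]

theorem Amd.rsw_Q {s : Raw St Ω} (hs : p₂.Q s) : w.Q (w.rs s) ∧ lo a (w.rs s) = w.rs s := by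
  have := Q_rs H.ext (Basic_RE H.vw.toBasic a) hs
  rw [H.RE_rs_eq hs] at this
  exact (Q_RE H.vw.toBasic).1 this

theorem Amd.rsw_le {s d : Raw St Ω} (hs : p₂.Q s) (hd : (w.RE a).Q d) (h : p₂.Le s d) :
    w.Le (w.rs s) d := by
  rw [Le_rs_right H.ext (Basic_RE H.vw.toBasic a) hd, H.RE_rs_eq hs, Le_RE hd] at h
  exact h

theorem Amd.rsw_le_lo {s r : Raw St Ω} (hs : p₂.Q s) (hr : (AM w p₂ a i₀ N).Q r)
    (h : p₂.Le s (lo a r)) : w.Le (w.rs s) (lo a (w.rs r)) := by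
  have h1 := Le_rs H.ext (Basic_RE H.vw.toBasic a) h
  rw [H.RE_rs_eq hs, H.RE_rs_lo, RE_rs] at h1
  have h2 : (w.RE a).Q (lo a (w.rs r)) :=
    Q_RE_lo H.vw.toBasic (Q_rs H.ext_w H.vw.toBasic hr)
  rwa [Le_RE h2] at h1

/-- a stronger lower part and a compatible upper part -/
theorem Amd.comb {r s' d e : Raw St Ω} (hr : (AM w p₂ a i₀ N).Q r) (hs : p₂.Q s')
    (hsr : p₂.Le s' (lo a r)) (hd : (w.RE a).Q d) (hsd : p₂.Le s' d) (he : w.Q e)
    (hde : lo a e = d) (hle : w.Le e (gl a d (w.rs r))) :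
    w.Q (gl a (w.rs s') e) ∧ w.Le (gl a (w.rs s') e) e ∧
      w.Le (gl a (w.rs s') e) (w.rs r) ∧ w.rs s' = lo a (gl a (w.rs s') e) := by
  have hB := H.vw.toBasic
  obtain ⟨hQ1, hQ2⟩ := H.rsw_Q hs
  have hle1 : w.Le (w.rs s') d := H.rsw_le hs hd hsd
  obtain ⟨g1, g2⟩ := glue hB (a := a) he hQ1 (by rw [hde]; exact hle1)
  refine ⟨g1, g2, ?_, ?_⟩
  · intro α
    rcases lt_or_ge α a with h | h
    · obtain ⟨e1, e2, e3⟩ := H.rsw_le_lo hs hr hsr α
      rw [lo_lt h] at e1 e2 e3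
      unfold LeAt
      rw [gl_lt h]
      refine ⟨e1, e2, fun i hi => ?_⟩
      rw [hB.nu_congr' (r := w.rs s')]
      · exact e3 i hi
      · intro β hβ
        exact gl_lt (hβ.trans h) _ _
    · refine LeAt_trans hB ?_ he g1 (LeAt_congr_right (gl_ge h _ _).symm (hle α)) g2
      exact fun i hi => ((Q_rs H.ext_w hB hr α).2.2.1 i hi).1
  · rw [lo_gl, hQ2]

theorem Amd.N_lo {r : Raw St Ω} : N (lo a r) = N r := H.N_congr (H.rs2_lo r)

theorem Amd.len_N {r : Raw St Ω} (hr : (AM w p₂ a i₀ N).Q r) (h0 : i₀ ∈ (r a).2) :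
    1 ≤ (r a).1.length ∧ (r a).1.length ≤ (N r).length := by
  have := ((hr a).2.2.1 i₀ h0).2
  rwa [AM_nu_new] at this

theorem Amd.le_q2 {r : Raw St Ω} (hr : (AM w p₂ a i₀ N).Q r) (h0 : i₀ ∈ (r a).2) :
    p₂.Le (lo a r) q₂ := by
  apply H.N4 _ (H.Q_lo2 hr)
  rw [H.N_lo]
  have := H.len_N hr h0
  intro h
  rw [h] at this
  simp only [List.length_nil] at this
  omega

/-- the use of the genericity of the new sequence -/
theorem Amd.meet {Φ : Raw St Ω → List ℕ → Prop}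
    (N7 : ∀ r₁ x₀, w.Q r₁ → Bd x₀ → Hden w a Φ r₁ x₀ → ∀ r, p₂.Q r → p₂.Le r q₂ →
      ∃ r' d v, p₂.Q r' ∧ p₂.Le r' r ∧ (d, v) ∈ UU w a Φ r₁ x₀ ∧ p₂.Le r' d ∧ v <+: N r')
    {r : Raw St Ω} (hr : (AM w p₂ a i₀ N).Q r) (h0 : i₀ ∈ (r a).2)
    (hH : Hden w a Φ (w.rs r) (N r)) :
    ∃ r' e v, (AM w p₂ a i₀ N).Q r' ∧ (AM w p₂ a i₀ N).Le r' r ∧ w.Q e ∧ w.Le (w.rs r') e ∧
      (r' a).1 = (e a).1 ∧ (e a).1.length ≤ v.length ∧ v <+: N r' ∧ Φ e v := by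
  have hB := H.vw.toBasic
  have hQlo := H.Q_lo2 hr
  obtain ⟨s', d, v, s1, s2, s3, s4, s5⟩ := N7 _ _ (Q_rs H.ext_w hB hr) (H.N2 r) hH _ hQlo
    (H.le_q2 hr h0)
  obtain ⟨u1, u2, u3, u4⟩ := s3
  simp only at u1 u2 u3 u4
  have hd : (w.RE a).Q d := (Q_RE hB).2 ⟨u1, u2⟩
  rcases u4 with ⟨e, e1, e2, e3, e4, e5⟩ | u4 | u4
  · obtain ⟨c1, c2, c3, c4⟩ := H.comb hr s1 s2 hd s4 e1 e2 e3
    have hea : gl a (w.rs s') e a = e a := gl_ge le_rfl _ _
    obtain ⟨g1, g2, g3⟩ := e4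
    have hr1 : (w.rs r a).1 = (r a).1 := (H.rs_w_a hr).1
    rw [hr1] at g1
    have hlen : (r a).1.length ≤ (e a).1.length := by
      have := (e3 a).1.length_le
      rw [gl_ge le_rfl, hr1] at this
      exact this
    have hl := H.len_N hr h0
    have hG : ∀ i ∈ ({i₀} : Finset Ω), i = i₀ := fun i hi => Finset.mem_singleton.1 hi
    have hQ : (AM w p₂ a i₀ N).Q (mkR a s' (gl a (w.rs s') e) {i₀}) := by
      apply H.mk_Q s1 c1 c4 hG
      · intro _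
        rw [hea]
        exact ⟨by omega, g2.trans s5.length_le⟩
      · rw [hea]
        refine lt_of_le_of_lt (Nat.mul_le_mul_left _ ?_) g3
        exact (Finset.card_union_le _ _).trans (by rw [Finset.card_singleton])
    have hLe : (AM w p₂ a i₀ N).Le (mkR a s' (gl a (w.rs s') e) {i₀}) r := by
      apply H.mk_Le hr s1 c1 c4 hG s2 c3
      intro _
      refine ⟨Finset.mem_singleton_self _, ?_⟩
      rw [hea]
      refine g1.congr ?_ fun _ _ => rfl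
      intro m hm
      exact dg_pre s5 (by omega)
    refine ⟨_, e, v, hQ, hLe, e1, ?_, ?_, g2, ?_, e5⟩
    · rw [H.mk_rs_w c1 c4 hG]
      exact c2
    · rw [mk_self, hea]
    · rw [H.N1, H.mk_rs_2 s1]
      exact s5
  · exact absurd (H.rsw_le_lo s1 hr s2)
      (u4 _ (H.rsw_Q s1).1 (H.rsw_Q s1).2 (H.rsw_le s1 hd s4))
  · apply absurd _ u4
    have h1 := H.N3 _ _ hQlo s1 s2
    rw [H.N_lo] at h1
    exact pre_total s5 h1

theorem Amd.room {r : Raw St Ω} (hr : (AM w p₂ a i₀ N).Q r) (h0 : i₀ ∈ (r a).2) :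
    3 * ((w.rs r a).2.card + 1) < b (w.rs r a).1.length := by
  have h1 := (hr a).2.2.2
  have e : w.rs r a = ((r a).1, (r a).2.filter fun i => (a, i) ∈ w.S) := rs_of_mem H.ha
  rw [e]
  simp only
  refine lt_of_le_of_lt (Nat.mul_le_mul_left _ ?_) h1
  rw [Nat.add_one_le_iff]
  apply Finset.card_lt_card
  rw [Finset.ssubset_iff_of_subset (Finset.filter_subset _ _)]
  refine ⟨i₀, h0, ?_⟩
  rw [Finset.mem_filter]
  exact fun h => H.hi h.2

theorem Amd.den_w (N7 : ∀ D ∈ w.E, ∀ r₁ x₀, w.Q r₁ → Bd x₀ → Hden w a (PhiE w D) r₁ x₀ →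
      ∀ r, p₂.Q r → p₂.Le r q₂ →
      ∃ r' d v, p₂.Q r' ∧ p₂.Le r' r ∧ (d, v) ∈ UU w a (PhiE w D) r₁ x₀ ∧ p₂.Le r' d ∧
        v <+: N r')
    {D : Set (Raw St Ω)} (hD : D ∈ w.E) {r : Raw St Ω} (hr : (AM w p₂ a i₀ N).Q r) :
    ∃ r', (AM w p₂ a i₀ N).Q r' ∧ (AM w p₂ a i₀ N).Le r' r ∧
      ∃ d ∈ D, (AM w p₂ a i₀ N).Le r' d := by
  have hB := H.vw.toBasic
  by_cases h0 : i₀ ∈ (r a).2
  · obtain ⟨r', e, v, h1, h2, h3, h4, -, -, -, d, hd, h5⟩ := H.meet (N7 D hD) hr h0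
      (Hden_E H.vw H.ha hD (Q_rs H.ext_w hB hr)
        (by rw [(H.rs_w_a hr).1]; exact (H.len_N hr h0).2) (H.room hr h0))
    refine ⟨r', h1, h2, d, hd, ?_⟩
    rw [Le_rs_right H.ext_w hB (H.vw.sub hD hd)]
    exact Le_trans hB (H.vw.sub hD hd) h3 (Q_rs H.ext_w hB h1) h5 h4
  · have hp : proj w a D (w.rs r) ∈ p₂.E :=
      H.subE (Or.inr ⟨(D, w.rs r), ⟨hD, Q_rs H.ext_w hB hr⟩, rfl⟩)
    obtain ⟨s', s1, s2, d, ⟨u1, u2, u3⟩, s4⟩ := H.v2.den hp (H.Q_lo2 hr)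
    have hd : (w.RE a).Q d := (Q_RE hB).2 ⟨u1, u2⟩
    rcases u3 with ⟨e, e1, e2, e3, δ, hδ, e4⟩ | u3
    · obtain ⟨c1, c2, c3, c4⟩ := H.comb hr s1 s2 hd s4 e1 e2 e3
      have hea : gl a (w.rs s') e a = e a := gl_ge le_rfl _ _
      have hG : ∀ i ∈ (∅ : Finset Ω), i = i₀ := fun i hi => absurd hi (Finset.notMem_empty i)
      have hQ : (AM w p₂ a i₀ N).Q (mkR a s' (gl a (w.rs s') e) ∅) := by
        apply H.mk_Q s1 c1 c4 hG
        · intro h
          exact absurd h (Finset.notMem_empty _)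
        · rw [Finset.union_empty]
          exact (c1 a).2.2.2
      refine ⟨_, hQ, H.mk_Le hr s1 c1 c4 hG s2 c3 fun h => absurd h h0, δ, hδ, ?_⟩
      rw [Le_rs_right H.ext_w hB (H.vw.sub hD hδ), H.mk_rs_w c1 c4 hG]
      exact Le_trans hB (H.vw.sub hD hδ) e1 c1 e4 c2
    · exact absurd (H.rsw_le_lo s1 hr s2)
        (u3 _ (H.rsw_Q s1).1 (H.rsw_Q s1).2 (H.rsw_le s1 hd s4))

theorem Amd.glue2 {r s : Raw St Ω} (hr : (AM w p₂ a i₀ N).Q r) (hs : p₂.Q s)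
    (hle : p₂.Le s (lo a r)) : (AM w p₂ a i₀ N).Q (gl a s r) ∧
      (AM w p₂ a i₀ N).Le (gl a s r) r ∧ lo a (gl a s r) = s := by
  have h1 := glue H.basic (a := a) hr (Q_ext H.ext_2 hs)
    (by rw [Le_ext H.ext_2 (H.Q_lo2 hr)]; exact hle)
  exact ⟨h1.1, h1.2, by rw [lo_gl, H.over_Q hs]⟩

theorem Amd.valid (N7 : ∀ D ∈ w.E, ∀ r₁ x₀, w.Q r₁ → Bd x₀ → Hden w a (PhiE w D) r₁ x₀ →
      ∀ r, p₂.Q r → p₂.Le r q₂ →
      ∃ r' d v, p₂.Q r' ∧ p₂.Le r' r ∧ (d, v) ∈ UU w a (PhiE w D) r₁ x₀ ∧ p₂.Le r' d ∧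
        v <+: N r') :
    Valid (AM w p₂ a i₀ N) :=
  { H.basic with
    cE := H.vw.cE.union H.v2.cE
    sub := by
      rintro D (hD | hD) d hd
      · exact Q_ext H.ext_w (H.vw.sub hD hd)
      · exact Q_ext H.ext_2 (H.v2.sub hD hd)
    den := by
      rintro D (hD | hD) r hr
      · exact H.den_w N7 hD hr
      · obtain ⟨s, s1, s2, δ, hδ, s3⟩ := H.v2.den hD (H.Q_lo2 hr)
        obtain ⟨g1, g2, g3⟩ := H.glue2 hr s1 s2
        refine ⟨_, g1, g2, δ, hδ, ?_⟩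
        apply glue_le_right H.basic (Q_ext H.ext_2 (H.v2.sub hD hδ)) (Q_ext H.ext_2 s1) g1
        rw [H.over_Q s1, Le_ext H.ext_2 (H.v2.sub hD hδ)]
        exact s3
    len := by
      intro α i hi r hr hne n
      by_cases hnew : α = a ∧ i = i₀
      · obtain ⟨rfl, rfl⟩ := hnew
        rw [AM_nu_new] at hne ⊢
        have h1 : p₂.Le (lo α r) q₂ := H.N4 _ (H.Q_lo2 hr) (by rw [H.N_lo]; exact hne)
        obtain ⟨s, s1, s2, s3⟩ := H.N6 _ (H.Q_lo2 hr) h1 n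
        obtain ⟨g1, g2, g3⟩ := H.glue2 hr s1 s2
        refine ⟨_, g1, g2, ?_⟩
        rw [← H.N_lo, g3]
        exact s3
      rcases hi with hi | hi | hi
      · obtain ⟨hi1, hi2⟩ := hi
        simp only at hi1
        rw [AM_nu_lt hi1] at hne ⊢
        rw [← H.v2.nu_lo hi1.le] at hne
        obtain ⟨s, s1, s2, s3⟩ := H.v2.len hi2 (H.Q_lo2 hr) hne n
        obtain ⟨g1, g2, g3⟩ := H.glue2 hr s1 s2
        refine ⟨_, g1, g2, ?_⟩
        rw [← H.v2.nu_lo hi1.le, g3]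
        exact s3
      · obtain ⟨hi1, hi2⟩ := hi
        simp only at hi1
        obtain ⟨D, hD, hD'⟩ := H.full hi2 n
        obtain ⟨r', h1, h2, d, hd, h3⟩ := H.den_w N7 hD hr
        refine ⟨r', h1, h2, ?_⟩
        rcases hD' d hd with h4 | h4
        · have := H.basic.mono (Or.inr (Or.inl ⟨hi1, hi2⟩)) (Q_ext H.ext_w (H.vw.sub hD hd)) h1 h3
          have h5 := this.length_le
          rw [AM_nu_ge hi1 hnew] at h5 ⊢
          omega
        · exfalso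
          apply hne
          have h5 := h4 (w.rs r') (Q_rs H.ext_w H.vw.toBasic h1)
            (by rwa [← Le_rs_right H.ext_w H.vw.toBasic (H.vw.sub hD hd)])
          rw [H.vw.nu_rs] at h5
          have h6 := H.basic.mono (Or.inr (Or.inl ⟨hi1, hi2⟩)) hr h1 h2
          rw [AM_nu_ge hi1 hnew] at h6 ⊢
          rw [h5] at h6
          exact List.prefix_nil.1 h6
      · exact absurd ⟨congrArg Prod.fst hi, congrArg Prod.snd hi⟩ hnew }

end

end Pre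

end Pool.Agent.W915.T
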