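import Pool.Agent.W915.TVal

/-!
# The Cantor set, and the meaning of the sentence
-/

set_option linter.unusedVariables false

noncomputable section

namespace Pool.Agent.W915.T

open Topology

/-- the digit sequences of the points of the Cantor set -/
abbrev KKt : Type := ∀ m : ℕ, Fin (b m - 2)

/-- the digits -/
def ks (κ : KKt) (m : ℕ) : ℕ := κ m

theorem ks_le (κ : KKt) (m : ℕ) : ks κ m + 3 ≤ b m := by
  have h1 := (κ m).2
  have h2 := b_ge m
  unfold ks
  omega

theorem ks_lt (κ : KKt) (m : ℕ) : ks κ m < b m := by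
  have := ks_le κ m
  omega

/-- the point with given digits -/
def vK (κ : KKt) : ℝ := val (ks κ)

theorem continuous_vK : Continuous vK := by
  rw [continuous_iff_continuousAt]
  intro κ
  rw [Metric.continuousAt_iff']
  intro ε hε
  obtain ⟨N, hN⟩ := small hε
  have h1 : PiNat.cylinder κ N ∈ 𝓝 κ :=
    (PiNat.isOpen_cylinder _ κ N).mem_nhds (PiNat.self_mem_cylinder κ N)
  filter_upwards [h1] with κ' hκ'
  have h2 : av (ks κ') N = av (ks κ) N := by
    apply av_congr
    intro m hm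
    unfold ks
    rw [hκ' m hm]
  have e1 := av_le_val (ks_lt κ) N
  have e2 := val_le (ks_lt κ) N
  have e3 := av_le_val (ks_lt κ') N
  have e4 := val_le (ks_lt κ') N
  have e5 := hN N le_rfl
  rw [h2] at e3 e4
  rw [Real.dist_eq, abs_lt]
  unfold vK
  constructor <;> linarith

theorem vK_lt {κ κ' : KKt} {m : ℕ} (h : ∀ j < m, κ j = κ' j) (hm : (κ m : ℕ) < κ' m) :
    vK κ < vK κ' := by
  have e0 : av (ks κ) m = av (ks κ') m := av_congr fun j hj => by
    unfold ks
    rw [h j hj]
  have e1 := val_le (ks_lt κ) (m + 2)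
  have e2 := av_le_val (ks_lt κ') (m + 1)
  rw [av_succ, av_succ, add_assoc, ← add_div] at e1
  rw [av_succ] at e2
  have h1 : (ks κ (m + 1) : ℝ) + 1 ≤ b (m + 1) - 2 := by
    have := ks_le κ (m + 1)
    have : (ks κ (m + 1) : ℝ) + 3 ≤ b (m + 1) := by exact_mod_cast this
    linarith
  have h2 : (ks κ m : ℝ) + 1 ≤ ks κ' m := by exact_mod_cast hm
  have hB := BwR_pos (m + 1)
  have hB2 := BwR_pos (m + 2)
  have h3 : ((ks κ (m + 1) : ℝ) + 1) / Bw (m + 2) < b (m + 1) / Bw (m + 2) := by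
    apply div_lt_div_of_pos_right _ hB2
    linarith
  have h4 := inv_Bw (m + 1)
  have h5 : ((ks κ m : ℝ) + 1) / Bw (m + 1) ≤ ks κ' m / Bw (m + 1) := by gcongr
  rw [add_div] at h5
  unfold vK
  linarith

theorem vK_injective : Function.Injective vK := by
  intro κ κ' h
  by_contra hne
  have hex : ∃ m, κ m ≠ κ' m := by
    by_contra hcon
    push Not at hcon
    exact hne (funext hcon)
  have h1 : ∀ j < Nat.find hex, κ j = κ' j := fun j hj => not_not.1 (Nat.find_min hex hj)
  have h2 := Nat.find_spec hex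
  have h3 : (κ (Nat.find hex) : ℕ) ≠ κ' (Nat.find hex) := fun h' => h2 (Fin.ext h')
  rcases lt_or_gt_of_ne h3 with h4 | h4
  · exact absurd h (vK_lt h1 h4).ne
  · exact absurd h (vK_lt (fun j hj => (h1 j hj).symm) h4).ne'

/-- the Cantor set -/
def KK : Set ℝ := Set.range vK

/-- the digit sequences and the points -/
def hKK : KKt ≃ₜ KK :=
  (continuous_vK.isClosedEmbedding vK_injective).isEmbedding.toHomeomorph

theorem hKK_coe (κ : KKt) : (hKK κ : ℝ) = vK κ := rfl

/-- currying, as a homeomorphism -/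
def curryH : ((Σ m : ℕ, Fin (m + 3)) → Bool) ≃ₜ (∀ m : ℕ, Fin (m + 3) → Bool) where
  toEquiv := Equiv.piCurry fun (m : ℕ) (_ : Fin (m + 3)) => Bool
  continuous_toFun := continuous_pi fun m => continuous_pi fun i => continuous_apply _
  continuous_invFun := continuous_pi fun x =>
    (continuous_apply x.2).comp (continuous_apply x.1)

theorem cantor_KK : Nonempty (KK ≃ₜ (ℕ → Bool)) := by
  have e0 : ∀ m : ℕ, Nonempty (Fin (b m - 2) ≃ (Fin (m + 3) → Bool)) := by
    intro m
    refine ⟨Fintype.equivOfCardEq ?_⟩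
    simp [b]
  have : Infinite (Σ m : ℕ, Fin (m + 3)) := by
    refine Infinite.of_injective (fun m : ℕ => (⟨m, ⟨0, by omega⟩⟩ : Σ m : ℕ, Fin (m + 3))) ?_
    intro m m' h
    exact congrArg Sigma.fst h
  obtain ⟨f⟩ := nonempty_equiv_of_countable (α := Σ m : ℕ, Fin (m + 3)) (β := ℕ)
  let e1 : KKt ≃ₜ (∀ m : ℕ, Fin (m + 3) → Bool) :=
    Homeomorph.piCongrRight fun m => (Classical.choice (e0 m)).toHomeomorphOfDiscrete
  let e3 : ((Σ m : ℕ, Fin (m + 3)) → Bool) ≃ₜ (ℕ → Bool) :=
    Homeomorph.piCongrLeft (Y := fun _ => Bool) f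
  exact ⟨hKK.symm.trans (e1.trans (curryH.symm.trans e3))⟩

/-- open sets contain cylinders -/
theorem exists_cylinder {U : Set KKt} (hU : IsOpen U) {κ : KKt} (h : κ ∈ U) :
    ∃ N, ∀ κ' : KKt, (∀ m < N, κ' m = κ m) → κ' ∈ U := by
  obtain ⟨V, ⟨x, n, rfl⟩, h1, h2⟩ :=
    (PiNat.isTopologicalBasis_cylinders fun m => Fin (b m - 2)).exists_subset_of_mem_open h hU
  refine ⟨n, fun κ' hκ' => h2 fun m hm => ?_⟩
  rw [hκ' m hm]
  exact h1 m hm

/-- The meaning of the sentence. -/
theorem ambient (hPhi : PhiA) : ∃ K : Set ℝ, Nonempty (K ≃ₜ (ℕ → Bool)) ∧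
    ∀ X : Set ℝ, ¬ IsMeagre X →
      ∃ t : ℝ, ¬ IsMeagre ((↑) ⁻¹' ((fun x => x + t) '' X) : Set K) := by
  refine ⟨KK, cantor_KK, fun X hX => ?_⟩
  obtain ⟨t, ht, hD⟩ := hPhi _ (nm_of hX)
  obtain ⟨τ, hτ1, hτ2⟩ := exists_seq ht
  by_contra hcon
  push Not at hcon
  have hM : IsMeagre (⋃ q : ℚ, ((↑) ⁻¹' ((fun x => x + (val τ + q)) '' X) : Set KK)) :=
    isMeagre_iUnion fun q => hcon _
  rw [IsMeagre, mem_residual_iff] at hM
  obtain ⟨S, hS1, hS2, hS3, hS4⟩ := hM
  obtain ⟨G, hG⟩ := (hS3.insert Set.univ).exists_eq_range ⟨_, Set.mem_insert _ _⟩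
  have hGmem : ∀ n, G n = Set.univ ∨ G n ∈ S := by
    intro n
    have : G n ∈ insert Set.univ S := by
      rw [hG]
      exact ⟨n, rfl⟩
    exact this
  have hGo : ∀ n, IsOpen (G n) := by
    intro n
    rcases hGmem n with h | h
    · rw [h]
      exact isOpen_univ
    · exact hS1 _ h
  have hGd : ∀ n, Dense (G n) := by
    intro n
    rcases hGmem n with h | h
    · rw [h]
      exact dense_univ
    · exact hS2 _ h
  let G' : ℕ → Set KKt := fun n => hKK ⁻¹' G n
  have hGo' : ∀ n, IsOpen (G' n) := fun n => (hGo n).preimage hKK.continuous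
  have hGd' : ∀ n, Dense (G' n) := fun n => (hGd n).preimage hKK.isOpenMap
  let D : ℕ → ℕ → List ℕ → Prop := fun l n w => KS l w ∧ l ≤ w.length ∧ ∀ κ : KKt,
    (∀ m < l, (κ m : ℕ) = 0) → (∀ m, l ≤ m → m < w.length → (κ m : ℕ) = dg w m) → κ ∈ G' n
  have hKD : KD D := by
    intro l n s hs
    have hex : ∀ m, ∃ i : Fin (b m - 2), (i : ℕ) = if l ≤ m ∧ m < s.length then dg s m else 0 := by
      intro m
      have hb := b_ge m
      by_cases h : l ≤ m ∧ m < s.length
      · have h1 := hs.2 m h.2 h.1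
        exact ⟨⟨dg s m, by omega⟩, by simp [h]⟩
      · exact ⟨⟨0, by omega⟩, by simp [h]⟩
    choose κ₀ hκ₀ using hex
    obtain ⟨κ, hκ1, hκ2⟩ := (hGd' n).inter_open_nonempty _
      (PiNat.isOpen_cylinder _ κ₀ (max s.length l)) ⟨κ₀, PiNat.self_mem_cylinder _ _⟩
    obtain ⟨N, hN⟩ := exists_cylinder (hGo' n) hκ2
    have hκ : ∀ m < max s.length l, (κ m : ℕ) = if l ≤ m ∧ m < s.length then dg s m else 0 := by
      intro m hm
      rw [hκ1 m hm]
      exact hκ₀ m
    have hlen : (toL (max N (max s.length l)) fun m => if m < l then dg s m else (κ m : ℕ)).length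
        = max N (max s.length l) := length_toL _ _
    refine ⟨toL (max N (max s.length l)) fun m => if m < l then dg s m else (κ m : ℕ),
      ⟨?_, ?_⟩, ⟨?_, ?_, ?_⟩⟩
    · apply pre_of_dg
      · rw [hlen]
        omega
      · intro m hm
        rw [dg_toL (by omega)]
        by_cases h : m < l
        · rw [if_pos h]
        · rw [if_neg h, hκ m (by omega), if_pos ⟨by omega, hm⟩]
    · constructor
      · intro m hm
        rw [hlen] at hm
        rw [dg_toL hm]
        split_ifs with h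
        · exact dg_lt hs.1 m
        · exact ks_lt κ m
      · intro m hm hlm
        rw [hlen] at hm
        rw [dg_toL hm, if_neg (by omega)]
        exact ks_le κ m
    · constructor
      · intro m hm
        rw [hlen] at hm
        rw [dg_toL hm]
        split_ifs with h
        · exact dg_lt hs.1 m
        · exact ks_lt κ m
      · intro m hm hlm
        rw [hlen] at hm
        rw [dg_toL hm, if_neg (by omega)]
        exact ks_le κ m
    · rw [hlen]
      omega
    · intro κ' h1 h2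
      apply hN
      intro m hm
      apply Fin.ext
      by_cases h : m < l
      · rw [h1 m h, hκ m (by omega), if_neg (by omega)]
      · rw [h2 m (by omega) (by rw [hlen]; omega), dg_toL (by omega), if_neg h]
  obtain ⟨x, ⟨y, hyX, rfl⟩, -, z, hz, hsm, l, hl, hDz⟩ := hD D hKD
  obtain ⟨ζ, hζ1, hζ2⟩ := exists_seq hz
  have hζ3 : ∀ m, l ≤ m → ζ m + 3 ≤ b m := by
    intro m hm
    obtain ⟨w, ⟨h1, h2⟩, h3⟩ := hl (m + 1)
    rw [← hζ2 w h3 m (by omega)]
    exact h1.2 m (by omega) hm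
  obtain ⟨ε, hε⟩ := sum_val (Dg_lt (Int.fract y)) hτ1 hζ1 (by
    intro n
    obtain ⟨X', T, Z, ⟨h1, h2⟩, h3, h4, h5⟩ := hsm n
    exact ⟨X', T, Z, h1, h2, brn_of_Pref h3, hτ2 _ h4, hζ2 _ h5⟩)
  rw [val_Dg (Int.fract_nonneg y) (Int.fract_lt_one y)] at hε
  -- the point of the Cantor set
  have hex : ∀ m, ∃ i : Fin (b m - 2), (i : ℕ) = if m < l then 0 else ζ m := by
    intro m
    have hb := b_ge m
    by_cases h : m < l
    · exact ⟨⟨0, by omega⟩, by simp [h]⟩
    · have := hζ3 m (by omega)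
      exact ⟨⟨ζ m, by omega⟩, by simp [h]⟩
  choose κ hκ using hex
  have hav : ∀ n ≥ l, av ζ n = av ζ l + av (ks κ) n := by
    intro n hn
    induction n, hn using Nat.le_induction with
    | base =>
      have : av (ks κ) l = av (fun _ => 0) l := av_congr fun m hm => by
        unfold ks
        rw [hκ m, if_pos hm]
      have h0 : ∀ n, Vw (fun _ => 0) n = 0 := by
        intro n
        induction n with
        | zero => rfl
        | succ n ih => simp [Vw, ih]
      rw [this]
      simp [av, h0]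
    | succ n hn ih =>
      rw [av_succ, av_succ, ih]
      have : ks κ n = ζ n := by
        unfold ks
        rw [hκ n, if_neg (by omega)]
      rw [this]
      ring
  have hval : val ζ = av ζ l + vK κ := by
    symm
    apply val_unique hζ1 (l := l)
    intro n hn
    rw [hav n hn]
    have e1 := av_le_val (ks_lt κ) n
    have e2 := val_le (ks_lt κ) n
    unfold vK
    constructor <;> linarith
  have hκG : ∀ n, hKK κ ∈ G n := by
    intro n
    obtain ⟨w, ⟨-, -, h1⟩, h2⟩ := hDz n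
    refine h1 κ (fun m hm => by rw [hκ m, if_pos hm]) fun m hm hm' => ?_
    rw [hκ m, if_neg (by omega)]
    exact (hζ2 w h2 m hm').symm
  have hmem : hKK κ ∈ ⋂₀ S := by
    intro s hs
    have : s ∈ insert Set.univ S := Or.inr hs
    rw [hG] at this
    obtain ⟨n, rfl⟩ := this
    exact hκG n
  apply hS4 hmem
  refine Set.mem_iUnion.2 ⟨-(⌊y⌋ : ℚ) - ε - (Vw ζ l : ℚ) / Bw l, y, hyX, ?_⟩
  rw [hKK_coe]
  have h1 := Int.floor_add_fract y
  have h2 : av ζ l = (Vw ζ l : ℝ) / Bw l := rfl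
  rw [h2] at hval
  push_cast
  linarith

end Pool.Agent.W915.T
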