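import Pool.Agent.W915.TDig
import Pool.Agent.Helper669.Forcing

/-!
# The sentence, in the ground model and in the forcing language

Real numbers are represented by branches: sets of finite sequences of digits.
-/

namespace Pool.Agent.W915.T

open Pool.Agent.Helper669.Forcing

/-! ### The sentence itself -/

/-- `x` is a branch: its members are finite sequences of digits, any two of them are comparable,
and there are arbitrarily long ones. -/
def Br (x : List ℕ → Prop) : Prop :=
  (∀ n : ℕ, ∃ w, n ≤ w.length ∧ x w) ∧ ∀ w w', x w ∧ x w' → Bd w ∧ (w <+: w' ∨ w' <+: w)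

/-- `w` is an initial segment of the branch `x`. -/
def Pref (x : List ℕ → Prop) (w : List ℕ) : Prop := ∃ w', w <+: w' ∧ x w'

/-- `X` meets all sequences of dense sets of finite sequences: `X` is not meagre. -/
def NM (X : (List ℕ → Prop) → Prop) : Prop :=
  ∀ E : ℕ → List ℕ → Prop, (∀ n s, Bd s → ∃ w, (s <+: w ∧ Bd w) ∧ E n w) →
    ∃ x, X x ∧ Br x ∧ ∀ n : ℕ, ∃ w, E n w ∧ Pref x w

/-- For all `l`, the sets `D l n` are dense for the sequences whose digits from the place `l` on
are at most `b m - 3`. -/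
def KD (D : ℕ → ℕ → List ℕ → Prop) : Prop :=
  ∀ l n s, KS l s → ∃ w, (s <+: w ∧ KS l w) ∧ D l n w

/-- An approximation of the statement that `z` is the sum of `x` and `t` modulo `1`. -/
def GS (X T Z : List ℕ) : Prop :=
  X.length = Z.length ∧ T.length = Z.length ∧ ∃ c : ℕ → ℕ, c Z.length ≤ 1 ∧
    ∀ m < Z.length, c m ≤ 1 ∧ dg X m + dg T m + c (m + 1) = dg Z m + b m * c m

/-- `z` is the sum of `x` and `t` modulo `1`. -/
def Sm (x t z : List ℕ → Prop) : Prop :=
  ∀ n : ℕ, ∃ X T Z, (n ≤ Z.length ∧ GS X T Z) ∧ Pref x X ∧ Pref t T ∧ Pref z Z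

/-- the sentence: for each non-meagre `X` there is `t` such that for all sequences of dense
open sets there is `x` in `X` for which `z = x + t` is in `K^(l)`, and in the dense open sets. -/
def PhiA : Prop :=
  ∀ X : (List ℕ → Prop) → Prop, NM X → ∃ t, Br t ∧ ∀ D : ℕ → ℕ → List ℕ → Prop, KD D →
    ∃ x, X x ∧ Br x ∧ ∃ z, Br z ∧ Sm x t z ∧ ∃ l : ℕ,
      (∀ n : ℕ, ∃ w, (KS l w ∧ n ≤ w.length) ∧ Pref z w) ∧ ∀ n : ℕ, ∃ w, D l n w ∧ Pref z w

/-! ### The sentence in the forcing language -/

universe u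
variable {P : Type u} [Preorder P]

/-- The forcing translation of `Br`. -/
def BrN (x : List ℕ → Set P) : Set P :=
  fand (fall fun n : ℕ => fex fun w : List ℕ => fand (fground (n ≤ w.length)) (meets (x w)))
    (fall fun w : List ℕ => fall fun w' : List ℕ => fimp (fand (meets (x w)) (meets (x w')))
      (fground (Bd w ∧ (w <+: w' ∨ w' <+: w))))

/-- The forcing translation of `Pref`. -/
def PrefN (x : List ℕ → Set P) (w : List ℕ) : Set P :=
  fex fun w' : List ℕ => fand (fground (w <+: w')) (meets (x w'))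

/-- The forcing translation of `NM`. -/
def NMN (X : (List ℕ → Set P) → Set P) : Set P :=
  fall fun E : ℕ → List ℕ → Set P =>
    fimp (fall fun n : ℕ => fall fun s : List ℕ => fall fun _ : Bd s =>
        fex fun w : List ℕ => fand (fground (s <+: w ∧ Bd w)) (meets (E n w)))
      (fex fun x : List ℕ → Set P => fand (meets (X x)) (fand (BrN x)
        (fall fun n : ℕ => fex fun w : List ℕ => fand (meets (E n w)) (PrefN x w))))

/-- The forcing translation of `KD`. -/
def KDN (D : ℕ → ℕ → List ℕ → Set P) : Set P :=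
  fall fun l : ℕ => fall fun n : ℕ => fall fun s : List ℕ => fall fun _ : KS l s =>
    fex fun w : List ℕ => fand (fground (s <+: w ∧ KS l w)) (meets (D l n w))

/-- The forcing translation of `Sm`. -/
def SmN (x t z : List ℕ → Set P) : Set P :=
  fall fun n : ℕ => fex fun X : List ℕ => fex fun T : List ℕ => fex fun Z : List ℕ =>
    fand (fground (n ≤ Z.length ∧ GS X T Z)) (fand (PrefN x X) (fand (PrefN t T) (PrefN z Z)))

/-- The forcing translation of the sentence `PhiA`. -/
def PhiN (P : Type u) [Preorder P] : Set P :=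
  fall fun X : (List ℕ → Set P) → Set P => fimp (NMN X)
    (fex fun t : List ℕ → Set P => fand (BrN t)
      (fall fun D : ℕ → ℕ → List ℕ → Set P => fimp (KDN D)
        (fex fun x : List ℕ → Set P => fand (meets (X x)) (fand (BrN x)
          (fex fun z : List ℕ → Set P => fand (BrN z) (fand (SmN x t z)
            (fex fun l : ℕ => fand
              (fall fun n : ℕ => fex fun w : List ℕ =>
                fand (fground (KS l w ∧ n ≤ w.length)) (PrefN z w))
              (fall fun n : ℕ => fex fun w : List ℕ =>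
                fand (meets (D l n w)) (PrefN z w)))))))))

theorem down_BrN (x : List ℕ → Set P) : Down (BrN x) :=
  down_fand (down_fall fun _ => down_fex _)
    (down_fall fun _ => down_fall fun _ => down_fimp _ _)

theorem down_PrefN (x : List ℕ → Set P) (w : List ℕ) : Down (PrefN x w) := down_fex _

/-- members of a branch, decided by a condition, are comparable -/
theorem BrN.comp {x : List ℕ → Set P} {p : P} (h : p ∈ BrN x) {w w' : List ℕ}
    (h1 : p ∈ PrefN x w) (h2 : p ∈ PrefN x w') : Bd w ∧ (w <+: w' ∨ w' <+: w) := by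
  obtain ⟨q, hq, v, hv1, hv2⟩ := mem_fex.1 h1 p le_rfl
  obtain ⟨r, hr, v', hv1', hv2'⟩ := mem_fex.1 (down_PrefN x w' _ h2 _ hq) q le_rfl
  obtain ⟨s, hs, hs'⟩ := mem_fimp.1 (h.2 v v') r (hr.trans hq)
    ⟨down_meets _ _ hv2 _ hr, hv2'⟩
  refine ⟨hs'.1.pre hv1, ?_⟩
  rcases hs'.2 with h3 | h3
  · exact pre_total (hv1.trans h3) hv1'
  · exact pre_total hv1 (hv1'.trans h3)

theorem mem_PrefN {x : List ℕ → Set P} {p : P} {w : List ℕ} :
    p ∈ PrefN x w ↔ ∀ q ≤ p, ∃ r ≤ q, ∃ w', w <+: w' ∧ r ∈ meets (x w') := mem_fex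

theorem PrefN_mono {x : List ℕ → Set P} {p : P} {w w' : List ℕ} (h : w <+: w')
    (h' : p ∈ PrefN x w') : p ∈ PrefN x w := by
  rw [mem_PrefN] at *
  intro q hq
  obtain ⟨r, hr, v, hv, hv'⟩ := h' q hq
  exact ⟨r, hr, v, h.trans hv, hv'⟩

theorem PrefN_of_meets {x : List ℕ → Set P} {p : P} {w : List ℕ} (h : p ∈ meets (x w)) :
    p ∈ PrefN x w :=
  mem_PrefN.2 fun q hq => ⟨q, le_rfl, w, List.prefix_refl w, down_meets _ _ h _ hq⟩

/-- long initial segments can be decided -/
theorem BrN.long {x : List ℕ → Set P} {p : P} (h : p ∈ BrN x) (n : ℕ) :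
    ∃ q ≤ p, ∃ w, n ≤ w.length ∧ q ∈ PrefN x w := by
  obtain ⟨q, hq, w, h1, h2⟩ := mem_fex.1 (h.1 n) p le_rfl
  exact ⟨q, hq, w, h1, PrefN_of_meets h2⟩

end Pool.Agent.W915.T
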