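import Pool.Agent.W915.TAm
import Pool.Agent.W915.TStmt

/-!
# Answers to tasks
-/

set_option linter.unusedSectionVars false
set_option linter.unusedVariables false

noncomputable section

namespace Pool.Agent.W915.T

open Classical Pre Pool.Agent.Helper669.Forcing

variable {St Ω : Type} [LinearOrder St] [WellFoundedLT St]

/-- an answer `c₂, x, N` to the task `c', U` -/
structure Answer (X : (List ℕ → Set (Cd St Ω)) → Set (Cd St Ω)) (c' : Cd St Ω)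
    (U : ℕ → Set (Raw St Ω × List ℕ)) (c₂ : Cd St Ω) (x : List ℕ → Set (Cd St Ω))
    (N : Raw St Ω → List ℕ) : Prop where
  le : c₂ ≤ c'
  mem : c₂ ∈ meets (X x)
  br : c₂ ∈ BrN x
  N1 : ∀ r, N r = N (c₂.p.rs r)
  N2 : ∀ r, Bd (N r)
  N3 : ∀ r r', c₂.p.Q r → c₂.p.Q r' → c₂.p.Le r' r → N r <+: N r'
  N4 : ∀ r, c₂.p.Q r → N r ≠ [] → c₂.p.Le r c₂.q
  N5 : ∀ r (hr : c₂.p.Q r), c₂.p.Le r c₂.q → (⟨c₂.p, r, c₂.vp, hr⟩ : Cd St Ω) ∈ PrefN x (N r)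
  N6 : ∀ r, c₂.p.Q r → c₂.p.Le r c₂.q → ∀ n, ∃ r', c₂.p.Q r' ∧ c₂.p.Le r' r ∧ n ≤ (N r').length
  N7 : ∀ n r, c₂.p.Q r → c₂.p.Le r c₂.q → ∃ r' d v, c₂.p.Q r' ∧ c₂.p.Le r' r ∧ (d, v) ∈ U n ∧
    c₂.p.Le r' d ∧ v <+: N r'

theorem Cd.le_of {c₁ c : Cd St Ω} (h : c₁ ≤ c) {d : Raw St Ω} (hd : c.p.Q d)
    (hc : c.p.Le c.q d) : c₁.p.Le c₁.q d :=
  Le_trans c₁.vp.toBasic (Q_ext h.1.1 hd) (Q_ext h.1.1 c.vq) c₁.vq
    ((Le_ext h.1.1 hd).2 hc) h.2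

/-- the condition with a stronger finite part -/
theorem Cd.mk_le {c : Cd St Ω} {r : Raw St Ω} (hr : c.p.Q r) (h : c.p.Le r c.q) :
    (⟨c.p, r, c.vp, hr⟩ : Cd St Ω) ≤ c := ⟨Sub.rfl' _, h⟩

theorem exists_answer {X : (List ℕ → Set (Cd St Ω)) → Set (Cd St Ω)} {c₀ : Cd St Ω}
    (hX : c₀ ∈ NMN X) {c' : Cd St Ω} (hc' : c' ≤ c₀) {α₀ : St} (hα₀ : α₀ ∈ c'.p.A)
    {U : ℕ → Set (Raw St Ω × List ℕ)} (hU : ∀ n, ∀ x ∈ U n, c'.p.Q x.1)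
    (hd : ∀ n r, c'.p.Q r → ∀ y, Bd y → ∃ r', c'.p.Q r' ∧ c'.p.Le r' r ∧
      ∃ v, y <+: v ∧ Bd v ∧ (r', v) ∈ U n) :
    ∃ c₂ x N, Answer X c' U c₂ x N := by
  -- the predense sets
  let D : ℕ × List ℕ → Set (Raw St Ω) := fun x => {d | ∃ v, x.2 <+: v ∧ Bd v ∧ (d, v) ∈ U x.1}
  let 𝒟 : Set (Set (Raw St Ω)) := D '' {x | Bd x.2}
  have hv : Valid (c'.p.addE 𝒟) := by
    apply Valid_addE c'.vp
    · exact (Set.to_countable {x : ℕ × List ℕ | Bd x.2}).image D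
    · rintro _ ⟨x, -, rfl⟩ d ⟨v, -, -, h⟩
      exact hU _ _ h
    · rintro _ ⟨⟨n, y⟩, hy, rfl⟩ r hr
      obtain ⟨r', h1, h2, v, h3, h4, h5⟩ := hd n r hr y hy
      exact ⟨r', h1, h2, r', ⟨v, h3, h4, h5⟩, Le_refl _ _⟩
  let c₁ : Cd St Ω := ⟨c'.p.addE 𝒟, c'.q, hv, c'.vq⟩
  have hc₁ : c₁ ≤ c' := ⟨Sub_addE _ _, Le_refl _ _⟩
  -- the names of the dense sets
  let E : ℕ → List ℕ → Set (Cd St Ω) := fun n w =>
    {c | c ≤ c₁ ∧ ∃ d, (d, w) ∈ U n ∧ c.p.Le c.q d}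
  have hE : ∀ n w, Down (E n w) := by
    rintro n w c ⟨h1, d, h2, h3⟩ c'' hc''
    exact ⟨hc''.trans h1, d, h2, Cd.le_of hc'' (Q_ext (h1.trans hc₁).1.1 (hU n _ h2)) h3⟩
  have hmem : c₁ ∈ fall fun n : ℕ => fall fun s : List ℕ => fall fun _ : Bd s =>
      fex fun w : List ℕ => fand (fground (s <+: w ∧ Bd w)) (meets (E n w)) := by
    intro n s hs
    rw [mem_fex]
    intro q hq
    have hDq : D (n, s) ∈ q.p.E := hq.1.2 (Or.inr ⟨(n, s), hs, rfl⟩)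
    obtain ⟨r', h1, h2, d, ⟨v, h3, h4, h5⟩, h6⟩ := q.vp.den hDq q.vq
    exact ⟨⟨q.p, r', q.vp, h1⟩, Cd.mk_le h1 h2, v, ⟨h3, h4⟩,
      meets_of_mem ⟨(Cd.mk_le h1 h2).trans hq, d, h5, h6⟩⟩
  obtain ⟨c₂', hc₂', hc₂''⟩ := mem_fimp.1 (hX E) c₁ (hc₁.trans hc') hmem
  obtain ⟨c₃, hc₃, x, hx1, hx2, hx3⟩ := mem_fex.1 hc₂'' c₂' le_rfl
  have hc₃₁ : c₃ ≤ c₁ := hc₃.trans hc₂'
  -- fusion
  let O : ℕ → Set (Cd St Ω) := fun n => {c | (∃ w, n ≤ w.length ∧ c ∈ PrefN x w) ∧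
    ∃ d w, (d, w) ∈ U n ∧ c.p.Q d ∧ c.p.Le c.q d ∧ c ∈ PrefN x w}
  have hO : ∀ n, Down (O n) := by
    rintro n c ⟨⟨w, h1, h2⟩, d, w', h3, h4, h5, h6⟩ c'' hc''
    exact ⟨⟨w, h1, down_PrefN _ _ _ h2 _ hc''⟩, d, w', h3, Q_ext hc''.1.1 h4,
      Cd.le_of hc'' h4 h5, down_PrefN _ _ _ h6 _ hc''⟩
  obtain ⟨p₂, hv₂, hsub, hfus⟩ := fusion c₃ O hO (by
    intro n c₄ hc₄
    obtain ⟨c₅, hc₅, w, h1, h2⟩ := BrN.long (down_BrN x _ hx2 _ hc₄) n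
    obtain ⟨c₆, hc₆, w', h3, h4⟩ := mem_fex.1 (hx3 n) c₅ (hc₅.trans hc₄)
    obtain ⟨c₇, hc₇, h5, d, h6, h7⟩ := exists_of_meets (hE n w') h3
    exact ⟨c₇, (hc₇.trans hc₆).trans hc₅,
      ⟨w, h1, down_PrefN _ _ _ h2 _ (hc₇.trans hc₆)⟩, d, w', h6,
      Q_ext (h5.trans hc₁).1.1 (hU n _ h6), h7, down_PrefN _ _ _ h4 _ hc₇⟩)
  let c₂ : Cd St Ω := ⟨p₂, c₃.q, hv₂, Q_ext hsub.1 c₃.vq⟩
  have hc₂ : c₂ ≤ c₃ := ⟨hsub, Le_refl _ _⟩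
  have hα₀' : α₀ ∈ p₂.A := (hc₂.trans (hc₃₁.trans hc₁)).1.1.A hα₀
  have hbr : c₂ ∈ BrN x := down_BrN x _ hx2 _ hc₂
  -- the name
  let W : Raw St Ω → List ℕ → Prop := fun r w => ∃ hr : p₂.Q r, p₂.Le r c₃.q ∧
    (⟨p₂, r, hv₂, hr⟩ : Cd St Ω) ∈ PrefN x w
  have hWcomp : ∀ r w w', W r w → W r w' → Bd w ∧ (w <+: w' ∨ w' <+: w) := by
    rintro r w w' ⟨hr, h1, h2⟩ ⟨_, _, h3⟩
    exact BrN.comp (down_BrN x _ hbr _ (Cd.mk_le (c := c₂) hr h1)) h2 h3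
  have hWdown : ∀ r r' w, W r w → p₂.Q r' → p₂.Le r' r → W r' w := by
    rintro r r' w ⟨hr, h1, h2⟩ hr' hle
    exact ⟨hr', Le_trans hv₂.toBasic c₂.vq hr hr' h1 hle,
      down_PrefN _ _ _ h2 _ ⟨Sub.rfl' _, hle⟩⟩
  have claim : ∀ r, ∃ n : List ℕ, ((p₂.Q r ∧ p₂.Le r c₃.q) → W r n ∧
      n.length ≤ (r α₀).1.length ∧ ∀ w, W r w → w.length ≤ (r α₀).1.length → w <+: n) ∧
      (¬ (p₂.Q r ∧ p₂.Le r c₃.q) → n = []) := by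
    intro r
    by_cases h : p₂.Q r ∧ p₂.Le r c₃.q
    · obtain ⟨h1, h2⟩ := h
      let d : ℕ → Prop := fun n => ∃ w, w.length = n ∧ W r w
      have h0 : d 0 := by
        refine ⟨[], rfl, h1, h2, ?_⟩
        rw [mem_PrefN]
        intro q hq
        obtain ⟨q', hq', w, h3, h4⟩ := BrN.long
          (down_BrN x _ hbr _ (hq.trans (Cd.mk_le (c := c₂) h1 h2))) 0
        obtain ⟨q'', hq'', w', h5, h6⟩ := mem_PrefN.1 h4 q' le_rfl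
        exact ⟨q'', hq''.trans hq', w', List.nil_prefix, h6⟩
      obtain ⟨n, hn1, hn2⟩ := Nat.findGreatest_spec (P := d) (Nat.zero_le (r α₀).1.length) h0
      refine ⟨n, fun _ => ⟨hn2, hn1 ▸ Nat.findGreatest_le _, fun w hw hl => ?_⟩,
        fun h => absurd ⟨h1, h2⟩ h⟩
      have h3 : w.length ≤ n.length := by
        rw [hn1]
        exact Nat.le_findGreatest hl ⟨w, rfl, hw⟩
      rcases (hWcomp r w n hw hn2).2 with h4 | h4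
      · exact h4
      · rw [h4.eq_of_length_le h3]
    · exact ⟨[], fun h' => absurd h' h, fun _ => rfl⟩
  choose f hf1 hf2 using claim
  let N : Raw St Ω → List ℕ := fun r => f (p₂.rs r)
  have hN : ∀ r, p₂.Q r → N r = f r := fun r hr => by
    change f (p₂.rs r) = f r
    rw [rs_self hr]
  have hbd : ∀ r, Bd (f r) := by
    intro r
    by_cases h : p₂.Q r ∧ p₂.Le r c₃.q
    · have := (hf1 r h).1
      exact (hWcomp r _ _ this this).1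
    · rw [hf2 r h]
      exact Bd_nil
  have hlong : ∀ r w, W r w → ∃ r', p₂.Q r' ∧ p₂.Le r' r ∧ w <+: N r' := by
    intro r w hw
    obtain ⟨r', h1, h2, -, -, h3⟩ := lengthen hv₂ hw.1 hα₀' w.length
    have hw' := hWdown r r' w hw h1 h2
    refine ⟨r', h1, h2, ?_⟩
    rw [hN r' h1]
    exact (hf1 r' ⟨h1, hw'.2.1⟩).2.2 w hw' h3
  refine ⟨c₂, x, N, hc₂.trans (hc₃₁.trans hc₁), down_meets _ _ hx1 _ hc₂, hbr, ?_,
    fun r => hbd _, ?_, ?_, ?_, ?_, ?_⟩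
  · intro r
    change f (p₂.rs r) = f (p₂.rs (p₂.rs r))
    congr 1
    unfold Pre.rs
    rw [rs_rs subset_rfl subset_rfl]
  · intro r r' hr hr' hle
    rw [hN r hr, hN r' hr']
    by_cases h : p₂.Le r c₃.q
    · have h' : p₂.Le r' c₃.q := Le_trans hv₂.toBasic c₂.vq hr hr' h hle
      obtain ⟨h1, h2, -⟩ := hf1 r ⟨hr, h⟩
      exact (hf1 r' ⟨hr', h'⟩).2.2 _ (hWdown r r' _ h1 hr' hle)
        (h2.trans (hle α₀).1.length_le)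
    · rw [hf2 r fun h' => h h'.2]
      exact List.nil_prefix
  · intro r hr hne
    by_contra h
    apply hne
    rw [hN r hr]
    exact hf2 r fun h' => h h'.2
  · intro r hr hle
    rw [hN r hr]
    exact (hf1 r ⟨hr, hle⟩).1.2.2
  · intro r hr hle n
    obtain ⟨r', h1, h2, ⟨w, h3, h4⟩, -⟩ := hfus n r hr hle
    have hle' : p₂.Le r' c₃.q := Le_trans hv₂.toBasic c₂.vq hr h1 hle h2
    obtain ⟨r'', h5, h6, h7⟩ := hlong r' w ⟨h1, hle', h4⟩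
    exact ⟨r'', h5, Le_trans hv₂.toBasic hr h1 h5 h2 h6, h3.trans h7.length_le⟩
  · intro n r hr hle
    obtain ⟨r', h1, h2, -, d, w, h3, h4, h5, h6⟩ := hfus n r hr hle
    have hle' : p₂.Le r' c₃.q := Le_trans hv₂.toBasic c₂.vq hr h1 hle h2
    obtain ⟨r'', h7, h8, h9⟩ := hlong r' w ⟨h1, hle', h6⟩
    exact ⟨r'', d, w, h7, Le_trans hv₂.toBasic hr h1 h7 h2 h8, h3,
      Le_trans hv₂.toBasic h4 h1 h7 h5 h8, h9⟩

end Pool.Agent.W915.T
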