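import Pool.Agent.W915.TAns

/-!
# Counting, and a closed stage
-/

set_option linter.unusedSectionVars false
set_option linter.unusedVariables false

noncomputable section

namespace Pool.Agent.W915.T

open Classical Cardinal

/-- the stages -/
abbrev StT : Type := (Order.succ 𝔠).ord.ToType

/-- the indices of the promises -/
abbrev OmT : Type := ℕ → Bool

/-- the countable ordinals -/
abbrev W1 : Type := (ℵ₁ : Cardinal.{0}).ord.ToType

theorem exists_bound {κ : Cardinal.{0}} (hκ : κ.IsRegular) {s : Set κ.ord.ToType}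
    (hs : #s < κ) : ∃ x, ∀ y ∈ s, y < x := by
  by_contra h
  push Not at h
  have h0 : IsCofinal s := h
  have h1 := Order.cof_le h0
  rw [Ordinal.cof_toType, hκ.cof_ord] at h1
  exact absurd hs (not_lt.2 h1)

theorem exists_boundS {s : Set StT} (hs : #s ≤ 𝔠) : ∃ x, ∀ y ∈ s, y < x :=
  exists_bound (isRegular_succ aleph0_le_continuum) (Order.lt_succ_of_le hs)

theorem exists_boundW {s : Set W1} (hs : s.Countable) : ∃ x, ∀ y ∈ s, y < x :=
  exists_bound isRegular_aleph_one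
    ((Cardinal.le_aleph0_iff_set_countable.2 hs).trans_lt aleph0_lt_aleph_one)

theorem mk_W1 : #W1 ≤ 𝔠 := by
  rw [mk_ord_toType]
  exact aleph_one_le_continuum

theorem mk_Iio_St (ξ : StT) : #(Set.Iio ξ) ≤ 𝔠 := by
  have h := mk_Iio_lt ξ (by simp)
  rw [mk_ord_toType] at h
  exact Order.lt_succ_iff.1 h

/-- the recursion step -/
def stp {T : Type} (ov : StT → Set T) (lvl : T → StT) (ξ₀ : StT) (i : W1)
    (rec : ∀ j : W1, j < i → StT) : Set StT :=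
  {ξ₀} ∪ ⋃ j : Set.Iio i, ({rec j.1 j.2} ∪ lvl '' ov (rec j.1 j.2))

theorem mk_stp {T : Type} (ov : StT → Set T) (hcard : ∀ ξ, #(ov ξ) ≤ 𝔠) (lvl : T → StT)
    (ξ₀ : StT) (i : W1) (rec : ∀ j : W1, j < i → StT) : #(stp ov lvl ξ₀ i rec) ≤ 𝔠 := by
  refine (mk_union_le _ _).trans ?_
  refine (add_le_add (b := 𝔠) (d := 𝔠) ?_ ?_).trans (add_eq_self aleph0_le_continuum).le
  · rw [mk_singleton]
    exact nat_lt_continuum 1 |>.le
  · refine (mk_iUnion_le _).trans ?_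
    calc #(Set.Iio i) * _ ≤ 𝔠 * 𝔠 := by
          apply mul_le_mul'
          · exact (mk_set_le _).trans mk_W1
          · apply ciSup_le'
            intro j
            refine (mk_union_le _ _).trans ?_
            refine (add_le_add (b := 𝔠) (d := 𝔠) ?_ ?_).trans
              (add_eq_self aleph0_le_continuum).le
            · rw [mk_singleton]
              exact nat_lt_continuum 1 |>.le
            · exact mk_image_le.trans (hcard _)
      _ = 𝔠 := mul_eq_self aleph0_le_continuum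

theorem exists_stage {T : Type} (ov : StT → Set T)
    (hmono : ∀ ξ ξ', ξ ≤ ξ' → ov ξ ⊆ ov ξ') (hcard : ∀ ξ, #(ov ξ) ≤ 𝔠) (lvl : T → StT)
    (ξ₀ : StT) : ∃ a, ξ₀ < a ∧ (∀ ξ < a, ∀ τ ∈ ov ξ, lvl τ < a) ∧
      ∀ s : Set StT, s.Countable → (∀ x ∈ s, x < a) → ∃ ξ < a, ∀ x ∈ s, x < ξ := by
  let f : W1 → StT := WellFoundedLT.fix fun i rec =>
    Classical.choose (exists_boundS (mk_stp ov hcard lvl ξ₀ i rec))
  have hf : ∀ i, ∀ y ∈ stp ov lvl ξ₀ i (fun j _ => f j), y < f i := by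
    intro i
    have h := Classical.choose_spec (exists_boundS (mk_stp ov hcard lvl ξ₀ i (fun j _ => f j)))
    have e : f i = Classical.choose (exists_boundS (mk_stp ov hcard lvl ξ₀ i
        (fun j _ => f j))) := WellFoundedLT.fix_eq _ i
    rw [e]
    exact h
  have hf0 : ∀ i, ξ₀ < f i := fun i => hf i _ (Or.inl rfl)
  have hf1 : ∀ i, ∀ j < i, f j < f i := fun i j hj =>
    hf i _ (Or.inr (Set.mem_iUnion.2 ⟨⟨j, hj⟩, Or.inl rfl⟩))
  have hf2 : ∀ i, ∀ j < i, ∀ τ ∈ ov (f j), lvl τ < f i := fun i j hj τ hτ =>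
    hf i _ (Or.inr (Set.mem_iUnion.2 ⟨⟨j, hj⟩, Or.inr ⟨τ, hτ, rfl⟩⟩))
  obtain ⟨a₁, ha₁⟩ := exists_boundS (s := Set.range f) (mk_range_le.trans mk_W1)
  have hne : {x | ∀ i, f i < x}.Nonempty := ⟨a₁, fun i => ha₁ _ ⟨i, rfl⟩⟩
  let a := WellFounded.min (wellFounded_lt (α := StT)) {x | ∀ i, f i < x} hne
  have ha : ∀ i, f i < a := WellFounded.min_mem _ _ hne
  have ha' : ∀ ξ < a, ∃ i, ξ ≤ f i := by
    intro ξ hξ
    by_contra h
    push Not at h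
    exact WellFounded.not_lt_min _ _ (show ξ ∈ {x | ∀ i, f i < x} from h) hξ
  have hW : ∃ i : W1, True := by
    obtain ⟨i, -⟩ := exists_boundW (s := ∅) Set.countable_empty
    exact ⟨i, trivial⟩
  obtain ⟨i₀, -⟩ := hW
  refine ⟨a, (hf0 i₀).trans (ha i₀), ?_, ?_⟩
  · intro ξ hξ τ hτ
    obtain ⟨i, hi⟩ := ha' ξ hξ
    obtain ⟨j, hj⟩ := exists_boundW (s := {i}) (Set.countable_singleton i)
    exact (hf2 j i (hj i rfl) τ (hmono _ _ hi hτ)).trans (ha j)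
  · intro s hs hsa
    have h1 : ∀ x : s, ∃ i, x.1 ≤ f i := fun x => ha' _ (hsa _ x.2)
    choose g hg using h1
    have : Countable s := hs.to_subtype
    obtain ⟨j, hj⟩ := exists_boundW (s := Set.range g) (Set.countable_range g)
    refine ⟨f j, ha j, fun x hx => ?_⟩
    exact (hg ⟨x, hx⟩).trans_lt (hf1 _ _ (hj _ ⟨⟨x, hx⟩, rfl⟩))

/-! ### Counting -/

/-- the countable subsets of `Y` -/
def CSet {Z : Type} (Y : Set Z) : Set (Set Z) := {s | s ⊆ Y ∧ s.Countable}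

theorem mk_CSet {Z : Type} {Y : Set Z} (h : #Y ≤ 𝔠) : #(CSet Y) ≤ 𝔠 := by
  have h1 : CSet Y = {t : Set Z | t ⊆ Y ∧ #t ≤ ℵ₀} := by
    ext t
    simp only [CSet, Set.mem_ofPred_eq, Cardinal.le_aleph0_iff_set_countable]
  rw [h1]
  refine (mk_bounded_subset_le Y ℵ₀).trans ?_
  calc max #Y ℵ₀ ^ ℵ₀ ≤ 𝔠 ^ ℵ₀ := power_le_power_right (max_le h aleph0_le_continuum)
    _ = 𝔠 := continuum_power_aleph0

theorem mk_prod_le {Z Z' : Type} {Y : Set Z} {Y' : Set Z'} (h : #Y ≤ 𝔠) (h' : #Y' ≤ 𝔠) :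
    #(Y ×ˢ Y' : Set (Z × Z')) ≤ 𝔠 := by
  rw [mk_setProd]
  exact (mul_le_mul' h h').trans (mul_eq_self aleph0_le_continuum).le

theorem mk_univ_le {Z : Type} (h : #Z ≤ 𝔠) : #(Set.univ : Set Z) ≤ 𝔠 := by
  rw [mk_univ]
  exact h

theorem mk_Om : #OmT ≤ 𝔠 := by
  rw [OmT, ← power_def, mk_bool, mk_nat, two_power_aleph0]

theorem mk_Co : #(List ℕ × Finset OmT) ≤ 𝔠 := by
  rw [mk_prod, lift_id, lift_id]
  have h1 : #(List ℕ) ≤ 𝔠 := mk_le_aleph0.trans aleph0_le_continuum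
  have h2 : #(Finset OmT) ≤ 𝔠 := by
    have : Infinite OmT := inferInstance
    rw [mk_finset_of_infinite]
    exact mk_Om
  exact (mul_le_mul' h1 h2).trans (mul_eq_self aleph0_le_continuum).le

open Pre

/-- the finite conditions below `ξ` -/
def RawOver (ξ : StT) : Set (Raw StT OmT) := {r | ∀ α, r α ≠ ([], ∅) → α < ξ}

theorem mk_RawOver (ξ : StT) : #(RawOver ξ) ≤ 𝔠 := by
  have h1 : #(CSet ((Set.Iio ξ) ×ˢ (Set.univ : Set (List ℕ × Finset OmT)))) ≤ 𝔠 :=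
    mk_CSet (mk_prod_le (mk_Iio_St ξ) (mk_univ_le mk_Co))
  refine le_trans ?_ h1
  refine mk_le_of_injective (f := fun r : RawOver ξ => (⟨gr r.1, ?_, ?_⟩ : CSet _)) ?_
  · rintro ⟨α, v⟩ ⟨e1, e2⟩
    simp only at e1 e2
    refine ⟨r.2 α ?_, Set.mem_univ _⟩
    rw [e1]
    exact e2
  · exact (finite_gr r.1).countable
  · intro r r' h
    exact Subtype.ext (gr_injective (congrArg Subtype.val h))

/-- the tasks -/
abbrev Tk : Type := Cd StT OmT × (ℕ → Set (Raw StT OmT × List ℕ))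

/-- the tasks below `ξ` -/
def overT (ξ : StT) : Set Tk :=
  {τ | τ.1.p.A ⊆ Set.Iio ξ ∧ ∀ n, ∀ x ∈ τ.2 n, τ.1.p.Q x.1}

/-- the data of a task -/
def enc (τ : Tk) : Set StT × Set (StT × OmT) × Set ((StT × OmT) × Raw StT OmT × List ℕ) ×
    Set (Set (Raw StT OmT)) × Raw StT OmT × Set (ℕ × Raw StT OmT × List ℕ) :=
  (τ.1.p.A, τ.1.p.S,
    {x | x.1 ∈ τ.1.p.S ∧ τ.1.p.rs x.2.1 = x.2.1 ∧ x.2.2 = τ.1.p.nu x.1.1 x.1.2 x.2.1},
    τ.1.p.E, τ.1.q, {x | x.2 ∈ τ.2 x.1})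

theorem enc_inj : Function.Injective enc := by
  rintro ⟨⟨p, q, vp, vq⟩, U⟩ ⟨⟨p', q', vp', vq'⟩, U'⟩ h
  simp only [enc, Prod.mk.injEq] at h
  obtain ⟨h1, h2, h3, h4, h5, h6⟩ := h
  have hU : U = U' := by
    funext n
    ext x
    have : ((n, x) : ℕ × Raw StT OmT × List ℕ) ∈ {x : ℕ × Raw StT OmT × List ℕ | x.2 ∈ U x.1} ↔
        (n, x) ∈ {x : ℕ × Raw StT OmT × List ℕ | x.2 ∈ U' x.1} := by rw [h6]
    exact this
  have hnu : p.nu = p'.nu := by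
    funext α i r
    by_cases hS : (α, i) ∈ p.S
    · have hrs : p'.rs = p.rs := by
        unfold Pre.rs
        rw [h1, h2]
      have : (((α, i), p.rs r, p.nu α i (p.rs r)) : (StT × OmT) × Raw StT OmT × List ℕ) ∈
          {x : (StT × OmT) × Raw StT OmT × List ℕ | x.1 ∈ p.S ∧ p.rs x.2.1 = x.2.1 ∧
            x.2.2 = p.nu x.1.1 x.1.2 x.2.1} := by
        refine ⟨hS, ?_, rfl⟩
        unfold Pre.rs
        rw [rs_rs subset_rfl subset_rfl]
      rw [h3] at this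
      have h7 : p.nu α i (p.rs r) = p'.nu α i (p.rs r) := this.2.2
      rw [vp.nu_rs] at h7
      rw [h7, ← hrs, vp'.nu_rs]
    · have hS' : (α, i) ∉ p'.S := by
        rw [← h2]
        exact hS
      rw [vp.off hS, vp'.off hS']
  have hp : p = p' := by
    cases p
    cases p'
    simp only at h1 h2 h4 hnu
    subst h1 h2 h4 hnu
    rfl
  subst hp hU h5
  rfl

theorem RawOver_of_Q {p : Pre StT OmT} {ξ : StT} (h : p.A ⊆ Set.Iio ξ) {r : Raw StT OmT}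
    (hr : p.Q r) : r ∈ RawOver ξ := fun α hα => h ((hr α).1 hα)

theorem mk_overT (ξ : StT) : #(overT ξ) ≤ 𝔠 := by
  let Y := CSet (Set.Iio ξ) ×ˢ CSet (Set.Iio ξ ×ˢ (Set.univ : Set OmT)) ×ˢ
    CSet ((Set.Iio ξ ×ˢ (Set.univ : Set OmT)) ×ˢ RawOver ξ ×ˢ (Set.univ : Set (List ℕ))) ×ˢ
    CSet (CSet (RawOver ξ)) ×ˢ RawOver ξ ×ˢ
    CSet ((Set.univ : Set ℕ) ×ˢ RawOver ξ ×ˢ (Set.univ : Set (List ℕ)))
  have hL : #(Set.univ : Set (List ℕ)) ≤ 𝔠 :=
    mk_univ_le (mk_le_aleph0.trans aleph0_le_continuum)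
  have hN : #(Set.univ : Set ℕ) ≤ 𝔠 := mk_univ_le (mk_le_aleph0.trans aleph0_le_continuum)
  have hO := mk_univ_le mk_Om
  have hI := mk_Iio_St ξ
  have hR := mk_RawOver ξ
  have hY : #Y ≤ 𝔠 :=
    mk_prod_le (mk_CSet hI) (mk_prod_le (mk_CSet (mk_prod_le hI hO))
      (mk_prod_le (mk_CSet (mk_prod_le (mk_prod_le hI hO) (mk_prod_le hR hL)))
        (mk_prod_le (mk_CSet (mk_CSet hR)) (mk_prod_le hR
          (mk_CSet (mk_prod_le hN (mk_prod_le hR hL)))))))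
  refine le_trans ?_ hY
  refine mk_le_of_injective (f := fun τ : overT ξ => (⟨enc τ.1, ?_⟩ : Y)) ?_
  · obtain ⟨⟨⟨p, q, vp, vq⟩, U⟩, hA, hU⟩ := τ
    simp only at hA hU
    have hc := countable_seen vp.cA vp.cS
    have hQ := countable_Q vp.toBasic
    refine ⟨⟨hA, vp.cA⟩, ⟨fun x hx => ⟨hA (vp.SA hx), Set.mem_univ _⟩, vp.cS⟩,
      ⟨?_, ?_⟩, ⟨?_, vp.cE⟩, RawOver_of_Q hA vq, ⟨?_, ?_⟩⟩
    · rintro ⟨⟨α, i⟩, r, w⟩ ⟨e1, e2, e3⟩
      refine ⟨⟨hA (vp.SA e1), Set.mem_univ _⟩, ?_, Set.mem_univ _⟩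
      intro β hβ
      simp only at e1 e2 e3 hβ
      by_contra hlt
      apply hβ
      rw [← e2]
      exact rs_of_not_mem fun h => hlt (hA h)
    · have : {x : (StT × OmT) × Raw StT OmT × List ℕ | x.1 ∈ p.S ∧ p.rs x.2.1 = x.2.1 ∧
            x.2.2 = p.nu x.1.1 x.1.2 x.2.1} ⊆ p.S ×ˢ {r | T.rs p.A p.S r = r} ×ˢ Set.univ := by
        rintro x ⟨e1, e2, -⟩
        exact ⟨e1, e2, Set.mem_univ _⟩
      exact (vp.cS.prod (hc.prod Set.countable_univ)).mono this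
    · intro D hD
      have h1 : D ⊆ {r | p.Q r} := fun d hd => vp.sub hD hd
      exact ⟨fun d hd => RawOver_of_Q hA (h1 hd), hQ.mono h1⟩
    · rintro ⟨n, x⟩ hx
      exact ⟨Set.mem_univ _, RawOver_of_Q hA (hU n x hx), Set.mem_univ _⟩
    · have : {x : ℕ × Raw StT OmT × List ℕ | x.2 ∈ U x.1} ⊆
          Set.univ ×ˢ {r | p.Q r} ×ˢ Set.univ := by
        rintro ⟨n, x⟩ hx
        exact ⟨Set.mem_univ _, hU n x hx, Set.mem_univ _⟩
      exact (Set.countable_univ.prod (hQ.prod Set.countable_univ)).mono this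
  · intro τ τ' h
    exact Subtype.ext (enc_inj (congrArg Subtype.val h))

end Pool.Agent.W915.T
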