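import Pool.Agent.W915.TRes

/-!
# The dense sets of pairs which a new sequence has to meet
-/

set_option linter.unusedSectionVars false
set_option linter.unusedVariables false

noncomputable section

namespace Pool.Agent.W915.T

open Classical

variable {St Ω : Type} [LinearOrder St] [WellFoundedLT St]

/-- `z` is an initial segment of the sum of `x` and `t` (with the last digit of `t` not used) -/
def ZW (x t z : List ℕ) : Prop :=
  z.length < t.length ∧ ∃ c z' : ℕ → ℕ, c t.length = 0 ∧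
    (∀ m < t.length, c m ≤ 1 ∧ dg x m + dg t m + c (m + 1) = z' m + b m * c m ∧ z' m < b m) ∧
    ∀ m < z.length, dg z m = z' m

namespace Pre

/-- the new digits of the stage `a` are good for the sequence `v` -/
def Good (a : St) (r₁ e : Raw St Ω) (v : List ℕ) : Prop :=
  Bk 0 (dg v) (dg (e a).1) (r₁ a).1.length (e a).1.length ∧
    (e a).1.length ≤ v.length ∧ 3 * ((e a).2.card + 1) < b (e a).1.length

/-- a density statement about extensions `e` and sequences `v` with the property `Φ` -/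
def Hden (w : Pre St Ω) (a : St) (Φ : Raw St Ω → List ℕ → Prop) (r₁ : Raw St Ω)
    (x₀ : List ℕ) : Prop :=
  ∀ s, w.Q s → lo a s = s → w.Le s (lo a r₁) → ∀ y, Bd y → x₀ <+: y →
    ∃ e v, w.Q e ∧ w.Le e (gl a s r₁) ∧ Good a r₁ e v ∧ y <+: v ∧ Bd v ∧ Φ e v

/-- the corresponding set of pairs -/
def UU (w : Pre St Ω) (a : St) (Φ : Raw St Ω → List ℕ → Prop) (r₁ : Raw St Ω)
    (x₀ : List ℕ) : Set (Raw St Ω × List ℕ) :=
  {x | w.Q x.1 ∧ lo a x.1 = x.1 ∧ Bd x.2 ∧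
    ((∃ e, w.Q e ∧ lo a e = x.1 ∧ w.Le e (gl a x.1 r₁) ∧ Good a r₁ e x.2 ∧ Φ e x.2) ∨
      (∀ s', w.Q s' → lo a s' = s' → w.Le s' x.1 → ¬ w.Le s' (lo a r₁)) ∨
      ¬ (x.2 <+: x₀ ∨ x₀ <+: x.2))}

variable {w : Pre St Ω} {a : St}

theorem UU_dense (h : Valid w) {Φ : Raw St Ω → List ℕ → Prop} {r₁ : Raw St Ω} {x₀ : List ℕ}
    (hr₁ : w.Q r₁) (hx : Bd x₀) (hH : Hden w a Φ r₁ x₀) {s : Raw St Ω} (hs : w.Q s)
    (hs' : lo a s = s) {y : List ℕ} (hy : Bd y) :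
    ∃ s', w.Q s' ∧ lo a s' = s' ∧ w.Le s' s ∧ ∃ v, y <+: v ∧ Bd v ∧ (s', v) ∈ UU w a Φ r₁ x₀ := by
  by_cases h1 : ∀ s', w.Q s' → lo a s' = s' → w.Le s' s → ¬ w.Le s' (lo a r₁)
  · exact ⟨s, hs, hs', Le_refl _ _, y, List.prefix_refl _, hy, hs, hs', hy, Or.inr (Or.inl h1)⟩
  by_cases h2 : ¬ (y <+: x₀ ∨ x₀ <+: y)
  · exact ⟨s, hs, hs', Le_refl _ _, y, List.prefix_refl _, hy, hs, hs', hy, Or.inr (Or.inr h2)⟩
  push Not at h1
  obtain ⟨s₁, c1, c2, c3, c4⟩ := h1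
  obtain ⟨y', hy1, hy2, hy3⟩ : ∃ y', y <+: y' ∧ x₀ <+: y' ∧ Bd y' := by
    rcases not_not.1 h2 with h3 | h3
    · exact ⟨x₀, h3, List.prefix_refl _, hx⟩
    · exact ⟨y, List.prefix_refl _, h3, hy⟩
  obtain ⟨e, v, e1, e2, e3, e4, e5, e6⟩ := hH s₁ c1 c2 c4 y' hy3 hy2
  have e7 : w.Le (lo a e) s₁ := by
    have := Le_lo h.toBasic e2 a
    rwa [lo_gl, c2] at this
  refine ⟨lo a e, Q_lo h.toBasic e1 a, lo_lo le_rfl e,
    Le_trans h.toBasic hs c1 (Q_lo h.toBasic e1 a) c3 e7, v, hy1.trans e4, e5,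
    Q_lo h.toBasic e1 a, lo_lo le_rfl e, e5, Or.inl ⟨e, e1, rfl, ?_, e3, e6⟩⟩
  intro α
  rcases lt_or_ge α a with h' | h'
  · apply LeAt_self
    rw [gl_lt h', lo_lt h']
  · exact LeAt_congr_right (by rw [gl_ge h', gl_ge h']) (e2 α)

/-- the property which belongs to a predense set -/
def PhiE (w : Pre St Ω) (D : Set (Raw St Ω)) (e : Raw St Ω) (_v : List ℕ) : Prop :=
  ∃ d ∈ D, w.Le e d

theorem Hden_E (h : Valid w) (ha : a ∈ w.A) {D : Set (Raw St Ω)} (hD : D ∈ w.E)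
    {r₁ : Raw St Ω} (hr₁ : w.Q r₁) {x₀ : List ℕ} (hl : (r₁ a).1.length ≤ x₀.length)
    (hroom : 3 * ((r₁ a).2.card + 1) < b (r₁ a).1.length) :
    Hden w a (PhiE w D) r₁ x₀ := by
  intro s hs hs' hle y hy hxy
  obtain ⟨g1, g2⟩ := glue h.toBasic (a := a) hr₁ hs hle
  have ga : gl a s r₁ a = r₁ a := gl_ge le_rfl s r₁
  obtain ⟨e₁, a1, a2, a3, a4, a5, a6⟩ := lengthen_with h g1 ha hy
    (by rw [ga]; exact hl.trans hxy.length_le) (by rw [ga]; exact hroom)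
  obtain ⟨e₂, b1, b2, d, hd, b3⟩ := h.den hD a1
  obtain ⟨e₃, c1, c2, c3, c4, c5⟩ := lengthen h b1 ha (3 * ((e₂ a).2.card + 1))
  have p13 : (e₁ a).1 <+: (e₃ a).1 := (b2 a).1.trans (c2 a).1
  have hlen : y.length ≤ (e₃ a).1.length := by
    rw [← a5]
    exact p13.length_le
  obtain ⟨v, v1, v2, v3, v4⟩ := extend_block hy (c1 a).2.1 hlen
  have le13 := Le_trans h.toBasic a1 b1 c1 b2 c2
  refine ⟨e₃, v, c1, Le_trans h.toBasic g1 a1 c1 a2 le13, ⟨?_, v3.ge, ?_⟩, v2, v1, d, hd,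
    Le_trans h.toBasic (h.sub hD hd) b1 c1 b3 c2⟩
  · rw [ga] at a6
    refine Bk.trans hlen (a6.congr ?_ ?_) v4
    · intro m hm
      exact dg_pre v2 hm
    · intro m hm
      exact dg_pre p13 (by rw [a5]; exact hm)
  · rw [c4]
    exact (lt_b _).trans_le (b_mono c5)

/-- the property which belongs to a name of a dense open set -/
def PhiD (a : St) (l : ℕ) (Dec : Raw St Ω → List ℕ → Prop) (e : Raw St Ω) (v : List ℕ) : Prop :=
  ∃ z, KS l z ∧ Dec e z ∧ ZW v (e a).1 z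

theorem Hden_D (h : Valid w) (ha : a ∈ w.A) {l : ℕ} {Dec : Raw St Ω → List ℕ → Prop}
    {q₁ : Raw St Ω} (hq₁ : w.Q q₁)
    (hmono : ∀ e e' z, w.Q e → w.Q e' → w.Le e' e → Dec e z → Dec e' z)
    (hden : ∀ e, w.Q e → w.Le e q₁ → ∀ z, KS l z → ∃ e' z', w.Q e' ∧ w.Le e' e ∧ z <+: z' ∧
      KS l z' ∧ Dec e' z')
    {r₁ : Raw St Ω} (hr₁ : w.Q r₁) (hrq : w.Le r₁ q₁) {x₀ : List ℕ}
    (hl : (r₁ a).1.length ≤ x₀.length) (hll : l ≤ (r₁ a).1.length)
    (hroom : 3 * ((r₁ a).2.card + 1) < b (r₁ a).1.length)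
    (hbk : Bk l (dg x₀) (dg (r₁ a).1) 0 (r₁ a).1.length) :
    Hden w a (PhiD a l Dec) r₁ x₀ := by
  intro s hs hs' hle y hy hxy
  obtain ⟨g1, g2⟩ := glue h.toBasic (a := a) hr₁ hs hle
  have ga : gl a s r₁ a = r₁ a := gl_ge le_rfl s r₁
  have hly : (r₁ a).1.length ≤ y.length := hl.trans hxy.length_le
  obtain ⟨e₁, a1, a2, a3, a4, a5, a6⟩ := lengthen_with h g1 ha hy
    (by rw [ga]; exact hly) (by rw [ga]; exact hroom)
  rw [ga] at a4 a6
  have p01 : (r₁ a).1 <+: (e₁ a).1 := by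
    have := (a2 a).1
    rwa [ga] at this
  have hbk1 : Bk l (dg y) (dg (e₁ a).1) 0 y.length := by
    refine Bk.trans hly (hbk.congr ?_ ?_) (a6.mono (Nat.zero_le _))
    · intro m hm
      exact dg_pre hxy (hm.trans_le hl)
    · intro m hm
      exact dg_pre p01 hm
  obtain ⟨c₁, z₁, hc₁, hz₁⟩ := hbk1
  have hby : b (r₁ a).1.length ≤ b y.length := b_mono hly
  let B : Finset ℕ := {b y.length - 3, b y.length - 2, b y.length - 1}
  have hBcard : B.card ≤ 3 := Finset.card_le_three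
  obtain ⟨e₁', τ, b1, b2, b3, b4, b5, b6⟩ := one_digit h a1 ha B (by
    rw [a4, a5]
    omega)
  rw [a5] at b6
  have hτ : τ + 4 ≤ b y.length := by
    have := b_ge y.length
    simp only [B, Finset.mem_insert, Finset.mem_singleton, not_or] at b5
    omega
  have hz0 : ∀ m < y.length, dg (toL y.length z₁ ++ [τ + 1]) m = z₁ m := by
    intro m hm
    rw [dg_append (by rw [length_toL]; exact hm), dg_toL hm]
  have hzy : dg (toL y.length z₁ ++ [τ + 1]) y.length = τ + 1 := by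
    have := dg_append_self (toL y.length z₁) (τ + 1)
    rwa [length_toL] at this
  have hzl : (toL y.length z₁ ++ [τ + 1]).length = y.length + 1 := by
    simp [length_toL]
  have hKS : KS l (toL y.length z₁ ++ [τ + 1]) := by
    constructor
    · intro m hm
      rw [hzl] at hm
      rcases Nat.lt_succ_iff_lt_or_eq.1 hm with h' | rfl
      · rw [hz0 m h']
        exact (hz₁ m (Nat.zero_le _) h').2.2.1
      · rw [hzy]
        omega
    · intro m hm hlm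
      rw [hzl] at hm
      rcases Nat.lt_succ_iff_lt_or_eq.1 hm with h' | rfl
      · rw [hz0 m h']
        exact (hz₁ m (Nat.zero_le _) h').2.2.2.1 hlm
      · rw [hzy]
        omega
  have le1g := Le_trans h.toBasic hr₁ g1 a1 g2 a2
  have le1'r := Le_trans h.toBasic hr₁ a1 b1 le1g b2
  obtain ⟨e₂, z, d1, d2, d3, d4, d5⟩ := hden e₁' b1
    (Le_trans h.toBasic hq₁ hr₁ b1 hrq le1'r) _ hKS
  obtain ⟨e₃, f1, f2, f3, f4, f5⟩ := lengthen h d1 ha (3 * ((e₂ a).2.card + 1) + z.length + 1)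
  have p1' : (e₁ a).1 ++ [τ] <+: (e₃ a).1 := by
    have := (d2 a).1.trans (f2 a).1
    rwa [b4] at this
  have p1 : (e₁ a).1 <+: (e₃ a).1 := (List.prefix_append _ _).trans p1'
  have hyz : y.length < z.length := by
    have := d3.length_le
    rw [hzl] at this
    omega
  have hu : dg (e₃ a).1 y.length = τ := by
    rw [dg_pre p1' (by simp [a5]), ← a5, dg_append_self]
  obtain ⟨v, v1, v2, v3, c, hc, v4⟩ := extend_target hy (f1 a).2.1 d4.1 hyz (by omega) hc₁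
    (by
      intro m hm
      rw [dg_pre p1 (by rw [a5]; exact hm), dg_pre d3 (by rw [hzl]; omega), hz0 m hm]
      exact ⟨(hz₁ m (Nat.zero_le _) hm).1, (hz₁ m (Nat.zero_le _) hm).2.1⟩)
    (by rw [hu, dg_pre d3 (by rw [hzl]; omega), hzy])
  have hdz : ∀ m, l ≤ m → dg z m + 3 ≤ b m := by
    intro m hm
    by_cases h' : m < z.length
    · exact d4.2 m h' hm
    · rw [dg_of_le (not_lt.1 h')]
      have := b_ge m
      omega
  have le13 := Le_trans h.toBasic a1 b1 f1 b2 (Le_trans h.toBasic b1 d1 f1 d2 f2)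
  refine ⟨e₃, v, f1, Le_trans h.toBasic g1 a1 f1 a2 le13, ⟨?_, v3.ge, ?_⟩, v2, v1,
    z, d4, hmono _ _ _ d1 f1 f2 d5, ?_⟩
  · refine ⟨c, dg z, hc, fun m hm hm' => ⟨(v4 m hm').1, (v4 m hm').2, dg_lt d4.1 m,
      fun _ => hdz m (hll.trans hm), fun hm1 => ?_⟩⟩
    rw [dg_of_le (by omega)]
    have := b_ge m
    omega
  · rw [f4]
    exact (lt_b _).trans_le (b_mono (by omega))
  · exact ⟨by omega, c, dg z, hc, fun m hm => ⟨(v4 m hm).1, (v4 m hm).2, dg_lt d4.1 m⟩,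
      fun _ _ => rfl⟩

end Pre

end Pool.Agent.W915.T
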