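import Mathlib

/-!
# Digits in an increasing base, sums with carries
-/

namespace Pool.Agent.W915.T

/-- The bases of the expansion. -/
def b (m : ℕ) : ℕ := 2 ^ (m + 3) + 2

theorem b_mono {m n : ℕ} (h : m ≤ n) : b m ≤ b n :=
  Nat.add_le_add_right (Nat.pow_le_pow_right (by norm_num) (by omega)) 2

theorem b_ge (m : ℕ) : 10 ≤ b m := by
  have h := b_mono (Nat.zero_le m)
  have h0 : b 0 = 10 := rfl
  omega

theorem lt_b (n : ℕ) : n < b n := by
  have h : n + 3 < 2 ^ (n + 3) := Nat.lt_two_pow_self
  unfold b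
  omega

/-- The digit of a finite sequence at `m`. -/
def dg (w : List ℕ) (m : ℕ) : ℕ := w.getD m 0

/-- The entries of the finite sequence are digits. -/
def Bd (w : List ℕ) : Prop := ∀ m < w.length, dg w m < b m

/-- A finite sequence of digits whose entries from the place `l` on are at most `b m - 3`. -/
def KS (l : ℕ) (w : List ℕ) : Prop := Bd w ∧ ∀ m < w.length, l ≤ m → dg w m + 3 ≤ b m

theorem dg_of_le {w : List ℕ} {m : ℕ} (h : w.length ≤ m) : dg w m = 0 :=
  List.getD_eq_default _ _ h

theorem dg_lt {w : List ℕ} (h : Bd w) (m : ℕ) : dg w m < b m := by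
  by_cases hm : m < w.length
  · exact h m hm
  · rw [dg_of_le (not_lt.1 hm)]
    have := b_ge m
    omega

theorem dg_pre {w w' : List ℕ} (h : w <+: w') {m : ℕ} (hm : m < w.length) :
    dg w' m = dg w m := by
  obtain ⟨v, rfl⟩ := h
  simp only [dg]
  rw [List.getD_append _ _ _ _ hm]

theorem pre_of_dg {w w' : List ℕ} (h : w.length ≤ w'.length)
    (h' : ∀ m < w.length, dg w m = dg w' m) : w <+: w' := by
  rw [List.prefix_iff_eq_take]
  apply List.ext_getElem
  · simp [h]
  · intro i h1 h2
    have := h' i h1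
    simp only [dg] at this
    rw [List.getD_eq_getElem _ _ h1, List.getD_eq_getElem _ _ (by omega)] at this
    simp [this]

theorem pre_total {w w' v : List ℕ} (h : w <+: v) (h' : w' <+: v) : w <+: w' ∨ w' <+: w := by
  rcases le_total w.length w'.length with hl | hl
  · exact Or.inl (List.prefix_of_prefix_length_le h h' hl)
  · exact Or.inr (List.prefix_of_prefix_length_le h' h hl)

theorem Bd.pre {w w' : List ℕ} (h : Bd w') (hw : w <+: w') : Bd w := by
  intro m hm
  rw [← dg_pre hw hm]
  exact h m (lt_of_lt_of_le hm hw.length_le)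

theorem Bd_nil : Bd [] := fun m hm => absurd hm (Nat.not_lt_zero m)

theorem KS.pre {l : ℕ} {w w' : List ℕ} (h : KS l w') (hw : w <+: w') : KS l w := by
  refine ⟨h.1.pre hw, fun m hm hl => ?_⟩
  rw [← dg_pre hw hm]
  exact h.2 m (lt_of_lt_of_le hm hw.length_le) hl

/-- The sequence of the first `n` values of a function. -/
def toL (n : ℕ) (f : ℕ → ℕ) : List ℕ := (List.range n).map f

theorem length_toL (n : ℕ) (f : ℕ → ℕ) : (toL n f).length = n := by simp [toL]

theorem dg_toL {n m : ℕ} {f : ℕ → ℕ} (h : m < n) : dg (toL n f) m = f m := by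
  simp only [dg]
  rw [List.getD_eq_getElem _ _ (by rw [length_toL]; exact h)]
  simp [toL]

theorem dg_append_self (u : List ℕ) (τ : ℕ) : dg (u ++ [τ]) u.length = τ := by
  simp [dg]

theorem dg_append {u : List ℕ} {τ m : ℕ} (h : m < u.length) : dg (u ++ [τ]) m = dg u m :=
  dg_pre (List.prefix_append _ _) h

theorem Bd_append {u : List ℕ} {τ : ℕ} (h : Bd u) (hτ : τ < b u.length) : Bd (u ++ [τ]) := by
  intro m hm
  simp only [List.length_append, List.length_singleton] at hm
  rcases Nat.lt_succ_iff_lt_or_eq.1 hm with h1 | h1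
  · rw [dg_append h1]
    exact h m h1
  · rw [h1, dg_append_self]
    exact hτ

/-- The block relation: from `l` to `l'` the sum of `x` and `t` has digits at most `b m - 3` (for
`k ≤ m`), without a carry from the right; the last one is at most `b m - 4`. -/
def Bk (k : ℕ) (x t : ℕ → ℕ) (l l' : ℕ) : Prop :=
  ∃ c z : ℕ → ℕ, c l' = 0 ∧ ∀ m, l ≤ m → m < l' → c m ≤ 1 ∧
    x m + t m + c (m + 1) = z m + b m * c m ∧
    z m < b m ∧ (k ≤ m → z m + 3 ≤ b m) ∧ (m + 1 = l' → z m + 4 ≤ b m)

theorem Bk_self (k : ℕ) (x t : ℕ → ℕ) (l : ℕ) : Bk k x t l l :=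
  ⟨fun _ => 0, fun _ => 0, rfl, fun _ h h' => absurd h' (not_lt.2 h)⟩

theorem Bk.mono {k k' : ℕ} {x t : ℕ → ℕ} {l l' : ℕ} (h : Bk k x t l l') (hk : k ≤ k') :
    Bk k' x t l l' := by
  obtain ⟨c, z, h1, h2⟩ := h
  exact ⟨c, z, h1, fun m hm hm' => ⟨(h2 m hm hm').1, (h2 m hm hm').2.1, (h2 m hm hm').2.2.1,
    fun h => (h2 m hm hm').2.2.2.1 (hk.trans h), (h2 m hm hm').2.2.2.2⟩⟩

theorem Bk.congr {k : ℕ} {x t x' t' : ℕ → ℕ} {l l' : ℕ} (h : Bk k x t l l')
    (hx : ∀ m < l', x' m = x m) (ht : ∀ m < l', t' m = t m) : Bk k x' t' l l' := by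
  obtain ⟨c, z, h1, h2⟩ := h
  refine ⟨c, z, h1, fun m hm hm' => ?_⟩
  rw [hx m hm', ht m hm']
  exact h2 m hm hm'

theorem Bk.trans {k : ℕ} {x t : ℕ → ℕ} {l l' l'' : ℕ} (hl' : l' ≤ l'')
    (h : Bk k x t l l') (h' : Bk k x t l' l'') : Bk k x t l l'' := by
  rcases Nat.eq_or_lt_of_le hl' with rfl | hlt
  · exact h
  obtain ⟨c, z, h1, h2⟩ := h
  obtain ⟨c', z', h1', h2'⟩ := h'
  have hc' : c' l' ≤ 1 := (h2' l' le_rfl hlt).1
  refine ⟨fun m => if m < l' then c m else c' m,
    fun m => if m < l' then (if m + 1 = l' then z m + c' l' else z m) else z' m, ?_, ?_⟩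
  · simp only [not_lt.2 hl', if_false]
    exact h1'
  · intro m hm hm'
    by_cases h3 : m < l'
    · obtain ⟨e1, e2, e3, e4, e5⟩ := h2 m hm h3
      simp only [h3, if_true]
      by_cases h4 : m + 1 = l'
      · subst h4
        have e6 := e5 rfl
        simp only [lt_irrefl, if_false, if_true]
        rw [h1] at e2
        refine ⟨e1, by omega, by omega, fun _ => by omega, fun h => by omega⟩
      · have h5 : m + 1 < l' := by omega
        simp only [h5, h4, if_true, if_false]
        exact ⟨e1, e2, e3, e4, fun h => by omega⟩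
    · have h4 : ¬ m + 1 < l' := by omega
      simp only [h3, h4, if_false]
      exact h2' m (not_lt.1 h3) hm'

theorem Bk_step {x t : ℕ → ℕ} {n : ℕ} (hx : x n < b n) (ht : t n < b n)
    (h : (x n + t n) % b n + 4 ≤ b n) : Bk 0 x t n (n + 1) := by
  refine ⟨fun m => if m = n then (x n + t n) / b n else 0, fun m => (x m + t m) % b m, ?_, ?_⟩
  · simp
  · intro m hm hm'
    obtain rfl : m = n := by omega
    have hb : 0 < b m := by have := b_ge m; omega
    have e1 : (x m + t m) / b m ≤ 1 := by
      have : (x m + t m) / b m < 2 := by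
        rw [Nat.div_lt_iff_lt_mul hb]
        omega
      omega
    have e2 := Nat.mod_add_div (x m + t m) (b m)
    have e3 := Nat.mod_lt (x m + t m) hb
    simp only [if_true]
    refine ⟨e1, ?_, e3, fun _ => by omega, fun _ => h⟩
    simp
    omega

/-- a digit which avoids few forbidden values -/
theorem avoid {ι : Type} (T : Finset ι) (x : ι → ℕ) (B : Finset ℕ) (n : ℕ)
    (h : 3 * T.card + B.card < b n) :
    ∃ τ < b n, τ ∉ B ∧ ∀ i ∈ T, (x i + τ) % b n + 4 ≤ b n := by
  classical
  have hb : 0 < b n := by have := b_ge n; omega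
  let bad : ι → Finset ℕ := fun i =>
    ({1, 2, 3} : Finset ℕ).image fun v => (b n - v + (b n - x i % b n)) % b n
  have hbad : ∀ i, (bad i).card ≤ 3 := fun i => Finset.card_image_le.trans (by simp)
  have hcard : (B ∪ T.biUnion bad).card < (Finset.range (b n)).card := by
    rw [Finset.card_range]
    refine (Finset.card_union_le _ _).trans_lt ?_
    have : (T.biUnion bad).card ≤ T.card * 3 :=
      Finset.card_biUnion_le_card_mul _ _ _ fun i _ => hbad i
    omega
  obtain ⟨τ, h1, h2⟩ := Finset.exists_mem_notMem_of_card_lt_card hcard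
  rw [Finset.mem_range] at h1
  rw [Finset.mem_union, not_or] at h2
  refine ⟨τ, h1, h2.1, fun i hi => ?_⟩
  by_contra hlt
  apply h2.2
  refine Finset.mem_biUnion.2 ⟨i, hi, ?_⟩
  have e3 := Nat.mod_lt (x i + τ) hb
  have e4 := Nat.mod_lt (x i) hb
  have hb' := b_ge n
  refine Finset.mem_image.2 ⟨b n - (x i + τ) % b n, ?_, ?_⟩
  · simp only [Finset.mem_insert, Finset.mem_singleton]
    omega
  · have e5 : b n - (b n - (x i + τ) % b n) = (x i + τ) % b n := by omega
    rw [e5]
    have e6 := Nat.mod_add_div (x i) (b n)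
    have e7 : ((x i + τ) % b n + (b n - x i % b n)) % b n = τ % b n := by
      rw [Nat.mod_add_mod]
      have : x i + τ + (b n - x i % b n) = τ + b n * (x i / b n + 1) := by
        rw [Nat.mul_add]
        omega
      rw [this, Nat.add_mul_mod_self_left]
    rw [e7, Nat.mod_eq_of_lt h1]

/-- subtraction with borrows -/
theorem subtract (z u : ℕ → ℕ) (L : ℕ) (hz : ∀ m, z m < b m) (hu : ∀ m < L, u m < b m) :
    ∃ c x : ℕ → ℕ, c L = 0 ∧ ∀ m < L, c m ≤ 1 ∧ x m < b m ∧
      x m + u m + c (m + 1) = z m + b m * c m := by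
  have key : ∀ d ≤ L, ∃ c x : ℕ → ℕ, c L = 0 ∧ ∀ m, L - d ≤ m → m < L → c m ≤ 1 ∧ x m < b m ∧
      x m + u m + c (m + 1) = z m + b m * c m := by
    intro d
    induction d with
    | zero =>
      intro _
      exact ⟨fun _ => 0, fun _ => 0, rfl, fun m h h' => by omega⟩
    | succ d ih =>
      intro hd
      obtain ⟨c, x, h1, h2⟩ := ih (by omega)
      let l := L - (d + 1)
      have hl : l < L := by omega
      have hc : c (l + 1) ≤ 1 := by
        by_cases hll : l + 1 < L
        · exact (h2 (l + 1) (by omega) hll).1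
        · have : l + 1 = L := by omega
          rw [this, h1]
          omega
      let cl := if z l < u l + c (l + 1) then 1 else 0
      refine ⟨Function.update c l cl, Function.update x l (z l + b l * cl - u l - c (l + 1)),
        ?_, ?_⟩
      · rw [Function.update_of_ne (by omega)]
        exact h1
      · intro m hm hm'
        by_cases hml : m = l
        · subst hml
          rw [Function.update_self, Function.update_self, Function.update_of_ne (by omega)]
          have e1 := hz l
          have e2 := hu l hl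
          by_cases e3 : z l < u l + c (l + 1)
          · have : cl = 1 := if_pos e3
            rw [this]
            omega
          · have : cl = 0 := if_neg e3
            rw [this]
            omega
        · rw [Function.update_of_ne hml, Function.update_of_ne hml,
            Function.update_of_ne (show m + 1 ≠ l by omega)]
          exact h2 m (by omega) hm'
  obtain ⟨c, x, h1, h2⟩ := key L le_rfl
  exact ⟨c, x, h1, fun m hm => h2 m (by omega) hm⟩

theorem subtract_zero {z u x c : ℕ → ℕ} {m : ℕ} (hx : x m < b m) (h1 : c m ≤ 1)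
    (h : x m + u m + c (m + 1) = z m + b m * c m) (h' : u m + 1 ≤ z m) (hc : c (m + 1) ≤ 1) :
    c m = 0 := by
  by_contra hne
  have : c m = 1 := by omega
  rw [this] at h
  omega

/-- the lower block of the extended sequence -/
theorem extend_block {y u : List ℕ} (hy : Bd y) (hu : Bd u) (hl : y.length ≤ u.length) :
    ∃ w, Bd w ∧ y <+: w ∧ w.length = u.length ∧ Bk 0 (dg w) (dg u) y.length u.length := by
  obtain ⟨c, x, h1, h2⟩ := subtract (fun _ => 0) (dg u) u.length
    (fun m => by have := b_ge m; omega) hu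
  refine ⟨toL u.length fun m => if m < y.length then dg y m else x m, ?_, ?_, length_toL _ _, ?_⟩
  · intro m hm
    rw [length_toL] at hm
    rw [dg_toL hm]
    split_ifs with h
    · exact hy m h
    · exact (h2 m hm).2.1
  · apply pre_of_dg
    · rw [length_toL]
      exact hl
    · intro m hm
      rw [dg_toL (by omega), if_pos hm]
  · refine ⟨c, fun _ => 0, h1, fun m hm hm' => ?_⟩
    rw [dg_toL hm', if_neg (by omega)]
    obtain ⟨e1, e2, e3⟩ := h2 m hm'
    have := b_ge m
    refine ⟨e1, e3, ?_, fun _ => ?_, fun _ => ?_⟩ <;> (beta_reduce; omega)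

/-- the exact target -/
theorem extend_target {y u v : List ℕ} (hy : Bd y) (hu : Bd u) (hv : Bd v)
    (hyv : y.length < v.length) (hvu : v.length < u.length) {c₁ : ℕ → ℕ} (hc : c₁ y.length = 0)
    (h : ∀ m < y.length, c₁ m ≤ 1 ∧ dg y m + dg u m + c₁ (m + 1) = dg v m + b m * c₁ m)
    (h' : dg u y.length + 1 = dg v y.length) :
    ∃ w, Bd w ∧ y <+: w ∧ w.length = u.length ∧ ∃ c : ℕ → ℕ, c u.length = 0 ∧
      ∀ m < u.length, c m ≤ 1 ∧ dg w m + dg u m + c (m + 1) = dg v m + b m * c m := by
  obtain ⟨c, x, h1, h2⟩ := subtract (dg v) (dg u) u.length (dg_lt hv) hu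
  have hcy : c y.length = 0 := by
    obtain ⟨e1, e2, e3⟩ := h2 y.length (by omega)
    refine subtract_zero e2 e1 e3 h'.le ?_
    by_cases h3 : y.length + 1 < u.length
    · exact (h2 _ h3).1
    · have : y.length + 1 = u.length := by omega
      rw [this, h1]
      omega
  refine ⟨toL u.length fun m => if m < y.length then dg y m else x m, ?_, ?_, length_toL _ _,
    fun m => if m < y.length then c₁ m else c m, ?_, ?_⟩
  · intro m hm
    rw [length_toL] at hm
    rw [dg_toL hm]
    split_ifs with h
    · exact hy m h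
    · exact (h2 m hm).2.1
  · apply pre_of_dg
    · rw [length_toL]
      omega
    · intro m hm
      rw [dg_toL (by omega), if_pos hm]
  · have : ¬ u.length < y.length := by omega
    simp only [this, if_false]
    exact h1
  · intro m hm
    rw [dg_toL hm]
    by_cases h3 : m < y.length
    · simp only [h3, if_true]
      by_cases h4 : m + 1 < y.length
      · simp only [h4, if_true]
        exact h m h3
      · simp only [h4, if_false]
        have h5 : m + 1 = y.length := by omega
        rw [h5, hcy]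
        have := h m h3
        rw [h5, hc] at this
        exact this
    · have h4 : ¬ m + 1 < y.length := by omega
      simp only [h3, h4, if_false]
      exact ⟨(h2 m hm).1, (h2 m hm).2.2⟩

/-- uniqueness of the digits of a sum -/
theorem sum_unique {x t c z c' z' : ℕ → ℕ} {L : ℕ} (hL : c L = c' L)
    (h : ∀ m < L, x m + t m + c (m + 1) = z m + b m * c m ∧ z m < b m)
    (h' : ∀ m < L, x m + t m + c' (m + 1) = z' m + b m * c' m ∧ z' m < b m) :
    ∀ m < L, z m = z' m := by
  have key : ∀ d ≤ L, c (L - d) = c' (L - d) := by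
    intro d
    induction d with
    | zero => intro _; exact hL
    | succ d ih =>
      intro hd
      have e := ih (by omega)
      have e1 : L - (d + 1) + 1 = L - d := by omega
      obtain ⟨h1, h2⟩ := h (L - (d + 1)) (by omega)
      obtain ⟨h3, h4⟩ := h' (L - (d + 1)) (by omega)
      rw [e1] at h1 h3
      rw [e] at h1
      rw [h1] at h3
      generalize L - (d + 1) = m at *
      have h5 : (z m + b m * c m) / b m = (z' m + b m * c' m) / b m := by rw [h3]
      have hb : 0 < b m := by have := b_ge m; omega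
      rw [Nat.add_mul_div_left _ _ hb, Nat.add_mul_div_left _ _ hb, Nat.div_eq_of_lt h2,
        Nat.div_eq_of_lt h4] at h5
      omega
  intro m hm
  have e0 := key (L - m) (by omega)
  have e1 := key (L - (m + 1)) (by omega)
  have e2 : L - (L - m) = m := by omega
  have e3 : L - (L - (m + 1)) = m + 1 := by omega
  rw [e2] at e0
  rw [e3] at e1
  obtain ⟨h1, -⟩ := h m hm
  obtain ⟨h3, -⟩ := h' m hm
  rw [e0, e1] at h1
  omega

/-- the digits of a sum, up to the last one, do not change -/
theorem sum_stable {x t x' t' c z c' z' : ℕ → ℕ} {L L' : ℕ} (hLL : L ≤ L') (hL : c L = 0)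
    (h : ∀ m < L, x m + t m + c (m + 1) = z m + b m * c m ∧ z m < b m)
    (hr : ∀ m, m + 1 = L → z m + 4 ≤ b m)
    (hc : c' L' = 0) (h' : ∀ m < L', c' m ≤ 1 ∧ x' m + t' m + c' (m + 1) = z' m + b m * c' m ∧
      z' m < b m) (hx : ∀ m < L, x' m = x m) (ht : ∀ m < L, t' m = t m) :
    ∀ m, m + 1 < L → z' m = z m := by
  have hcL : c' L ≤ 1 := by
    rcases Nat.eq_or_lt_of_le hLL with rfl | hlt
    · rw [hc]; omega
    · exact (h' L hlt).1
  intro m hm
  have := sum_unique (x := x) (t := t) (c := fun m => if m = L then c' L else c m)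
    (z := fun m => if m + 1 = L then z m + c' L else z m) (c' := c') (z' := z') (L := L)
    (by simp) ?_ ?_ m (by omega)
  · rw [← this, if_neg (by omega)]
  · intro m hm
    obtain ⟨e1, e2⟩ := h m hm
    rw [if_neg (show ¬ m = L by omega)]
    by_cases h3 : m + 1 = L
    · have := hr m h3
      simp only [h3, if_true]
      rw [h3, hL] at e1
      omega
    · simp only [h3, if_false]
      exact ⟨e1, e2⟩
  · intro m hm
    obtain ⟨e1, e2, e3⟩ := h' m (by omega)
    rw [hx m hm, ht m hm] at e2
    exact ⟨e2, e3⟩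

end Pool.Agent.W915.T
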