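import Pool.Agent.W915.TRaw

/-!
# Extending conditions, adding predense sets and stages
-/

set_option linter.unusedSectionVars false
set_option linter.unusedVariables false

noncomputable section

namespace Pool.Agent.W915.T

open Classical

variable {St Ω : Type} [LinearOrder St] [WellFoundedLT St]

namespace Pre

variable {p p' : Pre St Ω}

theorem glue_le_right (h : Basic p) {a : St} {r s d : Raw St Ω} (hd : p.Q d) (hs : p.Q s)
    (hr : p.Q (gl a s r)) (hle : p.Le (lo a s) d) : p.Le (gl a s r) d :=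
  Le_trans h hd (Q_lo h hs a) hr hle (gl_le p a s r)

/-- the names of finitely many promises at a stage can be lengthened below the stage -/
theorem lengthen_names (h : Valid p) {r : Raw St Ω} (hr : p.Q r) (α : St) (n : ℕ) :
    ∃ s, p.Q s ∧ p.Le s r ∧ (∀ β, α ≤ β → s β = r β) ∧
      ∀ i ∈ (r α).2, n ≤ (p.nu α i s).length := by
  have key : ∀ T : Finset Ω, T ⊆ (r α).2 → ∃ s, p.Q s ∧ p.Le s r ∧ (∀ β, α ≤ β → s β = r β) ∧
      ∀ i ∈ T, n ≤ (p.nu α i s).length := by
    intro T
    induction T using Finset.induction_on with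
    | empty =>
      intro _
      exact ⟨r, hr, Le_refl p r, fun _ _ => rfl, fun i hi => absurd hi (Finset.notMem_empty i)⟩
    | insert i T hi ih =>
      intro hT
      obtain ⟨s, h1, h2, h3, h4⟩ := ih fun j hj => hT (Finset.mem_insert_of_mem hj)
      have hiF : i ∈ (s α).2 := by
        rw [h3 α le_rfl]
        exact hT (Finset.mem_insert_self i T)
      obtain ⟨hS, hl1, hl2⟩ := (h1 α).2.2.1 i hiF
      obtain ⟨s', e1, e2, e3⟩ := h.len hS h1 (by
        intro h0
        rw [h0] at hl2
        simp only [List.length_nil] at hl2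
        omega) n
      obtain ⟨g1, g2⟩ := glue h.toBasic (a := α) h1 (Q_lo h.toBasic e1 α)
        (Le_lo h.toBasic e2 α)
      refine ⟨gl α (lo α s') s, g1, Le_trans h.toBasic hr h1 g1 h2 g2, ?_, ?_⟩
      · intro β hβ
        rw [gl_ge hβ]
        exact h3 β hβ
      · intro j hj
        rcases Finset.mem_insert.1 hj with rfl | hj'
        · rw [h.nu_congr' (r := s')]
          · exact e3
          · intro β hβ
            rw [gl_lt hβ, lo_lt hβ]
        · have hjS := ((h1 α).2.2.1 j (by
            rw [h3 α le_rfl]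
            exact hT (Finset.mem_insert_of_mem hj'))).1
          exact (h4 j hj').trans (h.mono hjS h1 g1 g2).length_le
  exact key _ subset_rfl

/-- one coordinate may be changed when the conditions at that coordinate hold -/
theorem update (h : Basic p) {r : Raw St Ω} {a : St} {v : List ℕ × Finset Ω} (hr : p.Q r)
    (ha : a ∈ p.A) (h1 : Bd v.1) (h2 : (r a).1 <+: v.1) (h3 : (r a).2 ⊆ v.2)
    (h4 : ∀ i ∈ v.2, (a, i) ∈ p.S ∧ 1 ≤ v.1.length ∧ v.1.length ≤ (p.nu a i r).length)
    (h5 : 3 * v.2.card < b v.1.length)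
    (h6 : ∀ i ∈ (r a).2, Bk 0 (dg (p.nu a i r)) (dg v.1) (r a).1.length v.1.length) :
    p.Q (up r a v) ∧ p.Le (up r a v) r := by
  apply ind h
  intro α hQ hL
  by_cases hα : α = a
  · subst hα
    have hnu : ∀ i, p.nu α i (up r α v) = p.nu α i r := fun i =>
      h.nu_congr' fun β hβ => up_ne r v hβ.ne
    constructor
    · unfold Qat
      rw [up_self]
      refine ⟨fun _ => ha, h1, fun i hi => ?_, h5⟩
      rw [hnu]
      exact h4 i hi
    · unfold LeAt
      rw [up_self]
      refine ⟨h2, h3, fun i hi => ?_⟩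
      rw [hnu]
      exact h6 i hi
  · constructor
    · obtain ⟨e1, e2, e3, e4⟩ := hr α
      unfold Qat
      rw [up_ne r v hα]
      refine ⟨e1, e2, fun i hi => ?_, e4⟩
      obtain ⟨e5, e6, e7⟩ := e3 i hi
      refine ⟨e5, e6, e7.trans ?_⟩
      have := h.mono e5 (Q_lo h hr α) hQ hL
      rw [h.nu_lo le_rfl, h.nu_lo le_rfl] at this
      exact this.length_le
    · exact LeAt_self (up_ne r v hα)

/-- one more digit at a stage, avoiding a few values -/
theorem one_digit (h : Valid p) {r : Raw St Ω} (hr : p.Q r) {a : St} (ha : a ∈ p.A)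
    (B : Finset ℕ) (hB : 3 * (r a).2.card + B.card < b (r a).1.length) :
    ∃ r' τ, p.Q r' ∧ p.Le r' r ∧ (∀ β, a < β → r' β = r β) ∧
      r' a = ((r a).1 ++ [τ], (r a).2) ∧ τ ∉ B ∧ τ < b (r a).1.length := by
  obtain ⟨s, h1, h2, h3, h4⟩ := lengthen_names h hr a ((r a).1.length + 1)
  have hsa : s a = r a := h3 a le_rfl
  obtain ⟨τ, t1, t2, t3⟩ := avoid (r a).2 (fun i => dg (p.nu a i s) (r a).1.length) B
    (r a).1.length hB
  obtain ⟨u1, u2⟩ := update h.toBasic (v := ((r a).1 ++ [τ], (r a).2)) h1 ha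
    (Bd_append (hr a).2.1 t1) (by rw [hsa]; exact List.prefix_append _ _) (by rw [hsa])
    (fun i hi => by
      refine ⟨((hr a).2.2.1 i hi).1, by simp, ?_⟩
      simp only [List.length_append, List.length_singleton]
      exact h4 i hi)
    (by
      simp only [List.length_append, List.length_singleton]
      exact (hr a).2.2.2.trans_le (b_mono (Nat.le_succ _)))
    (fun i hi => by
      rw [hsa] at hi ⊢
      simp only [List.length_append, List.length_singleton]
      apply Bk_step
      · exact dg_lt (h.bd _ _ _) _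
      · rw [dg_append_self]
        exact t1
      · rw [dg_append_self]
        exact t3 i hi)
  refine ⟨_, τ, u1, Le_trans h.toBasic hr h1 u1 h2 u2, ?_, up_self _ _ _, t2, t1⟩
  intro β hβ
  rw [up_ne _ _ hβ.ne']
  exact h3 β hβ.le

/-- the digit sequence at a stage can be lengthened -/
theorem lengthen (h : Valid p) {r : Raw St Ω} (hr : p.Q r) {a : St} (ha : a ∈ p.A) (n : ℕ) :
    ∃ r', p.Q r' ∧ p.Le r' r ∧ (∀ β, a < β → r' β = r β) ∧
      (r' a).2 = (r a).2 ∧ n ≤ (r' a).1.length := by
  induction n with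
  | zero => exact ⟨r, hr, Le_refl p r, fun _ _ => rfl, rfl, Nat.zero_le _⟩
  | succ n ih =>
    obtain ⟨s, h1, h2, h3, h4, h5⟩ := ih
    obtain ⟨r', τ, e1, e2, e3, e4, -, -⟩ := one_digit h h1 ha ∅ (by
      rw [Finset.card_empty, Nat.add_zero]
      exact (h1 a).2.2.2)
    refine ⟨r', e1, Le_trans h.toBasic hr h1 e1 h2 e2, fun β hβ => (e3 β hβ).trans (h3 β hβ),
      ?_, ?_⟩
    · rw [e4]
      exact h4
    · rw [e4]
      simp only [List.length_append, List.length_singleton]
      omega

/-- three forbidden values -/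
def bad3 (y n : ℕ) : Finset ℕ := (Finset.range (b n)).filter fun τ => b n < (y + τ) % b n + 4

theorem card_bad3 (y n : ℕ) : (bad3 y n).card ≤ 3 := by
  have hb : 0 < b n := b_pos n
  have hb' := b_ge n
  have : bad3 y n ⊆ ({1, 2, 3} : Finset ℕ).image fun v => (b n - v + (b n - y % b n)) % b n := by
    intro τ hτ
    rw [bad3, Finset.mem_filter, Finset.mem_range] at hτ
    obtain ⟨h1, h2⟩ := hτ
    have e3 := Nat.mod_lt (y + τ) hb
    have e4 := Nat.mod_lt y hb
    refine Finset.mem_image.2 ⟨b n - (y + τ) % b n, ?_, ?_⟩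
    · simp only [Finset.mem_insert, Finset.mem_singleton]
      omega
    · have e5 : b n - (b n - (y + τ) % b n) = (y + τ) % b n := by omega
      rw [e5]
      have e6 := Nat.mod_add_div y (b n)
      have e7 : ((y + τ) % b n + (b n - y % b n)) % b n = τ % b n := by
        rw [Nat.mod_add_mod]
        have : y + τ + (b n - y % b n) = τ + b n * (y / b n + 1) := by
          rw [Nat.mul_add]
          omega
        rw [this, Nat.add_mul_mod_self_left]
      rw [e7, Nat.mod_eq_of_lt h1]
  exact (Finset.card_le_card this).trans (Finset.card_image_le.trans (by simp))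

/-- the digit sequence at a stage can be lengthened such that it is also good for one more
sequence `y` -/
theorem lengthen_with (h : Valid p) {r : Raw St Ω} (hr : p.Q r) {a : St} (ha : a ∈ p.A)
    {y : List ℕ} (hy : Bd y) (hl : (r a).1.length ≤ y.length)
    (hroom : 3 * ((r a).2.card + 1) < b (r a).1.length) :
    ∃ r', p.Q r' ∧ p.Le r' r ∧ (∀ β, a < β → r' β = r β) ∧
      (r' a).2 = (r a).2 ∧ (r' a).1.length = y.length ∧
      Bk 0 (dg y) (dg (r' a).1) (r a).1.length y.length := by
  have key : ∀ n, (r a).1.length + n ≤ y.length → ∃ r', p.Q r' ∧ p.Le r' r ∧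
      (∀ β, a < β → r' β = r β) ∧
      (r' a).2 = (r a).2 ∧ (r' a).1.length = (r a).1.length + n ∧
      Bk 0 (dg y) (dg (r' a).1) (r a).1.length ((r a).1.length + n) := by
    intro n
    induction n with
    | zero => exact fun _ => ⟨r, hr, Le_refl p r, fun _ _ => rfl, rfl, rfl, Bk_self _ _ _ _⟩
    | succ n ih =>
      intro hn
      obtain ⟨s, h1, h2, h3, h4, h5, h6⟩ := ih (by omega)
      have hcard := card_bad3 (dg y (s a).1.length) (s a).1.length
      obtain ⟨r', τ, e1, e2, e3, e4, e5, e6⟩ := one_digit h h1 ha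
        (bad3 (dg y (s a).1.length) (s a).1.length) (by
          rw [h4]
          have : b (r a).1.length ≤ b (s a).1.length := b_mono (by omega)
          omega)
      refine ⟨r', e1, Le_trans h.toBasic hr h1 e1 h2 e2, fun β hβ => (e3 β hβ).trans (h3 β hβ),
        ?_, ?_, ?_⟩
      · rw [e4]
        exact h4
      · rw [e4]
        simp only [List.length_append, List.length_singleton]
        omega
      · rw [e4]
        simp only
        have h7 : (dg y (s a).1.length + τ) % b (s a).1.length + 4 ≤ b (s a).1.length := by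
          by_contra hcon
          apply e5
          rw [bad3, Finset.mem_filter, Finset.mem_range]
          exact ⟨e6, by omega⟩
        have h8 : Bk 0 (dg y) (dg ((s a).1 ++ [τ])) (s a).1.length ((s a).1.length + 1) := by
          apply Bk_step
          · exact dg_lt hy _
          · rw [dg_append_self]
            exact e6
          · rw [dg_append_self]
            exact h7
        rw [h5] at h8
        refine Bk.trans (by omega) (h6.congr (fun _ _ => rfl) ?_) h8
        intro m hm
        rw [dg_append (by omega)]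
  obtain ⟨r', h1, h2, h3, h4, h5, h6⟩ := key (y.length - (r a).1.length) (by omega)
  have e : (r a).1.length + (y.length - (r a).1.length) = y.length := by omega
  rw [e] at h5 h6
  exact ⟨r', h1, h2, h3, h4, h5, h6⟩

/-! ### New predense sets -/

/-- further predense sets -/
def addE (p : Pre St Ω) (𝒟 : Set (Set (Raw St Ω))) : Pre St Ω :=
  { p with E := p.E ∪ 𝒟 }

theorem Ext_addE (p : Pre St Ω) (𝒟 : Set (Set (Raw St Ω))) : Ext (p.addE 𝒟) p :=
  ⟨subset_rfl, subset_rfl, fun _ => rfl⟩

theorem Ext_addE' (p : Pre St Ω) (𝒟 : Set (Set (Raw St Ω))) : Ext p (p.addE 𝒟) :=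
  ⟨subset_rfl, subset_rfl, fun _ => rfl⟩

theorem Q_addE {𝒟 : Set (Set (Raw St Ω))} {r : Raw St Ω} : (p.addE 𝒟).Q r ↔ p.Q r :=
  Iff.rfl

theorem Le_addE {𝒟 : Set (Set (Raw St Ω))} {r r' : Raw St Ω} :
    (p.addE 𝒟).Le r' r ↔ p.Le r' r :=
  Iff.rfl

theorem Basic_addE {𝒟 : Set (Set (Raw St Ω))} (h : Basic p) : Basic (p.addE 𝒟) :=
  ⟨h.cA, h.cS, h.SA, h.loc, h.bd, h.off, h.mono⟩

theorem Valid_addE {𝒟 : Set (Set (Raw St Ω))} (h : Valid p) (h1 : 𝒟.Countable)
    (h2 : ∀ D ∈ 𝒟, ∀ d ∈ D, p.Q d)
    (h3 : ∀ D ∈ 𝒟, ∀ r, p.Q r → ∃ r', p.Q r' ∧ p.Le r' r ∧ ∃ d ∈ D, p.Le r' d) :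
    Valid (p.addE 𝒟) :=
  { Basic_addE h.toBasic with
    cE := h.cE.union h1
    sub := by
      rintro D (hD | hD) d hd
      · exact h.sub hD hd
      · exact h2 D hD d hd
    den := by
      rintro D (hD | hD) r hr
      · exact h.den hD hr
      · exact h3 D hD r hr
    len := h.len }

/-- the requirement about the lengths of the names is taken care of by a predense set -/
def Full (p : Pre St Ω) : Prop :=
  ∀ {α i}, (α, i) ∈ p.S → ∀ n, ∃ D ∈ p.E, ∀ d ∈ D, n ≤ (p.nu α i d).length ∨
    ∀ r, p.Q r → p.Le r d → p.nu α i r = []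

theorem exists_full (h : Valid p) : ∃ 𝒟, Valid (p.addE 𝒟) ∧ Full (p.addE 𝒟) := by
  let D : (St × Ω) × ℕ → Set (Raw St Ω) := fun x => {d | p.Q d ∧
    (x.2 ≤ (p.nu x.1.1 x.1.2 d).length ∨ ∀ r, p.Q r → p.Le r d → p.nu x.1.1 x.1.2 r = [])}
  refine ⟨D '' (p.S ×ˢ Set.univ), ?_, ?_⟩
  · apply Valid_addE h
    · exact (h.cS.prod Set.countable_univ).image _
    · rintro _ ⟨x, -, rfl⟩ d hd
      exact hd.1
    · rintro _ ⟨⟨⟨α, i⟩, n⟩, hx, rfl⟩ r hr
      by_cases h0 : ∀ r', p.Q r' → p.Le r' r → p.nu α i r' = []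
      · exact ⟨r, hr, Le_refl p r, r, ⟨hr, Or.inr h0⟩, Le_refl p r⟩
      · push Not at h0
        obtain ⟨r', h1, h2, h3⟩ := h0
        obtain ⟨r'', h4, h5, h6⟩ := h.len hx.1 h1 h3 n
        exact ⟨r'', h4, Le_trans h.toBasic hr h1 h4 h2 h5, r'', ⟨h4, Or.inl h6⟩, Le_refl p r''⟩
  · intro α i hi n
    exact ⟨D ((α, i), n), Or.inr ⟨((α, i), n), ⟨hi, Set.mem_univ _⟩, rfl⟩, fun d hd => hd.2⟩

/-! ### New stages -/

/-- a further stage -/
def addA (p : Pre St Ω) (a : St) : Pre St Ω := { p with A := insert a p.A }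

theorem Ext_addA (p : Pre St Ω) (a : St) : Ext (p.addA a) p :=
  ⟨Set.subset_insert _ _, subset_rfl, fun _ => rfl⟩

/-- the locality of the names is preserved -/
theorem Basic.loc_ext (h : Basic p) (hA : p.A ⊆ p'.A) (hS : p.S ⊆ p'.S) (α : St) (i : Ω)
    (r : Raw St Ω) : p.nu α i r = p.nu α i (lo α (p'.rs r)) := by
  rw [h.nu_lo le_rfl, ← h.nu_rs (p'.rs r), ← h.nu_rs r]
  congr 1
  unfold rs
  rw [rs_rs hA hS]

theorem Basic_addA (h : Basic p) (a : St) : Basic (p.addA a) where
  cA := h.cA.insert a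
  cS := h.cS
  SA hi := Or.inr (h.SA hi)
  loc := h.loc_ext (Ext_addA p a).A (Ext_addA p a).S
  bd := h.bd
  off := h.off
  mono := by
    intro α i hi r r' hr hr' hle
    have := h.mono hi (Q_rs (Ext_addA p a) h hr) (Q_rs (Ext_addA p a) h hr')
      (Le_rs (Ext_addA p a) h hle)
    rw [h.nu_rs, h.nu_rs] at this
    exact this

theorem addA_lift (h : Basic p) {a : St} (ha : a ∉ p.A) {r e : Raw St Ω} (hr : (p.addA a).Q r)
    (he : p.Q e) (hle : p.Le e (p.rs r)) :
    (p.addA a).Q (up e a (r a)) ∧ (p.addA a).Le (up e a (r a)) r ∧ p.rs (up e a (r a)) = e := by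
  have hF : ∀ i ∈ (r a).2, False := fun i hi => ha (h.SA ((hr a).2.2.1 i hi).1)
  have hrs : p.rs (up e a (r a)) = e := by
    refine Eq.trans (Raw.ext' fun α => ?_) (rs_self he)
    unfold rs
    by_cases hA : α ∈ p.A
    · have hne : α ≠ a := fun h' => ha (h' ▸ hA)
      rw [rs_of_mem hA, rs_of_mem hA, up_ne _ _ hne]
    · rw [rs_of_not_mem hA, rs_of_not_mem hA]
  have hnu : ∀ α i, p.nu α i (up e a (r a)) = p.nu α i e := by
    intro α i
    rw [← h.nu_rs, hrs]
  refine ⟨?_, ?_, hrs⟩
  · intro α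
    by_cases hα : α = a
    · subst hα
      unfold Qat
      rw [up_self]
      obtain ⟨h1, h2, h3, h4⟩ := hr α
      exact ⟨h1, h2, fun i hi => (hF i hi).elim, h4⟩
    · unfold Qat
      rw [up_ne _ _ hα]
      obtain ⟨h1, h2, h3, h4⟩ := he α
      refine ⟨fun h' => Or.inr (h1 h'), h2, fun i hi => ?_, h4⟩
      change (α, i) ∈ p.S ∧ 1 ≤ (e α).1.length ∧
        (e α).1.length ≤ (p.nu α i (up e a (r a))).length
      rw [hnu]
      exact h3 i hi
  · intro α
    by_cases hα : α = a
    · subst hα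
      exact LeAt_self (up_self _ _ _)
    · unfold LeAt
      rw [up_ne _ _ hα]
      by_cases hA : α ∈ p.A
      · have e0 : p.rs r α = ((r α).1, (r α).2.filter fun i => (α, i) ∈ p.S) := rs_of_mem hA
        have e1 : p.rs r α = r α := by
          rw [e0]
          refine Prod.ext rfl ?_
          simp only
          rw [Finset.filter_true_of_mem]
          intro i hi
          exact ((hr α).2.2.1 i hi).1
        obtain ⟨h1, h2, h3⟩ := hle α
        rw [e1] at h1 h2 h3
        refine ⟨h1, h2, fun i hi => ?_⟩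
        change Bk 0 (dg (p.nu α i (up e a (r a)))) _ _ _
        rw [hnu]
        exact h3 i hi
      · have : r α = ([], ∅) := by
          by_contra h'
          rcases (hr α).1 h' with h'' | h''
          · exact hα h''
          · exact hA h''
        rw [this]
        refine ⟨List.nil_prefix, Finset.empty_subset _, fun i hi => ?_⟩
        exact absurd hi (Finset.notMem_empty i)

theorem Valid_addA (h : Valid p) {a : St} (ha : a ∉ p.A) : Valid (p.addA a) :=
  { Basic_addA h.toBasic a with
    cE := h.cE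
    sub := by
      intro D hD d hd
      exact Q_ext (Ext_addA p a) (h.sub hD hd)
    den := by
      intro D hD r hr
      obtain ⟨e, h1, h2, d, hd, h3⟩ := h.den hD (Q_rs (Ext_addA p a) h.toBasic hr)
      obtain ⟨g1, g2, g3⟩ := addA_lift h.toBasic ha hr h1 h2
      refine ⟨_, g1, g2, d, hd, ?_⟩
      rw [Le_rs_right (Ext_addA p a) h.toBasic (h.sub hD hd), g3]
      exact h3
    len := by
      intro α i hi r hr hne n
      change p.nu α i r ≠ [] at hne
      rw [← h.nu_rs] at hne
      obtain ⟨e, h1, h2, h3⟩ := h.len hi (Q_rs (Ext_addA p a) h.toBasic hr) hne n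
      obtain ⟨g1, g2, g3⟩ := addA_lift h.toBasic ha hr h1 h2
      refine ⟨_, g1, g2, ?_⟩
      change n ≤ (p.nu α i _).length
      rw [← h.nu_rs, g3]
      exact h3 }

end Pre

end Pool.Agent.W915.T
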