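import Pool.Agent.W915.TExt
import Pool.Agent.Helper669.Forcing

/-!
# The poset, unions of chains and the fusion lemma
-/

set_option linter.unusedSectionVars false
set_option linter.unusedVariables false

noncomputable section

namespace Pool.Agent.W915.T

open Classical

variable {St Ω : Type} [LinearOrder St] [WellFoundedLT St]

namespace Pre

/-- `p'` is stronger than `p` -/
def Sub (p' p : Pre St Ω) : Prop := Ext p' p ∧ p.E ⊆ p'.E

theorem Sub.rfl' (p : Pre St Ω) : Sub p p := ⟨Ext.rfl' p, subset_rfl⟩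

theorem Sub.trans {p'' p' p : Pre St Ω} (h : Sub p'' p') (h' : Sub p' p) : Sub p'' p :=
  ⟨h.1.trans h'.1, h'.2.trans h.2⟩

theorem Sub_addE (p : Pre St Ω) (𝒟 : Set (Set (Raw St Ω))) : Sub (p.addE 𝒟) p :=
  ⟨Ext_addE p 𝒟, Set.subset_union_left⟩

theorem Sub_addA (p : Pre St Ω) (a : St) : Sub (p.addA a) p :=
  ⟨Ext_addA p a, subset_rfl⟩

/-! ### Countability -/

/-- the graph of a finite condition -/
def gr (r : Raw St Ω) : Set (St × (List ℕ × Finset Ω)) := {x | r x.1 = x.2 ∧ x.2 ≠ ([], ∅)}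

theorem gr_injective : Function.Injective (gr : Raw St Ω → _) := by
  intro r s h
  apply Raw.ext'
  intro α
  by_cases hr : r α = ([], ∅)
  · by_cases hs : s α = ([], ∅)
    · rw [hr, hs]
    · have : ((α, s α) : St × (List ℕ × Finset Ω)) ∈ gr s := ⟨rfl, hs⟩
      rw [← h] at this
      exact this.1
  · have : ((α, r α) : St × (List ℕ × Finset Ω)) ∈ gr r := ⟨rfl, hr⟩
    rw [h] at this
    exact this.1.symm

theorem finite_gr (r : Raw St Ω) : (gr r).Finite := by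
  refine (r.fin.image fun α => (α, r α)).subset ?_
  rintro ⟨α, v⟩ ⟨h1, h2⟩
  simp only at h1 h2
  refine ⟨α, ?_, ?_⟩
  · simp only [Set.mem_ofPred_eq]
    rw [h1]
    exact h2
  · simp [h1]

theorem countable_seen {A : Set St} {S : Set (St × Ω)} (hA : A.Countable) (hS : S.Countable) :
    {r : Raw St Ω | T.rs A S r = r}.Countable := by
  let Ω' : Set Ω := Prod.snd '' S
  have hΩ : Ω'.Countable := hS.image _
  let FF : Set (Finset Ω) := {F | (F : Set Ω) ⊆ Ω'}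
  have hFF : FF.Countable := by
    have h1 : {t : Set Ω | t.Finite ∧ t ⊆ Ω'}.Countable :=
      Set.countable_ofPred_finite_subset hΩ
    refine Set.MapsTo.countable_of_injOn (f := fun F : Finset Ω => (F : Set Ω)) (t := _)
      ?_ (Finset.coe_injective.injOn) h1
    intro F hF
    exact ⟨F.finite_toSet, hF⟩
  let Y : Set (St × (List ℕ × Finset Ω)) := A ×ˢ (Set.univ ×ˢ FF)
  have hY : Y.Countable := hA.prod (Set.countable_univ.prod hFF)
  refine Set.MapsTo.countable_of_injOn (f := gr) (t := {t | t.Finite ∧ t ⊆ Y})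
    ?_ gr_injective.injOn (Set.countable_ofPred_finite_subset hY)
  intro r hr
  refine ⟨finite_gr r, ?_⟩
  rintro ⟨α, v⟩ ⟨h1, h2⟩
  simp only at h1 h2
  have hr0 : T.rs A S r = r := hr
  have hr' : T.rs A S r α = r α := by rw [hr0]
  by_cases hα : α ∈ A
  · refine ⟨hα, Set.mem_univ _, ?_⟩
    rw [rs_of_mem hα] at hr'
    intro i hi
    have h3 : (r α).2.filter (fun i => (α, i) ∈ S) = (r α).2 := congrArg Prod.snd hr'
    have h4 : i ∈ (r α).2 := by
      rw [h1]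
      exact hi
    rw [← h3, Finset.mem_filter] at h4
    exact ⟨(α, i), h4.2, rfl⟩
  · rw [rs_of_not_mem hα] at hr'
    exact absurd (h1.symm.trans hr'.symm) h2

theorem countable_Q {p : Pre St Ω} (h : Basic p) : {r | p.Q r}.Countable :=
  (countable_seen h.cA h.cS).mono fun _ hr => rs_self hr

/-! ### Unions of chains -/

/-- the union of a chain -/
def lim (P : ℕ → Pre St Ω) : Pre St Ω where
  A := ⋃ n, (P n).A
  S := ⋃ n, (P n).S
  nu α i := if h : ∃ n, (α, i) ∈ (P n).S then (P (Nat.find h)).nu α i else fun _ => []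
  E := ⋃ n, (P n).E

section

variable {P : ℕ → Pre St Ω} (hv : ∀ n, Valid (P n)) (hs : ∀ n, Sub (P (n + 1)) (P n))

include hs

theorem chain_sub {m n : ℕ} (h : m ≤ n) : Sub (P n) (P m) := by
  induction n, h using Nat.le_induction with
  | base => exact Sub.rfl' _
  | succ n _ ih => exact (hs n).trans ih

theorem Ext_lim (n : ℕ) : Ext (lim P) (P n) := by
  refine ⟨Set.subset_iUnion (fun n => (P n).A) n, Set.subset_iUnion (fun n => (P n).S) n, ?_⟩
  intro α i hi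
  have h : ∃ n, (α, i) ∈ (P n).S := ⟨n, hi⟩
  have e : (lim P).nu α i = (P (Nat.find h)).nu α i := dif_pos h
  rw [e]
  exact ((chain_sub hs (Nat.find_min' h hi)).1.nu (Nat.find_spec h)).symm

theorem Sub_lim (n : ℕ) : Sub (lim P) (P n) :=
  ⟨Ext_lim hs n, Set.subset_iUnion (fun n => (P n).E) n⟩

theorem Q_lim {r : Raw St Ω} (hr : (lim P).Q r) : ∃ n, (P n).Q r := by
  have h1 : ∀ α ∈ {α | r α ≠ ([], ∅)}, ∀ᶠ n in Filter.atTop, α ∈ (P n).A := by
    intro α hα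
    obtain ⟨n, hn⟩ := Set.mem_iUnion.1 ((hr α).1 hα)
    filter_upwards [Filter.eventually_ge_atTop n] with m hm
    exact (chain_sub hs hm).1.A hn
  have h2 : ∀ α ∈ {α | r α ≠ ([], ∅)}, ∀ᶠ n in Filter.atTop, ∀ i ∈ (r α).2,
      (α, i) ∈ (P n).S := by
    intro α hα
    rw [Filter.eventually_all_finset]
    intro i hi
    obtain ⟨n, hn⟩ := Set.mem_iUnion.1 ((hr α).2.2.1 i hi).1
    filter_upwards [Filter.eventually_ge_atTop n] with m hm
    exact (chain_sub hs hm).1.S hn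
  rw [← Filter.eventually_all_finite r.fin] at h1 h2
  obtain ⟨n, hn1, hn2⟩ := (h1.and h2).exists
  refine ⟨n, fun α => ?_⟩
  by_cases hα : r α = ([], ∅)
  · exact Qat_zero hα
  · obtain ⟨e1, e2, e3, e4⟩ := hr α
    refine ⟨fun _ => hn1 α hα, e2, fun i hi => ?_, e4⟩
    obtain ⟨e5, e6, e7⟩ := e3 i hi
    refine ⟨hn2 α hα i hi, e6, ?_⟩
    rw [(Ext_lim hs n).nu (hn2 α hα i hi)] at e7
    exact e7

include hv

theorem Basic_lim : Basic (lim P) where
  cA := Set.countable_iUnion fun n => (hv n).cA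
  cS := Set.countable_iUnion fun n => (hv n).cS
  SA := by
    intro α i hi
    obtain ⟨n, hn⟩ := Set.mem_iUnion.1 hi
    exact Set.mem_iUnion.2 ⟨n, (hv n).SA hn⟩
  loc := by
    intro α i r
    by_cases h : ∃ n, (α, i) ∈ (P n).S
    · have e : (lim P).nu α i = (P (Nat.find h)).nu α i := dif_pos h
      rw [e]
      exact (hv _).toBasic.loc_ext (Ext_lim hs _).A (Ext_lim hs _).S α i r
    · have e : (lim P).nu α i = fun _ => [] := dif_neg h
      rw [e]
  bd := by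
    intro α i r
    by_cases h : ∃ n, (α, i) ∈ (P n).S
    · have e : (lim P).nu α i = (P (Nat.find h)).nu α i := dif_pos h
      rw [e]
      exact (hv _).bd _ _ _
    · have e : (lim P).nu α i = fun _ => [] := dif_neg h
      rw [e]
      exact Bd_nil
  off := by
    intro α i hi r
    have h : ¬ ∃ n, (α, i) ∈ (P n).S := fun ⟨n, hn⟩ => hi (Set.mem_iUnion.2 ⟨n, hn⟩)
    have e : (lim P).nu α i = fun _ => [] := dif_neg h
    rw [e]
  mono := by
    intro α i hi r r' hr hr' hle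
    obtain ⟨n, hn⟩ := Set.mem_iUnion.1 hi
    have hb := (hv n).toBasic
    rw [(Ext_lim hs n).nu hn]
    have := hb.mono hn (Q_rs (Ext_lim hs n) hb hr) (Q_rs (Ext_lim hs n) hb hr')
      (Le_rs (Ext_lim hs n) hb hle)
    rw [hb.nu_rs, hb.nu_rs] at this
    exact this

theorem Valid_lim : Valid (lim P) :=
  { Basic_lim hv hs with
    cE := Set.countable_iUnion fun n => (hv n).cE
    sub := by
      intro D hD d hd
      obtain ⟨n, hn⟩ := Set.mem_iUnion.1 hD
      exact Q_ext (Ext_lim hs n) ((hv n).sub hn hd)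
    den := by
      intro D hD r hr
      obtain ⟨n, hn⟩ := Set.mem_iUnion.1 hD
      obtain ⟨m, hm⟩ := Q_lim hs hr
      have h1 := chain_sub hs (le_max_left n m)
      have h2 := chain_sub hs (le_max_right n m)
      obtain ⟨r', e1, e2, d, hd, e3⟩ := (hv (max n m)).den (h1.2 hn) (Q_ext h2.1 hm)
      exact ⟨r', Q_ext (Ext_lim hs _) e1, (Le_ext (Ext_lim hs _) (Q_ext h2.1 hm)).2 e2, d, hd,
        (Le_ext (Ext_lim hs _) ((hv _).sub (h1.2 hn) hd)).2 e3⟩
    len := by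
      intro α i hi r hr hne k
      obtain ⟨n, hn⟩ := Set.mem_iUnion.1 hi
      obtain ⟨m, hm⟩ := Q_lim hs hr
      have h1 := chain_sub hs (le_max_left n m)
      have h2 := chain_sub hs (le_max_right n m)
      have e := (Ext_lim hs (max n m)).nu (h1.1.S hn)
      rw [e] at hne ⊢
      obtain ⟨r', e1, e2, e3⟩ := (hv (max n m)).len (h1.1.S hn) (Q_ext h2.1 hm) hne k
      exact ⟨r', Q_ext (Ext_lim hs _) e1, (Le_ext (Ext_lim hs _) (Q_ext h2.1 hm)).2 e2, e3⟩ }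

end

theorem exists_chain {V : Type} (R : ℕ → V → V → Prop) (h : ∀ n v, ∃ v', R n v v') (v₀ : V) :
    ∃ f : ℕ → V, f 0 = v₀ ∧ ∀ n, R n (f n) (f (n + 1)) := by
  choose g hg using h
  exact ⟨fun n => Nat.rec v₀ (fun n v => g n v) n, rfl, fun n => hg n _⟩

end Pre

open Pre

/-- The conditions of the poset: a countable piece of the name together with a finite condition. -/
structure Cd (St Ω : Type) [LinearOrder St] where
  p : Pre St Ω
  q : Raw St Ω
  vp : Valid p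
  vq : p.Q q

instance : Preorder (Cd St Ω) where
  le c' c := Sub c'.p c.p ∧ c'.p.Le c'.q c.q
  le_refl c := ⟨Sub.rfl' _, Le_refl _ _⟩
  le_trans c'' c' c h h' := by
    refine ⟨h.1.trans h'.1, ?_⟩
    have h1 := (Le_ext h.1.1 (Q_ext h'.1.1 c.vq)).2 h'.2
    exact Le_trans c''.vp.toBasic (Q_ext (h.1.trans h'.1).1 c.vq) (Q_ext h.1.1 c'.vq) c''.vq h1 h.2

theorem le_def {c' c : Cd St Ω} : c' ≤ c ↔ Sub c'.p c.p ∧ c'.p.Le c'.q c.q := Iff.rfl

open Pool.Agent.Helper669.Forcing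

/-- One step of the fusion. -/
theorem fusion_step (c : Cd St Ω) (O : ℕ → Set (Cd St Ω)) (hO : ∀ k, Down (O k))
    (hd : ∀ k, ∀ c' ≤ c, ∃ c'' ≤ c', c'' ∈ O k) {p : Pre St Ω} (hp : Valid p)
    (hpc : Sub p c.p) :
    ∃ p', Valid p' ∧ Sub p' p ∧ ∀ k r, p.Q r → p.Le r c.q → ∃ (r' : Raw St Ω) (hv : Valid p')
      (hr' : p'.Q r'), p'.Le r' r ∧ (⟨p', r', hv, hr'⟩ : Cd St Ω) ∈ O k := by
  obtain ⟨e, he⟩ := (countable_Q hp.toBasic).exists_eq_range ⟨_, Q_zero p⟩
  let V : Type := {p' : Pre St Ω // Valid p' ∧ Sub p' p}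
  let R : ℕ → V → V → Prop := fun n v v' => Sub v'.1 v.1 ∧
    (p.Le (e n.unpair.2) c.q → ∃ (r' : Raw St Ω) (hr' : v'.1.Q r'),
      v'.1.Le r' (e n.unpair.2) ∧ (⟨v'.1, r', v'.2.1, hr'⟩ : Cd St Ω) ∈ O n.unpair.1)
  have hR : ∀ n v, ∃ v', R n v v' := by
    intro n v
    by_cases h : p.Le (e n.unpair.2) c.q
    · have hQ : p.Q (e n.unpair.2) := by
        have : e n.unpair.2 ∈ {r | p.Q r} := by
          rw [he]
          exact ⟨_, rfl⟩
        exact this
      have hQ' := Q_ext v.2.2.1 hQ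
      obtain ⟨c'', h1, h2⟩ := hd n.unpair.1 ⟨v.1, e n.unpair.2, v.2.1, hQ'⟩
        ⟨v.2.2.trans hpc, by
          change v.1.Le _ _
          rw [Le_ext (v.2.2.trans hpc).1 c.vq]
          rw [Le_ext hpc.1 c.vq] at h
          exact h⟩
      exact ⟨⟨c''.p, c''.vp, h1.1.trans v.2.2⟩, h1.1, fun _ => ⟨c''.q, c''.vq, h1.2, h2⟩⟩
    · exact ⟨v, Sub.rfl' _, fun h' => absurd h' h⟩
  obtain ⟨f, hf0, hf⟩ := exists_chain R hR ⟨p, hp, Sub.rfl' p⟩
  let P : ℕ → Pre St Ω := fun n => (f n).1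
  have hv : ∀ n, Valid (P n) := fun n => (f n).2.1
  have hs : ∀ n, Sub (P (n + 1)) (P n) := fun n => (hf n).1
  have hP0 : P 0 = p := congrArg Subtype.val hf0
  refine ⟨lim P, Valid_lim hv hs, ?_, ?_⟩
  · have := Sub_lim hs 0
    rwa [hP0] at this
  · intro k r hr hle
    have : r ∈ {r | p.Q r} := hr
    rw [he] at this
    obtain ⟨j, rfl⟩ := this
    have h1 := (hf (Nat.pair k j)).2
    simp only [Nat.unpair_pair] at h1
    obtain ⟨r', h2, h3, h4⟩ := h1 hle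
    have hs' := Sub_lim hs (Nat.pair k j + 1)
    have hQj : (P (Nat.pair k j + 1)).Q (e j) := Q_ext (f (Nat.pair k j + 1)).2.2.1 hr
    refine ⟨r', Valid_lim hv hs, Q_ext hs'.1 h2, (Le_ext hs'.1 hQj).2 h3, ?_⟩
    exact hO k _ h4 _ ⟨hs', Le_refl _ _⟩

/-- The fusion lemma. -/
theorem fusion (c : Cd St Ω) (O : ℕ → Set (Cd St Ω)) (hO : ∀ k, Down (O k))
    (hd : ∀ k, ∀ c' ≤ c, ∃ c'' ≤ c', c'' ∈ O k) :
    ∃ (p : Pre St Ω) (hv : Valid p), Sub p c.p ∧ ∀ k r, p.Q r → p.Le r c.q →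
      ∃ (r' : Raw St Ω) (hr' : p.Q r'), p.Le r' r ∧ (⟨p, r', hv, hr'⟩ : Cd St Ω) ∈ O k := by
  let V : Type := {p' : Pre St Ω // Valid p' ∧ Sub p' c.p}
  let R : ℕ → V → V → Prop := fun _ v v' => Sub v'.1 v.1 ∧
    ∀ k r, v.1.Q r → v.1.Le r c.q → ∃ (r' : Raw St Ω) (hv : Valid v'.1)
      (hr' : v'.1.Q r'), v'.1.Le r' r ∧ (⟨v'.1, r', hv, hr'⟩ : Cd St Ω) ∈ O k
  have hR : ∀ n v, ∃ v', R n v v' := by
    intro n v
    obtain ⟨p', h1, h2, h3⟩ := fusion_step c O hO hd v.2.1 v.2.2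
    exact ⟨⟨p', h1, h2.trans v.2.2⟩, h2, h3⟩
  obtain ⟨f, hf0, hf⟩ := exists_chain R hR ⟨c.p, c.vp, Sub.rfl' _⟩
  let P : ℕ → Pre St Ω := fun n => (f n).1
  have hv : ∀ n, Valid (P n) := fun n => (f n).2.1
  have hs : ∀ n, Sub (P (n + 1)) (P n) := fun n => (hf n).1
  have hP0 : P 0 = c.p := congrArg Subtype.val hf0
  refine ⟨lim P, Valid_lim hv hs, ?_, ?_⟩
  · have := Sub_lim hs 0
    rwa [hP0] at this
  · intro k r hr hle
    obtain ⟨n, hn⟩ := Q_lim hs hr
    have hle' : (P n).Le r c.q := by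
      have h1 := (f n).2.2
      have h2 : Q (P n) c.q := Q_ext h1.1 c.vq
      rwa [Le_ext (Ext_lim hs n) h2] at hle
    obtain ⟨r', h1, h2, h3, h4⟩ := (hf n).2 k r hn hle'
    have hs' := Sub_lim hs (n + 1)
    refine ⟨r', Q_ext hs'.1 h2, (Le_ext hs'.1 (Q_ext (hs n).1 hn)).2 h3, ?_⟩
    exact hO k _ h4 _ ⟨hs', Le_refl _ _⟩

end Pool.Agent.W915.T
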