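import Pool.Agent.W915.TRef

/-!
# The sentence is forced
-/

set_option linter.unusedSectionVars false
set_option linter.unusedVariables false

noncomputable section

namespace Pool.Agent.W915.T

open Classical Pre Pool.Agent.Helper669.Forcing Cardinal

section

variable {St Ω : Type} [LinearOrder St] [WellFoundedLT St]

namespace Pre

/-- the predense set which guarantees that the sum meets the dense open set -/
def Wst (M w : Pre St Ω) (a : St) (l : ℕ) (N : Raw St Ω → List ℕ)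
    (Dec : Raw St Ω → List ℕ → Prop) (q₃ : Raw St Ω) : Set (Raw St Ω) :=
  {r | M.Q r ∧ ((M.Le r q₃ ∧ ∃ z, KS l z ∧ Dec (w.rs r) z ∧ ZW (N r) (r a).1 z) ∨
    ∀ r', M.Q r' → M.Le r' r → ¬ M.Le r' q₃)}

variable {w p₂ : Pre St Ω} {a : St} {i₀ : Ω} {N : Raw St Ω → List ℕ} {q₂ : Raw St Ω}

theorem Amd.Wst_dense (H : Amd w p₂ a i₀ N q₂) {q₁ q₃ : Raw St Ω} (hq₁ : w.Q q₁)
    (hq₃ : (AM w p₂ a i₀ N).Q q₃) (hle : (AM w p₂ a i₀ N).Le q₃ q₁) (h0 : i₀ ∈ (q₃ a).2)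
    (hbk : Bk (q₃ a).1.length (dg (N q₃)) (dg (q₃ a).1) 0 (q₃ a).1.length)
    {Dec : Raw St Ω → List ℕ → Prop}
    (hmono : ∀ e e' z, w.Q e → w.Q e' → w.Le e' e → Dec e z → Dec e' z)
    (hden : ∀ e, w.Q e → w.Le e q₁ → ∀ z, KS (q₃ a).1.length z → ∃ e' z', w.Q e' ∧
      w.Le e' e ∧ z <+: z' ∧ KS (q₃ a).1.length z' ∧ Dec e' z')
    (N7 : ∀ r₁ x₀, w.Q r₁ → Bd x₀ → Hden w a (PhiD a (q₃ a).1.length Dec) r₁ x₀ →
      ∀ r, p₂.Q r → p₂.Le r q₂ →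
      ∃ r' d v, p₂.Q r' ∧ p₂.Le r' r ∧ (d, v) ∈ UU w a (PhiD a (q₃ a).1.length Dec) r₁ x₀ ∧
        p₂.Le r' d ∧ v <+: N r')
    {r : Raw St Ω} (hr : (AM w p₂ a i₀ N).Q r) :
    ∃ r', (AM w p₂ a i₀ N).Q r' ∧ (AM w p₂ a i₀ N).Le r' r ∧
      r' ∈ Wst (AM w p₂ a i₀ N) w a (q₃ a).1.length N Dec q₃ := by
  have hB := H.vw.toBasic
  have hb := H.basic
  by_cases hc : ∀ r', (AM w p₂ a i₀ N).Q r' → (AM w p₂ a i₀ N).Le r' r →
      ¬ (AM w p₂ a i₀ N).Le r' q₃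
  · exact ⟨r, hr, Le_refl _ _, hr, Or.inr hc⟩
  push Not at hc
  obtain ⟨r₁, c1, c2, c3⟩ := hc
  obtain ⟨k1, k2, k3, k4⟩ := H.bk hb (Ext.rfl' _) hq₃ h0 hbk c1 c3
  have hi : i₀ ∈ (r₁ a).2 := (c3 a).2.1 h0
  have hr1 : (w.rs r₁ a).1 = (r₁ a).1 := (H.rs_w_a c1).1
  have hleq : w.Le (w.rs r₁) q₁ := by
    rw [← Le_rs_right H.ext_w hB hq₁]
    exact Le_trans hb (Q_ext H.ext_w hq₁) hq₃ c1 hle c3
  obtain ⟨r', e, v, e1, e2, e3, e4, e5, e6, e7, z, f1, f2, f3⟩ := H.meet N7 c1 hi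
    (Hden_D H.vw H.ha hq₁ hmono hden (Q_rs H.ext_w hB c1) hleq
      (by rw [hr1]; exact k2) (by rw [hr1]; exact k3) (H.room c1 hi) (by rw [hr1]; exact k1))
  refine ⟨r', e1, Le_trans hb hr c1 e1 c2 e2, e1, Or.inl ⟨Le_trans hb hq₃ c1 e1 c3 e2, z, f1,
    hmono _ _ _ e3 (Q_rs H.ext_w hB e1) e4 f2, ?_⟩⟩
  rw [e5]
  refine ZW_congr f3 fun m hm => dg_pre e7 (by omega)

end Pre

/-- the name of the new real -/
def tn (a : St) (w : List ℕ) : Set (Cd St Ω) := {c | w <+: (c.q a).1}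

theorem tn_br (a : St) (c₁ : Cd St Ω) : c₁ ∈ BrN (tn a) := by
  have hdown : ∀ w, Down (tn (Ω := Ω) a w) := by
    intro w c hc c' hc'
    exact hc.trans (hc'.2 a).1
  refine ⟨fun n => ?_, fun w w' => ?_⟩
  · rw [mem_fex]
    intro q hq
    obtain ⟨q₁, h1, h2⟩ := exists_addA q a
    obtain ⟨r, h3, h4, -, -, h5⟩ := lengthen q₁.vp q₁.vq h2 n
    exact ⟨⟨q₁.p, r, q₁.vp, h3⟩, (Cd.mk_le h3 h4).trans h1, (r a).1, h5,
      meets_of_mem (List.prefix_refl _)⟩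
  · rw [mem_fimp]
    rintro q hq ⟨h1, h2⟩
    obtain ⟨q₁, h3, h4⟩ := exists_of_meets (hdown w) h1
    obtain ⟨q₂, h5, h6⟩ := exists_of_meets (hdown w') (down_meets _ _ h2 _ h3)
    refine ⟨q₂, h5.trans h3, ?_⟩
    have h7 := hdown w _ h4 _ h5
    exact ⟨((q₂.vq a).2.1).pre h7, pre_total h7 h6⟩

/-- the name of the sum -/
def zn (c₅ : Cd St Ω) (a : St) (N : Raw St Ω → List ℕ) (w : List ℕ) : Set (Cd St Ω) :=
  {c | c ≤ c₅ ∧ ZW (N c.q) (c.q a).1 w}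

end

/-- the conclusion about the sets `D` -/
def Concl (X : (List ℕ → Set (Cd StT OmT)) → Set (Cd StT OmT)) (t : List ℕ → Set (Cd StT OmT))
    (D : ℕ → ℕ → List ℕ → Set (Cd StT OmT)) : Set (Cd StT OmT) :=
  fex fun x : List ℕ → Set (Cd StT OmT) => fand (meets (X x)) (fand (BrN x)
    (fex fun z : List ℕ → Set (Cd StT OmT) => fand (BrN z) (fand (SmN x t z)
      (fex fun l : ℕ => fand
        (fall fun n : ℕ => fex fun w : List ℕ =>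
          fand (fground (KS l w ∧ n ≤ w.length)) (PrefN z w))
        (fall fun n : ℕ => fex fun w : List ℕ =>
          fand (meets (D l n w)) (PrefN z w))))))

theorem main_step {X : (List ℕ → Set (Cd StT OmT)) → Set (Cd StT OmT)} {c₁ : Cd StT OmT}
    {a : StT} (ha : ∀ α ∈ c₁.p.A, α < a)
    (hR : ∀ c' ≤ c₁, (∀ α ∈ c'.p.A, α < a) →
      ∀ U : ℕ → Set (Raw StT OmT × List ℕ), (∀ n, ∀ x ∈ U n, c'.p.Q x.1) →
      (∀ n r, c'.p.Q r → ∀ y, Bd y → ∃ r', c'.p.Q r' ∧ c'.p.Le r' r ∧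
        ∃ v, y <+: v ∧ Bd v ∧ (r', v) ∈ U n) →
      ∃ c₂ x N, Answer X c' U c₂ x N ∧ ∀ α ∈ c₂.p.A, α < a)
    {D : ℕ → ℕ → List ℕ → Set (Cd StT OmT)} {c₂ : Cd StT OmT} (hc₂ : c₂ ≤ c₁)
    (hD : c₂ ∈ KDN D) : ∃ c' ≤ c₂, c' ∈ Concl X (tn a) D := by
  -- the stage `a` is present
  obtain ⟨c₃, hc₃, haA⟩ := exists_addA c₂ a
  -- decide the dense sets
  obtain ⟨en, hen⟩ := exists_surjective_nat (ℕ × ℕ × List ℕ)
  let O : ℕ → Set (Cd StT OmT) := fun k => {c | KS (en k).1 (en k).2.2 →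
    ∃ w, (en k).2.2 <+: w ∧ KS (en k).1 w ∧ c ∈ meets (D (en k).1 (en k).2.1 w)}
  have hO : ∀ k, Down (O k) := by
    intro k c hc c' hc' hK
    obtain ⟨w, h1, h2, h3⟩ := hc hK
    exact ⟨w, h1, h2, down_meets _ _ h3 _ hc'⟩
  obtain ⟨w₀, hvw₀, hsw₀, hfus⟩ := fusion c₃ O hO (by
    intro k c hc
    by_cases hK : KS (en k).1 (en k).2.2
    · obtain ⟨c', h1, w, h2, h3⟩ := mem_fex.1 (hD (en k).1 (en k).2.1 (en k).2.2 hK) c
        (hc.trans hc₃)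
      exact ⟨c', h1, fun _ => ⟨w, h2.1, h2.2, h3⟩⟩
    · exact ⟨c, le_rfl, fun h => absurd h hK⟩)
  -- the lengths of the names
  obtain ⟨𝒟, hvw, hfull⟩ := exists_full hvw₀
  obtain ⟨w, hw⟩ : ∃ w, w = w₀.addE 𝒟 := ⟨_, rfl⟩
  have hww₀ : Sub w w₀ := by
    rw [hw]
    exact Sub_addE _ _
  have hQw : ∀ r, w.Q r ↔ w₀.Q r := by
    intro r
    rw [hw]
    exact Iff.rfl
  have hLw : ∀ r r', w.Le r' r ↔ w₀.Le r' r := by
    intro r r'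
    rw [hw]
    exact Iff.rfl
  rw [← hw] at hvw hfull
  have hB := hvw.toBasic
  have hsub3 : Sub w c₃.p := hww₀.trans hsw₀
  have haw : a ∈ w.A := hsub3.1.A haA
  have hq₁ : w.Q c₃.q := Q_ext hsub3.1 c₃.vq
  -- decisions
  let Dec : ℕ → ℕ → Raw StT OmT → List ℕ → Prop := fun l n e z =>
    ∃ he : w.Q e, (⟨w, e, hvw, he⟩ : Cd StT OmT) ∈ meets (D l n z)
  have hmono : ∀ l n e e' z, w.Q e → w.Q e' → w.Le e' e → Dec l n e z → Dec l n e' z := by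
    rintro l n e e' z he he' hle ⟨_, h⟩
    exact ⟨he', down_meets _ _ h _ ⟨Sub.rfl' _, hle⟩⟩
  have hden : ∀ l n e, w.Q e → w.Le e c₃.q → ∀ z, KS l z → ∃ e' z', w.Q e' ∧
      w.Le e' e ∧ z <+: z' ∧ KS l z' ∧ Dec l n e' z' := by
    intro l n e he hle z hz
    obtain ⟨k, hk⟩ := hen (l, n, z)
    obtain ⟨e', h1, h2, h3⟩ := hfus k e ((hQw e).1 he) ((hLw _ _).1 hle)
    have hk1 : (en k).1 = l := by rw [hk]
    have hk2 : (en k).2.1 = n := by rw [hk]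
    have hk3 : (en k).2.2 = z := by rw [hk]
    obtain ⟨z', h4, h5, h6⟩ := h3 (by rw [hk1, hk3]; exact hz)
    rw [hk1] at h5 h6
    rw [hk2] at h6
    rw [hk3] at h4
    exact ⟨e', z', (hQw e').2 h1, (hLw _ _).2 h2, h4, h5, (hQw e').2 h1,
      down_meets _ _ h6 _ ⟨hww₀, Le_refl _ _⟩⟩
  -- the task
  have hvR : Valid (w.RE a) := Valid_RE hvw a
  have hqR : (w.RE a).Q (lo a c₃.q) := Q_RE_lo hB hq₁
  let c' : Cd StT OmT := ⟨w.RE a, lo a c₃.q, hvR, hqR⟩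
  have hsub1 : Sub w c₁.p := hsub3.trans (hc₃.trans hc₂).1
  have hover : ∀ d, c₁.p.Q d → lo a d = d := by
    intro d hd
    apply Raw.ext'
    intro α
    rcases lt_or_ge α a with h | h
    · rw [lo_lt h]
    · rw [lo_ge h]
      by_contra h'
      exact absurd (ha α ((hd α).1 (Ne.symm h'))) (not_lt.2 h)
  have hRc₁ : Sub (w.RE a) c₁.p := by
    refine ⟨⟨fun α hα => ⟨hsub1.1.A hα, ha α hα⟩,
      fun x hx => ⟨hsub1.1.S hx, ha _ (c₁.vp.SA hx)⟩, fun {α i} hi => ?_⟩, fun E hE => ?_⟩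
    · rw [RE_nu w (ha _ (c₁.vp.SA hi))]
      exact hsub1.1.nu hi
    · exact Or.inl ⟨hsub1.2 hE, fun d hd => hover d (c₁.vp.sub hE hd)⟩
  have hc'₁ : c' ≤ c₁ := by
    refine ⟨hRc₁, ?_⟩
    change (w.RE a).Le (lo a c₃.q) c₁.q
    rw [Le_RE (Q_ext hRc₁.1 c₁.vq), ← hover _ c₁.vq]
    apply Le_lo hB
    rw [Le_ext hsub3.1 (Q_ext (hc₃.trans hc₂).1.1 c₁.vq)]
    exact (hc₃.trans hc₂).2
  -- the family of dense sets
  let Phis : Set (Raw StT OmT → List ℕ → Prop) :=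
    (fun E => PhiE w E) '' w.E ∪ Set.range fun x : ℕ × ℕ => PhiD a x.1 (Dec x.1 x.2)
  have hPc : Phis.Countable := (hvw.cE.image _).union (Set.countable_range _)
  let Idx : Set ((Raw StT OmT → List ℕ → Prop) × Raw StT OmT × List ℕ) :=
    {x | x.1 ∈ Phis ∧ w.Q x.2.1 ∧ Bd x.2.2 ∧ Hden w a x.1 x.2.1 x.2.2}
  have hIc : Idx.Countable := by
    refine (hPc.prod ((countable_Q hB).prod
      (Set.countable_univ (α := List ℕ)))).mono ?_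
    rintro ⟨Φ, r, x⟩ ⟨h1, h2, -, -⟩
    exact ⟨h1, h2, Set.mem_univ _⟩
  let Triv : Set (Raw StT OmT × List ℕ) := {x | (w.RE a).Q x.1 ∧ Bd x.2}
  let 𝒰 : Set (Set (Raw StT OmT × List ℕ)) :=
    insert Triv ((fun x => UU w a x.1 x.2.1 x.2.2) '' Idx)
  have h𝒰 : 𝒰.Countable := (hIc.image _).insert _
  obtain ⟨U, hU⟩ := h𝒰.exists_eq_range ⟨_, Set.mem_insert _ _⟩
  have hUmem : ∀ n, U n = Triv ∨ ∃ x ∈ Idx, UU w a x.1 x.2.1 x.2.2 = U n := by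
    intro n
    have : U n ∈ 𝒰 := by
      rw [hU]
      exact ⟨n, rfl⟩
    exact this
  obtain ⟨c₄, x, N, hA, hover4⟩ := hR c' hc'₁ (fun α hα => hα.2) U (by
      intro n y hy
      rcases hUmem n with h | ⟨x, -, h⟩
      · rw [h] at hy
        exact hy.1
      · rw [← h] at hy
        exact (Q_RE hB).2 ⟨hy.1, hy.2.1⟩) (by
      intro n r hr y hy
      rcases hUmem n with h | ⟨x, ⟨-, hx2, hx3, hx4⟩, h⟩
      · exact ⟨r, hr, Le_refl _ _, y, List.prefix_refl _, hy, by rw [h]; exact ⟨hr, hy⟩⟩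
      · obtain ⟨hr1, hr2⟩ := (Q_RE hB).1 hr
        obtain ⟨s', h1, h2, h3, v, h4, h5, h6⟩ := UU_dense hvw hx2 hx3 hx4 hr1 hr2 hy
        exact ⟨s', (Q_RE hB).2 ⟨h1, h2⟩, (Le_RE hr).2 h3, v, h4, h5, by rw [← h]; exact h6⟩)
  -- the new index
  obtain ⟨i₀, hi₀⟩ : ∃ i₀, (a, i₀) ∉ w.S := by
    by_contra hcon
    push Not at hcon
    have h1 : (Set.univ : Set OmT).Countable := by
      refine (hvw.cS.image Prod.snd).mono ?_
      intro i _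
      exact ⟨(a, i), hcon i, rfl⟩
    have h2 : Countable OmT := Set.countable_univ_iff.1 h1
    have h3 : #OmT ≤ ℵ₀ := mk_le_aleph0
    rw [OmT, ← power_def, mk_bool, mk_nat, two_power_aleph0] at h3
    exact absurd h3 (not_le.2 aleph0_lt_continuum)
  have H : Amd w c₄.p a i₀ N c₄.q := {
    vw := hvw
    full := hfull
    ha := haw
    hi := hi₀
    v2 := c₄.vp
    ext := hA.le.1.1
    subE := hA.le.1.2
    ovr := hover4
    vq := c₄.vq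
    N1 := hA.N1
    N2 := hA.N2
    N3 := hA.N3
    N4 := hA.N4
    N6 := hA.N6 }
  have N7 : ∀ Φ ∈ Phis, ∀ r₁ x₀, w.Q r₁ → Bd x₀ → Hden w a Φ r₁ x₀ →
      ∀ r, c₄.p.Q r → c₄.p.Le r c₄.q →
      ∃ r' d v, c₄.p.Q r' ∧ c₄.p.Le r' r ∧ (d, v) ∈ UU w a Φ r₁ x₀ ∧ c₄.p.Le r' d ∧
        v <+: N r' := by
    intro Φ hΦ r₁ x₀ h1 h2 h3 r hr hle
    have : UU w a Φ r₁ x₀ ∈ 𝒰 := Or.inr ⟨(Φ, r₁, x₀), ⟨hΦ, h1, h2, h3⟩, rfl⟩
    rw [hU] at this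
    obtain ⟨n, hn⟩ := this
    obtain ⟨r', d, v, e1, e2, e3, e4, e5⟩ := hA.N7 n r hr hle
    exact ⟨r', d, v, e1, e2, by rw [← hn]; exact e3, e4, e5⟩
  have hvM : Valid (AM w c₄.p a i₀ N) := H.valid fun E hE => N7 _ (Or.inl ⟨E, hE, rfl⟩)
  have hle4 : c₄.p.Le c₄.q (lo a c₃.q) := hA.le.2
  obtain ⟨q₃, g1, g2, g3, g4, g5⟩ := H.exists_q3 hvM hq₁ hle4
  obtain ⟨l, hl⟩ : ∃ l, l = (q₃ a).1.length := ⟨_, rfl⟩
  -- the last condition
  let M : Pre StT OmT := AM w c₄.p a i₀ N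
  let Wn : ℕ → Set (Raw StT OmT) := fun n => Wst M w a (q₃ a).1.length N
    (Dec (q₃ a).1.length n) q₃
  have hvM' : Valid (M.addE (Set.range Wn)) := by
    apply Valid_addE hvM (Set.countable_range _)
    · rintro _ ⟨n, rfl⟩ d hd
      exact hd.1
    · rintro _ ⟨n, rfl⟩ r hr
      obtain ⟨r', h1, h2, h3⟩ := H.Wst_dense hq₁ g1 g2 g4 g5 (hmono _ n) (hden _ n)
        (N7 _ (Or.inr ⟨((q₃ a).1.length, n), rfl⟩)) hr
      exact ⟨r', h1, h2, r', h3, Le_refl _ _⟩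
  let c₅ : Cd StT OmT := ⟨M.addE (Set.range Wn), q₃, hvM', g1⟩
  have hsM : Sub (M.addE (Set.range Wn)) M := Sub_addE _ _
  have hsMw : Sub M w := ⟨H.ext_w, Set.subset_union_left⟩
  have hsM2 : Sub M c₄.p := ⟨H.ext_2, Set.subset_union_right⟩
  have hc₅₃ : c₅ ≤ c₃ := by
    refine ⟨hsM.trans (hsMw.trans hsub3), ?_⟩
    exact g2
  have hc₅₄ : c₅ ≤ c₄ := ⟨hsM.trans hsM2, g3⟩
  -- facts about the conditions below `c₅`
  have hext : ∀ c ≤ c₅, Ext c.p M := fun c hc => (hc.1.trans hsM).1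
  have hbk : ∀ c ≤ c₅, Bk (q₃ a).1.length (dg (N c.q)) (dg (c.q a).1) 0 (c.q a).1.length ∧
      (c.q a).1.length ≤ (N c.q).length ∧ (q₃ a).1.length ≤ (c.q a).1.length ∧
      1 ≤ (q₃ a).1.length :=
    fun c hc => H.bk c.vp.toBasic (hext c hc) g1 g4 g5 c.vq hc.2
  have hst : ∀ c c' z, c ≤ c' → c' ≤ c₅ → ZW (N c'.q) (c'.q a).1 z →
      ZW (N c.q) (c.q a).1 z := by
    intro c c' z hcc' hc' hz
    have h1 := hbk c' hc'
    have h2 := hbk c (hcc'.trans hc')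
    have hS : (a, i₀) ∈ c.p.S := (hext c (hcc'.trans hc')).S (Or.inr (Or.inr rfl))
    have h3 := c.vp.mono hS (Q_ext hcc'.1.1 c'.vq) c.vq hcc'.2
    rw [Amd.nu_eq (hext c (hcc'.trans hc'))] at h3
    exact ZW_stable hz h1.1 h2.1 (fun m hm => dg_pre h3 (by omega)) (hcc'.2 a).1
  have hNP : ∀ c ≤ c₅, c ∈ PrefN x (N c.q) := by
    intro c hc
    have hc4 := hc.trans hc₅₄
    have h1 := Q_rs hc4.1.1 c₄.vp.toBasic c.vq
    have h2 : c₄.p.Le (c₄.p.rs c.q) c₄.q :=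
      (Le_rs_right hc4.1.1 c₄.vp.toBasic c₄.vq).1 hc4.2
    have h3 := hA.N5 _ h1 h2
    rw [← hA.N1] at h3
    exact down_PrefN _ _ _ h3 _ ⟨hc4.1, rs_le _ _ _⟩
  have hznd : ∀ z, Down (zn c₅ a N z) := by
    rintro z c ⟨h1, h2⟩ c' hc'
    exact ⟨hc'.trans h1, hst _ _ _ hc' h1 h2⟩
  -- long decided parts
  have hlong : ∀ c ≤ c₅, ∀ n : ℕ, ∃ c' ≤ c, ∃ X' T Z, n ≤ Z.length ∧
      KS (q₃ a).1.length Z ∧ GS X' T Z ∧ c' ∈ PrefN x X' ∧ c' ∈ PrefN (tn a) T ∧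
      c' ∈ meets (zn c₅ a N Z) := by
    intro c hc n
    obtain ⟨r, h1, h2, -, -, h3⟩ := lengthen c.vp c.vq ((hext c hc).A (Or.inl haw)) (n + 1)
    have hc1 : (⟨c.p, r, c.vp, h1⟩ : Cd StT OmT) ≤ c := Cd.mk_le h1 h2
    obtain ⟨k1, k2, k3, k4⟩ := hbk _ (hc1.trans hc)
    obtain ⟨X', T, Z, e1, e2, e3, e4, e5, e6⟩ := ZW_exists k1 (by omega) k2
    simp only at e1 e2 e5 e6
    refine ⟨_, hc1, X', T, Z, by omega, e3, e4, PrefN_mono e5 (hNP _ (hc1.trans hc)), ?_, ?_⟩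
    · exact PrefN_of_meets (meets_of_mem e6)
    · exact meets_of_mem ⟨hc1.trans hc, e2⟩
  refine ⟨c₅, hc₅₃.trans hc₃, ?_⟩
  refine mem_fex_of_mem x (down_fand (down_meets _) (down_fand (down_BrN _) (down_fex _)))
    ⟨down_meets _ _ hA.mem _ hc₅₄, down_BrN _ _ hA.br _ hc₅₄, ?_⟩
  refine mem_fex_of_mem (zn c₅ a N) (down_fand (down_BrN _)
    (down_fand (down_fall fun _ => down_fex _) (down_fex _))) ⟨⟨?_, ?_⟩, ?_, ?_⟩
  · intro n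
    rw [mem_fex]
    intro c hc
    obtain ⟨c', h1, X', T, Z, h2, -, -, -, -, h3⟩ := hlong c hc n
    exact ⟨c', h1, Z, h2, h3⟩
  · intro z z'
    rw [mem_fimp]
    rintro c hc ⟨h1, h2⟩
    obtain ⟨c', h3, h4⟩ := exists_of_meets (hznd z) h1
    obtain ⟨c'', h5, h6⟩ := exists_of_meets (hznd z') (down_meets _ _ h2 _ h3)
    exact ⟨c'', h5.trans h3, ZW_comp (hznd z _ h4 _ h5).2 h6.2⟩
  · intro n
    rw [mem_fex]
    intro c hc
    obtain ⟨c', h1, X', T, Z, h2, h3, h4, h5, h6, h7⟩ := hlong c hc n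
    refine ⟨c', h1, X', mem_fex_of_mem T (down_fex _) (mem_fex_of_mem Z ?_ ?_)⟩
    · exact down_fand (down_fground _) (down_fand (down_PrefN _ _)
        (down_fand (down_PrefN _ _) (down_PrefN _ _)))
    · exact ⟨⟨h2, h4⟩, h5, h6, PrefN_of_meets h7⟩
  · refine mem_fex_of_mem (q₃ a).1.length (down_fand (down_fall fun _ => down_fex _)
      (down_fall fun _ => down_fex _)) ⟨fun n => ?_, fun n => ?_⟩
    · rw [mem_fex]
      intro c hc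
      obtain ⟨c', h1, X', T, Z, h2, h3, -, -, -, h7⟩ := hlong c hc n
      exact ⟨c', h1, Z, ⟨h3, h2⟩, PrefN_of_meets h7⟩
    · rw [mem_fex]
      intro c hc
      have hWc : Wn n ∈ c.p.E := hc.1.2 (Or.inr ⟨n, rfl⟩)
      obtain ⟨r', h1, h2, d, ⟨hd1, hd2⟩, h3⟩ := c.vp.den hWc c.vq
      have hc1 : (⟨c.p, r', c.vp, h1⟩ : Cd StT OmT) ≤ c := Cd.mk_le h1 h2
      have hc5 := hc1.trans hc
      have hMe := hext c hc
      have hMb : Basic M := hvM.toBasic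
      rcases hd2 with ⟨hd3, z, hd4, ⟨he, hd5⟩, hd6⟩ | hd2
      · refine ⟨_, hc1, z, ?_, ?_⟩
        · refine down_meets _ _ hd5 _ ⟨(hc.1.trans hsM).trans hsMw, ?_⟩
          change c.p.Le r' (w.rs d)
          have hwe : Ext c.p w := hMe.trans H.ext_w
          exact Le_trans c.vp.toBasic (Q_ext hwe he) (Q_ext hMe hd1) h1 (rs_le _ _ _) h3
        · apply PrefN_of_meets
          apply meets_of_mem
          refine ⟨hc5, ?_⟩
          have hcd : (⟨M.addE (Set.range Wn), d, hvM', hd1⟩ : Cd StT OmT) ≤ c₅ :=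
            ⟨Sub.rfl' _, hd3⟩
          exact hst _ ⟨M.addE (Set.range Wn), d, hvM', hd1⟩ z ⟨hc.1, h3⟩ hcd hd6
      · exfalso
        apply hd2 (M.rs r') (Q_rs hMe hMb h1)
        · exact (Le_rs_right hMe hMb hd1).1 h3
        · exact (Le_rs_right hMe hMb g1).1 hc5.2

theorem main (c : Cd StT OmT) : c ∈ PhiN (Cd StT OmT) := by
  intro X
  rw [mem_fimp]
  intro c₀ _ hX
  obtain ⟨α₀, -⟩ := exists_boundS (s := ∅) (by simp)
  obtain ⟨c₁, hc₁, hα₀⟩ := exists_addA c₀ α₀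
  have hX₁ : c₁ ∈ NMN X := (down_fall fun _ => down_fimp _ _ : Down (NMN X)) _ hX _ hc₁
  obtain ⟨a, ha, hR⟩ := reflect hX₁ hα₀
  refine ⟨c₁, hc₁, mem_fex_of_mem (tn a) (down_fand (down_BrN _)
    (down_fall fun _ => down_fimp _ _)) ⟨tn_br a c₁, fun D => ?_⟩⟩
  rw [mem_fimp]
  intro c₂ hc₂ hD
  exact main_step ha hR hc₂ hD

/-- the empty piece of the name -/
def Pre.emp : Pre StT OmT := ⟨∅, ∅, fun _ _ _ => [], ∅⟩

theorem Pre.valid_emp : Valid Pre.emp where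
  cA := Set.countable_empty
  cS := Set.countable_empty
  SA h := h.elim
  loc _ _ _ := rfl
  bd _ _ _ := Bd_nil
  off _ _ := rfl
  mono h := h.elim
  cE := Set.countable_empty
  sub h := h.elim
  den h := h.elim
  len h := h.elim

instance : Nonempty (Cd StT OmT) := ⟨⟨Pre.emp, Raw.zero, Pre.valid_emp, Q_zero _⟩⟩

end Pool.Agent.W915.T
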