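import Pool.Agent.W915.TDig

/-!
# Finite conditions and countable pieces of the name of the iteration
-/

set_option linter.unusedSectionVars false
set_option linter.unusedVariables false

noncomputable section

namespace Pool.Agent.W915.T

open Classical

variable {St Ω : Type}

/-- A finite condition: at each stage a finite sequence of digits and a finite set of promises. -/
structure Raw (St Ω : Type) where
  f : St → List ℕ × Finset Ω
  fin : {α | f α ≠ ([], ∅)}.Finite

instance : CoeFun (Raw St Ω) fun _ => St → List ℕ × Finset Ω := ⟨Raw.f⟩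

theorem Raw.ext' {r s : Raw St Ω} (h : ∀ α, r α = s α) : r = s := by
  cases r
  cases s
  congr
  exact funext h

/-- the empty condition -/
def Raw.zero : Raw St Ω := ⟨fun _ => ([], ∅), by simp⟩

/-- the part which is seen by the stages in `A` and the promises in `S` -/
def rs (A : Set St) (S : Set (St × Ω)) (r : Raw St Ω) : Raw St Ω :=
  ⟨fun α => if α ∈ A then ((r α).1, (r α).2.filter fun i => (α, i) ∈ S) else ([], ∅),
    r.fin.subset fun α hα hr => hα (by simp [hr])⟩

/-- one coordinate is changed -/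
def up (r : Raw St Ω) (a : St) (v : List ℕ × Finset Ω) : Raw St Ω :=
  ⟨fun α => if α = a then v else r α, (r.fin.union (Set.finite_singleton a)).subset
    fun α hα => by
      by_cases h : α = a
      · exact Or.inr h
      · refine Or.inl ?_
        simp only [Set.mem_ofPred_eq, h, if_false] at hα
        exact hα⟩

theorem up_self (r : Raw St Ω) (a : St) (v : List ℕ × Finset Ω) : up r a v a = v := if_pos rfl

theorem up_ne (r : Raw St Ω) {a α : St} (v : List ℕ × Finset Ω) (h : α ≠ a) :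
    up r a v α = r α := if_neg h

theorem rs_of_mem {A : Set St} {S : Set (St × Ω)} {r : Raw St Ω} {α : St} (h : α ∈ A) :
    rs A S r α = ((r α).1, (r α).2.filter fun i => (α, i) ∈ S) := if_pos h

theorem rs_of_not_mem {A : Set St} {S : Set (St × Ω)} {r : Raw St Ω} {α : St} (h : α ∉ A) :
    rs A S r α = ([], ∅) := if_neg h

variable [LinearOrder St]

/-- the part below `a` -/
def lo (a : St) (r : Raw St Ω) : Raw St Ω :=
  ⟨fun α => if α < a then r α else ([], ∅), r.fin.subset fun α hα hr => hα (by simp [hr])⟩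

/-- `s` below `a` and `r` from `a` on -/
def gl (a : St) (s r : Raw St Ω) : Raw St Ω :=
  ⟨fun α => if α < a then s α else r α, (s.fin.union r.fin).subset fun α hα => by
    by_contra h
    rw [Set.mem_union, not_or] at h
    simp only [Set.mem_ofPred_eq, not_not] at h
    apply hα
    simp [h.1, h.2]⟩

theorem lo_lt {a α : St} (h : α < a) (r : Raw St Ω) : lo a r α = r α := if_pos h

theorem lo_ge {a α : St} (h : a ≤ α) (r : Raw St Ω) : lo a r α = ([], ∅) := if_neg (not_lt.2 h)

theorem gl_lt {a α : St} (h : α < a) (s r : Raw St Ω) : gl a s r α = s α := if_pos h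

theorem gl_ge {a α : St} (h : a ≤ α) (s r : Raw St Ω) : gl a s r α = r α := if_neg (not_lt.2 h)

theorem lo_lo {a a' : St} (h : a ≤ a') (r : Raw St Ω) : lo a (lo a' r) = lo a r :=
  Raw.ext' fun α => by
    rcases lt_or_ge α a with h' | h'
    · rw [lo_lt h', lo_lt h', lo_lt (h'.trans_le h)]
    · rw [lo_ge h', lo_ge h']

theorem lo_lo' {a a' : St} (h : a' ≤ a) (r : Raw St Ω) : lo a (lo a' r) = lo a' r :=
  Raw.ext' fun α => by
    rcases lt_or_ge α a with h' | h'
    · rw [lo_lt h']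
    · rw [lo_ge h', lo_ge (h.trans h')]

theorem lo_gl (a : St) (s r : Raw St Ω) : lo a (gl a s r) = lo a s :=
  Raw.ext' fun α => by
    rcases lt_or_ge α a with h' | h'
    · rw [lo_lt h', lo_lt h', gl_lt h']
    · rw [lo_ge h', lo_ge h']

theorem gl_lo (a : St) (s r : Raw St Ω) : gl a (lo a s) r = gl a s r :=
  Raw.ext' fun α => by
    rcases lt_or_ge α a with h' | h'
    · rw [gl_lt h', gl_lt h', lo_lt h']
    · rw [gl_ge h', gl_ge h']

theorem gl_self (a : St) (r : Raw St Ω) : gl a r r = r :=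
  Raw.ext' fun α => by
    rcases lt_or_ge α a with h' | h'
    · rw [gl_lt h']
    · rw [gl_ge h']

theorem lo_rs (a : St) (A : Set St) (S : Set (St × Ω)) (r : Raw St Ω) :
    lo a (rs A S r) = rs A S (lo a r) :=
  Raw.ext' fun α => by
    rcases lt_or_ge α a with h' | h'
    · rw [lo_lt h']
      by_cases hA : α ∈ A
      · rw [rs_of_mem hA, rs_of_mem hA, lo_lt h']
      · rw [rs_of_not_mem hA, rs_of_not_mem hA]
    · rw [lo_ge h']
      by_cases hA : α ∈ A
      · rw [rs_of_mem hA, lo_ge h']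
        simp
      · rw [rs_of_not_mem hA]

theorem rs_rs {A A' : Set St} {S S' : Set (St × Ω)} (hA : A ⊆ A') (hS : S ⊆ S')
    (r : Raw St Ω) : rs A S (rs A' S' r) = rs A S r :=
  Raw.ext' fun α => by
    by_cases h : α ∈ A
    · rw [rs_of_mem h, rs_of_mem h, rs_of_mem (hA h)]
      simp only [Prod.mk.injEq, true_and]
      ext i
      simp only [Finset.mem_filter]
      exact ⟨fun h => ⟨h.1.1, h.2⟩, fun h => ⟨⟨h.1, hS h.2⟩, h.2⟩⟩
    · rw [rs_of_not_mem h, rs_of_not_mem h]

/-- A countable piece of the name of the iteration: the stages `A`, the promises `S`, the names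
`nu` of digit sequences attached to the promises, and predense sets `E` which must be kept. -/
structure Pre (St Ω : Type) where
  A : Set St
  S : Set (St × Ω)
  nu : St → Ω → Raw St Ω → List ℕ
  E : Set (Set (Raw St Ω))

namespace Pre

/-- the part of `r` which is seen by `p` -/
def rs (p : Pre St Ω) (r : Raw St Ω) : Raw St Ω := T.rs p.A p.S r

/-- `r` is a condition of `p` at the stage `α` -/
def Qat (p : Pre St Ω) (r : Raw St Ω) (α : St) : Prop :=
  (r α ≠ ([], ∅) → α ∈ p.A) ∧ Bd (r α).1 ∧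
    (∀ i ∈ (r α).2, (α, i) ∈ p.S ∧ 1 ≤ (r α).1.length ∧
      (r α).1.length ≤ (p.nu α i r).length) ∧
    3 * (r α).2.card < b (r α).1.length

/-- the conditions of `p` -/
def Q (p : Pre St Ω) (r : Raw St Ω) : Prop := ∀ α, p.Qat r α

/-- the order at the stage `α` -/
def LeAt (p : Pre St Ω) (r' r : Raw St Ω) (α : St) : Prop :=
  (r α).1 <+: (r' α).1 ∧ (r α).2 ⊆ (r' α).2 ∧
    ∀ i ∈ (r α).2, Bk 0 (dg (p.nu α i r')) (dg (r' α).1) (r α).1.length (r' α).1.length

/-- the order of the conditions of `p` -/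
def Le (p : Pre St Ω) (r' r : Raw St Ω) : Prop := ∀ α, p.LeAt r' r α

/-- the basic requirements -/
structure Basic (p : Pre St Ω) : Prop where
  cA : p.A.Countable
  cS : p.S.Countable
  SA : ∀ {α i}, (α, i) ∈ p.S → α ∈ p.A
  loc : ∀ α i r, p.nu α i r = p.nu α i (lo α (p.rs r))
  bd : ∀ α i r, Bd (p.nu α i r)
  off : ∀ {α i}, (α, i) ∉ p.S → ∀ r, p.nu α i r = []
  mono : ∀ {α i}, (α, i) ∈ p.S → ∀ {r r'}, p.Q r → p.Q r' → p.Le r' r →
    p.nu α i r <+: p.nu α i r'

/-- the complete list of requirements -/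
structure Valid (p : Pre St Ω) : Prop extends Basic p where
  cE : p.E.Countable
  sub : ∀ {D}, D ∈ p.E → ∀ {d}, d ∈ D → p.Q d
  den : ∀ {D}, D ∈ p.E → ∀ {r}, p.Q r → ∃ r', p.Q r' ∧ p.Le r' r ∧ ∃ d ∈ D, p.Le r' d
  len : ∀ {α i}, (α, i) ∈ p.S → ∀ {r}, p.Q r → p.nu α i r ≠ [] → ∀ n, ∃ r', p.Q r' ∧
    p.Le r' r ∧ n ≤ (p.nu α i r').length

/-- `p'` extends `p`, apart from the predense sets -/
structure Ext (p' p : Pre St Ω) : Prop where
  A : p.A ⊆ p'.A
  S : p.S ⊆ p'.S
  nu : ∀ {α i}, (α, i) ∈ p.S → p'.nu α i = p.nu α i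

theorem Ext.rfl' (p : Pre St Ω) : Ext p p := ⟨subset_rfl, subset_rfl, fun _ => rfl⟩

theorem Ext.trans {p'' p' p : Pre St Ω} (h : Ext p'' p') (h' : Ext p' p) : Ext p'' p :=
  ⟨h'.A.trans h.A, h'.S.trans h.S, fun hi => (h.nu (h'.S hi)).trans (h'.nu hi)⟩

theorem b_pos (n : ℕ) : 0 < b n := by have := b_ge n; omega

theorem Qat_zero {p : Pre St Ω} {r : Raw St Ω} {α : St} (h : r α = ([], ∅)) : p.Qat r α := by
  refine ⟨fun h' => absurd h h', ?_, ?_, ?_⟩
  · rw [h]
    exact Bd_nil
  · rw [h]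
    intro i hi
    exact absurd hi (Finset.notMem_empty i)
  · rw [h]
    exact b_pos _

theorem LeAt_zero {p : Pre St Ω} {r r' : Raw St Ω} {α : St} (h : r α = ([], ∅)) :
    p.LeAt r' r α := by
  refine ⟨?_, ?_, ?_⟩
  · rw [h]
    exact List.nil_prefix
  · rw [h]
    exact Finset.empty_subset _
  · rw [h]
    intro i hi
    exact absurd hi (Finset.notMem_empty i)

theorem LeAt_self {p : Pre St Ω} {r r' : Raw St Ω} {α : St} (h : r' α = r α) :
    p.LeAt r' r α := by
  refine ⟨?_, ?_, ?_⟩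
  · rw [h]
  · rw [h]
  · rw [h]
    intro i _
    exact Bk_self _ _ _ _

theorem Le_refl (p : Pre St Ω) (r : Raw St Ω) : p.Le r r := fun _ => LeAt_self rfl

theorem Q_zero (p : Pre St Ω) : p.Q Raw.zero := fun _ => Qat_zero rfl

/-- the order at `α` depends only on the value of the larger condition at `α` -/
theorem LeAt_congr_right {p : Pre St Ω} {r r₁ r' : Raw St Ω} {α : St} (h : r₁ α = r α)
    (h' : p.LeAt r' r α) : p.LeAt r' r₁ α := by
  unfold LeAt at *
  rw [h]
  exact h'

section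

variable {p p' : Pre St Ω}

theorem Basic.nu_congr (h : Basic p) {α : St} {i : Ω} {r r' : Raw St Ω}
    (hr : ∀ β < α, p.rs r' β = p.rs r β) : p.nu α i r' = p.nu α i r := by
  rw [h.loc α i r', h.loc α i r]
  congr 1
  apply Raw.ext'
  intro β
  rcases lt_or_ge β α with h' | h'
  · rw [lo_lt h', lo_lt h', hr β h']
  · rw [lo_ge h', lo_ge h']

theorem rs_congr {r r' : Raw St Ω} {β : St} (h : r' β = r β) : p.rs r' β = p.rs r β := by
  unfold rs
  by_cases hA : β ∈ p.A
  · rw [rs_of_mem hA, rs_of_mem hA, h]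
  · rw [rs_of_not_mem hA, rs_of_not_mem hA]

theorem Basic.nu_congr' (h : Basic p) {α : St} {i : Ω} {r r' : Raw St Ω}
    (hr : ∀ β < α, r' β = r β) : p.nu α i r' = p.nu α i r :=
  h.nu_congr fun β hβ => rs_congr (hr β hβ)

theorem Basic.nu_lo (h : Basic p) {α a : St} (ha : α ≤ a) {i : Ω} (r : Raw St Ω) :
    p.nu α i (lo a r) = p.nu α i r :=
  h.nu_congr' fun β hβ => lo_lt (hβ.trans_le ha) r

theorem Basic.nu_rs (h : Basic p) {α : St} {i : Ω} (r : Raw St Ω) :
    p.nu α i (p.rs r) = p.nu α i r := by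
  apply h.nu_congr
  intro β _
  unfold rs
  rw [rs_rs subset_rfl subset_rfl]

/-- a condition of `p` is seen completely by `p` -/
theorem rs_self {r : Raw St Ω} (h : p.Q r) : p.rs r = r := by
  apply Raw.ext'
  intro α
  unfold rs
  by_cases hA : α ∈ p.A
  · rw [rs_of_mem hA]
    refine Prod.ext rfl ?_
    simp only
    rw [Finset.filter_true_of_mem]
    intro i hi
    exact ((h α).2.2.1 i hi).1
  · rw [rs_of_not_mem hA]
    by_contra h'
    exact hA ((h α).1 (Ne.symm h'))

theorem Q_rs (he : Ext p' p) (h : Basic p) {r : Raw St Ω} (hr : p'.Q r) : p.Q (p.rs r) := by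
  intro α
  by_cases hA : α ∈ p.A
  · have e : p.rs r α = ((r α).1, (r α).2.filter fun i => (α, i) ∈ p.S) := rs_of_mem hA
    obtain ⟨h1, h2, h3, h4⟩ := hr α
    refine ⟨fun _ => hA, ?_, ?_, ?_⟩
    · rw [e]
      exact h2
    · intro i hi
      rw [e, Finset.mem_filter] at hi
      rw [e, h.nu_rs]
      obtain ⟨h5, h6, h7⟩ := h3 i hi.1
      rw [he.nu hi.2] at h7
      exact ⟨hi.2, h6, h7⟩
    · rw [e]
      refine lt_of_le_of_lt ?_ h4
      exact Nat.mul_le_mul_left _ (Finset.card_filter_le _ _)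
  · exact Qat_zero (rs_of_not_mem hA)

/-- the order with respect to an element of the smaller poset -/
theorem Le_rs_right (he : Ext p' p) (h : Basic p) {r d : Raw St Ω} (hd : p.Q d) :
    p'.Le r d ↔ p.Le (p.rs r) d := by
  apply forall_congr'
  intro α
  by_cases hA : α ∈ p.A
  · have e : p.rs r α = ((r α).1, (r α).2.filter fun i => (α, i) ∈ p.S) := rs_of_mem hA
    unfold LeAt
    rw [e]
    constructor
    · rintro ⟨h1, h2, h3⟩
      refine ⟨h1, ?_, ?_⟩
      · intro i hi
        rw [Finset.mem_filter]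
        exact ⟨h2 hi, ((hd α).2.2.1 i hi).1⟩
      · intro i hi
        rw [h.nu_rs, ← he.nu ((hd α).2.2.1 i hi).1]
        exact h3 i hi
    · rintro ⟨h1, h2, h3⟩
      refine ⟨h1, ?_, ?_⟩
      · intro i hi
        exact (Finset.mem_filter.1 (h2 hi)).1
      · intro i hi
        rw [he.nu ((hd α).2.2.1 i hi).1, ← h.nu_rs]
        exact h3 i hi
  · have : d α = ([], ∅) := by
      by_contra h'
      exact hA ((hd α).1 h')
    exact ⟨fun _ => LeAt_zero this, fun _ => LeAt_zero this⟩

theorem Le_rs (he : Ext p' p) (h : Basic p) {r r' : Raw St Ω} (hr : p'.Le r' r) :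
    p.Le (p.rs r') (p.rs r) := by
  intro α
  by_cases hA : α ∈ p.A
  · have e : ∀ r, p.rs r α = ((r α).1, (r α).2.filter fun i => (α, i) ∈ p.S) :=
      fun r => rs_of_mem hA
    obtain ⟨h1, h2, h3⟩ := hr α
    refine ⟨?_, ?_, ?_⟩
    · rw [e, e]
      exact h1
    · rw [e, e]
      exact Finset.filter_subset_filter _ h2
    · intro i hi
      rw [h.nu_rs]
      rw [e, Finset.mem_filter] at hi
      rw [e, e, ← he.nu hi.2]
      exact h3 i hi.1
  · exact LeAt_zero (rs_of_not_mem hA)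

theorem Q_ext (he : Ext p' p) {r : Raw St Ω} (hr : p.Q r) : p'.Q r := by
  intro α
  obtain ⟨h1, h2, h3, h4⟩ := hr α
  refine ⟨fun h => he.A (h1 h), h2, ?_, h4⟩
  intro i hi
  obtain ⟨h5, h6, h7⟩ := h3 i hi
  refine ⟨he.S h5, h6, ?_⟩
  rw [he.nu h5]
  exact h7

theorem Le_ext (he : Ext p' p) {r r' : Raw St Ω} (hr : p.Q r) : p'.Le r' r ↔ p.Le r' r := by
  apply forall_congr'
  intro α
  unfold LeAt
  refine and_congr_right fun _ => and_congr_right fun _ => ?_
  refine forall_congr' fun i => ?_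
  refine forall_congr' fun hi => ?_
  rw [he.nu ((hr α).2.2.1 i hi).1]

theorem rs_le (p p' : Pre St Ω) (r : Raw St Ω) : p'.Le r (p.rs r) := by
  intro α
  by_cases hA : α ∈ p.A
  · have e : p.rs r α = ((r α).1, (r α).2.filter fun i => (α, i) ∈ p.S) := rs_of_mem hA
    refine ⟨?_, ?_, ?_⟩
    · rw [e]
    · rw [e]
      exact Finset.filter_subset _ _
    · intro i _
      rw [e]
      exact Bk_self _ _ _ _
  · exact LeAt_zero (rs_of_not_mem hA)

theorem Le_trans (h : Basic p) {r r' r'' : Raw St Ω} (hr : p.Q r) (hr' : p.Q r') (hr'' : p.Q r'')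
    (h1 : p.Le r' r) (h2 : p.Le r'' r') : p.Le r'' r := by
  intro α
  refine ⟨(h1 α).1.trans (h2 α).1, (h1 α).2.1.trans (h2 α).2.1, fun i hi => ?_⟩
  have hS := ((hr α).2.2.1 i hi).1
  have e1 := (h1 α).2.2 i hi
  have e2 := (h2 α).2.2 i ((h1 α).2.1 hi)
  have hm := h.mono hS hr' hr'' h2
  have hlen := ((hr' α).2.2.1 i ((h1 α).2.1 hi)).2.2
  refine Bk.trans (h2 α).1.length_le (e1.congr ?_ ?_) e2
  · intro m hm'
    exact dg_pre hm (lt_of_lt_of_le hm' hlen)
  · intro m hm'
    exact dg_pre (h2 α).1 hm'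

theorem Q_lo (h : Basic p) {r : Raw St Ω} (hr : p.Q r) (a : St) : p.Q (lo a r) := by
  intro α
  rcases lt_or_ge α a with h' | h'
  · obtain ⟨h1, h2, h3, h4⟩ := hr α
    unfold Qat
    rw [lo_lt h']
    refine ⟨h1, h2, fun i hi => ?_, h4⟩
    rw [h.nu_lo h'.le]
    exact h3 i hi
  · exact Qat_zero (lo_ge h' r)

theorem Le_lo (h : Basic p) {r r' : Raw St Ω} (hr : p.Le r' r) (a : St) :
    p.Le (lo a r') (lo a r) := by
  intro α
  rcases lt_or_ge α a with h' | h'
  · obtain ⟨h1, h2, h3⟩ := hr α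
    unfold LeAt
    rw [lo_lt h', lo_lt h']
    refine ⟨h1, h2, fun i hi => ?_⟩
    rw [h.nu_lo h'.le]
    exact h3 i hi
  · exact LeAt_zero (lo_ge h' r)

theorem le_lo (p : Pre St Ω) (r : Raw St Ω) (a : St) : p.Le r (lo a r) := by
  intro α
  rcases lt_or_ge α a with h' | h'
  · exact LeAt_self (lo_lt h' r).symm
  · exact LeAt_zero (lo_ge h' r)

variable [WellFoundedLT St]

/-- induction on the stages -/
theorem ind (h : Basic p) {r r' : Raw St Ω}
    (H : ∀ α, p.Q (lo α r') → p.Le (lo α r') (lo α r) → p.Qat r' α ∧ p.LeAt r' r α) :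
    p.Q r' ∧ p.Le r' r := by
  have key : ∀ α, p.Qat r' α ∧ p.LeAt r' r α := by
    intro α
    induction α using WellFoundedLT.induction with
    | ind α ih =>
      apply H α
      · intro β
        rcases lt_or_ge β α with h' | h'
        · obtain ⟨h1, h2, h3, h4⟩ := (ih β h').1
          unfold Qat
          rw [lo_lt h']
          refine ⟨h1, h2, fun i hi => ?_, h4⟩
          rw [h.nu_lo h'.le]
          exact h3 i hi
        · exact Qat_zero (lo_ge h' r')
      · intro β
        rcases lt_or_ge β α with h' | h'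
        · obtain ⟨h1, h2, h3⟩ := (ih β h').2
          unfold LeAt
          rw [lo_lt h', lo_lt h']
          refine ⟨h1, h2, fun i hi => ?_⟩
          rw [h.nu_lo h'.le]
          exact h3 i hi
        · exact LeAt_zero (lo_ge h' r)
  exact ⟨fun α => (key α).1, fun α => (key α).2⟩

/-- a lower part may be strengthened -/
theorem glue (h : Basic p) {a : St} {r s : Raw St Ω} (hr : p.Q r) (hs : p.Q s)
    (hle : p.Le s (lo a r)) : p.Q (gl a s r) ∧ p.Le (gl a s r) r := by
  apply ind h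
  intro α hQ hL
  rcases lt_or_ge α a with h' | h'
  · have hnu : ∀ i, p.nu α i (gl a s r) = p.nu α i s := fun i =>
      h.nu_congr' fun β hβ => gl_lt (hβ.trans h') s r
    constructor
    · obtain ⟨h1, h2, h3, h4⟩ := hs α
      unfold Qat
      rw [gl_lt h']
      refine ⟨h1, h2, fun i hi => ?_, h4⟩
      rw [hnu]
      exact h3 i hi
    · obtain ⟨h1, h2, h3⟩ := hle α
      rw [lo_lt h'] at h1 h2 h3
      unfold LeAt
      rw [gl_lt h']
      refine ⟨h1, h2, fun i hi => ?_⟩
      rw [hnu]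
      exact h3 i hi
  · constructor
    · obtain ⟨h1, h2, h3, h4⟩ := hr α
      unfold Qat
      rw [gl_ge h']
      refine ⟨h1, h2, fun i hi => ?_, h4⟩
      obtain ⟨h5, h6, h7⟩ := h3 i hi
      refine ⟨h5, h6, h7.trans ?_⟩
      have := h.mono h5 (Q_lo h hr α) hQ hL
      rw [h.nu_lo le_rfl, h.nu_lo le_rfl] at this
      exact this.length_le
    · exact LeAt_self (gl_ge h' s r)

theorem gl_le (p : Pre St Ω) (a : St) (s r : Raw St Ω) : p.Le (gl a s r) (lo a s) := by
  intro α
  rcases lt_or_ge α a with h' | h'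
  · apply LeAt_self
    rw [lo_lt h', gl_lt h']
  · exact LeAt_zero (lo_ge h' s)

end

end Pre

end Pool.Agent.W915.T
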