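import Pool.Agent.W915.TZ

/-!
# Reflection, and the amalgamated condition
-/

set_option linter.unusedSectionVars false
set_option linter.unusedVariables false

noncomputable section

namespace Pool.Agent.W915.T

open Classical Pre Pool.Agent.Helper669.Forcing Cardinal

theorem exists_addA {St Ω : Type} [LinearOrder St] [WellFoundedLT St] (c : Cd St Ω) (a : St) :
    ∃ c' ≤ c, a ∈ c'.p.A := by
  by_cases h : a ∈ c.p.A
  · exact ⟨c, le_rfl, h⟩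
  · exact ⟨⟨c.p.addA a, c.q, Valid_addA c.vp h, Q_ext (Ext_addA _ _) c.vq⟩,
      ⟨Sub_addA _ _, Le_refl _ _⟩, Or.inl rfl⟩

theorem reflect {X : (List ℕ → Set (Cd StT OmT)) → Set (Cd StT OmT)} {c₁ : Cd StT OmT}
    (hX : c₁ ∈ NMN X) {α₀ : StT} (hα₀ : α₀ ∈ c₁.p.A) :
    ∃ a, (∀ α ∈ c₁.p.A, α < a) ∧ ∀ c' ≤ c₁, (∀ α ∈ c'.p.A, α < a) →
      ∀ U : ℕ → Set (Raw StT OmT × List ℕ), (∀ n, ∀ x ∈ U n, c'.p.Q x.1) →
      (∀ n r, c'.p.Q r → ∀ y, Bd y → ∃ r', c'.p.Q r' ∧ c'.p.Le r' r ∧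
        ∃ v, y <+: v ∧ Bd v ∧ (r', v) ∈ U n) →
      ∃ c₂ x N, Answer X c' U c₂ x N ∧ ∀ α ∈ c₂.p.A, α < a := by
  let IsT : Tk → Prop := fun τ => τ.1 ≤ c₁ ∧ (∀ n, ∀ x ∈ τ.2 n, τ.1.p.Q x.1) ∧
    ∀ n r, τ.1.p.Q r → ∀ y, Bd y → ∃ r', τ.1.p.Q r' ∧ τ.1.p.Le r' r ∧
        ∃ v, y <+: v ∧ Bd v ∧ (r', v) ∈ τ.2 n
  have h : ∀ τ : Tk, ∃ ξ : StT, IsT τ → ∃ c₂ x N, Answer X τ.1 τ.2 c₂ x N ∧
      ∀ α ∈ c₂.p.A, α < ξ := by
    intro τ
    by_cases hτ : IsT τ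
    · obtain ⟨h1, h2, h3⟩ := hτ
      obtain ⟨c₂, x, N, hA⟩ := exists_answer hX h1 (h1.1.1.A hα₀) h2 h3
      obtain ⟨ξ, hξ⟩ := exists_boundS (s := c₂.p.A)
        ((Cardinal.le_aleph0_iff_set_countable.2 c₂.vp.cA).trans aleph0_le_continuum)
      exact ⟨ξ, fun _ => ⟨c₂, x, N, hA, hξ⟩⟩
    · exact ⟨α₀, fun h => absurd h hτ⟩
  choose lvl hlvl using h
  obtain ⟨ξ₀, hξ₀⟩ := exists_boundS (s := c₁.p.A)
    ((Cardinal.le_aleph0_iff_set_countable.2 c₁.vp.cA).trans aleph0_le_continuum)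
  obtain ⟨a, h1, h2, h3⟩ := exists_stage overT
    (fun ξ ξ' hξ τ hτ => ⟨hτ.1.trans (Set.Iio_subset_Iio hξ), hτ.2⟩) mk_overT lvl ξ₀
  refine ⟨a, fun α hα => (hξ₀ α hα).trans h1, fun c' hc' hA U hU hd => ?_⟩
  obtain ⟨ξ, hξ, hξ'⟩ := h3 c'.p.A c'.vp.cA hA
  have hlt := h2 ξ hξ (c', U) ⟨fun α hα => hξ' α hα, hU⟩
  obtain ⟨c₂, x, N, e1, e2⟩ := hlvl (c', U) ⟨hc', hU, hd⟩
  exact ⟨c₂, x, N, e1, fun α hα => (e2 α hα).trans hlt⟩

section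

variable {St Ω : Type} [LinearOrder St] [WellFoundedLT St]

namespace Pre

variable {w p₂ : Pre St Ω} {a : St} {i₀ : Ω} {N : Raw St Ω → List ℕ} {q₂ : Raw St Ω}

/-- the condition with the new promise -/
theorem Amd.exists_q3 (H : Amd w p₂ a i₀ N q₂) (hv : Valid (AM w p₂ a i₀ N)) {q₁ : Raw St Ω}
    (hq₁ : w.Q q₁) (hq : p₂.Le q₂ (lo a q₁)) :
    ∃ q₃, (AM w p₂ a i₀ N).Q q₃ ∧ (AM w p₂ a i₀ N).Le q₃ q₁ ∧ (AM w p₂ a i₀ N).Le q₃ q₂ ∧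
      i₀ ∈ (q₃ a).2 ∧
      Bk (q₃ a).1.length (dg (N q₃)) (dg (q₃ a).1) 0 (q₃ a).1.length := by
  have hB := H.vw.toBasic
  have hb := H.basic
  have haM : a ∈ (AM w p₂ a i₀ N).A := Or.inl H.ha
  -- the starting point
  have hd : (w.RE a).Q (lo a q₁) := Q_RE_lo hB hq₁
  have hle1 : w.Le (w.rs q₂) (lo a q₁) := H.rsw_le H.vq hd hq
  obtain ⟨g1, g2⟩ := glue hB (a := a) hq₁ (H.rsw_Q H.vq).1 hle1
  have hse : w.rs q₂ = lo a (gl a (w.rs q₂) q₁) := by rw [lo_gl, (H.rsw_Q H.vq).2]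
  have hG : ∀ i ∈ (∅ : Finset Ω), i = i₀ := fun i hi => absurd hi (Finset.notMem_empty i)
  have k1 : (AM w p₂ a i₀ N).Q (mkR a q₂ (gl a (w.rs q₂) q₁) ∅) := by
    apply H.mk_Q H.vq g1 hse hG
    · intro h
      exact absurd h (Finset.notMem_empty _)
    · rw [Finset.union_empty]
      exact (g1 a).2.2.2
  obtain ⟨r₀, hr₀⟩ : ∃ r₀, r₀ = mkR a q₂ (gl a (w.rs q₂) q₁) ∅ := ⟨_, rfl⟩
  rw [← hr₀] at k1
  have k2 : (AM w p₂ a i₀ N).Le r₀ q₁ := by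
    rw [Le_rs_right H.ext_w hB hq₁, hr₀, H.mk_rs_w g1 hse hG]
    exact g2
  have k3 : lo a r₀ = q₂ := by
    rw [← H.rs2_eq k1, hr₀, H.mk_rs_2 H.vq]
  have k4 : (AM w p₂ a i₀ N).Le r₀ q₂ := by
    have := le_lo (AM w p₂ a i₀ N) r₀ a
    rwa [k3] at this
  have hQ1 := Q_ext H.ext_w hq₁
  have hQ2 := Q_ext H.ext_2 H.vq
  -- lengthen the stage `a`
  obtain ⟨r₁, a1, a2, -, a3, a4⟩ := lengthen hv k1 haM (3 * ((r₀ a).2.card + 1) + 3)
  -- lengthen the name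
  have hlo1 : p₂.Le (lo a r₁) q₂ := by
    have := Le_trans hb hQ2 k1 a1 k4 a2
    rw [Le_rs_right H.ext_2 H.v2.toBasic H.vq, H.rs2_eq a1] at this
    exact this
  obtain ⟨s, s1, s2, s3⟩ := H.N6 _ (H.Q_lo2 a1) hlo1 ((r₁ a).1.length + 1)
  obtain ⟨b1, b2, b3⟩ := H.glue2 a1 s1 s2
  obtain ⟨r₂, hr₂⟩ : ∃ r₂, r₂ = gl a s r₁ := ⟨_, rfl⟩
  rw [← hr₂] at b1 b2 b3
  have b4 : r₂ a = r₁ a := by
    rw [hr₂]
    exact gl_ge le_rfl _ _
  have b5 : (r₁ a).1.length + 1 ≤ (N r₂).length := by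
    rw [← H.N_lo, b3]
    exact s3
  -- one more digit
  have hroom : 3 * ((r₂ a).2.card + 1) + 3 < b (r₂ a).1.length := by
    rw [b4, a3]
    exact (lt_b _).trans_le (b_mono a4)
  have hcard := card_bad3 (dg (N r₂) (r₂ a).1.length) (r₂ a).1.length
  obtain ⟨r₃, τ, c1, c2, -, c3, c4, c5⟩ := one_digit hv b1 haM
    (bad3 (dg (N r₂) (r₂ a).1.length) (r₂ a).1.length) (by omega)
  have c6 : (dg (N r₂) (r₂ a).1.length + τ) % b (r₂ a).1.length + 4 ≤ b (r₂ a).1.length := by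
    by_contra hcon
    apply c4
    rw [bad3, Finset.mem_filter, Finset.mem_range]
    exact ⟨c5, by omega⟩
  have hN23 : N r₂ <+: N r₃ := by
    have := H.N3 _ _ (H.Q_lo2 b1) (H.Q_lo2 c1) (by
      have := Le_rs H.ext_2 H.v2.toBasic c2
      rwa [H.rs2_eq b1, H.rs2_eq c1] at this)
    rwa [H.N_lo, H.N_lo] at this
  have hl3 : (r₃ a).1.length = (r₂ a).1.length + 1 := by
    rw [c3]
    simp
  -- the new promise
  have hN3 : (r₃ a).1.length ≤ (N r₃).length := by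
    have := hN23.length_le
    rw [hl3, b4]
    omega
  have hcard3 : (insert i₀ (r₃ a).2).card ≤ (r₂ a).2.card + 1 := by
    rw [c3]
    exact Finset.card_insert_le _ _
  obtain ⟨d1, d2⟩ := update hb (v := ((r₃ a).1, insert i₀ (r₃ a).2)) c1 haM (c1 a).2.1
    (List.prefix_refl _) (Finset.subset_insert _ _) (by
      intro i hi
      rcases Finset.mem_insert.1 hi with rfl | hi'
      · refine ⟨Or.inr (Or.inr rfl), ?_, ?_⟩
        · simp only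
          omega
        · rw [AM_nu_new]
          exact hN3
      · exact (c1 a).2.2.1 i hi') (by
      simp only
      have : b (r₂ a).1.length ≤ b (r₃ a).1.length := b_mono (by omega)
      omega) (fun i _ => Bk_self _ _ _ _)
  have hq3 : up r₃ a ((r₃ a).1, insert i₀ (r₃ a).2) a = ((r₃ a).1, insert i₀ (r₃ a).2) :=
    up_self _ _ _
  have hNq : N (up r₃ a ((r₃ a).1, insert i₀ (r₃ a).2)) = N r₃ := by
    apply H.N_congr
    rw [← H.rs2_lo, ← H.rs2_lo r₃]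
    congr 1
    apply Raw.ext'
    intro α
    rcases lt_or_ge α a with h | h
    · rw [lo_lt h, lo_lt h, up_ne _ _ h.ne]
    · rw [lo_ge h, lo_ge h]
  have le31 := Le_trans hb a1 b1 c1 b2 c2
  have le30 := Le_trans hb k1 a1 d1 a2 (Le_trans hb a1 c1 d1 le31 d2)
  refine ⟨_, d1, Le_trans hb hQ1 k1 d1 k2 le30, Le_trans hb hQ2 k1 d1 k4 le30, ?_, ?_⟩
  · rw [hq3]
    exact Finset.mem_insert_self _ _
  · rw [hq3, hNq]
    simp only
    apply Bk_zero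
    · exact fun m _ => dg_lt (H.N2 _) m
    · exact fun m _ => dg_lt (c1 a).2.1 m
    · intro m hm
      have hm' : m = (r₂ a).1.length := by omega
      subst hm'
      rw [dg_pre hN23 (by rw [b4]; omega)]
      have : dg (r₃ a).1 (r₂ a).1.length = τ := by
        rw [c3]
        exact dg_append_self _ _
      rw [this]
      exact c6

end Pre

end

end Pool.Agent.W915.T
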