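import Pool.Agent.W915.TFus

/-!
# The restriction to the stages below `a`
-/

set_option linter.unusedSectionVars false
set_option linter.unusedVariables false

noncomputable section

namespace Pool.Agent.W915.T

open Classical

variable {St Ω : Type} [LinearOrder St] [WellFoundedLT St]

namespace Pre

variable {p p' : Pre St Ω}

/-- the projection of the set `D` of conditions below `r` -/
def proj (p : Pre St Ω) (a : St) (D : Set (Raw St Ω)) (r : Raw St Ω) : Set (Raw St Ω) :=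
  {s | p.Q s ∧ lo a s = s ∧
    ((∃ e, p.Q e ∧ lo a e = s ∧ p.Le e (gl a s r) ∧ ∃ d ∈ D, p.Le e d) ∨
      ∀ s', p.Q s' → lo a s' = s' → p.Le s' s → ¬ p.Le s' (lo a r))}

/-- the restriction to the stages below `a` -/
def RE (p : Pre St Ω) (a : St) : Pre St Ω where
  A := {α | α ∈ p.A ∧ α < a}
  S := {x | x ∈ p.S ∧ x.1 < a}
  nu α i := if α < a then p.nu α i else fun _ => []
  E := {D | D ∈ p.E ∧ ∀ d ∈ D, lo a d = d} ∪
    (fun x : Set (Raw St Ω) × Raw St Ω => proj p a x.1 x.2) '' (p.E ×ˢ {r | p.Q r})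

theorem RE_nu (p : Pre St Ω) {a α : St} (h : α < a) (i : Ω) : (p.RE a).nu α i = p.nu α i :=
  if_pos h

theorem Ext_RE (p : Pre St Ω) (a : St) : Ext p (p.RE a) :=
  ⟨fun _ h => h.1, fun _ h => h.1, fun {_ _} h => (RE_nu p h.2 _).symm⟩

theorem RE_rs (p : Pre St Ω) (a : St) (r : Raw St Ω) : (p.RE a).rs r = lo a (p.rs r) := by
  apply Raw.ext'
  intro α
  rcases lt_or_ge α a with h | h
  · rw [lo_lt h]
    unfold rs
    by_cases hA : α ∈ p.A
    · rw [rs_of_mem hA, rs_of_mem (show α ∈ (p.RE a).A from ⟨hA, h⟩)]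
      refine Prod.ext rfl ?_
      simp only
      apply Finset.filter_congr
      intro i _
      exact ⟨fun h => h.1, fun h' => ⟨h', h⟩⟩
    · rw [rs_of_not_mem hA, rs_of_not_mem (show α ∉ (p.RE a).A from fun h => hA h.1)]
  · rw [lo_ge h]
    exact rs_of_not_mem fun h' => not_lt.2 h h'.2

theorem RE_rs_of_Q {a : St} {r : Raw St Ω} (hr : p.Q r) : (p.RE a).rs r = lo a r := by
  rw [RE_rs, rs_self hr]

theorem Basic_RE (h : Basic p) (a : St) : Basic (p.RE a) where
  cA := h.cA.mono fun _ h => h.1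
  cS := h.cS.mono fun _ h => h.1
  SA hi := ⟨h.SA hi.1, hi.2⟩
  loc := by
    intro α i r
    by_cases h' : α < a
    · rw [RE_nu p h', RE_rs, lo_lo h'.le]
      exact h.loc α i r
    · have : (p.RE a).nu α i = fun _ => [] := if_neg h'
      rw [this]
  bd := by
    intro α i r
    by_cases h' : α < a
    · rw [RE_nu p h']
      exact h.bd _ _ _
    · have : (p.RE a).nu α i = fun _ => [] := if_neg h'
      rw [this]
      exact Bd_nil
  off := by
    intro α i hi r
    by_cases h' : α < a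
    · rw [RE_nu p h']
      exact h.off (fun h'' => hi ⟨h'', h'⟩) r
    · have : (p.RE a).nu α i = fun _ => [] := if_neg h'
      rw [this]
  mono := by
    intro α i hi r r' hr hr' hle
    rw [RE_nu p hi.2]
    refine h.mono hi.1 (Q_ext (Ext_RE p a) hr) (Q_ext (Ext_RE p a) hr') ?_
    rw [Le_ext (Ext_RE p a) hr]
    exact hle

theorem Q_RE (h : Basic p) {a : St} {r : Raw St Ω} : (p.RE a).Q r ↔ p.Q r ∧ lo a r = r := by
  constructor
  · intro hr
    refine ⟨Q_ext (Ext_RE p a) hr, ?_⟩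
    have h1 := rs_self hr
    rw [RE_rs_of_Q (Q_ext (Ext_RE p a) hr)] at h1
    exact h1
  · rintro ⟨h1, h2⟩
    have h3 := Q_rs (Ext_RE p a) (Basic_RE h a) h1
    rw [RE_rs_of_Q h1, h2] at h3
    exact h3

theorem Le_RE {a : St} {r r' : Raw St Ω} (hr : (p.RE a).Q r) :
    (p.RE a).Le r' r ↔ p.Le r' r := (Le_ext (Ext_RE p a) hr).symm

theorem Q_RE_lo (h : Basic p) {a : St} {r : Raw St Ω} (hr : p.Q r) : (p.RE a).Q (lo a r) :=
  (Q_RE h).2 ⟨Q_lo h hr a, lo_lo le_rfl r⟩

theorem Valid_RE (h : Valid p) (a : St) : Valid (p.RE a) :=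
  { Basic_RE h.toBasic a with
    cE := (h.cE.mono fun _ h => h.1).union ((h.cE.prod (countable_Q h.toBasic)).image _)
    sub := by
      rintro D (hD | ⟨⟨D', r⟩, -, rfl⟩) d hd
      · exact (Q_RE h.toBasic).2 ⟨h.sub hD.1 hd, hD.2 d hd⟩
      · exact (Q_RE h.toBasic).2 ⟨hd.1, hd.2.1⟩
    den := by
      rintro D (hD | ⟨⟨D', r⟩, ⟨hD', hr⟩, rfl⟩) s hs
      · obtain ⟨hs1, hs2⟩ := (Q_RE h.toBasic).1 hs
        obtain ⟨r', e1, e2, d, hd, e3⟩ := h.den hD.1 hs1
        have hd' : (p.RE a).Q d := (Q_RE h.toBasic).2 ⟨h.sub hD.1 hd, hD.2 d hd⟩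
        refine ⟨lo a r', Q_RE_lo h.toBasic e1, ?_, d, hd, ?_⟩
        · rw [Le_RE hs, ← hs2]
          exact Le_lo h.toBasic e2 a
        · rw [Le_RE hd', ← hD.2 d hd]
          exact Le_lo h.toBasic e3 a
      · obtain ⟨hs1, hs2⟩ := (Q_RE h.toBasic).1 hs
        by_cases hc : ∀ s', p.Q s' → lo a s' = s' → p.Le s' s → ¬ p.Le s' (lo a r)
        · exact ⟨s, hs, Le_refl _ _, s, ⟨hs1, hs2, Or.inr hc⟩, Le_refl _ _⟩
        · push Not at hc
          obtain ⟨s₁, c1, c2, c3, c4⟩ := hc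
          obtain ⟨g1, g2⟩ := glue h.toBasic (a := a) hr c1 c4
          obtain ⟨e, e1, e2, d, hd, e3⟩ := h.den hD' g1
          have e4 : p.Le (lo a e) s₁ := by
            have := Le_lo h.toBasic e2 a
            rwa [lo_gl, c2] at this
          refine ⟨lo a e, Q_RE_lo h.toBasic e1, ?_, lo a e, ⟨Q_lo h.toBasic e1 a,
            lo_lo le_rfl e, Or.inl ⟨e, e1, rfl, ?_, d, hd, e3⟩⟩, Le_refl _ _⟩
          · rw [Le_RE hs]
            exact Le_trans h.toBasic hs1 c1 (Q_lo h.toBasic e1 a) c3 e4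
          · intro α
            rcases lt_or_ge α a with h' | h'
            · apply LeAt_self
              rw [gl_lt h', lo_lt h']
            · exact LeAt_congr_right (by rw [gl_ge h', gl_ge h']) (e2 α)
    len := by
      intro α i hi r hr hne n
      rw [RE_nu p hi.2] at hne ⊢
      obtain ⟨hr1, hr2⟩ := (Q_RE h.toBasic).1 hr
      obtain ⟨r', e1, e2, e3⟩ := h.len hi.1 hr1 hne n
      refine ⟨lo a r', Q_RE_lo h.toBasic e1, ?_, ?_⟩
      · rw [Le_RE hr, ← hr2]
        exact Le_lo h.toBasic e2 a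
      · rw [h.nu_lo hi.2.le]
        exact e3 }

end Pre

end Pool.Agent.W915.T
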