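import Pool.Agent.W915.TStmt

/-!
# Real numbers and their digits
-/

set_option linter.unusedVariables false

noncomputable section

namespace Pool.Agent.W915.T

/-- the weights -/
def Bw : ℕ → ℕ
  | 0 => 1
  | m + 1 => Bw m * b m

/-- the integer with the first `n` digits of `z` -/
def Vw (z : ℕ → ℕ) : ℕ → ℕ
  | 0 => 0
  | m + 1 => Vw z m * b m + z m

theorem Bw_pos (n : ℕ) : 0 < Bw n := by
  induction n with
  | zero => exact Nat.one_pos
  | succ n ih =>
    have := b_ge n
    exact Nat.mul_pos ih (by omega)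

theorem two_pow_le_Bw (n : ℕ) : 2 ^ n ≤ Bw n := by
  induction n with
  | zero => exact le_rfl
  | succ n ih =>
    have := b_ge n
    rw [pow_succ]
    exact Nat.mul_le_mul ih (by omega)

theorem Vw_lt {z : ℕ → ℕ} {n : ℕ} (hz : ∀ m < n, z m < b m) : Vw z n < Bw n := by
  induction n with
  | zero => exact Nat.one_pos
  | succ n ih =>
    have h1 := ih fun m hm => hz m (by omega)
    have h2 := hz n (by omega)
    calc Vw z n * b n + z n < Vw z n * b n + b n := by omega
      _ = (Vw z n + 1) * b n := by ring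
      _ ≤ Bw n * b n := Nat.mul_le_mul_right _ h1

theorem Vw_congr {z z' : ℕ → ℕ} {n : ℕ} (h : ∀ m < n, z m = z' m) : Vw z n = Vw z' n := by
  induction n with
  | zero => rfl
  | succ n ih =>
    simp only [Vw]
    rw [ih fun m hm => h m (by omega), h n (by omega)]

theorem Vw_inj {z z' : ℕ → ℕ} {n : ℕ} (hz : ∀ m < n, z m < b m) (hz' : ∀ m < n, z' m < b m)
    (h : Vw z n = Vw z' n) : ∀ m < n, z m = z' m := by
  induction n with
  | zero => exact fun m hm => absurd hm (Nat.not_lt_zero m)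
  | succ n ih =>
    simp only [Vw] at h
    have h1 := hz n (by omega)
    have h2 := hz' n (by omega)
    have hb : 0 < b n := by have := b_ge n; omega
    have h3 : (Vw z n * b n + z n) / b n = (Vw z' n * b n + z' n) / b n := by rw [h]
    rw [mul_comm, Nat.mul_add_div hb, Nat.div_eq_of_lt h1, mul_comm (Vw z' n),
      Nat.mul_add_div hb, Nat.div_eq_of_lt h2, add_zero, add_zero] at h3
    rw [h3] at h
    intro m hm
    rcases Nat.lt_succ_iff_lt_or_eq.1 hm with h4 | rfl
    · exact ih (fun m hm => hz m (by omega)) (fun m hm => hz' m (by omega)) h3 m h4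
    · omega

theorem BwR_pos (n : ℕ) : (0 : ℝ) < Bw n := Nat.cast_pos.2 (Bw_pos n)

/-- the real with the first `n` digits of `z` -/
def av (z : ℕ → ℕ) (n : ℕ) : ℝ := Vw z n / Bw n

theorem av_congr {z z' : ℕ → ℕ} {n : ℕ} (h : ∀ m < n, z m = z' m) : av z n = av z' n := by
  unfold av
  rw [Vw_congr h]

theorem av_succ (z : ℕ → ℕ) (n : ℕ) : av z (n + 1) = av z n + z n / Bw (n + 1) := by
  unfold av
  have h1 := (BwR_pos n).ne'
  have h2 : (b n : ℝ) ≠ 0 := by
    have := b_ge n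
    positivity
  simp only [Vw, Bw]
  push_cast
  field_simp

theorem av_mono (z : ℕ → ℕ) : Monotone (av z) :=
  monotone_nat_of_le_succ fun n => by
    rw [av_succ]
    have := BwR_pos (n + 1)
    have h : (0 : ℝ) ≤ z n / Bw (n + 1) := by positivity
    linarith

theorem inv_Bw (n : ℕ) : (1 : ℝ) / Bw n = b n / Bw (n + 1) := by
  have h1 := (BwR_pos n).ne'
  have h2 : (b n : ℝ) ≠ 0 := by
    have := b_ge n
    positivity
  simp only [Bw]
  push_cast
  field_simp

theorem av_anti {z : ℕ → ℕ} (hz : ∀ m, z m < b m) : Antitone fun n => av z n + 1 / Bw n :=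
  antitone_nat_of_succ_le fun n => by
    rw [av_succ, inv_Bw n, add_assoc, ← add_div]
    have h1 : (z n : ℝ) + 1 ≤ b n := by exact_mod_cast hz n
    have h2 := BwR_pos (n + 1)
    have : ((z n : ℝ) + 1) / Bw (n + 1) ≤ b n / Bw (n + 1) := by gcongr
    linarith

theorem av_le {z : ℕ → ℕ} (hz : ∀ m, z m < b m) (n m : ℕ) : av z n ≤ av z m + 1 / Bw m := by
  have h1 := av_mono z (le_max_left n m)
  have h2 := av_anti hz (le_max_right n m)
  have h3 : (0 : ℝ) ≤ 1 / Bw (max n m) := by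
    have := BwR_pos (max n m)
    positivity
  simp only at h2
  linarith

/-- the real number with the digits `z` -/
def val (z : ℕ → ℕ) : ℝ := ⨆ n, av z n

theorem av_le_val {z : ℕ → ℕ} (hz : ∀ m, z m < b m) (n : ℕ) : av z n ≤ val z :=
  le_ciSup (f := fun n => av z n) ⟨av z 0 + 1 / Bw 0, by rintro _ ⟨m, rfl⟩; exact av_le hz m 0⟩ n

theorem val_le {z : ℕ → ℕ} (hz : ∀ m, z m < b m) (n : ℕ) : val z ≤ av z n + 1 / Bw n :=
  ciSup_le fun m => av_le hz m n

theorem small {δ : ℝ} (hδ : 0 < δ) : ∃ N : ℕ, ∀ n ≥ N, (1 : ℝ) / Bw n < δ := by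
  obtain ⟨N, hN⟩ := exists_pow_lt_of_lt_one hδ (show (1 / 2 : ℝ) < 1 by norm_num)
  refine ⟨N, fun n hn => lt_of_le_of_lt ?_ hN⟩
  have h1 : (2 : ℝ) ^ N ≤ Bw n := by
    calc (2 : ℝ) ^ N ≤ 2 ^ n := pow_le_pow_right₀ (by norm_num) hn
      _ ≤ Bw n := by exact_mod_cast two_pow_le_Bw n
  rw [one_div_pow]
  exact one_div_le_one_div_of_le (by positivity) h1

theorem val_unique {z : ℕ → ℕ} (hz : ∀ m, z m < b m) {y : ℝ} {l : ℕ}
    (h : ∀ n ≥ l, av z n ≤ y ∧ y ≤ av z n + 1 / Bw n) : y = val z := by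
  by_contra hne
  have hδ : 0 < |y - val z| := abs_pos.2 (sub_ne_zero.2 hne)
  obtain ⟨N, hN⟩ := small hδ
  have h1 := hN (max N l) (le_max_left _ _)
  obtain ⟨h2, h3⟩ := h (max N l) (le_max_right _ _)
  have h4 := av_le_val hz (max N l)
  have h5 := val_le hz (max N l)
  have h6 : |y - val z| ≤ 1 / Bw (max N l) := abs_le.2 ⟨by linarith, by linarith⟩
  linarith

/-- the digits of a real number -/
def Dg (y : ℝ) (m : ℕ) : ℕ := ⌊y * Bw (m + 1)⌋₊ % b m

theorem Dg_lt (y : ℝ) (m : ℕ) : Dg y m < b m :=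
  Nat.mod_lt _ (by have := b_ge m; omega)

theorem Vw_Dg {y : ℝ} (h1 : y < 1) (n : ℕ) : Vw (Dg y) n = ⌊y * Bw n⌋₊ := by
  induction n with
  | zero =>
    simp only [Vw, Bw, Nat.cast_one, mul_one]
    exact (Nat.floor_eq_zero.2 h1).symm
  | succ n ih =>
    have hb : (b n : ℝ) ≠ 0 := by
      have := b_ge n
      positivity
    have e : y * Bw n = y * Bw (n + 1) / (b n : ℕ) := by
      simp only [Bw]
      push_cast
      field_simp
    simp only [Vw]
    rw [ih, e, Nat.floor_div_natCast, Dg, mul_comm]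
    exact Nat.div_add_mod _ _

theorem val_Dg {y : ℝ} (h0 : 0 ≤ y) (h1 : y < 1) : val (Dg y) = y := by
  symm
  apply val_unique (Dg_lt y) (l := 0)
  intro n _
  unfold av
  rw [Vw_Dg h1]
  have hB := BwR_pos n
  constructor
  · rw [div_le_iff₀ hB]
    exact Nat.floor_le (by positivity)
  · rw [← add_div, le_div_iff₀ hB]
    exact (Nat.lt_floor_add_one _).le

/-- the branch of `z` -/
def brn (z : ℕ → ℕ) (w : List ℕ) : Prop := ∀ m < w.length, dg w m = z m

theorem brn_toL (z : ℕ → ℕ) (n : ℕ) : brn z (toL n z) := by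
  intro m hm
  rw [length_toL] at hm
  exact dg_toL hm

theorem Br_brn {z : ℕ → ℕ} (hz : ∀ m, z m < b m) : Br (brn z) := by
  refine ⟨fun n => ⟨toL n z, (length_toL _ _).ge, brn_toL z n⟩, ?_⟩
  rintro w w' ⟨h1, h2⟩
  refine ⟨fun m hm => by rw [h1 m hm]; exact hz m, ?_⟩
  rcases le_total w.length w'.length with hl | hl
  · exact Or.inl (pre_of_dg hl fun m hm => by rw [h1 m hm, h2 m (by omega)])
  · exact Or.inr (pre_of_dg hl fun m hm => by rw [h2 m hm, h1 m (by omega)])

theorem brn_of_Pref {z : ℕ → ℕ} {w : List ℕ} (h : Pref (brn z) w) : brn z w := by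
  obtain ⟨w', h1, h2⟩ := h
  intro m hm
  rw [← dg_pre h1 hm]
  exact h2 m (lt_of_lt_of_le hm h1.length_le)

theorem Pref_of_brn {z : ℕ → ℕ} {w : List ℕ} (h : brn z w) : Pref (brn z) w :=
  ⟨w, List.prefix_refl w, h⟩

/-- the digits of a branch -/
theorem exists_seq {x : List ℕ → Prop} (hx : Br x) :
    ∃ z : ℕ → ℕ, (∀ m, z m < b m) ∧ ∀ w, Pref x w → brn z w := by
  choose f hf1 hf2 using fun m => hx.1 (m + 1)
  refine ⟨fun m => dg (f m) m, fun m => (hx.2 _ _ ⟨hf2 m, hf2 m⟩).1 m (hf1 m), ?_⟩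
  rintro w ⟨w', h1, h2⟩ m hm
  have hm' : m < w'.length := lt_of_lt_of_le hm h1.length_le
  rw [← dg_pre h1 hm]
  rcases (hx.2 _ _ ⟨hf2 m, h2⟩).2 with h3 | h3
  · exact dg_pre h3 (hf1 m)
  · exact (dg_pre h3 hm').symm

/-- the sum of two real numbers -/
theorem sum_val {ξ τ ζ : ℕ → ℕ} (hξ : ∀ m, ξ m < b m) (hτ : ∀ m, τ m < b m)
    (hζ : ∀ m, ζ m < b m)
    (h : ∀ n : ℕ, ∃ X T Z, n ≤ Z.length ∧ GS X T Z ∧ brn ξ X ∧ brn τ T ∧ brn ζ Z) :
    ∃ ε : ℕ, val ξ + val τ = val ζ + ε := by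
  by_contra hcon
  push Not at hcon
  have h0 := hcon 0
  have h1 := hcon 1
  push_cast at h0 h1
  have hδ : 0 < min |val ξ + val τ - (val ζ + 0)| |val ξ + val τ - (val ζ + 1)| :=
    lt_min (abs_pos.2 (sub_ne_zero.2 h0)) (abs_pos.2 (sub_ne_zero.2 h1))
  obtain ⟨N, hN⟩ := small (div_pos hδ (show (0 : ℝ) < 3 by norm_num))
  obtain ⟨X, T, Z, hl, ⟨g1, g2, c, g3, g4⟩, e1, e2, e3⟩ := h (N + 1)
  have key : ∀ m ≤ Z.length, Vw ξ m + Vw τ m + c m = Vw ζ m + Bw m * c 0 := by
    intro m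
    induction m with
    | zero =>
      intro _
      simp [Vw, Bw]
    | succ m ih =>
      intro hm
      have h2 := ih (by omega)
      obtain ⟨-, h3⟩ := g4 m (by omega)
      rw [e1 m (by omega), e2 m (by omega), e3 m (by omega)] at h3
      simp only [Vw, Bw]
      calc Vw ξ m * b m + ξ m + (Vw τ m * b m + τ m) + c (m + 1)
          = (Vw ξ m + Vw τ m) * b m + (ξ m + τ m + c (m + 1)) := by ring
        _ = (Vw ξ m + Vw τ m) * b m + (ζ m + b m * c m) := by rw [h3]
        _ = (Vw ξ m + Vw τ m + c m) * b m + ζ m := by ring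
        _ = (Vw ζ m + Bw m * c 0) * b m + ζ m := by rw [h2]
        _ = Vw ζ m * b m + ζ m + Bw m * b m * c 0 := by ring
  have hL := key Z.length le_rfl
  have hB := BwR_pos Z.length
  have hav : av ξ Z.length + av τ Z.length + c Z.length / Bw Z.length
      = av ζ Z.length + c 0 := by
    unfold av
    rw [← add_div, ← add_div, div_add' _ _ _ hB.ne', div_left_inj' hB.ne', mul_comm]
    exact_mod_cast hL
  have hc : (c Z.length : ℝ) / Bw Z.length ≤ 1 / Bw Z.length := by
    have : (c Z.length : ℝ) ≤ 1 := by exact_mod_cast g3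
    gcongr
  have hc' : (0 : ℝ) ≤ c Z.length / Bw Z.length := by positivity
  have hs := hN Z.length (by omega)
  have a1 := av_le_val hξ Z.length
  have a2 := val_le hξ Z.length
  have a3 := av_le_val hτ Z.length
  have a4 := val_le hτ Z.length
  have a5 := av_le_val hζ Z.length
  have a6 := val_le hζ Z.length
  have hbd : |val ξ + val τ - (val ζ + c 0)| < min |val ξ + val τ - (val ζ + 0)|
      |val ξ + val τ - (val ζ + 1)| := by
    rw [abs_lt]
    constructor <;> linarith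
  have hc0 : c 0 ≤ 1 := (g4 0 (by omega)).1
  rcases Nat.le_one_iff_eq_zero_or_eq_one.1 hc0 with h2 | h2
  · rw [h2] at hbd
    push_cast at hbd
    exact absurd (hbd.trans_le (min_le_left _ _)) (lt_irrefl _)
  · rw [h2] at hbd
    push_cast at hbd
    exact absurd (hbd.trans_le (min_le_right _ _)) (lt_irrefl _)

/-- the prefix intervals -/
theorem brn_of_mem {w : List ℕ} (hw : Bd w) {y : ℝ} (h0 : 0 ≤ y) (h1 : y < 1)
    (h2 : av (dg w) w.length ≤ y) (h3 : y < av (dg w) w.length + 1 / Bw w.length) :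
    brn (Dg y) w := by
  have hB := BwR_pos w.length
  have h4 : Vw (Dg y) w.length = Vw (dg w) w.length := by
    rw [Vw_Dg h1, Nat.floor_eq_iff (by positivity)]
    unfold av at h2 h3
    rw [div_le_iff₀ hB] at h2
    rw [← add_div, lt_div_iff₀ hB] at h3
    exact ⟨h2, h3⟩
  exact fun m hm => (Vw_inj (fun m _ => Dg_lt y m) (fun m hm => hw m hm) h4 m hm).symm

/-- a non-meagre set of reals gives a non-meagre set of branches -/
theorem nm_of {X : Set ℝ} (hX : ¬ IsMeagre X) :
    NM fun x => ∃ y ∈ X, x = brn (Dg (Int.fract y)) := by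
  intro E hE
  let G : ℕ → Set ℝ := fun n => ⋃ w ∈ {w | E n w ∧ Bd w}, ⋃ k : ℤ,
    Set.Ioo (k + av (dg w) w.length) (k + av (dg w) w.length + 1 / Bw w.length)
  have hGo : ∀ n, IsOpen (G n) := fun n =>
    isOpen_biUnion fun w _ => isOpen_iUnion fun k => isOpen_Ioo
  have hGd : ∀ n, Dense (G n) := by
    intro n
    rw [Metric.dense_iff]
    intro y r hr
    obtain ⟨N, hN⟩ := small hr
    have hf0 := Int.fract_nonneg y
    have hf1 := Int.fract_lt_one y
    have hs : Bd (toL N (Dg (Int.fract y))) := by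
      intro m hm
      rw [length_toL] at hm
      rw [dg_toL hm]
      exact Dg_lt _ _
    obtain ⟨w, ⟨h1, h2⟩, h3⟩ := hE n _ hs
    have hB := BwR_pos w.length
    have hlen : N ≤ w.length := by
      have := h1.length_le
      rwa [length_toL] at this
    have hwN : av (dg w) N = av (Dg (Int.fract y)) N := by
      apply av_congr
      intro m hm
      rw [dg_pre h1 (by rw [length_toL]; exact hm), dg_toL hm]
    have e1 := av_mono (dg w) hlen
    have e2 := av_anti (dg_lt h2) hlen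
    simp only at e2
    have e3 := av_le_val (Dg_lt (Int.fract y)) N
    have e4 := val_le (Dg_lt (Int.fract y)) N
    rw [val_Dg hf0 hf1] at e3 e4
    rw [hwN] at e1 e2
    have e5 := hN N le_rfl
    have e6 : (0 : ℝ) < 1 / Bw w.length := by positivity
    have e7 := Int.floor_add_fract y
    refine ⟨⌊y⌋ + av (dg w) w.length + 1 / Bw w.length / 2, ?_, ?_⟩
    · rw [Metric.mem_ball, Real.dist_eq, abs_lt]
      constructor <;> linarith
    · refine Set.mem_biUnion (show w ∈ {w | E n w ∧ Bd w} from ⟨h3, h2⟩)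
        (Set.mem_iUnion.2 ⟨⌊y⌋, ?_, ?_⟩) <;> linarith
  have hres : (⋂ n, G n) ∈ residual ℝ :=
    countable_iInter_mem.2 fun n => residual_of_dense_open (hGo n) (hGd n)
  have hne : (X ∩ ⋂ n, G n).Nonempty := by
    by_contra hemp
    apply hX
    refine Filter.mem_of_superset hres fun y hy hyX => ?_
    exact hemp ⟨y, hyX, hy⟩
  obtain ⟨y, hyX, hyG⟩ := hne
  refine ⟨_, ⟨y, hyX, rfl⟩, Br_brn (Dg_lt _), fun n => ?_⟩
  obtain ⟨w, ⟨hw1, hw2⟩, hw3⟩ := Set.mem_iUnion₂.1 (Set.mem_iInter.1 hyG n)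
  obtain ⟨k, hk1, hk2⟩ := Set.mem_iUnion.1 hw3
  have hB := BwR_pos w.length
  have e1 : 0 ≤ av (dg w) w.length := by
    have := av_mono (dg w) (Nat.zero_le w.length)
    simpa [av, Vw] using this
  have e2 : av (dg w) w.length + 1 / Bw w.length ≤ 1 := by
    have := av_anti (dg_lt hw2) (Nat.zero_le w.length)
    simpa [av, Vw, Bw] using this
  have hfr : Int.fract y = y - k := by
    rw [Int.fract_eq_iff]
    exact ⟨by linarith, by linarith, k, by ring⟩
  refine ⟨w, hw1, Pref_of_brn ?_⟩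
  rw [hfr]
  apply brn_of_mem hw2 <;> linarith

end Pool.Agent.W915.T
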