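import Pool.Agent.W915.TCard

/-!
# The digits of the sum
-/

set_option linter.unusedSectionVars false
set_option linter.unusedVariables false

noncomputable section

namespace Pool.Agent.W915.T

open Classical Pre

/-- sums exist -/
theorem sum_exists (x t : ℕ → ℕ) (L : ℕ) (hx : ∀ m < L, x m < b m) (ht : ∀ m < L, t m < b m) :
    ∃ c z : ℕ → ℕ, c L = 0 ∧ ∀ m < L, c m ≤ 1 ∧ x m + t m + c (m + 1) = z m + b m * c m ∧
      z m < b m := by
  have key : ∀ d ≤ L, ∃ c z : ℕ → ℕ, c L = 0 ∧ ∀ m, L - d ≤ m → m < L → c m ≤ 1 ∧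
      x m + t m + c (m + 1) = z m + b m * c m ∧ z m < b m := by
    intro d
    induction d with
    | zero =>
      intro _
      exact ⟨fun _ => 0, fun _ => 0, rfl, fun m h h' => by omega⟩
    | succ d ih =>
      intro hd
      obtain ⟨c, z, h1, h2⟩ := ih (by omega)
      let l := L - (d + 1)
      have hl : l < L := by omega
      have hc : c (l + 1) ≤ 1 := by
        by_cases hll : l + 1 < L
        · exact (h2 (l + 1) (by omega) hll).1
        · have : l + 1 = L := by omega
          rw [this, h1]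
          omega
      let cl := if x l + t l + c (l + 1) < b l then 0 else 1
      refine ⟨Function.update c l cl, Function.update z l (x l + t l + c (l + 1) - b l * cl),
        ?_, ?_⟩
      · rw [Function.update_of_ne (by omega)]
        exact h1
      · intro m hm hm'
        by_cases hml : m = l
        · subst hml
          rw [Function.update_self, Function.update_self, Function.update_of_ne (by omega)]
          have e1 := hx l hl
          have e2 := ht l hl
          by_cases e3 : x l + t l + c (l + 1) < b l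
          · have : cl = 0 := if_pos e3
            rw [this]
            omega
          · have : cl = 1 := if_neg e3
            rw [this]
            omega
        · rw [Function.update_of_ne hml, Function.update_of_ne hml,
            Function.update_of_ne (show m + 1 ≠ l by omega)]
          exact h2 m (by omega) hm'
  obtain ⟨c, z, h1, h2⟩ := key L le_rfl
  exact ⟨c, z, h1, fun m hm => h2 m (by omega) hm⟩

/-- the block relation up to a robust place -/
theorem Bk_zero {x t : ℕ → ℕ} {L : ℕ} (hx : ∀ m < L, x m < b m) (ht : ∀ m < L, t m < b m)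
    (h : ∀ m, m + 1 = L → (x m + t m) % b m + 4 ≤ b m) : Bk L x t 0 L := by
  obtain ⟨c, z, h1, h2⟩ := sum_exists x t L hx ht
  refine ⟨c, z, h1, fun m _ hm => ⟨(h2 m hm).1, (h2 m hm).2.1, (h2 m hm).2.2,
    fun h' => absurd hm (not_lt.2 h'), fun h' => ?_⟩⟩
  obtain ⟨e1, e2, e3⟩ := h2 m hm
  have e4 := h m h'
  rw [h', h1, Nat.add_zero] at e2
  rw [e2, Nat.add_mul_mod_self_left, Nat.mod_eq_of_lt e3] at e4
  exact e4

theorem ZW_congr {x x' t z : List ℕ} (h : ZW x t z) (hx : ∀ m < t.length, dg x' m = dg x m) :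
    ZW x' t z := by
  obtain ⟨h1, c, z', h2, h3, h4⟩ := h
  refine ⟨h1, c, z', h2, fun m hm => ?_, h4⟩
  rw [hx m hm]
  exact h3 m hm

/-- the initial segments of the sum are comparable -/
theorem ZW_comp {x t z z' : List ℕ} (h : ZW x t z) (h' : ZW x t z') :
    Bd z ∧ (z <+: z' ∨ z' <+: z) := by
  obtain ⟨h1, c, y, h2, h3, h4⟩ := h
  obtain ⟨h1', c', y', h2', h3', h4'⟩ := h'
  have hu := sum_unique (h2.trans h2'.symm) (fun m hm => (h3 m hm).2) (fun m hm => (h3' m hm).2)
  refine ⟨fun m hm => ?_, ?_⟩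
  · rw [h4 m hm]
    exact (h3 m (by omega)).2.2
  · rcases le_total z.length z'.length with hl | hl
    · left
      exact pre_of_dg hl fun m hm => by
        rw [h4 m hm, h4' m (by omega), hu m (by omega)]
    · right
      exact pre_of_dg hl fun m hm => by
        rw [h4' m hm, h4 m (by omega), hu m (by omega)]

/-- stability of the initial segments of the sum -/
theorem ZW_stable {l : ℕ} {x t x' t' z : List ℕ} (h : ZW x t z)
    (hb : Bk l (dg x) (dg t) 0 t.length) (hb' : Bk l (dg x') (dg t') 0 t'.length)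
    (hx : ∀ m < t.length, dg x' m = dg x m) (ht : t <+: t') : ZW x' t' z := by
  obtain ⟨h1, c, y, h2, h3, h4⟩ := h
  obtain ⟨c₁, z₁, e1, e2⟩ := hb
  obtain ⟨c₂, z₂, f1, f2⟩ := hb'
  have hu := sum_unique (h2.trans e1.symm) (fun m hm => (h3 m hm).2)
    (fun m hm => ⟨(e2 m (Nat.zero_le _) hm).2.1, (e2 m (Nat.zero_le _) hm).2.2.1⟩)
  have hs := sum_stable ht.length_le e1
    (fun m hm => ⟨(e2 m (Nat.zero_le _) hm).2.1, (e2 m (Nat.zero_le _) hm).2.2.1⟩)
    (fun m hm => (e2 m (Nat.zero_le _) (by omega)).2.2.2.2 hm) f1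
    (fun m hm => ⟨(f2 m (Nat.zero_le _) hm).1, (f2 m (Nat.zero_le _) hm).2.1,
      (f2 m (Nat.zero_le _) hm).2.2.1⟩) hx (fun m hm => dg_pre ht hm)
  refine ⟨h1.trans_le ht.length_le, c₂, z₂, f1, fun m hm => ⟨(f2 m (Nat.zero_le _) hm).1,
    (f2 m (Nat.zero_le _) hm).2.1, (f2 m (Nat.zero_le _) hm).2.2.1⟩, fun m hm => ?_⟩
  rw [h4 m hm, hu m (by omega), hs m (by omega)]

/-- initial segments of the sum exist -/
theorem ZW_exists {l : ℕ} {x t : List ℕ} (hb : Bk l (dg x) (dg t) 0 t.length) (ht : 1 ≤ t.length)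
    (hx : t.length ≤ x.length) :
    ∃ X T Z, Z.length + 1 = t.length ∧ ZW x t Z ∧ KS l Z ∧ GS X T Z ∧ X <+: x ∧ T <+: t := by
  obtain ⟨c, z, h1, h2⟩ := hb
  have hl : (toL (t.length - 1) z).length = t.length - 1 := length_toL _ _
  have hdz : ∀ m < t.length - 1, dg (toL (t.length - 1) z) m = z m := fun m hm => dg_toL hm
  refine ⟨toL (t.length - 1) (dg x), toL (t.length - 1) (dg t), toL (t.length - 1) z,
    by rw [hl]; omega, ?_, ?_, ⟨?_, ?_, c, ?_, ?_⟩, ?_, ?_⟩
  · refine ⟨by rw [hl]; omega, c, z, h1, fun m hm => ⟨(h2 m (Nat.zero_le _) hm).1,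
      (h2 m (Nat.zero_le _) hm).2.1, (h2 m (Nat.zero_le _) hm).2.2.1⟩, fun m hm => ?_⟩
    rw [hl] at hm
    exact hdz m hm
  · constructor
    · intro m hm
      rw [hl] at hm
      rw [hdz m hm]
      exact (h2 m (Nat.zero_le _) (by omega)).2.2.1
    · intro m hm hlm
      rw [hl] at hm
      rw [hdz m hm]
      exact (h2 m (Nat.zero_le _) (by omega)).2.2.2.1 hlm
  · rw [length_toL, length_toL]
  · rw [length_toL, length_toL]
  · rw [hl]
    exact (h2 _ (Nat.zero_le _) (by omega)).1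
  · intro m hm
    rw [hl] at hm
    rw [dg_toL hm, dg_toL hm, dg_toL hm]
    exact ⟨(h2 m (Nat.zero_le _) (by omega)).1, (h2 m (Nat.zero_le _) (by omega)).2.1⟩
  · apply pre_of_dg
    · rw [length_toL]
      omega
    · intro m hm
      rw [length_toL] at hm
      exact dg_toL hm
  · apply pre_of_dg
    · rw [length_toL]
      omega
    · intro m hm
      rw [length_toL] at hm
      exact dg_toL hm

variable {St Ω : Type} [LinearOrder St] [WellFoundedLT St]

namespace Pre

variable {w p₂ : Pre St Ω} {a : St} {i₀ : Ω} {N : Raw St Ω → List ℕ} {q₂ : Raw St Ω}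

theorem Amd.nu_eq {p : Pre St Ω} (he : Ext p (AM w p₂ a i₀ N)) : p.nu a i₀ = N := by
  rw [he.nu (Or.inr (Or.inr rfl)), AM_nu_new]

/-- the sum below the condition `q₃` -/
theorem Amd.bk (H : Amd w p₂ a i₀ N q₂) {p : Pre St Ω} (hb : Basic p)
    (he : Ext p (AM w p₂ a i₀ N)) {q₃ : Raw St Ω} (hq₃ : (AM w p₂ a i₀ N).Q q₃)
    (h0 : i₀ ∈ (q₃ a).2)
    (hbk : Bk (q₃ a).1.length (dg (N q₃)) (dg (q₃ a).1) 0 (q₃ a).1.length)
    {r : Raw St Ω} (hr : p.Q r) (hle : p.Le r q₃) :
    Bk (q₃ a).1.length (dg (N r)) (dg (r a).1) 0 (r a).1.length ∧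
      (r a).1.length ≤ (N r).length ∧ (q₃ a).1.length ≤ (r a).1.length ∧
      1 ≤ (q₃ a).1.length := by
  have h1 := (hle a).2.2 i₀ h0
  rw [Amd.nu_eq he] at h1
  have hS : (a, i₀) ∈ p.S := he.S (Or.inr (Or.inr rfl))
  have h2 := hb.mono hS (Q_ext he hq₃) hr hle
  rw [Amd.nu_eq he] at h2
  have h3 := H.len_N hq₃ h0
  have h4 := ((hr a).2.2.1 i₀ ((hle a).2.1 h0)).2.2
  rw [Amd.nu_eq he] at h4
  have h5 := (hle a).1.length_le
  refine ⟨?_, h4, h5, h3.1⟩
  refine Bk.trans h5 (hbk.congr ?_ ?_) (h1.mono (Nat.zero_le _))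
  · intro m hm
    exact dg_pre h2 (by omega)
  · intro m hm
    exact dg_pre (hle a).1 hm

end Pre

end Pool.Agent.W915.T
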