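import Pool.Agent.W915.Amal

/-!
# Free action on the levels outside a closed pair

Outside a closed pair the codes in `T` act on the clusters of a level by left multiplication with
different generators of a free group. So the positions of the points of a condition can be
extended freely, the position of one point being prescribed.
-/

set_option autoImplicit false

namespace Pool.Agent.W915

open Classical

/-- the isometry assigned to a generator -/
noncomputable def gact (T : Set Cd) (η : Cd → List Bool → Bool) (a : Lev) (y : Rl) :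
    Equiv.Perm Rl :=
  if h : ∃ c, c ∈ T ∧ gn c a = y then actPerm (η h.choose) else 1

/-- the action of the free group -/
noncomputable def theta (T : Set Cd) (η : Cd → List Bool → Bool) (a : Lev) :
    FreeGroup Rl →* Equiv.Perm Rl := FreeGroup.lift (gact T η a)

theorem theta_mem (T : Set Cd) (η : Cd → List Bool → Bool) (a : Lev) (g : FreeGroup Rl) :
    theta T η a g ∈ isoSub := by
  apply lift_mem
  intro y
  unfold gact
  split_ifs
  · exact actPerm_mem _
  · exact one_mem _

theorem theta_agr {T : Set Cd} {η : Cd → List Bool → Bool} {a : Lev} {g : FreeGroup Rl} {n : ℕ}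
    {y z : Rl} (h : Agr n y z) : Agr n (theta T η a g y) (theta T η a g z) :=
  (mem_isoSub.1 (theta_mem T η a g) n y z).1 h

theorem theta_of {T : Set Cd} {B : Set Lev} (hcl : Closed T B) (η : Cd → List Bool → Bool)
    {a : Lev} (ha : a ∉ B) {c : Cd} (hc : c ∈ T) :
    theta T η a (FreeGroup.of (gn c a)) = actPerm (η c) := by
  have h : ∃ d, d ∈ T ∧ gn d a = gn c a := ⟨c, hc, rfl⟩
  have h1 : h.choose = c := hcl.inj a ha _ h.choose_spec.1 _ hc h.choose_spec.2
  rw [theta, FreeGroup.lift_apply_of]
  unfold gact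
  rw [dif_pos h, h1]

theorem exists_positions {T : Set Cd} {B : Set Lev} (hcl : Closed T B) {q : Pre} (hq : Valid q)
    (η : Cd → List Bool → Bool)
    (hη : ∀ c ∈ q.S, c ∈ T → ∀ s : List Bool, s.length < q.L → η c s = q.ε c s)
    (i : Pt) (w : Rl) (hw : Agr q.L w (q.x i)) :
    ∃ X : Pt → Rl, (∀ u, Agr q.L (X u) (q.x u)) ∧
      (∀ c u v, (c, u, v) ∈ q.E → c ∈ T → u.1.1 ∉ B → X v = act (η c) (X u)) ∧ X i = w := by
  let θ : Pt → Equiv.Perm Rl := fun u => theta T η u.1.1 u.1.2
  have hθ : ∀ u n y z, Agr n y z → Agr n (θ u y) (θ u z) := fun u n y z h => theta_agr h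
  have hθ' : ∀ u n y z, Agr n y z → Agr n ((θ u)⁻¹ y) ((θ u)⁻¹ z) := fun u n y z h =>
    (mem_isoSub.1 (inv_mem (theta_mem T η u.1.1 u.1.2)) n y z).1 h
  let b : Pt → Rl := fun u => (θ u)⁻¹ (q.x u)
  let ext : Rl → Rl := fun z =>
    if Agr q.L z (b i) then (θ i)⁻¹ w else fun k => if k < q.L then z k else false
  have hext : ∀ z, Agr q.L (ext z) z := by
    intro z
    by_cases h : Agr q.L z (b i)
    · simp only [ext, if_pos h]
      exact (hθ' i _ _ _ hw).trans h.symm
    · simp only [ext, if_neg h]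
      intro k hk
      simp [hk]
  have hext' : ∀ z z', Agr q.L z z' → ext z = ext z' := by
    intro z z' h
    by_cases h1 : Agr q.L z (b i)
    · have h2 : Agr q.L z' (b i) := h.symm.trans h1
      simp only [ext, if_pos h1, if_pos h2]
    · have h2 : ¬ Agr q.L z' (b i) := fun h2 => h1 (h.trans h2)
      simp only [ext, if_neg h1, if_neg h2]
      funext k
      split_ifs with hk
      · exact h k hk
      · rfl
  refine ⟨fun u => θ u (ext (b u)), fun u => ?_, fun c u v h hc hu => ?_, ?_⟩
  · have h1 := hθ u _ _ _ (hext (b u))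
    have h2 : θ u (b u) = q.x u := by simp [b]
    rwa [h2] at h1
  · have hmv : v.1 = mv c u.1 := by
      rcases hq.al c u v h with h1 | ⟨h1, _⟩
      · exact h1.2
      · exact absurd (Kst_level hcl hc h1) hu
    have h3 : θ v = actPerm (η c) * θ u := by
      show theta T η v.1.1 v.1.2 = _
      rw [hmv]
      show theta T η u.1.1 (FreeGroup.of (gn c u.1.1) * u.1.2) = _
      rw [map_mul, theta_of hcl η hu hc]
    have h4 : Agr q.L (q.x v) (act (η c) (q.x u)) :=
      (hq.hom c u v h).trans ((Agr.refl _ _).act_congr fun s hs =>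
        (hη c (hq.dom c u v h).1 hc s hs).symm)
    have h5 : Agr q.L (b v) (b u) := by
      have h6 := hθ' v _ _ _ h4
      have h7 : (θ v)⁻¹ (act (η c) (q.x u)) = b u := by
        rw [← actPerm_apply, h3, mul_inv_rev]
        exact congrArg (fun y => (θ u)⁻¹ y) (Equiv.symm_apply_apply (actPerm (η c)) (q.x u))
      rwa [h7] at h6
    show θ v (ext (b v)) = act (η c) (θ u (ext (b u)))
    rw [hext' _ _ h5, h3]
    rfl
  · show θ i (ext (b i)) = w
    have h1 : ext (b i) = (θ i)⁻¹ w := by simp [ext, Agr.refl]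
    rw [h1]
    simp

/-- amalgamation with a condition of a part, the position of one point outside of the part being
prescribed -/
theorem amalg_point {T : Set Cd} {B : Set Lev} (hcl : Closed T B) {q r : Pre} (hq : Valid q)
    (hr : Valid r) (hrp : InPart T B r) (hle : Le r (restr T B q)) (i : Pt) (hi : i.1.1 ∉ B)
    (w : Rl) (hw : Agr q.L w (q.x i)) :
    ∃ p, Valid p ∧ Le p q ∧ Le p r ∧ Agr r.L (p.x i) w := by
  obtain ⟨X, hX1, hX2, hX3⟩ := exists_positions hcl hq r.ε
    (fun c hc hcT s hs => hle.ε c (Finset.mem_filter.2 ⟨hc, hcT⟩) s hs) i w hw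
  obtain ⟨p, h1, h2, h3, _, _, _, _, h4, _⟩ := ga (X := X) (δ := fun _ _ => false) (En := ∅)
    hcl hq hr hrp hle (fun u _ _ => hX1 u)
    (fun c u v h hc hu => by rw [hX2 c u v h hc hu]; exact Agr.refl _ _)
    (fun c u v h => absurd h (Finset.notMem_empty _))
    (fun c u v u' v' h => absurd h (Finset.notMem_empty _))
  refine ⟨p, h1, h2, h3, ?_⟩
  have h5 := h4 i
  unfold posf at h5
  rwa [if_neg hi, hX3] at h5

theorem amalg {T : Set Cd} {B : Set Lev} (hcl : Closed T B) {q r : Pre} (hq : Valid q)
    (hr : Valid r) (hrp : InPart T B r) (hle : Le r (restr T B q)) :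
    ∃ p, Valid p ∧ Le p q ∧ Le p r := by
  obtain ⟨X, hX1, hX2, hX3⟩ := exists_positions hcl hq r.ε
    (fun c hc hcT s hs => hle.ε c (Finset.mem_filter.2 ⟨hc, hcT⟩) s hs)
    (((fun _ _ => false, 1), 0) : Pt) _ (Agr.refl _ _)
  obtain ⟨p, h1, h2, h3, _⟩ := ga (X := X) (δ := fun _ _ => false) (En := ∅)
    hcl hq hr hrp hle (fun u _ _ => hX1 u)
    (fun c u v h hc hu => by rw [hX2 c u v h hc hu]; exact Agr.refl _ _)
    (fun c u v h => absurd h (Finset.notMem_empty _))
    (fun c u v u' v' h => absurd h (Finset.notMem_empty _))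
  exact ⟨p, h1, h2, h3⟩

end Pool.Agent.W915
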